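import Pool.Agent.Work.MP_1ce82a_an.S.Defs

/-! Statement layer: the surfaces which are diffeomorphic to the torus. -/

open scoped ContDiff

namespace Pool.Agent.Work.MP_1ce82a_an.S

open Pool.Agent.Work.MP_1ce82a_an (E)

/-- The surface is diffeomorphic to the torus: a diffeomorphism of the plane conjugates the
action of `G` to the action of all integer translations. -/
def IsTorus (G : Type) [Group G] [MulAction G E] : Prop :=
  ∃ (Φ : E ≃ E) (τ : G → ℤ × ℤ), ContDiff ℝ ∞ Φ ∧ ContDiff ℝ ∞ Φ.symm ∧ Function.Bijective τ ∧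
    ∀ (g : G) (x : E), Φ (g • x) = Φ x + (((τ g).1 : ℝ), ((τ g).2 : ℝ))

end Pool.Agent.Work.MP_1ce82a_an.S
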