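import Mathlib
import Pool.Agent.Work.MP_1ce82a_an.J.Rec
import Pool.Agent.Work.MP_1ce82a_an.D.Defs
import Pool.Agent.Work.MP_1ce82a_an.A.Lsc

-- merged part: Pool.Agent.Work.MP_1ce82a_an.C.Mean
section
/-! Finitely additive invariant probabilities for a bijection. -/

open Set Filter Topology

namespace Pool.Agent.Work.MP_1ce82a_an

/-- A finitely additive invariant probability defined on all subsets. -/
structure IsMean {X : Type} (f : Equiv.Perm X) (Fr : Set X → ℝ) : Prop where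
  nonneg : ∀ A, 0 ≤ Fr A
  univ : Fr Set.univ = 1
  add : ∀ A B, Disjoint A B → Fr (A ∪ B) = Fr A + Fr B
  inv : ∀ A, Fr (f ⁻¹' A) = Fr A

/-- Visit frequency up to time `N`. -/
noncomputable def freq {X : Type} (f : Equiv.Perm X) (x0 : X) (A : Set X) (N : ℕ) : ℝ :=
  (∑ j ∈ Finset.range (N + 1), A.indicator (fun _ => (1 : ℝ)) ((f ^ j) x0)) / ((N : ℝ) + 1)

theorem ind_mem {X : Type} (A : Set X) (x : X) :
    0 ≤ A.indicator (fun _ => (1 : ℝ)) x ∧ A.indicator (fun _ => (1 : ℝ)) x ≤ 1 := by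
  by_cases h : x ∈ A
  · simp [h]
  · simp [h]

theorem freq_mem {X : Type} (f : Equiv.Perm X) (x0 : X) (A : Set X) (N : ℕ) :
    freq f x0 A N ∈ Icc (0 : ℝ) 1 := by
  have hN : (0 : ℝ) < (N : ℝ) + 1 := by positivity
  refine ⟨div_nonneg (Finset.sum_nonneg fun j _ => (ind_mem A _).1) hN.le, ?_⟩
  rw [freq, div_le_one hN]
  calc ∑ j ∈ Finset.range (N + 1), A.indicator (fun _ => (1 : ℝ)) ((f ^ j) x0)
      ≤ ∑ _j ∈ Finset.range (N + 1), (1 : ℝ) := Finset.sum_le_sum fun j _ => (ind_mem A _).2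
    _ = (N : ℝ) + 1 := by simp

theorem freq_univ {X : Type} (f : Equiv.Perm X) (x0 : X) (N : ℕ) : freq f x0 Set.univ N = 1 := by
  have hN : (0 : ℝ) < (N : ℝ) + 1 := by positivity
  rw [freq, div_eq_one_iff_eq hN.ne']
  simp

theorem freq_add {X : Type} (f : Equiv.Perm X) (x0 : X) {A B : Set X} (h : Disjoint A B) (N : ℕ) :
    freq f x0 (A ∪ B) N = freq f x0 A N + freq f x0 B N := by
  rw [freq, freq, freq, ← add_div, ← Finset.sum_add_distrib]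
  congr 1
  refine Finset.sum_congr rfl fun j _ => ?_
  rw [Set.indicator_union_of_disjoint h]

theorem freq_inv {X : Type} (f : Equiv.Perm X) (x0 : X) (A : Set X) (N : ℕ) :
    |freq f x0 (f ⁻¹' A) N - freq f x0 A N| ≤ 1 / ((N : ℝ) + 1) := by
  have hN : (0 : ℝ) < (N : ℝ) + 1 := by positivity
  have h1 : ∀ j : ℕ, (f ⁻¹' A).indicator (fun _ => (1 : ℝ)) ((f ^ j) x0) =
      A.indicator (fun _ => (1 : ℝ)) ((f ^ (j + 1)) x0) := by
    intro j
    have : (f ^ (j + 1)) x0 = f ((f ^ j) x0) := by rw [pow_succ', Equiv.Perm.mul_apply]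
    rw [this]
    by_cases h : f ((f ^ j) x0) ∈ A
    · have h' : (f ^ j) x0 ∈ f ⁻¹' A := h
      simp [h, h']
    · have h' : (f ^ j) x0 ∉ f ⁻¹' A := h
      simp [h, h']
  rw [freq, freq, ← sub_div, abs_div, abs_of_pos hN]
  refine div_le_div_of_nonneg_right ?_ hN.le
  simp only [h1]
  rw [Finset.sum_range_succ,
    Finset.sum_range_succ' (fun j => A.indicator (fun _ => (1 : ℝ)) ((f ^ j) x0))]
  have a1 := ind_mem A ((f ^ (N + 1)) x0)
  have a2 := ind_mem A ((f ^ 0) x0)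
  rw [abs_le]
  constructor <;> linarith only [a1, a2, a1.1, a1.2, a2.1, a2.2]

theorem exists_mean {X : Type} (f : Equiv.Perm X) (x0 : X) : ∃ Fr, IsMean f Fr := by
  let U : Ultrafilter ℕ := Ultrafilter.of atTop
  have hU : (U : Filter ℕ) ≤ atTop := Ultrafilter.of_le _
  have hex : ∀ A : Set X, ∃ a : ℝ, Tendsto (freq f x0 A) U (𝓝 a) := by
    intro A
    obtain ⟨a, -, ha⟩ := (isCompact_Icc (a := (0 : ℝ)) (b := 1)).ultrafilter_le_nhds
      (U.map (freq f x0 A)) (by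
        rw [Ultrafilter.coe_map, le_principal_iff, mem_map]
        exact Eventually.of_forall fun N => freq_mem f x0 A N)
    exact ⟨a, ha⟩
  choose Fr hFr using hex
  refine ⟨Fr, fun A => ?_, ?_, fun A B hAB => ?_, fun A => ?_⟩
  · exact ge_of_tendsto' (hFr A) fun N => (freq_mem f x0 A N).1
  · refine tendsto_nhds_unique (hFr _) ?_
    have : freq f x0 Set.univ = fun _ => 1 := funext fun N => freq_univ f x0 N
    rw [this]
    exact tendsto_const_nhds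
  · refine tendsto_nhds_unique (hFr _) ?_
    have : freq f x0 (A ∪ B) = fun N => freq f x0 A N + freq f x0 B N :=
      funext fun N => freq_add f x0 hAB N
    rw [this]
    exact (hFr A).add (hFr B)
  · have h0 : Tendsto (fun N : ℕ => 1 / ((N : ℝ) + 1)) U (𝓝 0) :=
      (tendsto_one_div_add_atTop_nhds_zero_nat (𝕜 := ℝ)).mono_left hU
    have h1 : Tendsto (fun N => |freq f x0 (f ⁻¹' A) N - freq f x0 A N|) U
        (𝓝 |Fr (f ⁻¹' A) - Fr A|) := ((hFr _).sub (hFr A)).abs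
    have h2 : |Fr (f ⁻¹' A) - Fr A| ≤ 0 :=
      le_of_tendsto_of_tendsto' h1 h0 fun N => freq_inv f x0 A N
    exact sub_eq_zero.1 (abs_nonpos_iff.1 h2)

namespace IsMean

variable {X : Type} {f : Equiv.Perm X} {Fr : Set X → ℝ}

theorem empty (h : IsMean f Fr) : Fr ∅ = 0 := by
  have := h.add ∅ ∅ (by simp)
  rw [Set.union_empty] at this
  linarith only [this]

theorem mono (h : IsMean f Fr) {A B : Set X} (hAB : A ⊆ B) : Fr A ≤ Fr B := by
  have h1 := h.add A (B \ A) Set.disjoint_sdiff_right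
  rw [Set.union_sdiff_cancel hAB] at h1
  linarith only [h1, h, h.nonneg (B \ A)]

theorem le_one (h : IsMean f Fr) (A : Set X) : Fr A ≤ 1 := by
  rw [← h.univ]
  exact h.mono (Set.subset_univ A)

theorem union_le (h : IsMean f Fr) (A B : Set X) : Fr (A ∪ B) ≤ Fr A + Fr B := by
  have h1 := h.add A (B \ A) Set.disjoint_sdiff_right
  rw [Set.union_sdiff_self] at h1
  have h2 : Fr (B \ A) ≤ Fr B := h.mono Set.sdiff_subset
  linarith only [h1, h2]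

theorem biUnion_le (h : IsMean f Fr) {ι : Type} (s : Finset ι) (A : ι → Set X) :
    Fr (⋃ i ∈ s, A i) ≤ ∑ i ∈ s, Fr (A i) := by
  classical
  induction s using Finset.induction_on with
  | empty => simp [h.empty]
  | insert a s ha ih =>
    rw [Finset.sum_insert ha, Finset.set_biUnion_insert]
    linarith only [ih, h, h.union_le (A a) (⋃ i ∈ s, A i)]

theorem symm (h : IsMean f Fr) : IsMean f⁻¹ Fr := by
  refine ⟨h.nonneg, h.univ, h.add, fun A => ?_⟩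
  rw [← h.inv (⇑f⁻¹ ⁻¹' A)]
  congr 1
  ext x
  simp

theorem pow (h : IsMean f Fr) (n : ℕ) (A : Set X) : Fr (⇑(f ^ n) ⁻¹' A) = Fr A := by
  induction n with
  | zero => simp
  | succ n ih =>
    have e : ⇑(f ^ (n + 1)) ⁻¹' A = f ⁻¹' (⇑(f ^ n) ⁻¹' A) := by
      ext x
      simp [pow_succ]
    rw [e, h.inv, ih]

theorem zpow (h : IsMean f Fr) (i : ℤ) (A : Set X) : Fr (⇑(f ^ i) ⁻¹' A) = Fr A := by
  obtain ⟨n, rfl | rfl⟩ := Int.eq_nat_or_neg i
  · rw [zpow_natCast]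
    exact h.pow n A
  · rw [zpow_neg, zpow_natCast, ← inv_pow]
    exact h.symm.pow n A

/-- A set without returns before time `N` has frequency at most `1 / N`. -/
theorem pigeon (h : IsMean f Fr) {B : Set X} {N : ℕ}
    (hB : ∀ n : ℕ, 1 ≤ n → n < N → ∀ w ∈ B, (f ^ n) w ∉ B) : (N : ℝ) * Fr B ≤ 1 := by
  have key : ∀ n : ℕ, n ≤ N →
      Fr (⋃ i ∈ Finset.range n, ⇑(f ^ i) ⁻¹' B) = (n : ℝ) * Fr B := by
    intro n
    induction n with
    | zero => intro _; simp [h.empty]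
    | succ n ih =>
      intro hn
      rw [Finset.range_add_one, Finset.set_biUnion_insert, h.add, h.pow, ih (by omega)]
      · push_cast
        ring
      · rw [Set.disjoint_left]
        intro x hx hx'
        simp only [Set.mem_iUnion, Finset.mem_range, Set.mem_preimage] at hx hx'
        obtain ⟨i, hi, hxi⟩ := hx'
        refine hB (n - i) (by omega) (by omega) _ hxi ?_
        have : (f ^ (n - i)) ((f ^ i) x) = (f ^ n) x := by
          rw [← Equiv.Perm.mul_apply, ← pow_add, Nat.sub_add_cancel hi.le]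
        rw [this]
        exact hx
  rw [← key N le_rfl]
  exact h.le_one _

end IsMean

end Pool.Agent.Work.MP_1ce82a_an
end

-- merged part: Pool.Agent.Work.MP_1ce82a_an.C.Iet
section
/-! Abstract piecewise translations: translation along good orbits, absence of short returns,
long windows. -/

open Set Filter Topology

namespace Pool.Agent.Work.MP_1ce82a_an

/-- A bijection which is a translation in the coordinate `φ` away from the finite set `D`. -/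
structure Iet {X : Type} (f : Equiv.Perm X) (Fr : Set X → ℝ) (φ : X → ℝ) (D : Finset ℝ) :
    Prop where
  mean : IsMean f Fr
  rng : ∀ x, 0 ≤ φ x ∧ φ x ≤ 1
  leb : ∀ a b : ℝ, a ≤ b → Fr {x | a ≤ φ x ∧ φ x ≤ b} ≤ b - a
  fwd : ∀ x y, (∀ d ∈ D, d ∉ uIcc (φ x) (φ y)) → φ (f x) - φ (f y) = φ x - φ y
  bwd : ∀ x y, (∀ d ∈ D, d ∉ uIcc (φ x) (φ y)) → φ (f⁻¹ x) - φ (f⁻¹ y) = φ x - φ y
  dense : ∀ z x, ∀ η : ℝ, 0 < η → ∃ n : ℕ, |φ ((f ^ n) z) - φ x| < η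

/-- The orbit of `z` stays away from `D` for times up to `M` in both directions. -/
def Far {X : Type} (f : Equiv.Perm X) (φ : X → ℝ) (D : Finset ℝ) (z : X) (ε : ℝ) (M : ℕ) : Prop :=
  ∀ i : ℤ, |i| ≤ (M : ℤ) → ∀ d ∈ D, 2 * ε ≤ |φ ((f ^ i) z) - d|

theorem zp_add {X : Type} (f : Equiv.Perm X) (i j : ℤ) (x : X) :
    (f ^ i) ((f ^ j) x) = (f ^ (i + j)) x := by
  rw [zpow_add, Equiv.Perm.mul_apply]

namespace Iet

variable {X : Type} {f : Equiv.Perm X} {Fr : Set X → ℝ} {φ : X → ℝ} {D : Finset ℝ}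

theorem nomem {z x : X} {ε : ℝ} {M : ℕ} (hz : Far f φ D z ε M) (hε : 0 < ε) {i : ℤ}
    (hi : |i| ≤ (M : ℤ)) (hx : |φ x - φ ((f ^ i) z)| ≤ ε) :
    ∀ d ∈ D, d ∉ uIcc (φ x) (φ ((f ^ i) z)) := by
  intro d hd hmem
  have h1 := hz i hi d hd
  have h2 := abs_sub_right_of_mem_uIcc hmem
  rw [abs_sub_comm (φ ((f ^ i) z)) (φ x)] at h2
  linarith only [hε, hx, h1, h2]

/-- Points near a good orbit keep their offset. -/
theorem transl (h : Iet f Fr φ D) {z x : X} {ε o : ℝ} {M : ℕ} (hz : Far f φ D z ε M) (hε : 0 < ε)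
    (ho : |o| ≤ ε) {s s' : ℤ} (hs : |s| ≤ (M : ℤ)) (hs' : |s'| ≤ (M : ℤ))
    (h0 : φ ((f ^ s) x) - φ ((f ^ s) z) = o) : φ ((f ^ s') x) - φ ((f ^ s') z) = o := by
  have up : ∀ i : ℤ, |i| ≤ (M : ℤ) → φ ((f ^ i) x) - φ ((f ^ i) z) = o →
      φ ((f ^ (i + 1)) x) - φ ((f ^ (i + 1)) z) = o := by
    intro i hi hP
    have := h.fwd _ _ (nomem (x := (f ^ i) x) hz hε hi (by rw [hP]; exact ho))
    rw [add_comm i 1, ← zp_add, ← zp_add, zpow_one, this, hP]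
  have dn : ∀ i : ℤ, |i| ≤ (M : ℤ) → φ ((f ^ i) x) - φ ((f ^ i) z) = o →
      φ ((f ^ (i - 1)) x) - φ ((f ^ (i - 1)) z) = o := by
    intro i hi hP
    have := h.bwd _ _ (nomem (x := (f ^ i) x) hz hε hi (by rw [hP]; exact ho))
    rw [show i - 1 = -1 + i by ring, ← zp_add, ← zp_add, zpow_neg_one, this, hP]
  rw [abs_le] at hs hs'
  have A : ∀ n : ℕ, s + n ≤ (M : ℤ) → φ ((f ^ (s + n)) x) - φ ((f ^ (s + n)) z) = o := by
    intro n
    induction n with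
    | zero => intro _; simpa using h0
    | succ n ih =>
      intro hn
      push_cast at hn ⊢
      rw [← add_assoc]
      exact up _ (abs_le.2 ⟨by omega, by omega⟩) (ih (by omega))
  have B : ∀ n : ℕ, -(M : ℤ) ≤ s - n → φ ((f ^ (s - n)) x) - φ ((f ^ (s - n)) z) = o := by
    intro n
    induction n with
    | zero => intro _; simpa using h0
    | succ n ih =>
      intro hn
      push_cast at hn ⊢
      rw [← sub_sub]
      exact dn _ (abs_le.2 ⟨by omega, by omega⟩) (ih (by omega))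
  rcases le_total s s' with hle | hle
  · obtain ⟨n, hn⟩ := Int.eq_ofNat_of_zero_le (sub_nonneg.2 hle)
    have e : s' = s + n := by omega
    rw [e]
    exact A n (by omega)
  · obtain ⟨n, hn⟩ := Int.eq_ofNat_of_zero_le (sub_nonneg.2 hle)
    have e : s' = s - n := by omega
    rw [e]
    exact B n (by omega)

theorem transl0 (h : Iet f Fr φ D) {z x : X} {ε : ℝ} {M : ℕ} (hz : Far f φ D z ε M) (hε : 0 < ε)
    (ho : |φ x - φ z| ≤ ε) {s : ℤ} (hs : |s| ≤ (M : ℤ)) :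
    φ ((f ^ s) x) - φ ((f ^ s) z) = φ x - φ z :=
  h.transl hz hε ho (s := 0) (by simp) hs (by simp)

theorem transln (h : Iet f Fr φ D) {z x : X} {ε : ℝ} {M : ℕ} (hz : Far f φ D z ε M) (hε : 0 < ε)
    (ho : |φ x - φ z| ≤ ε) {n : ℕ} (hn : n ≤ M) :
    φ ((f ^ n) x) - φ ((f ^ n) z) = φ x - φ z := by
  have := h.transl0 hz hε ho (s := (n : ℤ)) (by rw [abs_of_nonneg (by positivity)]; exact_mod_cast hn)
  simpa using this

/-- An orbit cannot stay near few of its points. -/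
theorem cover (h : Iet f Fr φ D) {z : X} {ε : ℝ} (hε : 0 < ε) {N : ℕ}
    (hc : ∀ n : ℕ, ∃ i < N, |φ ((f ^ n) z) - φ ((f ^ i) z)| ≤ ε) : 1 ≤ (N : ℝ) * (4 * ε) := by
  have h1 : (Set.univ : Set X) ⊆ ⋃ i ∈ Finset.range N,
      {x | φ ((f ^ i) z) - 2 * ε ≤ φ x ∧ φ x ≤ φ ((f ^ i) z) + 2 * ε} := by
    intro x _
    obtain ⟨n, hn⟩ := h.dense z x ε hε
    obtain ⟨i, hi, hni⟩ := hc n
    simp only [Set.mem_iUnion, Finset.mem_range, Set.mem_ofPred_eq]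
    rw [abs_le] at hni
    rw [abs_lt] at hn
    exact ⟨i, hi, by linarith only [hn, hni, hn.2, hni.1], by linarith only [hn, hni, hn.1, hni.2]⟩
  have h2 := (h.mean.mono h1).trans (h.mean.biUnion_le _ _)
  rw [h.mean.univ] at h2
  refine h2.trans ?_
  calc ∑ i ∈ Finset.range N,
        Fr {x | φ ((f ^ i) z) - 2 * ε ≤ φ x ∧ φ x ≤ φ ((f ^ i) z) + 2 * ε}
      ≤ ∑ _i ∈ Finset.range N, (4 * ε) := Finset.sum_le_sum fun i _ => by
        have := h.leb (φ ((f ^ i) z) - 2 * ε) (φ ((f ^ i) z) + 2 * ε) (by linarith only [hε])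
        linarith only [this]
    _ = (N : ℝ) * (4 * ε) := by simp

/-- Returns on both sides give an invariant tower. -/
theorem two_sided (h : Iet f Fr φ D) {z : X} {ε : ℝ} {M : ℕ} (hz : Far f φ D z ε M) (hε : 0 < ε)
    {a b : ℕ} (ha1 : 1 ≤ a) (haM : a ≤ M) (hb1 : 1 ≤ b) (hbM : b ≤ M)
    (ha : -ε ≤ φ ((f ^ a) z) - φ z) (ha' : φ ((f ^ a) z) - φ z ≤ 0)
    (hb : 0 ≤ φ ((f ^ b) z) - φ z) (hb' : φ ((f ^ b) z) - φ z ≤ ε) : 1 ≤ (M : ℝ) * (4 * ε) := by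
  have key : ∀ n : ℕ, ∀ x : X, φ ((f ^ a) z) - φ z ≤ φ x - φ z → φ x - φ z ≤ φ ((f ^ b) z) - φ z →
      ∃ i < M, |φ ((f ^ n) x) - φ ((f ^ i) z)| ≤ ε := by
    intro n
    induction n using Nat.strong_induction_on with
    | _ n ih =>
      intro x h1 h2
      have ho : |φ x - φ z| ≤ ε := abs_le.2 ⟨by linarith only [ha, h1], by linarith only [hb', h2]⟩
      by_cases hn : n < M
      · exact ⟨n, hn, by rw [h.transln hz hε ho hn.le]; exact ho⟩
      · rcases le_total 0 (φ x - φ z) with hs | hs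
        · have e := h.transln hz hε ho haM
          obtain ⟨i, hi, hi'⟩ := ih (n - a) (by omega) ((f ^ a) x) (by linarith only [hs, e]) (by linarith only [ha', h2, e])
          refine ⟨i, hi, ?_⟩
          rwa [← Equiv.Perm.mul_apply, ← pow_add, Nat.sub_add_cancel (by omega)] at hi'
        · have e := h.transln hz hε ho hbM
          obtain ⟨i, hi, hi'⟩ := ih (n - b) (by omega) ((f ^ b) x) (by linarith only [hb, h1, e]) (by linarith only [hs, e])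
          refine ⟨i, hi, ?_⟩
          rwa [← Equiv.Perm.mul_apply, ← pow_add, Nat.sub_add_cancel (by omega)] at hi'
  exact h.cover hε fun n => key n z (by linarith only [ha']) (by linarith only [hb])

/-- A record return is not beaten during the good times. -/
theorem noshort (h : Iet f Fr φ D) {z : X} {ε : ℝ} {M : ℕ} (hz : Far f φ D z ε M) (hε : 0 < ε)
    (hM : (M : ℝ) * (4 * ε) < 1) {T : ℕ} (hT : 1 ≤ T) (ht : |φ ((f ^ T) z) - φ z| ≤ ε)
    (hrec : ∀ j : ℕ, 1 ≤ j → j < T → |φ ((f ^ T) z) - φ z| ≤ |φ ((f ^ j) z) - φ z|) :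
    ∀ j : ℕ, 1 ≤ j → j ≤ M → |φ ((f ^ T) z) - φ z| ≤ |φ ((f ^ j) z) - φ z| := by
  intro j hj1 hjM
  by_contra hc
  push Not at hc
  have hTj : T < j := by
    rcases lt_trichotomy j T with h1 | h1 | h1
    · exact absurd (hrec j hj1 h1) (not_le.2 hc)
    · subst h1
      exact absurd hc (lt_irrefl _)
    · exact h1
  have e := h.transln hz hε ht (n := j - T) (by omega)
  rw [← Equiv.Perm.mul_apply, ← pow_add, Nat.sub_add_cancel hTj.le] at e
  have ht' := abs_le.1 ht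
  rcases le_total 0 (φ ((f ^ T) z) - φ z) with hs | hs
  · rw [abs_of_nonneg hs, abs_lt] at hc
    rcases le_total (φ ((f ^ j) z) - φ z) 0 with hj | hj
    · have := h.two_sided hz hε hj1 hjM hT (by omega) (by linarith only [hc, ht', hc.1]) hj hs ht'.2
      linarith only [hM, this]
    · have := h.two_sided hz hε (a := j - T) (by omega) (by omega) hT (by omega)
        (by linarith only [e, ht', hj, ht'.2]) (by linarith only [hc, e, hc.2]) hs ht'.2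
      linarith only [hM, this]
  · rw [abs_of_nonpos hs, abs_lt] at hc
    rcases le_total 0 (φ ((f ^ j) z) - φ z) with hj | hj
    · have := h.two_sided hz hε hT (by omega) hj1 hjM ht'.1 hs hj (by linarith only [hc, ht', hc.2])
      linarith only [hM, this]
    · have := h.two_sided hz hε hT (by omega) (b := j - T) (by omega) (by omega) ht'.1 hs
        (by linarith only [hc, e, hc.1]) (by linarith only [e, ht', hj, ht'.1])
      linarith only [hM, this]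

/-- Open intervals have at least their length as frequency. -/
theorem leb_lo (h : Iet f Fr φ D) (y y' : X) :
    φ y' - φ y ≤ Fr {x | φ y < φ x ∧ φ x < φ y'} := by
  have h1 : (Set.univ : Set X) ⊆ ({x | 0 ≤ φ x ∧ φ x ≤ φ y} ∪ {x | φ y < φ x ∧ φ x < φ y'}) ∪
      {x | φ y' ≤ φ x ∧ φ x ≤ 1} := by
    intro x _
    simp only [Set.mem_union, Set.mem_ofPred_eq]
    rcases le_or_gt (φ x) (φ y) with a | a
    · exact Or.inl (Or.inl ⟨(h.rng x).1, a⟩)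
    · rcases lt_or_ge (φ x) (φ y') with b | b
      · exact Or.inl (Or.inr ⟨a, b⟩)
      · exact Or.inr ⟨b, (h.rng x).2⟩
  have h2 := (h.mean.mono h1).trans (h.mean.union_le _ _)
  have h3 := h.mean.union_le {x | 0 ≤ φ x ∧ φ x ≤ φ y} {x | φ y < φ x ∧ φ x < φ y'}
  have h4 := h.leb 0 (φ y) (h.rng y).1
  have h5 := h.leb (φ y') 1 (h.rng y').2
  rw [h.mean.univ] at h2
  linarith only [h2, h3, h4, h5]

/-- A point that follows the window and comes back to its first interval at a controlled time. -/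
theorem window (h : Iet f Fr φ D) {z lo hi : X} {ε : ℝ} {m N r : ℕ}
    (hz : Far f φ D z ε (2 * m)) (hε : 0 < ε)
    (ha : |φ lo - φ z| ≤ ε) (hb : |φ hi - φ z| ≤ ε) (hτ : φ hi - φ lo ≤ ε)
    (hns : ∀ j : ℕ, 1 ≤ j → j ≤ 2 * m → φ hi - φ lo ≤ |φ ((f ^ j) z) - φ z|)
    (hN : 1 < (N : ℝ) * (φ hi - φ lo)) (hr : r ≤ m) :
    ∃ (w : X) (n : ℕ), 2 * r < n ∧ n < N ∧
      (∀ j : ℕ, j ≤ 2 * r → φ ((f ^ j) ((f ^ (-(r : ℤ))) lo)) < φ ((f ^ j) w) ∧
        φ ((f ^ j) w) < φ ((f ^ j) ((f ^ (-(r : ℤ))) hi))) ∧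
      φ ((f ^ (-(r : ℤ))) lo) < φ ((f ^ n) w) ∧ φ ((f ^ n) w) < φ ((f ^ (-(r : ℤ))) hi) := by
  have hs : |(-(r : ℤ))| ≤ ((2 * m : ℕ) : ℤ) := by
    rw [abs_le]; push_cast; omega
  have elo := h.transl0 hz hε ha hs
  have ehi := h.transl0 hz hε hb hs
  have hB := h.leb_lo ((f ^ (-(r : ℤ))) lo) ((f ^ (-(r : ℤ))) hi)
  have hex : ∃ n : ℕ, 1 ≤ n ∧ n < N ∧ ∃ w ∈ {x | φ ((f ^ (-(r : ℤ))) lo) < φ x ∧
      φ x < φ ((f ^ (-(r : ℤ))) hi)}, (f ^ n) w ∈ {x | φ ((f ^ (-(r : ℤ))) lo) < φ x ∧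
      φ x < φ ((f ^ (-(r : ℤ))) hi)} := by
    by_contra hc
    push Not at hc
    have h1 := h.mean.pigeon hc
    have h2 : (N : ℝ) * (φ hi - φ lo) ≤ (N : ℝ) * Fr {x | φ ((f ^ (-(r : ℤ))) lo) < φ x ∧
        φ x < φ ((f ^ (-(r : ℤ))) hi)} :=
      mul_le_mul_of_nonneg_left (by linarith only [elo, ehi, hB]) (by positivity)
    linarith only [hN, h1, h2]
  obtain ⟨n, hn1, hnN, w, ⟨hw1, hw2⟩, hw3, hw4⟩ := hex
  have ha' := abs_le.1 ha
  have hb' := abs_le.1 hb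
  have ho : |φ w - φ ((f ^ (-(r : ℤ))) z)| ≤ ε :=
    abs_le.2 ⟨by linarith only [elo, hw1, ha', ha'.1], by linarith only [ehi, hw2, hb', hb'.2]⟩
  have hfol : ∀ j : ℕ, j ≤ 2 * r →
      φ ((f ^ j) w) - φ ((f ^ ((j : ℤ) - r)) z) = φ w - φ ((f ^ (-(r : ℤ))) z) := by
    intro j hj
    have := h.transl (x := (f ^ (r : ℤ)) w) hz hε ho hs (s' := (j : ℤ) - r)
      (by rw [abs_le]; push_cast; omega) (by rw [zp_add]; simp)
    rw [zp_add, sub_add_cancel, zpow_natCast] at this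
    exact this
  have hlohi : ∀ (y : X) (j : ℕ), j ≤ 2 * r → |φ y - φ z| ≤ ε →
      φ ((f ^ j) ((f ^ (-(r : ℤ))) y)) - φ ((f ^ ((j : ℤ) - r)) z) = φ y - φ z := by
    intro y j hj hy
    have := h.transl0 hz hε hy (s := (j : ℤ) - r) (by rw [abs_le]; push_cast; omega)
    rw [← zpow_natCast, zp_add, ← sub_eq_add_neg]
    exact this
  refine ⟨w, n, ?_, hnN, fun j hj => ?_, hw3, hw4⟩
  · by_contra hc
    push Not at hc
    have e1 := hfol n hc
    have ho' : |φ ((f ^ ((n : ℤ) - r)) z) - φ ((f ^ (-(r : ℤ))) z)| < φ hi - φ lo :=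
      abs_lt.2 ⟨by linarith only [elo, ehi, hw2, hw3, e1], by linarith only [elo, ehi, hw1, hw4, e1]⟩
    have e2 := h.transl (x := (f ^ (n : ℤ)) z) hz hε (ho'.le.trans hτ) hs (s' := 0) (by simp)
      (by rw [zp_add, neg_add_eq_sub])
    simp only [zpow_zero, Equiv.Perm.coe_one, id_eq, zpow_natCast] at e2
    have := hns n hn1 (by omega)
    rw [e2] at this
    linarith only [ho', this]
  · have e1 := hfol j hj
    have e2 := hlohi lo j hj ha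
    have e3 := hlohi hi j hj hb
    constructor <;> linarith only [elo, hw1, e1, e2, ehi, hw2, e3]

end Iet

end Pool.Agent.Work.MP_1ce82a_an
end

-- merged part: Pool.Agent.Work.MP_1ce82a_an.C.Good
section
/-! Existence of a point which is good at all small scales and returns quickly. -/

open Set Filter Topology

namespace Pool.Agent.Work.MP_1ce82a_an

namespace Iet

variable {X : Type} {f : Equiv.Perm X} {Fr : Set X → ℝ} {φ : X → ℝ} {D : Finset ℝ}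

theorem bad (h : Iet f Fr φ D) {ε : ℝ} (hε : 0 ≤ ε) (M : ℕ) :
    Fr {z | ¬ Far f φ D z ε M} ≤ (2 * (M : ℝ) + 1) * ((D.card : ℝ) * (4 * ε)) := by
  have h1 : {z | ¬ Far f φ D z ε M} ⊆ ⋃ i ∈ Finset.range (2 * M + 1), ⋃ d ∈ D,
      ⇑(f ^ ((i : ℤ) - M)) ⁻¹' {x | d - 2 * ε ≤ φ x ∧ φ x ≤ d + 2 * ε} := by
    intro z hz
    simp only [Far, Set.mem_ofPred_eq] at hz
    push Not at hz
    obtain ⟨i, hi, d, hd, hlt⟩ := hz
    rw [abs_le] at hi
    rw [abs_lt] at hlt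
    obtain ⟨n, hn⟩ := Int.eq_ofNat_of_zero_le (show 0 ≤ i + M by omega)
    have e : (n : ℤ) - M = i := by omega
    simp only [Set.mem_iUnion, Finset.mem_range, Set.mem_preimage, Set.mem_ofPred_eq]
    refine ⟨n, by omega, d, hd, ?_⟩
    rw [e]
    exact ⟨by linarith only [hlt, hlt.1], by linarith [hlt.2]⟩
  refine ((h.mean.mono h1).trans (h.mean.biUnion_le _ _)).trans ?_
  calc ∑ i ∈ Finset.range (2 * M + 1), Fr (⋃ d ∈ D,
        ⇑(f ^ ((i : ℤ) - M)) ⁻¹' {x | d - 2 * ε ≤ φ x ∧ φ x ≤ d + 2 * ε})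
      ≤ ∑ _i ∈ Finset.range (2 * M + 1), ((D.card : ℝ) * (4 * ε)) := by
        refine Finset.sum_le_sum fun i _ => (h.mean.biUnion_le _ _).trans ?_
        calc ∑ d ∈ D, Fr (⇑(f ^ ((i : ℤ) - M)) ⁻¹' {x | d - 2 * ε ≤ φ x ∧ φ x ≤ d + 2 * ε})
            ≤ ∑ _d ∈ D, (4 * ε) := by
              refine Finset.sum_le_sum fun d _ => ?_
              rw [h.mean.zpow]
              have := h.leb (d - 2 * ε) (d + 2 * ε) (by linarith only [hε])
              linarith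
          _ = (D.card : ℝ) * (4 * ε) := by simp
    _ = (2 * (M : ℝ) + 1) * ((D.card : ℝ) * (4 * ε)) := by
        rw [Finset.sum_const, Finset.card_range, nsmul_eq_mul]
        push_cast
        ring

theorem slow (h : Iet f Fr φ D) {L : ℕ} (hL : 1 ≤ L) :
    Fr {z | ∀ j : ℕ, 1 ≤ j → j < 8 * L → 1 / (L : ℝ) < |φ ((f ^ j) z) - φ z|} ≤ 1 / 4 := by
  have hL0 : (0 : ℝ) < L := by exact_mod_cast hL
  have hL1 : (1 : ℝ) ≤ L := by exact_mod_cast hL
  let S : ℕ → Set X := fun l => {z | (∀ j : ℕ, 1 ≤ j → j < 8 * L →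
    1 / (L : ℝ) < |φ ((f ^ j) z) - φ z|) ∧ (l : ℝ) ≤ L * φ z ∧ L * φ z < (l : ℝ) + 1}
  have h1 : {z | ∀ j : ℕ, 1 ≤ j → j < 8 * L → 1 / (L : ℝ) < |φ ((f ^ j) z) - φ z|} ⊆
      ⋃ l ∈ Finset.range (L + 1), S l := by
    intro z hz
    have h0 : 0 ≤ (L : ℝ) * φ z := mul_nonneg hL0.le (h.rng z).1
    simp only [Set.mem_iUnion, Finset.mem_range]
    refine ⟨⌊(L : ℝ) * φ z⌋₊, ?_, hz, Nat.floor_le h0, Nat.lt_floor_add_one _⟩
    have : (L : ℝ) * φ z ≤ L := by linarith only [h, (h.rng z).2, mul_nonneg_of_nonpos_of_nonpos (Mathlib.Tactic.Linarith.sub_nonpos_of_le (Mathlib.Tactic.Linarith.natCast_nonneg ℝ L)) (Mathlib.Tactic.Linarith.sub_nonpos_of_le (h.rng z).right)]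
    have := Nat.floor_le_of_le this
    omega
  have h2 : ∀ l : ℕ, Fr (S l) ≤ 1 / (8 * (L : ℝ)) := by
    intro l
    have := h.mean.pigeon (B := S l) (N := 8 * L) (by
      intro n hn1 hn w hw hw'
      have a := hw.1 n hn1 hn
      have b : |φ ((f ^ n) w) - φ w| < 1 / (L : ℝ) := by
        rw [lt_div_iff₀ hL0, ← abs_of_pos hL0, ← abs_mul, abs_lt]
        constructor <;> linarith only [hw, hw', hw.2.1, hw.2.2, hw'.2.1, hw'.2.2]
      linarith only [a, b])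
    rw [le_div_iff₀ (by positivity)]
    push_cast at this
    linarith only [this]
  refine ((h.mean.mono h1).trans (h.mean.biUnion_le _ _)).trans ?_
  calc ∑ l ∈ Finset.range (L + 1), Fr (S l)
      ≤ ∑ _l ∈ Finset.range (L + 1), 1 / (8 * (L : ℝ)) := Finset.sum_le_sum fun l _ => h2 l
    _ = ((L : ℝ) + 1) * (1 / (8 * (L : ℝ))) := by
        rw [Finset.sum_const, Finset.card_range, nsmul_eq_mul]
        push_cast
        ring
    _ ≤ 1 / 4 := by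
        rw [mul_one_div, div_le_div_iff₀ (by positivity) (by positivity)]
        linarith only [hL1]

theorem bad_scale (h : Iet f Fr φ D) (k : ℕ) :
    Fr {z | ¬ Far f φ D z ((1 / 16 : ℝ) ^ k) (20 * 8 ^ k)} ≤ 164 * (D.card : ℝ) * (1 / 2) ^ k := by
  refine (h.bad (by positivity) _).trans ?_
  have e : (8 : ℝ) ^ k * (1 / 16 : ℝ) ^ k = (1 / 2) ^ k := by
    rw [← mul_pow]; norm_num
  have h8 : (1 : ℝ) ≤ 8 ^ k := one_le_pow₀ (by norm_num)
  have hp : (0 : ℝ) ≤ (D.card : ℝ) * (4 * (1 / 16 : ℝ) ^ k) := by positivity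
  push_cast
  calc (2 * (20 * (8 : ℝ) ^ k) + 1) * ((D.card : ℝ) * (4 * (1 / 16 : ℝ) ^ k))
      ≤ (41 * (8 : ℝ) ^ k) * ((D.card : ℝ) * (4 * (1 / 16 : ℝ) ^ k)) :=
        mul_le_mul_of_nonneg_right (by linarith only [h8]) hp
    _ = 164 * (D.card : ℝ) * ((8 : ℝ) ^ k * (1 / 16 : ℝ) ^ k) := by ring
    _ = 164 * (D.card : ℝ) * (1 / 2) ^ k := by rw [e]

theorem geo_sum (k0 n : ℕ) :
    ∑ j ∈ Finset.range n, (1 / 2 : ℝ) ^ (k0 + j) ≤ 2 * (1 / 2) ^ k0 := by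
  have key : ∑ j ∈ Finset.range n, (1 / 2 : ℝ) ^ (k0 + j) =
      2 * (1 / 2) ^ k0 - 2 * (1 / 2) ^ (k0 + n) := by
    induction n with
    | zero => simp
    | succ n ih =>
      rw [Finset.sum_range_succ, ih, ← add_assoc, pow_succ]
      ring
  rw [key]
  have : (0 : ℝ) ≤ (1 / 2) ^ (k0 + n) := by positivity
  linarith only [this]

theorem exists_good [TopologicalSpace X] [CompactSpace X] (h : Iet f Fr φ D)
    (cont : ∀ i : ℤ, Continuous fun x => φ ((f ^ i) x)) {k0 : ℕ}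
    (hk0 : 656 * (D.card : ℝ) ≤ 2 ^ k0) :
    ∃ z : X, (∃ j : ℕ, 1 ≤ j ∧ j < 8 * 16 ^ k0 ∧ |φ ((f ^ j) z) - φ z| ≤ (1 / 16 : ℝ) ^ k0) ∧
      ∀ k : ℕ, k0 ≤ k → Far f φ D z ((1 / 16 : ℝ) ^ k) (20 * 8 ^ k) := by
  let F : Set X := {z | ∃ j : ℕ, 1 ≤ j ∧ j < 8 * 16 ^ k0 ∧
    |φ ((f ^ j) z) - φ z| ≤ (1 / 16 : ℝ) ^ k0}
  let G : ℕ → Set X := fun j => {z | Far f φ D z ((1 / 16 : ℝ) ^ (k0 + j)) (20 * 8 ^ (k0 + j))}
  have c0 : Continuous φ := by simpa using cont 0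
  have cn : ∀ n : ℕ, Continuous fun x => φ ((f ^ n) x) := fun n => by simpa using cont n
  have hF : IsClosed F := by
    have : F = ⋃ j ∈ Finset.Ico 1 (8 * 16 ^ k0),
        {z | |φ ((f ^ j) z) - φ z| ≤ (1 / 16 : ℝ) ^ k0} := by
      ext z
      simp only [F, Set.mem_iUnion, Finset.mem_Ico, Set.mem_ofPred_eq]
      constructor
      · rintro ⟨j, a, b, c⟩
        exact ⟨j, ⟨a, b⟩, c⟩
      · rintro ⟨j, ⟨a, b⟩, c⟩
        exact ⟨j, a, b, c⟩
    rw [this]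
    exact isClosed_biUnion_finset fun j _ =>
      isClosed_le ((cn j).sub c0).abs continuous_const
  have hG : ∀ j, IsClosed (G j) := by
    intro j
    have : G j = ⋂ i : ℤ, ⋂ (_ : |i| ≤ ((20 * 8 ^ (k0 + j) : ℕ) : ℤ)), ⋂ d : ℝ, ⋂ (_ : d ∈ D),
        {z | 2 * (1 / 16 : ℝ) ^ (k0 + j) ≤ |φ ((f ^ i) z) - d|} := by
      ext z
      simp only [G, Far, Set.mem_iInter, Set.mem_ofPred_eq]
    rw [this]
    exact isClosed_iInter fun i => isClosed_iInter fun _ => isClosed_iInter fun d =>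
      isClosed_iInter fun _ => isClosed_le continuous_const ((cont i).sub continuous_const).abs
  have hFc : Fr Fᶜ ≤ 1 / 4 := by
    have := h.slow (L := 16 ^ k0) (Nat.one_le_pow _ _ (by norm_num))
    refine le_trans (h.mean.mono ?_) this
    intro z hz j hj1 hj2
    by_contra hc
    push Not at hc
    refine hz ⟨j, hj1, hj2, ?_⟩
    rw [one_div_pow]
    exact_mod_cast hc
  have hfin : ∀ n : ℕ, (F ∩ ⋂ j ∈ Finset.range n, G j).Nonempty := by
    intro n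
    by_contra hc
    rw [Set.not_nonempty_iff_eq_empty] at hc
    have h1 : (Set.univ : Set X) ⊆ Fᶜ ∪ ⋃ j ∈ Finset.range n, (G j)ᶜ := by
      intro x _
      by_contra hx
      simp only [Set.mem_union, Set.mem_compl_iff, Set.mem_iUnion, not_or, not_not, not_exists]
        at hx
      have : x ∈ F ∩ ⋂ j ∈ Finset.range n, G j :=
        ⟨hx.1, by simp only [Set.mem_iInter]; exact hx.2⟩
      rw [hc] at this
      exact this
    have h2 := (h.mean.mono h1).trans (h.mean.union_le _ _)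
    rw [h.mean.univ] at h2
    have h3 := h.mean.biUnion_le (Finset.range n) (fun j => (G j)ᶜ)
    have h4 : ∑ j ∈ Finset.range n, Fr (G j)ᶜ ≤
        ∑ j ∈ Finset.range n, 164 * (D.card : ℝ) * (1 / 2) ^ (k0 + j) :=
      Finset.sum_le_sum fun j _ => h.bad_scale (k0 + j)
    rw [← Finset.mul_sum] at h4
    have h5 := geo_sum k0 n
    have h6 : 164 * (D.card : ℝ) * ∑ j ∈ Finset.range n, (1 / 2 : ℝ) ^ (k0 + j) ≤
        164 * (D.card : ℝ) * (2 * (1 / 2) ^ k0) :=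
      mul_le_mul_of_nonneg_left h5 (by positivity)
    have h7 : 164 * (D.card : ℝ) * (2 * (1 / 2) ^ k0) ≤ 1 / 2 := by
      have hp : (0 : ℝ) < 2 ^ k0 := by positivity
      rw [one_div_pow, mul_one_div, ← mul_div_assoc, div_le_iff₀ hp]
      linarith only [hk0]
    linarith only [hFc, h2, h3, h4, h6, h7]
  have hall : (F ∩ ⋂ j, G j).Nonempty := by
    refine hF.isCompact.inter_iInter_nonempty G hG fun u => ?_
    obtain ⟨x, hxF, hxG⟩ := hfin (u.sup id + 1)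
    refine ⟨x, hxF, ?_⟩
    simp only [Set.mem_iInter] at hxG ⊢
    intro j hj
    exact hxG j (Finset.mem_range.2 (Nat.lt_succ_of_le (Finset.le_sup (f := id) hj)))
  obtain ⟨z, hzF, hzG⟩ := hall
  refine ⟨z, hzF, fun k hk => ?_⟩
  have := Set.mem_iInter.1 hzG (k - k0)
  simp only [G, Set.mem_ofPred_eq] at this
  rwa [Nat.add_sub_cancel' hk] at this

end Iet

end Pool.Agent.Work.MP_1ce82a_an
end

-- merged part: Pool.Agent.Work.MP_1ce82a_an.C.Grow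
section
/-! Exponential decay of the central length of a tower and the abstract main theorem. -/

open Set Filter Topology

namespace Pool.Agent.Work.MP_1ce82a_an

theorem grow {l : ℤ → ℝ} {m : ℕ} {K H : ℝ} (hK : 0 < K)
    (h0 : ∀ i : ℤ, |i| ≤ (m : ℤ) → 0 ≤ l i) (hH : ∀ i : ℤ, l i ≤ H)
    (hw : ∀ r : ℕ, 1 ≤ r → r ≤ m →
      ∑ j ∈ Finset.range (2 * r), l ((j : ℤ) - r) ≤ K * (l (-(r : ℤ)) + l r)) :
    l 0 * (1 + 1 / K) ^ m ≤ (2 * (m : ℝ) + 1) * H := by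
  have key : ∀ r : ℕ, r ≤ m →
      l 0 * (1 + 1 / K) ^ r ≤ ∑ j ∈ Finset.range (2 * r + 1), l ((j : ℤ) - r) := by
    intro r
    induction r with
    | zero => intro _; simp
    | succ r ih =>
      intro hr
      have ih' := ih (by omega)
      have e1 : ∑ j ∈ Finset.range (2 * (r + 1)), l ((j : ℤ) - ((r + 1 : ℕ) : ℤ)) =
          ∑ j ∈ Finset.range (2 * r + 1), l ((j : ℤ) - r) + l (-((r + 1 : ℕ) : ℤ)) := by
        rw [show 2 * (r + 1) = 2 * r + 1 + 1 by ring, Finset.sum_range_succ']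
        congr 1
        refine Finset.sum_congr rfl fun j _ => ?_
        congr 1
        push_cast
        ring
      have e2 : ∑ j ∈ Finset.range (2 * (r + 1) + 1), l ((j : ℤ) - ((r + 1 : ℕ) : ℤ)) =
          ∑ j ∈ Finset.range (2 * (r + 1)), l ((j : ℤ) - ((r + 1 : ℕ) : ℤ)) +
            l ((r + 1 : ℕ) : ℤ) := by
        rw [Finset.sum_range_succ]
        congr 2
        push_cast
        ring
      have h1 := hw (r + 1) (by omega) hr
      have h2 : 0 ≤ l (-((r + 1 : ℕ) : ℤ)) := h0 _ (by rw [abs_le]; push_cast; omega)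
      rw [e2, e1]
      rw [e1] at h1
      set W := ∑ j ∈ Finset.range (2 * r + 1), l ((j : ℤ) - r)
      have h3 : W / K ≤ l (-((r + 1 : ℕ) : ℤ)) + l ((r + 1 : ℕ) : ℤ) := by
        rw [div_le_iff₀ hK]
        linarith only [h2, h1]
      have h4 : l 0 * (1 + 1 / K) ^ (r + 1) ≤ W * (1 + 1 / K) := by
        rw [pow_succ, ← mul_assoc]
        exact mul_le_mul_of_nonneg_right ih' (by positivity)
      have h5 : W * (1 + 1 / K) = W + W / K := by ring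
      linarith only [h3, h4, h5]
  refine (key m le_rfl).trans ?_
  calc ∑ j ∈ Finset.range (2 * m + 1), l ((j : ℤ) - m)
      ≤ ∑ _j ∈ Finset.range (2 * m + 1), H := Finset.sum_le_sum fun j _ => hH _
    _ = (2 * (m : ℝ) + 1) * H := by
        rw [Finset.sum_const, Finset.card_range, nsmul_eq_mul]
        push_cast
        ring

theorem grow_num {d H A : ℝ} {k : ℕ} (hd : 0 ≤ d) (hA : 1 ≤ A) (hH : 0 ≤ H)
    (h : d * (1 + 1 / (4 * A * 4 ^ k)) ^ (10 * 8 ^ k) ≤ (2 * ((10 * 8 ^ k : ℕ) : ℝ) + 1) * H) :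
    d * ((2 : ℝ) ^ k) ^ 7 ≤ 21 * H * (4 * A) ^ 10 := by
  set lam : ℝ := 2 ^ k with hlam
  have hl1 : 1 ≤ lam := one_le_pow₀ (by norm_num)
  have e4 : (4 : ℝ) ^ k = lam ^ 2 := by rw [hlam, ← pow_mul, mul_comm, pow_mul]; norm_num
  have e8 : (8 : ℝ) ^ k = lam ^ 3 := by rw [hlam, ← pow_mul, mul_comm, pow_mul]; norm_num
  have hx : 0 < 1 / (4 * A * 4 ^ k) := by positivity
  have b1 : 1 + ((8 ^ k : ℕ) : ℝ) * (1 / (4 * A * 4 ^ k)) ≤ (1 + 1 / (4 * A * 4 ^ k)) ^ (8 ^ k) :=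
    one_add_mul_le_pow (by linarith only [hx]) _
  have e : ((8 ^ k : ℕ) : ℝ) * (1 / (4 * A * 4 ^ k)) = lam / (4 * A) := by
    push_cast
    rw [e4, e8]
    field_simp
  rw [e] at b1
  have b2 : (lam / (4 * A)) ^ 10 ≤ (1 + 1 / (4 * A * 4 ^ k)) ^ (10 * 8 ^ k) := by
    rw [mul_comm 10, pow_mul]
    exact pow_le_pow_left₀ (by positivity) (by linarith only [b1]) _
  have b3 : d * (lam / (4 * A)) ^ 10 ≤ 21 * lam ^ 3 * H := by
    refine (mul_le_mul_of_nonneg_left b2 hd).trans (h.trans ?_)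
    refine mul_le_mul_of_nonneg_right ?_ hH
    push_cast
    rw [e8]
    have : 1 ≤ lam ^ 3 := one_le_pow₀ hl1
    linarith only [this]
  rw [div_pow, ← mul_div_assoc, div_le_iff₀ (by positivity)] at b3
  have hp : 0 < lam ^ 3 := by positivity
  have : (d * lam ^ 7) * lam ^ 3 ≤ (21 * H * (4 * A) ^ 10) * lam ^ 3 := by
    calc (d * lam ^ 7) * lam ^ 3 = d * lam ^ 10 := by ring
      _ ≤ 21 * lam ^ 3 * H * (4 * A) ^ 10 := b3
      _ = _ := by ring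
  exact le_of_mul_le_mul_right this hp

theorem final_num {d t c M lam T : ℝ} (hd : 0 ≤ d) (hl : 1 ≤ lam) (hT0 : 0 ≤ T)
    (hT : T ≤ 8 * lam ^ 4) (hdc : d * lam ^ 7 ≤ c) (ht : 1 < 16 * lam ^ 4 * |t|)
    (hM : 2048 * |M| * c ^ 2 ≤ lam) : M * T * d ^ 2 < t ^ 2 := by
  have hp : 0 < lam := by linarith only [hl]
  have h1 : (d * lam ^ 7) ^ 2 ≤ c ^ 2 := pow_le_pow_left₀ (by positivity) hdc 2
  have h2 : 1 < (16 * lam ^ 4 * |t|) ^ 2 := one_lt_pow₀ ht (by norm_num)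
  rw [mul_pow, sq_abs] at h2
  have h3 : M * T * d ^ 2 ≤ |M| * (8 * lam ^ 4) * d ^ 2 := by
    refine mul_le_mul_of_nonneg_right ?_ (by positivity)
    exact (mul_le_mul_of_nonneg_right (le_abs_self M) hT0).trans
      (mul_le_mul_of_nonneg_left hT (abs_nonneg M))
  have h4 : (|M| * (8 * lam ^ 4) * d ^ 2) * (256 * lam ^ 10) ≤ lam ^ 2 := by
    calc (|M| * (8 * lam ^ 4) * d ^ 2) * (256 * lam ^ 10) = 2048 * |M| * (d * lam ^ 7) ^ 2 := by
          ring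
      _ ≤ 2048 * |M| * c ^ 2 := mul_le_mul_of_nonneg_left h1 (by positivity)
      _ ≤ lam := hM
      _ ≤ lam ^ 2 := by linarith only [hl, mul_nonneg_of_nonpos_of_nonpos (Mathlib.Tactic.Linarith.sub_nonpos_of_le hl) (Mathlib.Tactic.Linarith.sub_nonpos_of_le hl)]
  have h5 : lam ^ 2 < t ^ 2 * (256 * lam ^ 10) := by
    calc lam ^ 2 = 1 * lam ^ 2 := by ring
      _ < ((16 * lam ^ 4) ^ 2 * t ^ 2) * lam ^ 2 := mul_lt_mul_of_pos_right h2 (by positivity)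
      _ = _ := by ring
  exact h3.trans_lt (lt_of_mul_lt_mul_right (h4.trans_lt h5) (by positivity))

namespace Iet

variable {X : Type} {f : Equiv.Perm X} {Fr : Set X → ℝ} {φ : X → ℝ} {D : Finset ℝ}

/-- Contraction of windows for a position function `p`. -/
def Win (f : Equiv.Perm X) (p : X → ℝ) (A : ℝ) : Prop :=
  ∀ (y y' w : X) (m n : ℕ), 1 ≤ m → m < n →
    (∀ j ≤ m, p ((f ^ j) y) ≤ p ((f ^ j) w) ∧ p ((f ^ j) w) ≤ p ((f ^ j) y')) →
      p y ≤ p ((f ^ n) w) → p ((f ^ n) w) ≤ p y' →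
      ∑ j ∈ Finset.range m, (p ((f ^ j) y') - p ((f ^ j) y)) ≤
        A * Real.sqrt n * ((p y' - p y) + (p ((f ^ m) y') - p ((f ^ m) y)))

theorem decay (h : Iet f Fr φ D) {p : X → ℝ} {A H K : ℝ} (hp : ∀ x y, φ x < φ y → p x < p y)
    (hH : ∀ x y, p x - p y ≤ H) (hwin : Win f p A) {z lo hi : X} {ε : ℝ} {m N : ℕ}
    (hz : Far f φ D z ε (2 * m)) (hε : 0 < ε)
    (ha : |φ lo - φ z| ≤ ε) (hb : |φ hi - φ z| ≤ ε) (hτ : φ hi - φ lo ≤ ε) (hlt : φ lo < φ hi)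
    (hns : ∀ j : ℕ, 1 ≤ j → j ≤ 2 * m → φ hi - φ lo ≤ |φ ((f ^ j) z) - φ z|)
    (hN : 1 < (N : ℝ) * (φ hi - φ lo)) (hK0 : 0 < K) (hK : ∀ n : ℕ, n < N → A * Real.sqrt n ≤ K) :
    (p hi - p lo) * (1 + 1 / K) ^ m ≤ (2 * (m : ℝ) + 1) * H := by
  have hpos : ∀ i : ℤ, |i| ≤ (m : ℤ) → 0 ≤ p ((f ^ i) hi) - p ((f ^ i) lo) := by
    intro i hi'
    have hi2 : |i| ≤ ((2 * m : ℕ) : ℤ) := by push_cast; omega
    have e1 := h.transl0 hz hε ha hi2
    have e2 := h.transl0 hz hε hb hi2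
    exact sub_nonneg.2 (hp _ _ (by linarith only [hlt, e1, e2])).le
  have := grow (l := fun i => p ((f ^ i) hi) - p ((f ^ i) lo)) (m := m) (H := H) hK0 hpos
    (fun i => hH _ _) (by
      intro r hr1 hr
      obtain ⟨w, n, hn1, hn2, hw1, hw2, hw3⟩ := h.window hz hε ha hb hτ hns hN hr
      have h1 := hwin ((f ^ (-(r : ℤ))) lo) ((f ^ (-(r : ℤ))) hi) w (2 * r) n (by omega) hn1
        (fun j hj => ⟨(hp _ _ (hw1 j hj).1).le, (hp _ _ (hw1 j hj).2).le⟩)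
        (hp _ _ hw2).le (hp _ _ hw3).le
      have e : ∀ (j : ℕ) (y : X), (f ^ j) ((f ^ (-(r : ℤ))) y) = (f ^ ((j : ℤ) - r)) y := by
        intro j y
        rw [← zpow_natCast, zp_add, ← sub_eq_add_neg]
      simp only [e] at h1
      rw [show (((2 * r : ℕ) : ℤ) - r) = r by push_cast; ring] at h1
      refine h1.trans (mul_le_mul_of_nonneg_right (hK n hn2) ?_)
      have a1 := hpos (-(r : ℤ)) (by rw [abs_le]; omega)
      have a2 := hpos (r : ℤ) (by rw [abs_le]; omega)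
      linarith only [a1, a2])
  simpa using this

theorem main [TopologicalSpace X] [CompactSpace X] (h : Iet f Fr φ D)
    (cont : ∀ i : ℤ, Continuous fun x => φ ((f ^ i) x)) {p : X → ℝ} {A H : ℝ}
    (hp : ∀ x y, φ x < φ y → p x < p y) (hH0 : 0 ≤ H) (hH : ∀ x y, p x - p y ≤ H)
    (hwin : Win f p A) (M : ℝ) :
    ∃ (z : X) (T : ℕ), 1 ≤ T ∧ φ ((f ^ T) z) - φ z ≠ 0 ∧
      M * T * (p ((f ^ T) z) - p z) ^ 2 < (φ ((f ^ T) z) - φ z) ^ 2 := by
  classical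
  set A' : ℝ := max A 1 with hA'
  have hA1 : 1 ≤ A' := le_max_right _ _
  set c : ℝ := 21 * H * (4 * A') ^ 10 with hc
  obtain ⟨k0, hk0⟩ := pow_unbounded_of_one_lt
    (max (656 * (D.card : ℝ)) (max 80 (2048 * |M| * c ^ 2))) (show (1 : ℝ) < 2 by norm_num)
  have hk1 : 656 * (D.card : ℝ) ≤ 2 ^ k0 := ((le_max_left _ _).trans_lt hk0).le
  have hk2 : (80 : ℝ) < 2 ^ k0 := ((le_max_left _ _).trans (le_max_right _ _)).trans_lt hk0
  have hk3 : 2048 * |M| * c ^ 2 ≤ 2 ^ k0 :=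
    (((le_max_right _ _).trans (le_max_right _ _)).trans_lt hk0).le
  obtain ⟨z, hex, hfar⟩ := h.exists_good cont hk1
  have hsmall : ∀ k : ℕ, k0 ≤ k → ((20 * 8 ^ k : ℕ) : ℝ) * (4 * (1 / 16 : ℝ) ^ k) < 1 := by
    intro k hk
    have e : (8 : ℝ) ^ k * (1 / 16 : ℝ) ^ k = (1 / 2) ^ k := by
      rw [← mul_pow]; norm_num
    have h2 : (2 : ℝ) ^ k0 ≤ 2 ^ k := pow_le_pow_right₀ (by norm_num) hk
    push_cast
    calc 20 * (8 : ℝ) ^ k * (4 * (1 / 16 : ℝ) ^ k) = 80 * ((8 : ℝ) ^ k * (1 / 16 : ℝ) ^ k) := by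
          ring
      _ = 80 / 2 ^ k := by rw [e, one_div_pow, mul_one_div]
      _ < 1 := by rw [div_lt_one (by positivity)]; linarith only [hk2, h2]
  have hex' : ∃ j : ℕ, 1 ≤ j ∧ |φ ((f ^ j) z) - φ z| ≤ (1 / 16 : ℝ) ^ k0 := by
    obtain ⟨j, a, -, b⟩ := hex
    exact ⟨j, a, b⟩
  obtain ⟨T, ⟨hT1, hTt⟩, hTmin⟩ : ∃ T : ℕ, (1 ≤ T ∧ |φ ((f ^ T) z) - φ z| ≤ (1 / 16 : ℝ) ^ k0) ∧
      ∀ j : ℕ, (1 ≤ j ∧ |φ ((f ^ j) z) - φ z| ≤ (1 / 16 : ℝ) ^ k0) → T ≤ j :=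
    ⟨Nat.find hex', Nat.find_spec hex', fun j hj => Nat.find_min' hex' hj⟩
  have hTle : T ≤ 8 * 16 ^ k0 := by
    obtain ⟨j, a, b, c⟩ := hex
    exact (hTmin j ⟨a, c⟩).trans b.le
  have ht0 : φ ((f ^ T) z) - φ z ≠ 0 := by
    intro h0
    have hTM : T ≤ 20 * 8 ^ (2 * k0) := by
      have : 16 ^ k0 ≤ 8 ^ (2 * k0) := by
        rw [pow_mul]
        exact Nat.pow_le_pow_left (by norm_num) _
      omega
    have hε : (0 : ℝ) < (1 / 16 : ℝ) ^ (2 * k0) := by positivity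
    have := h.two_sided (hfar (2 * k0) (by omega)) hε hT1 hTM hT1 hTM (by linarith only [h0, hε]) h0.le h0.ge
      (by linarith only [h0, hε])
    linarith only [this, hsmall, hex, hex', hsmall (2 * k0) (by omega)]
  obtain ⟨k, hk4, hk5⟩ := exists_nat_pow_near_of_lt_one (abs_pos.2 ht0)
    (hTt.trans (pow_le_one₀ (by norm_num) (by norm_num))) (show (0 : ℝ) < 1 / 16 by norm_num)
    (show (1 / 16 : ℝ) < 1 by norm_num)
  have hkk : k0 ≤ k := by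
    by_contra hc
    have : (1 / 16 : ℝ) ^ k0 ≤ (1 / 16) ^ (k + 1) :=
      pow_le_pow_of_le_one (by norm_num) (by norm_num) (by omega)
    linarith only [hTt, hk4, this]
  have hε : (0 : ℝ) < (1 / 16 : ℝ) ^ k := by positivity
  have hz := hfar k hkk
  have hns := h.noshort hz hε (hsmall k hkk) hT1 hk5 (by
    intro j hj1 hjT
    by_contra hc
    push Not at hc
    have := hTmin j ⟨hj1, hc.le.trans hTt⟩
    omega)
  rw [show 20 * 8 ^ k = 2 * (10 * 8 ^ k) by ring] at hz hns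
  have e16 : (16 : ℝ) ^ k = ((2 : ℝ) ^ k) ^ 4 := by rw [← pow_mul, mul_comm, pow_mul]; norm_num
  have hN : 1 < ((16 ^ (k + 1) : ℕ) : ℝ) * |φ ((f ^ T) z) - φ z| := by
    rw [one_div_pow, div_lt_iff₀ (by positivity)] at hk4
    rw [Nat.cast_pow, Nat.cast_ofNat]
    linarith only [hk4]
  have hK0 : 0 < 4 * A' * 4 ^ k := by positivity
  have hK : ∀ n : ℕ, n < 16 ^ (k + 1) → A * Real.sqrt n ≤ 4 * A' * 4 ^ k := by
    intro n hn
    have h1 : Real.sqrt n ≤ 4 * 4 ^ k := by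
      rw [Real.sqrt_le_left (by positivity)]
      have : (n : ℝ) ≤ ((16 ^ (k + 1) : ℕ) : ℝ) := by exact_mod_cast hn.le
      refine this.trans (le_of_eq ?_)
      push_cast
      rw [mul_pow, ← pow_mul, mul_comm k 2, pow_mul, pow_succ]
      norm_num
      ring
    calc A * Real.sqrt n ≤ A' * Real.sqrt n :=
          mul_le_mul_of_nonneg_right (le_max_left _ _) (Real.sqrt_nonneg _)
      _ ≤ A' * (4 * 4 ^ k) := mul_le_mul_of_nonneg_left h1 (by linarith only [hA1])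
      _ = 4 * A' * 4 ^ k := by ring
  have hz0 : |φ z - φ z| ≤ (1 / 16 : ℝ) ^ k := by rw [sub_self, abs_zero]; exact hε.le
  have hd : |p ((f ^ T) z) - p z| * ((2 : ℝ) ^ k) ^ 7 ≤ c := by
    rcases lt_or_gt_of_ne ht0 with hs | hs
    · have ea : |φ ((f ^ T) z) - φ z| = φ z - φ ((f ^ T) z) := by rw [abs_of_neg hs]; ring
      have hlt : φ ((f ^ T) z) < φ z := by linarith only [hs]
      have := h.decay hp hH hwin hz hε hk5 hz0 (by rw [← ea]; exact hk5) hlt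
        (by rw [← ea]; exact hns) (by rw [← ea]; exact hN) hK0 hK
      have hd0 := (hp _ _ hlt).le
      rw [abs_sub_comm, abs_of_nonneg (sub_nonneg.2 hd0)]
      exact grow_num (sub_nonneg.2 hd0) hA1 hH0 this
    · have ea : |φ ((f ^ T) z) - φ z| = φ ((f ^ T) z) - φ z := abs_of_pos hs
      have hlt : φ z < φ ((f ^ T) z) := by linarith only [hs]
      have := h.decay hp hH hwin hz hε hz0 hk5 (by rw [← ea]; exact hk5) hlt
        (by rw [← ea]; exact hns) (by rw [← ea]; exact hN) hK0 hK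
      have hd0 := (hp _ _ hlt).le
      rw [abs_of_nonneg (sub_nonneg.2 hd0)]
      exact grow_num (sub_nonneg.2 hd0) hA1 hH0 this
  refine ⟨z, T, hT1, ht0, ?_⟩
  rw [← sq_abs (p ((f ^ T) z) - p z)]
  have h2 : (2 : ℝ) ^ k0 ≤ 2 ^ k := pow_le_pow_right₀ (by norm_num) hkk
  refine final_num (lam := 2 ^ k) (abs_nonneg _) (one_le_pow₀ (by norm_num)) (by positivity) ?_ hd
    ?_ (hk3.trans h2)
  · rw [← e16]
    have h3 : (T : ℝ) ≤ ((8 * 16 ^ k0 : ℕ) : ℝ) := by exact_mod_cast hTle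
    have h4 : (16 : ℝ) ^ k0 ≤ 16 ^ k := pow_le_pow_right₀ (by norm_num) hkk
    push_cast at h3
    linarith only [h4, h3]
  · rw [← e16]
    rw [Nat.cast_pow, Nat.cast_ofNat, pow_succ] at hN
    linarith only [hN]

end Iet

end Pool.Agent.Work.MP_1ce82a_an
end

-- merged part: Pool.Agent.Work.MP_1ce82a_an.C.Theta
section
/-! The distribution function of an invariant frequency on a compact subset of the line. -/

open Set Filter Topology

namespace Pool.Agent.Work.MP_1ce82a_an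

/-- Locally increasing and Lipschitz bijections of a subset of the line. -/
def LocM {Y : Set ℝ} (g : Equiv.Perm Y) (r C : ℝ) : Prop :=
  ∀ y y' : Y, (y : ℝ) < y' → (y' : ℝ) ≤ y + r →
    ((g y : Y) : ℝ) < (g y' : Y) ∧ ((g y' : Y) : ℝ) - (g y : Y) ≤ C * ((y' : ℝ) - y)

/-- The distribution function. -/
def dist1 {Y : Set ℝ} (Fr : Set Y → ℝ) (t : ℝ) : ℝ := Fr {x | (x : ℝ) ≤ t}

variable {Y : Set ℝ} {g : Equiv.Perm Y} {Fr : Set Y → ℝ} {r C : ℝ}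

theorem LocM.lip (h : LocM g r C) {y y' : Y} (hy : |(y : ℝ) - y'| ≤ r) :
    |((g y : Y) : ℝ) - (g y' : Y)| ≤ max C 1 * |(y : ℝ) - y'| := by
  have hC : C ≤ max C 1 := le_max_left _ _
  rw [abs_le] at hy
  rcases lt_trichotomy (y : ℝ) y' with a | a | a
  · obtain ⟨h1, h2⟩ := h y y' a (by linarith only [hy, hy.1])
    rw [abs_of_neg (by linarith), abs_of_neg (by linarith)]
    linarith only [h2, hC, a, mul_nonneg_of_nonpos_of_nonpos (Mathlib.Tactic.Linarith.sub_nonpos_of_le hC) (le_of_lt (Mathlib.Tactic.Linarith.sub_neg_of_lt a))]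
  · have : y = y' := Subtype.ext a
    subst this
    simp
  · obtain ⟨h1, h2⟩ := h y' y a (by linarith [hy.2])
    rw [abs_of_pos (by linarith), abs_of_pos (by linarith)]
    linarith only [h2, hC, a, mul_nonneg_of_nonpos_of_nonpos (Mathlib.Tactic.Linarith.sub_nonpos_of_le hC) (le_of_lt (Mathlib.Tactic.Linarith.sub_neg_of_lt a))]

theorem LocM.cont (h : LocM g r C) (hr : 0 < r) : Continuous g := by
  have hC : (0 : ℝ) < max C 1 := lt_of_lt_of_le one_pos (le_max_right _ _)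
  rw [Metric.continuous_iff]
  intro b ε hε
  refine ⟨min r (ε / max C 1), lt_min hr (by positivity), fun a ha => ?_⟩
  rw [Subtype.dist_eq, Real.dist_eq] at ha ⊢
  have h1 := h.lip (ha.le.trans (min_le_left _ _))
  have h2 : |(a : ℝ) - b| < ε / max C 1 := ha.trans_le (min_le_right _ _)
  rw [lt_div_iff₀ hC] at h2
  linarith only [h1, h2]

theorem cont_pow (h : Continuous g) (n : ℕ) : Continuous (g ^ n : Equiv.Perm Y) := by
  induction n with
  | zero => exact continuous_id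
  | succ n ih =>
    rw [pow_succ, Equiv.Perm.coe_mul]
    exact ih.comp h

theorem cont_zpow (h : Continuous g) (h' : Continuous (g⁻¹ : Equiv.Perm Y)) (i : ℤ) :
    Continuous (g ^ i : Equiv.Perm Y) := by
  obtain ⟨n, rfl | rfl⟩ := Int.eq_nat_or_neg i
  · rw [zpow_natCast]
    exact cont_pow h n
  · rw [zpow_neg, zpow_natCast, ← inv_pow]
    exact cont_pow h' n

theorem small_nhds (hm : IsMean g Fr) (hc : Continuous g)
    (hap : ∀ (y : Y) (n : ℕ), (g ^ n) y = y → n = 0) (y : Y) {η : ℝ} (hη : 0 < η) :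
    ∃ V ∈ 𝓝 y, Fr V ≤ η := by
  obtain ⟨N, hN⟩ := exists_nat_gt (1 / η)
  have h1 : ∀ n ∈ Finset.Ico 1 N, ∀ᶠ q : Y × Y in 𝓝 (y, y), (g ^ n) q.1 ≠ q.2 := by
    intro n hn
    have ho : IsOpen {q : Y × Y | (g ^ n) q.1 ≠ q.2} :=
      isOpen_ne_fun ((cont_pow hc n).comp continuous_fst) continuous_snd
    refine ho.mem_nhds ?_
    intro he
    have := hap y n he
    have := (Finset.mem_Ico.1 hn).1
    omega
  have h2 := (Finset.eventually_all _).2 h1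
  rw [nhds_prod_eq] at h2
  obtain ⟨V, hV, hV'⟩ := (Filter.eventually_prod_self_iff
    (r := fun a b : Y => ∀ n ∈ Finset.Ico 1 N, (g ^ n) a ≠ b)).1 h2
  refine ⟨V, hV, ?_⟩
  have h3 := hm.pigeon (B := V) (N := N) fun n hn1 hn w hw hw' =>
    hV' w hw _ hw' n (Finset.mem_Ico.2 ⟨hn1, hn⟩) rfl
  have hN0 : (0 : ℝ) < N := lt_trans (by positivity) hN
  rw [div_lt_iff₀ hη] at hN
  (refine le_of_not_gt fun h_nl => ?_; linarith only [h_nl, hN, h3, mul_nonneg_of_nonpos_of_nonpos (Mathlib.Tactic.Linarith.sub_nonpos_of_le (Mathlib.Tactic.Linarith.natCast_nonneg ℝ N)) (le_of_lt (Mathlib.Tactic.Linarith.sub_neg_of_lt h_nl))])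

theorem small_ball (hY : IsClosed Y) (hm : IsMean g Fr) (hc : Continuous g)
    (hap : ∀ (y : Y) (n : ℕ), (g ^ n) y = y → n = 0) (t : ℝ) {η : ℝ} (hη : 0 < η) :
    ∃ ρ : ℝ, 0 < ρ ∧ Fr {x | |(x : ℝ) - t| < ρ} ≤ η := by
  by_cases ht : t ∈ Y
  · obtain ⟨V, hV, hV'⟩ := small_nhds hm hc hap ⟨t, ht⟩ hη
    obtain ⟨ρ, hρ, hsub⟩ := Metric.mem_nhds_iff.1 hV
    refine ⟨ρ, hρ, (hm.mono fun x hx => hsub ?_).trans hV'⟩
    rw [Metric.mem_ball, Subtype.dist_eq, Real.dist_eq]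
    exact hx
  · obtain ⟨ρ, hρ, hsub⟩ := Metric.mem_nhds_iff.1 (hY.isOpen_compl.mem_nhds ht)
    refine ⟨ρ, hρ, ?_⟩
    have : {x : Y | |(x : ℝ) - t| < ρ} = ∅ := by
      rw [Set.eq_empty_iff_forall_notMem]
      intro x hx
      exact hsub (show (x : ℝ) ∈ Metric.ball t ρ from hx) x.2
    rw [this, hm.empty]
    exact hη.le

theorem dist1_sub (hm : IsMean g Fr) {a b : ℝ} (hab : a ≤ b) :
    dist1 Fr b - dist1 Fr a = Fr {x | a < (x : ℝ) ∧ (x : ℝ) ≤ b} := by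
  have h1 : {x : Y | (x : ℝ) ≤ b} = {x : Y | (x : ℝ) ≤ a} ∪ {x : Y | a < (x : ℝ) ∧ (x : ℝ) ≤ b} := by
    ext x
    simp only [Set.mem_union, Set.mem_ofPred_eq]
    constructor
    · intro h
      rcases le_or_gt (x : ℝ) a with c | c
      · exact Or.inl c
      · exact Or.inr ⟨c, h⟩
    · rintro (h | h)
      · exact h.trans hab
      · exact h.2
  rw [dist1, dist1, h1, hm.add]
  · ring
  · rw [Set.disjoint_left]
    intro x hx hx'
    exact absurd hx'.1 (not_lt.2 hx)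

theorem dist1_mono (hm : IsMean g Fr) : Monotone (dist1 Fr) := by
  intro a b hab
  have := dist1_sub hm hab
  linarith only [this, hm, hm.nonneg {x | a < (x : ℝ) ∧ (x : ℝ) ≤ b}]

theorem dist1_cont (hY : IsClosed Y) (hm : IsMean g Fr) (hc : Continuous g)
    (hap : ∀ (y : Y) (n : ℕ), (g ^ n) y = y → n = 0) : Continuous (dist1 Fr) := by
  rw [Metric.continuous_iff]
  intro b ε hε
  obtain ⟨ρ, hρ, hρ'⟩ := small_ball hY hm hc hap b (half_pos hε)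
  refine ⟨ρ, hρ, fun a ha => ?_⟩
  rw [Real.dist_eq] at ha ⊢
  have ha' := abs_lt.1 ha
  rcases le_total a b with hab | hab
  · have h1 := dist1_sub hm hab
    have h2 := dist1_mono hm hab
    have h3 : Fr {x | a < (x : ℝ) ∧ (x : ℝ) ≤ b} ≤ Fr {x | |(x : ℝ) - b| < ρ} :=
      hm.mono fun x hx => show |(x : ℝ) - b| < ρ from
        abs_lt.2 ⟨by linarith only [ha', hx, hx.1, ha'.1], by linarith only [hρ, hx, hx.2]⟩
    rw [abs_of_nonpos (by linarith only [h2])]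
    linarith only [hε, hρ', h1, h3]
  · have h1 := dist1_sub hm hab
    have h2 := dist1_mono hm hab
    have h3 : Fr {x | b < (x : ℝ) ∧ (x : ℝ) ≤ a} ≤ Fr {x | |(x : ℝ) - b| < ρ} :=
      hm.mono fun x hx => show |(x : ℝ) - b| < ρ from
        abs_lt.2 ⟨by linarith only [hρ, hx, hx.1], by linarith only [ha', hx, hx.2, ha'.2]⟩
    rw [abs_of_nonneg (by linarith only [h2])]
    linarith only [hε, hρ', h1, h3]

theorem dist1_off (hY : IsClosed Y) {t : ℝ} (ht : t ∉ Y) :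
    ∀ᶠ t' in 𝓝 t, dist1 Fr t' = dist1 Fr t := by
  obtain ⟨ρ, hρ, hsub⟩ := Metric.mem_nhds_iff.1 (hY.isOpen_compl.mem_nhds ht)
  filter_upwards [Metric.ball_mem_nhds t hρ] with t' ht'
  rw [dist1, dist1]
  congr 1
  ext x
  have hx : ¬ |(x : ℝ) - t| < ρ := fun hx => hsub (show (x : ℝ) ∈ Metric.ball t ρ from hx) x.2
  rw [Metric.mem_ball, Real.dist_eq, abs_lt] at ht'
  rw [abs_lt, not_and_or, not_lt, not_lt] at hx
  simp only [Set.mem_ofPred_eq]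
  constructor
  · intro h
    rcases hx with c | c <;> linarith only [hρ, c, ht', h, ht'.1, ht'.2]
  · intro h
    rcases hx with c | c <;> linarith only [ht', c, hρ, h, ht'.1, ht'.2]

theorem fr_point (hY : IsClosed Y) (hm : IsMean g Fr) (hc : Continuous g)
    (hap : ∀ (y : Y) (n : ℕ), (g ^ n) y = y → n = 0) (t : ℝ) : Fr {x | (x : ℝ) = t} ≤ 0 := by
  refine le_of_forall_pos_le_add fun η hη => ?_
  obtain ⟨ρ, hρ, hρ'⟩ := small_ball hY hm hc hap t hη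
  rw [zero_add]
  refine (hm.mono fun x hx => ?_).trans hρ'
  have : (x : ℝ) = t := hx
  show |(x : ℝ) - t| < ρ
  rw [this, sub_self, abs_zero]
  exact hρ

theorem dist1_leb (hY : IsCompact Y) (hm : IsMean g Fr) (hc : Continuous g)
    (hap : ∀ (y : Y) (n : ℕ), (g ^ n) y = y → n = 0) {a b : ℝ} (hab : a ≤ b) :
    Fr {x | a ≤ dist1 Fr x ∧ dist1 Fr x ≤ b} ≤ b - a := by
  have : CompactSpace Y := isCompact_iff_compactSpace.1 hY
  have hθ : Continuous fun x : Y => dist1 Fr x :=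
    (dist1_cont hY.isClosed hm hc hap).comp continuous_subtype_val
  have hS : IsCompact {x : Y | a ≤ dist1 Fr x ∧ dist1 Fr x ≤ b} :=
    ((isClosed_le continuous_const hθ).inter (isClosed_le hθ continuous_const)).isCompact
  rcases Set.eq_empty_or_nonempty {x : Y | a ≤ dist1 Fr x ∧ dist1 Fr x ≤ b} with he | hne
  · rw [he, hm.empty]
    linarith only [hab]
  · obtain ⟨u, hu, hu'⟩ := hS.exists_isMinOn hne continuous_subtype_val.continuousOn
    obtain ⟨v, hv, hv'⟩ := hS.exists_isMaxOn hne continuous_subtype_val.continuousOn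
    have h1 : {x : Y | a ≤ dist1 Fr x ∧ dist1 Fr x ≤ b} ⊆
        {x : Y | (x : ℝ) = u} ∪ {x : Y | (u : ℝ) < x ∧ (x : ℝ) ≤ v} := by
      intro x hx
      have c1 : (u : ℝ) ≤ x := hu' hx
      have c2 : (x : ℝ) ≤ v := hv' hx
      rcases c1.eq_or_lt with c | c
      · exact Or.inl c.symm
      · exact Or.inr ⟨c, c2⟩
    have h2 := (hm.mono h1).trans (hm.union_le _ _)
    have h3 := fr_point hY.isClosed hm hc hap (u : ℝ)
    have h4 := dist1_sub hm (show (u : ℝ) ≤ v from hu' hv)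
    linarith only [h2, h3, h4, hu, hv, hu.1, hv.2]

theorem dist1_loc (hm : IsMean g Fr) (h1 : LocM g r C) (h2 : LocM g⁻¹ r C) (hr : 0 < r)
    {y y' : Y} (hy : |(y : ℝ) - y'| ≤ r / max C 1) :
    dist1 Fr (g y : Y) - dist1 Fr (g y' : Y) = dist1 Fr y - dist1 Fr y' := by
  have hC1 : (1 : ℝ) ≤ max C 1 := le_max_right _ _
  have hC : (0 : ℝ) < max C 1 := lt_of_lt_of_le one_pos hC1
  have hrr : r / max C 1 ≤ r := div_le_self hr.le hC1
  have key : ∀ a b : Y, (a : ℝ) < b → (b : ℝ) - a ≤ r / max C 1 →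
      dist1 Fr (g b : Y) - dist1 Fr (g a : Y) = dist1 Fr b - dist1 Fr a := by
    intro a b hab hd
    obtain ⟨c1, c2⟩ := h1 a b hab (by linarith only [hrr, hd])
    have c3 : ((g b : Y) : ℝ) - (g a : Y) ≤ r := by
      have : C * ((b : ℝ) - a) ≤ max C 1 * ((b : ℝ) - a) :=
        mul_le_mul_of_nonneg_right (le_max_left _ _) (by linarith only [hab])
      rw [le_div_iff₀ hC] at hd
      linarith only [hd, c2, this]
    rw [dist1_sub hm c1.le, dist1_sub hm hab.le, ← hm.inv]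
    congr 1
    ext x
    simp only [Set.mem_preimage, Set.mem_ofPred_eq]
    constructor
    · rintro ⟨d1, d2⟩
      constructor
      · simpa using (h2 (g a) (g x) d1 (by linarith only [c3, d2])).1
      · rcases d2.eq_or_lt with e | e
        · exact le_of_eq (congrArg Subtype.val (g.injective (Subtype.ext e)))
        · simpa using (h2 (g x) (g b) e (by linarith only [c3, d1])).1.le
    · rintro ⟨d1, d2⟩
      constructor
      · exact (h1 a x d1 (by linarith only [hrr, hd, d2])).1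
      · rcases d2.eq_or_lt with e | e
        · exact le_of_eq (congrArg (fun w : Y => ((g w : Y) : ℝ)) (Subtype.ext e))
        · exact (h1 x b e (by linarith only [hrr, hd, d1])).1.le
  rw [abs_le] at hy
  rcases lt_trichotomy (y : ℝ) y' with a | a | a
  · have := key y y' a (by linarith only [hy, hy.1])
    linarith only [this]
  · have : y = y' := Subtype.ext a
    subst this
    simp
  · exact key y' y a hy.2

theorem exists_levels (hY : IsCompact Y) (hm : IsMean g Fr) {ρ : ℝ} (hρ : 0 < ρ) :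
    ∃ D : Finset ℝ, ∀ x y : Y, (∀ d ∈ D, d ∉ uIcc (dist1 Fr x) (dist1 Fr y)) →
      |(x : ℝ) - y| ≤ ρ := by
  classical
  obtain ⟨B, hB⟩ := hY.isBounded.exists_norm_le
  refine ⟨(Finset.Icc ⌈-B / ρ⌉ ⌈B / ρ⌉).image fun i : ℤ => dist1 Fr (i * ρ), ?_⟩
  have key : ∀ x y : Y, (x : ℝ) + ρ < y → ∃ i ∈ Finset.Icc ⌈-B / ρ⌉ ⌈B / ρ⌉,
      dist1 Fr x ≤ dist1 Fr (i * ρ) ∧ dist1 Fr (i * ρ) ≤ dist1 Fr y := by
    intro x y hxy
    have hx := abs_le.1 (show |(x : ℝ)| ≤ B from hB x x.2)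
    refine ⟨⌈(x : ℝ) / ρ⌉, Finset.mem_Icc.2 ⟨Int.ceil_mono ?_, Int.ceil_mono ?_⟩,
      dist1_mono hm ?_, dist1_mono hm ?_⟩
    · exact div_le_div_of_nonneg_right hx.1 hρ.le
    · exact div_le_div_of_nonneg_right hx.2 hρ.le
    · rw [← div_le_iff₀ hρ]
      exact Int.le_ceil _
    · have := Int.ceil_lt_add_one ((x : ℝ) / ρ)
      have h2 : ((⌈(x : ℝ) / ρ⌉ : ℤ) : ℝ) * ρ ≤ ((x : ℝ) / ρ + 1) * ρ :=
        mul_le_mul_of_nonneg_right this.le hρ.le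
      rw [add_mul, div_mul_cancel₀ _ hρ.ne', one_mul] at h2
      linarith only [hxy, h2]
  intro x y hD
  by_contra hc
  rw [abs_le, not_and_or, not_le, not_le] at hc
  rcases hc with c | c
  · obtain ⟨i, hi, a, b⟩ := key x y (by linarith)
    exact hD _ (Finset.mem_image_of_mem _ hi) (Set.mem_uIcc_of_le a b)
  · obtain ⟨i, hi, a, b⟩ := key y x (by linarith)
    exact hD _ (Finset.mem_image_of_mem _ hi) (Set.mem_uIcc_of_ge a b)

end Pool.Agent.Work.MP_1ce82a_an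
end

-- merged part: Pool.Agent.Work.MP_1ce82a_an.C.Comb
section
/-! The combinatorial core: a minimal aperiodic local homeomorphism of a compact subset of the line which contracts
windows has returns that are much closer geometrically than in the invariant frequency.
See section 3 (COMB) of the write-up. Owner: helper27. -/

open Set Filter Topology MeasureTheory
open scoped ContDiff

namespace Pool.Agent.Work.MP_1ce82a_an

/-- The abstract return map. -/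
structure RetSys (Y : Set ℝ) (R Ri : ℝ → ℝ) (r C A : ℝ) : Prop where
  cpt : IsCompact Y
  ne : Y.Nonempty
  mapsR : ∀ y ∈ Y, R y ∈ Y
  mapsRi : ∀ y ∈ Y, Ri y ∈ Y
  inv1 : ∀ y ∈ Y, Ri (R y) = y
  inv2 : ∀ y ∈ Y, R (Ri y) = y
  r_pos : 0 < r
  loc : ∀ y ∈ Y, ∀ y' ∈ Y, y < y' → y' ≤ y + r →
    R y < R y' ∧ R y' - R y ≤ C * (y' - y) ∧ Ri y < Ri y' ∧ Ri y' - Ri y ≤ C * (y' - y)
  aper : ∀ y ∈ Y, ∀ n : ℕ, R^[n] y = y → n = 0
  synd : ∀ y ∈ Y, ∀ ε : ℝ, 0 < ε → ∃ N : ℕ, ∀ z ∈ Y, ∃ j ≤ N, |R^[j] z - y| < ε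
  win : ∀ y ∈ Y, ∀ y' ∈ Y, ∀ w ∈ Y, ∀ m n : ℕ, 1 ≤ m → m < n →
    (∀ j ≤ m, R^[j] y ≤ R^[j] w ∧ R^[j] w ≤ R^[j] y') → y ≤ R^[n] w → R^[n] w ≤ y' →
      ∑ j ∈ Finset.range m, (R^[j] y' - R^[j] y) ≤
        A * Real.sqrt n * ((y' - y) + (R^[m] y' - R^[m] y))

/-- The return map as a bijection of `Y`. -/
def RetSys.perm {Y : Set ℝ} {R Ri : ℝ → ℝ} {r C A : ℝ} (h : RetSys Y R Ri r C A) :
    Equiv.Perm Y :=
  ⟨fun y => ⟨R y, h.mapsR y y.2⟩, fun y => ⟨Ri y, h.mapsRi y y.2⟩,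
    fun y => Subtype.ext (h.inv1 y y.2), fun y => Subtype.ext (h.inv2 y y.2)⟩

theorem RetSys.perm_pow {Y : Set ℝ} {R Ri : ℝ → ℝ} {r C A : ℝ} (h : RetSys Y R Ri r C A)
    (n : ℕ) (y : Y) : (((h.perm ^ n) y : Y) : ℝ) = R^[n] y := by
  induction n with
  | zero => rfl
  | succ n ih =>
    rw [pow_succ', Equiv.Perm.mul_apply, Function.iterate_succ_apply', ← ih]
    rfl

theorem comb {Y : Set ℝ} {R Ri : ℝ → ℝ} {r C A : ℝ} (h : RetSys Y R Ri r C A) :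
    ∃ θ : ℝ → ℝ, Continuous θ ∧ (∀ y, 0 ≤ θ y ∧ θ y ≤ 1) ∧
      (∀ y, y ∉ Y → ∀ᶠ y' in 𝓝 y, θ y' = θ y) ∧
      (∀ y ∈ Y, ∀ᶠ y' in 𝓝[Y] y, θ (R y') - θ y' = θ (R y) - θ y) ∧
      ∀ M : ℝ, ∃ z ∈ Y, ∃ T : ℕ, 1 ≤ T ∧
        M * T * (R^[T] z - z) ^ 2 < (θ (R^[T] z) - θ z) ^ 2 ∧
        M * (R^[T] z - z) ^ 2 < |θ (R^[T] z) - θ z| := by
  have : CompactSpace Y := isCompact_iff_compactSpace.1 h.cpt
  obtain ⟨y0, hy0⟩ := h.ne
  obtain ⟨Fr, hm⟩ := exists_mean h.perm ⟨y0, hy0⟩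
  have l1 : LocM h.perm r C := fun y y' a b =>
    ⟨(h.loc y y.2 y' y'.2 a b).1, (h.loc y y.2 y' y'.2 a b).2.1⟩
  have l2 : LocM h.perm⁻¹ r C := fun y y' a b =>
    ⟨(h.loc y y.2 y' y'.2 a b).2.2.1, (h.loc y y.2 y' y'.2 a b).2.2.2⟩
  have c1 := l1.cont h.r_pos
  have c2 := l2.cont h.r_pos
  have hap : ∀ (y : Y) (n : ℕ), (h.perm ^ n) y = y → n = 0 := fun y n e =>
    h.aper y y.2 n (by rw [← h.perm_pow, e])
  have hθ := dist1_cont h.cpt.isClosed hm c1 hap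
  have hρ : 0 < r / max C 1 := div_pos h.r_pos (lt_of_lt_of_le one_pos (le_max_right _ _))
  obtain ⟨D, hD⟩ := exists_levels h.cpt hm hρ
  have hI : Iet h.perm Fr (fun x => dist1 Fr x) D := by
    refine ⟨hm, fun x => ⟨hm.nonneg _, hm.le_one _⟩, fun a b hab => dist1_leb h.cpt hm c1 hap hab,
      fun x y hxy => dist1_loc hm l1 l2 h.r_pos (hD x y hxy),
      fun x y hxy => dist1_loc hm.symm l2 (by rw [inv_inv]; exact l1) h.r_pos (hD x y hxy),
      fun z x η hη => ?_⟩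
    obtain ⟨δ, hδ, hδ'⟩ := Metric.continuous_iff.1 hθ x η hη
    obtain ⟨N, hN⟩ := h.synd x x.2 δ hδ
    obtain ⟨j, -, hj⟩ := hN z z.2
    refine ⟨j, ?_⟩
    rw [h.perm_pow]
    exact hδ' _ hj
  refine ⟨dist1 Fr, hθ, fun y => ⟨hm.nonneg _, hm.le_one _⟩,
    fun y hy => dist1_off h.cpt.isClosed hy, fun y hy => ?_, fun M => ?_⟩
  · filter_upwards [self_mem_nhdsWithin, nhdsWithin_le_nhds (Metric.ball_mem_nhds y hρ)]
      with y' hy' hb
    have e : dist1 Fr (R y') - dist1 Fr (R y) = dist1 Fr y' - dist1 Fr y :=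
      dist1_loc hm l1 l2 h.r_pos (y := ⟨y', hy'⟩) (y' := ⟨y, hy⟩) (le_of_lt hb)
    linarith only [e]
  · obtain ⟨B, hB⟩ := h.cpt.isBounded.exists_norm_le
    have hB0 : 0 ≤ B := (norm_nonneg _).trans (hB y0 hy0)
    obtain ⟨z, T, hT, ht0, hM⟩ := hI.main (p := fun x => (x : ℝ)) (A := A) (H := 2 * B)
      (fun i => hθ.comp (continuous_subtype_val.comp (cont_zpow c1 c2 i)))
      (fun x y hxy => (dist1_mono hm).reflect_lt hxy) (by linarith only [hB0])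
      (fun x y => by
        have a := abs_le.1 (show |(x : ℝ)| ≤ B from hB x x.2)
        have b := abs_le.1 (show |(y : ℝ)| ≤ B from hB y y.2)
        linarith only [a, b, a.2, b.1])
      (fun y y' w m n h1 h2 h3 h4 h5 => by
        simp only [h.perm_pow] at h3 h4 h5 ⊢
        exact h.win y y.2 y' y'.2 w w.2 m n h1 h2 h3 h4 h5) M
    simp only [h.perm_pow] at ht0 hM
    refine ⟨z, z.2, T, hT, hM, ?_⟩
    have hpos := abs_pos.2 ht0
    rcases le_total M 0 with hM0 | hM0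
    · exact (mul_nonpos_of_nonpos_of_nonneg hM0 (sq_nonneg _)).trans_lt hpos
    · have a1 : dist1 Fr (R^[T] z) ≤ 1 := hm.le_one _
      have a2 : 0 ≤ dist1 Fr (R^[T] z) := hm.nonneg _
      have a3 : dist1 Fr z ≤ 1 := hm.le_one _
      have a4 : 0 ≤ dist1 Fr z := hm.nonneg _
      have a5 : |dist1 Fr (R^[T] z) - dist1 Fr z| ≤ 1 := abs_le.2 ⟨by linarith only [a2, a3], by linarith only [a1, a4]⟩
      have a6 : (1 : ℝ) ≤ T := by exact_mod_cast hT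
      have a7 : M * (R^[T] z - z) ^ 2 ≤ M * T * (R^[T] z - z) ^ 2 :=
        mul_le_mul_of_nonneg_right (le_mul_of_one_le_right hM0 a6) (sq_nonneg _)
      rw [← sq_abs (dist1 Fr (R^[T] z) - dist1 Fr z)] at hM
      linarith only [hM, a7, hpos, a5, mul_nonneg_of_nonpos_of_nonpos (le_of_lt (Mathlib.Tactic.Linarith.sub_neg_of_lt hpos)) (Mathlib.Tactic.Linarith.sub_nonpos_of_le a5)]

end Pool.Agent.Work.MP_1ce82a_an
end

-- merged part: Pool.Agent.Work.MP_1ce82a_an.L.NCr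
section
/-! First returns for an abstract system of crossings.
PLAN. Two crossing times of one point are equal or differ by more than t0 (symm, trans, sep), and equal times give the same element and point (uniq). exists_ret: among the positive crossing times at most T0 choose one
with least integer ceiling of T / t0 (Nat.find); it is the least one. Local lemma: there are C, rho with s y2 = s y1, |tt y2 - tt y1| <= C |y2 - y1|, |R y2 - R y1| <= C |y2 - y1| for |y2 - y1| <= rho: apply cross with Tm = T0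
in both directions and take 2 C rho < t0. So R and tt, hence the iterates of R and Tn n, are continuous on Y. Iteration lemma: a crossing Cr y T g y' with 0 <= T has T = Tn n y, y' = R^[n] y and n t0 <= T for some n
(induction on a bound N with T <= N t0, removing the first return). hol: for S0 >= 0 write S0 = Tn n a; eventually S i and Tn n (y1 i) are crossing times of y1 i closer than t0, so y2 i = R^[n] (y1 i), and
theta (R^[n] y) - theta y is locally constant on Y by induction; for S0 <= 0 exchange the roles with symm. retSys_of: Ri (R y) = y from first of both maps; R increasing from ord; Ri increasing because it is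
injective, Lipschitz, and R is increasing; aper from Ret.iter; synd from the iteration lemma with N = ceiling of Tm / t0. -/

open Set Filter Topology

namespace Pool.Agent.Work.MP_1ce82a_an

variable {G : Type} [Group G] {Y : Set ℝ} {Cr : ℝ → ℝ → G → ℝ → Prop} {t0 T0 : ℝ}
  {R tt Ri ti : ℝ → ℝ} {s si : ℝ → G}

theorem NCr_two (h : CrBase Y Cr t0 T0) {y T T' y' y'' : ℝ} {γ γ' : G} (h1 : Cr y T γ y')
    (h2 : Cr y T' γ' y'') (hd : |T' - T| ≤ t0) : T' = T ∧ γ' = γ ∧ y'' = y' := by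
  have h3 := h.trans _ _ _ _ _ _ _ (h.symm _ _ _ _ h1) h2
  rw [neg_add_eq_sub] at h3
  have h4 := (h.sep _ _ _ _ h3).resolve_right hd.not_gt
  rw [h4] at h3
  obtain ⟨a, b⟩ := h.uniq _ _ _ h3
  exact ⟨sub_eq_zero.1 h4, (inv_mul_eq_one.1 a).symm, b⟩

theorem CrBase.rev (h : CrBase Y Cr t0 T0) : CrBase Y (fun y T γ y' => Cr y (-T) γ y') t0 T0 where
  t0_pos := h.t0_pos
  mem _ _ _ _ hc := h.mem _ _ _ _ hc
  refl y hy := by simpa only [neg_zero] using h.refl y hy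
  symm _ _ _ _ hc := h.symm _ _ _ _ hc
  trans _ _ _ _ _ _ _ h1 h2 := by simpa only [neg_add] using h.trans _ _ _ _ _ _ _ h1 h2
  sep _ _ _ _ hc := by simpa only [neg_eq_zero, abs_neg] using h.sep _ _ _ _ hc
  uniq _ _ _ hc := h.uniq _ _ _ (by simpa only [neg_zero] using hc)
  fwd := h.bwd
  bwd := by simpa only [neg_neg] using h.fwd
  cross Tm := by
    obtain ⟨C, ρ, hC, hρ, H⟩ := h.cross Tm
    refine ⟨C, ρ, hC, hρ, fun y1 T1 γ y1' y2 hy hc h1 h2 => ?_⟩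
    obtain ⟨T2, y2', a, b, c⟩ := H y1 (-T1) γ y1' y2 hy hc (by rwa [abs_neg]) h2
    exact ⟨-T2, y2', by rwa [neg_neg], by rwa [← abs_neg, neg_sub', neg_neg], c⟩

theorem CrBase.exists_ret (h : CrBase Y Cr t0 T0) :
    ∃ (R tt : ℝ → ℝ) (s : ℝ → G), Ret Y Cr T0 R tt s := by
  classical
  have key : ∀ y ∈ Y, ∃ (y' T : ℝ) (γ : G), Cr y T γ y' ∧ 0 < T ∧ T ≤ T0 ∧
      ∀ T' γ' y'', Cr y T' γ' y'' → 0 < T' → T ≤ T' := fun y hy => by
    have hex : ∃ n : ℕ, ∃ T γ y', Cr y T γ y' ∧ 0 < T ∧ T ≤ T0 ∧ T ≤ (n + 1) * t0 := by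
      obtain ⟨T, γ, y', a, b, c⟩ := h.fwd y hy
      obtain ⟨n, hn⟩ := exists_nat_ge (T / t0)
      rw [div_le_iff₀ h.t0_pos] at hn
      exact ⟨n, T, γ, y', a, b, c, by linarith only [hn, h, h.t0_pos]⟩
    obtain ⟨T, γ, y', a, b, c, d⟩ := Nat.find_spec hex
    refine ⟨y', T, γ, a, b, c, fun T' γ' y'' a' b' => not_lt.1 fun hlt => ?_⟩
    have e : t0 < T - T' := not_le.1 fun hle =>
      hlt.ne' (NCr_two h a' a (by rwa [abs_of_pos (sub_pos.2 hlt)])).1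
    rcases hn : Nat.find hex with _ | n
    · rw [hn] at d
      push_cast at d
      linarith only [b', e, d]
    · rw [hn] at d
      push_cast at d
      exact Nat.find_min hex (m := n) (by omega) ⟨T', γ', y'', a', b', by linarith only [c, hlt], by linarith only [e, d]⟩
  choose! R tt s a b c d using key
  exact ⟨R, tt, s, a, b, c, fun y T γ y' hc => d y (h.mem _ _ _ _ hc).1 T γ y' hc⟩

theorem Ret.iter_mem (h : CrBase Y Cr t0 T0) (hR : Ret Y Cr T0 R tt s) (n : ℕ) {y : ℝ}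
    (hy : y ∈ Y) : R^[n] y ∈ Y :=
  MapsTo.iterate (fun y hy => (h.mem _ _ _ _ (hR.cr y hy)).2) n hy

theorem NCr_gt (h : CrBase Y Cr t0 T0) (hR : Ret Y Cr T0 R tt s) {y : ℝ} (hy : y ∈ Y) :
    t0 < tt y := by
  have := (h.sep _ _ _ _ (hR.cr y hy)).resolve_left (hR.pos y hy).ne'
  rwa [abs_of_pos (hR.pos y hy)] at this

theorem NCr_succ (R tt : ℝ → ℝ) (n : ℕ) (y : ℝ) :
    Tn R tt (n + 1) y = Tn R tt n y + tt (R^[n] y) := Finset.sum_range_succ _ _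

theorem NCr_zero (R tt : ℝ → ℝ) (y : ℝ) : Tn R tt 0 y = 0 := rfl

theorem Ret.iter (h : CrBase Y Cr t0 T0) (hR : Ret Y Cr T0 R tt s) (n : ℕ) {y : ℝ} (hy : y ∈ Y) :
    (∃ γ, Cr y (Tn R tt n y) γ (R^[n] y)) ∧ n * t0 ≤ Tn R tt n y ∧ Tn R tt n y ≤ n * T0 := by
  induction n with
  | zero => exact ⟨⟨1, h.refl y hy⟩, by simp [NCr_zero], by simp [NCr_zero]⟩
  | succ n ih =>
    obtain ⟨⟨γ, a⟩, b, c⟩ := ih
    have hm := hR.iter_mem h n hy
    rw [NCr_succ, Function.iterate_succ_apply']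
    push_cast
    exact ⟨⟨_, h.trans _ _ _ _ _ _ _ a (hR.cr _ hm)⟩, by linarith only [b, h, hR, hm, NCr_gt h hR hm],
      by linarith only [c, hR, hm, hR.le _ hm]⟩

theorem NCr_loc (h : CrBase Y Cr t0 T0) (hR : Ret Y Cr T0 R tt s) :
    ∃ C ρ : ℝ, 0 ≤ C ∧ 0 < ρ ∧ ∀ y1 ∈ Y, ∀ y2 ∈ Y, |y2 - y1| ≤ ρ → s y2 = s y1 ∧
      |tt y2 - tt y1| ≤ C * |y2 - y1| ∧ |R y2 - R y1| ≤ C * |y2 - y1| := by
  obtain ⟨C, ρ, hC, hρ, H⟩ := h.cross T0
  have ht := h.t0_pos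
  refine ⟨C, min ρ (t0 / (2 * C + 1)), hC, by positivity, fun y1 h1 y2 h2 hd => ?_⟩
  have d1 := hd.trans (min_le_left _ _)
  have d2 := hd.trans (min_le_right _ _)
  rw [le_div_iff₀ (by positivity)] at d2
  have d0 := abs_nonneg (y2 - y1)
  obtain ⟨T2, y2', a, b, c⟩ := H y1 _ _ _ y2 h2 (hR.cr y1 h1)
    (by rw [abs_of_pos (hR.pos _ h1)]; exact hR.le _ h1) d1
  obtain ⟨T1, y1', a', b', -⟩ := H y2 _ _ _ y1 h1 (hR.cr y2 h2)
    (by rw [abs_of_pos (hR.pos _ h2)]; exact hR.le _ h2) (by rwa [abs_sub_comm])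
  rw [abs_sub_comm y1] at b'
  have b1 := abs_le.1 b
  have b2 := abs_le.1 b'
  have f2 := hR.first _ _ _ _ a (by linarith only [ht, d2, d0, b1, h, hR, h1, NCr_gt h hR h1, b1.1])
  have f1 := hR.first _ _ _ _ a' (by linarith only [ht, d2, d0, b2, h, hR, h2, NCr_gt h hR h2, b2.1])
  obtain ⟨e1, e2, e3⟩ := NCr_two h a (hR.cr y2 h2) (abs_le.2 ⟨by linarith only [d2, d0, b1, b2, f1, b1.2, b2.2], by linarith only [ht, f2]⟩)
  rw [e1, e3]
  exact ⟨e2, b, c⟩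

theorem NCr_cont {f : ℝ → ℝ} {C ρ : ℝ} (hρ : 0 < ρ)
    (h : ∀ y1 ∈ Y, ∀ y2 ∈ Y, |y2 - y1| ≤ ρ → |f y2 - f y1| ≤ C * |y2 - y1|) : ContinuousOn f Y := by
  intro x hx
  refine tendsto_iff_norm_sub_tendsto_zero.2 (squeeze_zero'
    (Eventually.of_forall fun _ => norm_nonneg _) (g := fun y => C * |y - x|) ?_ ?_)
  · filter_upwards [self_mem_nhdsWithin,
      mem_nhdsWithin_of_mem_nhds (Metric.closedBall_mem_nhds x hρ)] with y hy hy'
    exact h x hx y hy hy'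
  · have := ((show Continuous fun y : ℝ => C * |y - x| by fun_prop).tendsto x).mono_left
      (nhdsWithin_le_nhds (s := Y))
    simpa using this

theorem NCr_iter (h : CrBase Y Cr t0 T0) (hR : Ret Y Cr T0 R tt s) {y T y' : ℝ} {γ : G}
    (hc : Cr y T γ y') (hT : 0 ≤ T) : ∃ n : ℕ, T = Tn R tt n y ∧ y' = R^[n] y := by
  classical
  have hy := (h.mem _ _ _ _ hc).1
  have hex : ∃ n : ℕ, T < Tn R tt (n + 1) y := by
    obtain ⟨n, hn⟩ := exists_nat_ge (T / t0)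
    rw [div_le_iff₀ h.t0_pos] at hn
    have := (hR.iter h (n + 1) hy).2.1
    push_cast at this
    exact ⟨n, by linarith only [hn, this, h, h.t0_pos]⟩
  obtain ⟨n, h1, h2⟩ : ∃ n : ℕ, Tn R tt n y ≤ T ∧ T < Tn R tt (n + 1) y := by
    refine ⟨Nat.find hex, ?_, Nat.find_spec hex⟩
    rcases hn : Nat.find hex with _ | n
    · exact hT
    · exact not_lt.1 (Nat.find_min hex (m := n) (by omega))
  obtain ⟨γ', a⟩ := (hR.iter h n hy).1
  have h3 := h.trans _ _ _ _ _ _ _ (h.symm _ _ _ _ a) hc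
  rw [NCr_succ] at h2
  have h4 : T = Tn R tt n y := (h1.eq_or_lt.resolve_right fun hlt => by
    linarith only [h2, hR, h3, hlt, hR.first _ _ _ _ h3 (by linarith)]).symm
  exact ⟨n, h4, (NCr_two h a hc (by rw [h4, sub_self, abs_zero]; exact h.t0_pos.le)).2.2⟩

theorem NCr_hol (h : CrBase Y Cr t0 T0) (hR : Ret Y Cr T0 R tt s) {θ : ℝ → ℝ}
    (hθ : ∀ y ∈ Y, ∀ᶠ y' in 𝓝[Y] y, θ (R y') - θ y' = θ (R y) - θ y)
    {ι : Type} {l : Filter ι} {y1 y2 S : ι → ℝ} {a b S0 : ℝ} {γ0 : G} (h0 : Cr a S0 γ0 b)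
    (hc : ∀ᶠ i in l, ∃ γ, Cr (y1 i) (S i) γ (y2 i)) (k1 : Tendsto y1 l (𝓝 a))
    (kS : Tendsto S l (𝓝 S0)) (hS : 0 ≤ S0) :
    ∀ᶠ i in l, θ (y2 i) - θ (y1 i) = θ b - θ a := by
  obtain ⟨C, ρ, -, hρ, H⟩ := NCr_loc h hR
  have cR : ContinuousOn R Y := NCr_cont hρ fun y1 h1 y2 h2 hd => (H y1 h1 y2 h2 hd).2.2
  have ct : ContinuousOn tt Y := NCr_cont hρ fun y1 h1 y2 h2 hd => (H y1 h1 y2 h2 hd).2.1
  have mp : ∀ n : ℕ, MapsTo R^[n] Y Y := fun n y hy => hR.iter_mem h n hy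
  have cn : ∀ n : ℕ, ContinuousOn R^[n] Y := fun n => cR.iterate (mp 1) n
  have ha := (h.mem _ _ _ _ h0).1
  obtain ⟨n, rfl, rfl⟩ := NCr_iter h hR h0 hS
  have k2 : Tendsto y1 l (𝓝[Y] a) := tendsto_nhdsWithin_iff.2
    ⟨k1, hc.mono fun i ⟨_, hi⟩ => (h.mem _ _ _ _ hi).1⟩
  have cT : ContinuousOn (Tn R tt n) Y :=
    continuousOn_finsetSum _ fun j _ => ct.comp (cn j) (mp j)
  have k3 := (kS.sub ((cT a ha).tendsto.comp k2)).abs
  rw [sub_self, abs_zero] at k3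
  have lc : ∀ n : ℕ, ∀ᶠ y' in 𝓝[Y] a, θ (R^[n] y') - θ y' = θ (R^[n] a) - θ a := fun n => by
    induction n with
    | zero => exact Eventually.of_forall fun y => by simp
    | succ n ih =>
      filter_upwards [ih, ((cn n a ha).tendsto_nhdsWithin (mp n)).eventually (hθ _ (mp n ha))]
        with y e1 e2
      rw [Function.iterate_succ_apply', Function.iterate_succ_apply']
      linarith only [e1, e2]
  filter_upwards [hc, k3.eventually (ge_mem_nhds h.t0_pos), k2.eventually (lc n)]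
    with i ⟨γ, hi⟩ hd e
  obtain ⟨γ', a'⟩ := (hR.iter h n (h.mem _ _ _ _ hi).1).1
  rw [(NCr_two h a' hi hd).2.2, e]

theorem NCr_inv (h : CrBase Y Cr t0 T0) (hR : Ret Y Cr T0 R tt s)
    (hRi : Ret Y (fun y T γ y' => Cr y (-T) γ y') T0 Ri ti si) {y : ℝ} (hy : y ∈ Y) :
    Ri (R y) = y := by
  have a := hR.cr y hy
  have hm := (h.mem _ _ _ _ a).2
  have b := hRi.first _ _ _ _ (h.symm _ _ _ _ a) (hR.pos y hy)
  have c := h.trans _ _ _ _ _ _ _ a (hRi.cr _ hm)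
  have d : tt y + -ti (R y) = 0 := le_antisymm (not_lt.1 fun hlt => by
    linarith only [hR, c, hlt, hRi, hm, hR.first _ _ _ _ c hlt, hRi.pos _ hm]) (by linarith)
  rw [d] at c
  exact (h.uniq _ _ _ c).2

theorem hol (h : CrBase Y Cr t0 T0) (hR : Ret Y Cr T0 R tt s) {θ : ℝ → ℝ}
    (hθ : ∀ y ∈ Y, ∀ᶠ y' in 𝓝[Y] y, θ (R y') - θ y' = θ (R y) - θ y)
    {ι : Type} {l : Filter ι} {y1 y2 S : ι → ℝ} {a b S0 : ℝ} {γ0 : G} (h0 : Cr a S0 γ0 b)
    (hc : ∀ᶠ i in l, ∃ γ, Cr (y1 i) (S i) γ (y2 i)) (k1 : Tendsto y1 l (𝓝 a))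
    (k2 : Tendsto y2 l (𝓝 b)) (kS : Tendsto S l (𝓝 S0)) :
    ∀ᶠ i in l, θ (y2 i) - θ (y1 i) = θ b - θ a := by
  rcases le_total 0 S0 with hS | hS
  · exact NCr_hol h hR hθ h0 hc k1 kS hS
  · refine (NCr_hol h hR hθ (h.symm _ _ _ _ h0) (hc.mono fun i ⟨_, hi⟩ => ⟨_, h.symm _ _ _ _ hi⟩)
      k2 kS.neg (neg_nonneg.2 hS)).mono fun i hi => ?_
    linarith only [hi]

theorem retSys_of (h : CrBase Y Cr t0 T0) (hm : CrMore Y Cr) (hR : Ret Y Cr T0 R tt s)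
    (hRi : Ret Y (fun y T γ y' => Cr y (-T) γ y') T0 Ri ti si) (hY : IsCompact Y)
    (hne : Y.Nonempty) {A : ℝ} (hw : WinR Y R A) : ∃ r C : ℝ, RetSys Y R Ri r C A := by
  obtain ⟨C1, ρ1, hC1, hρ1, H1⟩ := NCr_loc h hR
  obtain ⟨C2, ρ2, hC2, hρ2, H2⟩ := NCr_loc h.rev hRi
  obtain ⟨ρ3, hρ3, H3⟩ := hm.ord T0 C1
  have mi : ∀ y ∈ Y, Ri y ∈ Y := fun y hy => (h.mem _ _ _ _ (hRi.cr y hy)).2
  have i2 : ∀ y ∈ Y, R (Ri y) = y := fun y hy =>
    NCr_inv h.rev hRi (by simpa only [neg_neg] using hR) hy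
  have inc : ∀ y ∈ Y, ∀ y' ∈ Y, y < y' → y' - y ≤ min ρ1 ρ3 → R y < R y' := fun y hy y' hy' a b => by
    obtain ⟨e, f, -⟩ := H1 y hy y' hy' (by
      rw [abs_of_pos (sub_pos.2 a)]
      exact b.trans (min_le_left _ _))
    exact H3 _ _ _ _ _ _ _ (hR.cr y hy) (e ▸ hR.cr y' hy') (hR.pos y hy).le (hR.le y hy) f a
      (by linarith only [b, min_le_right ρ1 ρ3])
  have hρ : 0 < min ρ1 ρ3 := lt_min hρ1 hρ3
  refine ⟨min (min ρ1 ρ3) (min ρ2 (min ρ1 ρ3 / (C2 + 1))), C1 + C2, hY, hne,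
    fun y hy => hR.iter_mem h 1 hy, mi, fun y hy => NCr_inv h hR hRi hy, i2, by positivity,
    fun y hy y' hy' a b => ?_, fun y hy n e => ?_, fun y hy ε hε => ?_, hw⟩
  · have b0 := sub_pos.2 a
    have b1 := (sub_le_iff_le_add'.2 b).trans (min_le_left _ _)
    have b2 := (sub_le_iff_le_add'.2 b).trans (min_le_right _ _)
    have b3 := b2.trans (min_le_right _ _)
    rw [le_div_iff₀ (by positivity)] at b3
    have c1 := (H1 y hy y' hy' (by rw [abs_of_pos b0]; exact b1.trans (min_le_left _ _))).2.2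
    have c2 := (H2 y hy y' hy' (by rw [abs_of_pos b0]; exact b2.trans (min_le_left _ _))).2.2
    rw [abs_of_pos b0] at c1 c2
    have p1 := mul_nonneg hC1 b0.le
    have p2 := mul_nonneg hC2 b0.le
    refine ⟨inc y hy y' hy' a b1, by linarith only [p2, c1, le_of_abs_le c1], not_le.1 fun hle => ?_,
      by linarith only [p1, c2, le_of_abs_le c2]⟩
    rcases hle.eq_or_lt with e | e
    · exact a.ne (by rw [← i2 y hy, ← e, i2 y' hy'])
    · have := inc _ (mi y' hy') _ (mi y hy) e (by linarith only [a, b3, c2, neg_le_of_abs_le c2])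
      rw [i2 y hy, i2 y' hy'] at this
      exact a.not_gt this
  · obtain ⟨⟨γ, a⟩, b, -⟩ := hR.iter h n hy
    rw [e] at a
    by_contra hn
    exact hm.aper _ _ _ a ((mul_pos (Nat.cast_pos.2 (Nat.pos_of_ne_zero hn)) h.t0_pos).trans_le b)
  · obtain ⟨Tm, H⟩ := hm.synd y hy ε hε
    refine ⟨⌊Tm / t0⌋₊, fun z hz => ?_⟩
    obtain ⟨T, γ, y', a, b, c, d⟩ := H z hz
    obtain ⟨n, rfl, rfl⟩ := NCr_iter h hR a b
    exact ⟨n, Nat.le_floor ((le_div_iff₀ h.t0_pos).2 ((hR.iter h n hz).2.1.trans c)), d⟩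

end Pool.Agent.Work.MP_1ce82a_an
end

-- merged part: Pool.Agent.Work.MP_1ce82a_an.T.Ret
section
/-! First returns for crossings of a section without continuity at the end points. -/

open Set Filter Topology

namespace Pool.Agent.Work.MP_1ce82a_an

/-- The purely algebraic properties of crossings. -/
structure CrW {G : Type} [Group G] (Y : Set ℝ) (Cr : ℝ → ℝ → G → ℝ → Prop) (t0 T0 : ℝ) :
    Prop where
  t0_pos : 0 < t0
  mem : ∀ y T γ y', Cr y T γ y' → y ∈ Y ∧ y' ∈ Y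
  refl : ∀ y ∈ Y, Cr y 0 1 y
  symm : ∀ y T γ y', Cr y T γ y' → Cr y' (-T) γ⁻¹ y
  trans : ∀ y T γ y' T' γ' y'', Cr y T γ y' → Cr y' T' γ' y'' → Cr y (T + T') (γ * γ') y''
  sep : ∀ y T γ y', Cr y T γ y' → T = 0 ∨ t0 < |T|
  uniq : ∀ y γ y', Cr y 0 γ y' → γ = 1 ∧ y' = y
  fwd : ∀ y ∈ Y, ∃ T γ y', Cr y T γ y' ∧ 0 < T ∧ T ≤ T0
  bwd : ∀ y ∈ Y, ∃ T γ y', Cr y (-T) γ y' ∧ 0 < T ∧ T ≤ T0

/-- Nearby points have nearby crossings, away from the end points of the section. -/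
def CrossI {G : Type} (bl bu : ℝ) (Cr : ℝ → ℝ → G → ℝ → Prop) : Prop :=
  ∀ Tm η : ℝ, 0 < η → ∃ C ρ : ℝ, 0 ≤ C ∧ 0 < ρ ∧ ∀ y1 T1 γ y1', ∀ y2 ∈ Icc bl bu,
    Cr y1 T1 γ y1' → |T1| ≤ Tm → y1' ∈ Icc (bl + η) (bu - η) → |y2 - y1| ≤ ρ →
      ∃ T2 y2', Cr y2 T2 γ y2' ∧ |T2 - T1| ≤ C * |y2 - y1| ∧ |y2' - y1'| ≤ C * |y2 - y1|

variable {G : Type} [Group G] {Y : Set ℝ} {Cr : ℝ → ℝ → G → ℝ → Prop} {t0 T0 : ℝ}
  {R tt Ri ti : ℝ → ℝ} {s si : ℝ → G}

theorem TW_two (h : CrW Y Cr t0 T0) {y T T' y' y'' : ℝ} {γ γ' : G} (h1 : Cr y T γ y')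
    (h2 : Cr y T' γ' y'') (hd : |T' - T| ≤ t0) : T' = T ∧ γ' = γ ∧ y'' = y' := by
  have h3 := h.trans _ _ _ _ _ _ _ (h.symm _ _ _ _ h1) h2
  rw [neg_add_eq_sub] at h3
  have h4 := (h.sep _ _ _ _ h3).resolve_right hd.not_gt
  rw [h4] at h3
  obtain ⟨a, b⟩ := h.uniq _ _ _ h3
  exact ⟨sub_eq_zero.1 h4, (inv_mul_eq_one.1 a).symm, b⟩

theorem CrW.rev (h : CrW Y Cr t0 T0) : CrW Y (fun y T γ y' => Cr y (-T) γ y') t0 T0 where
  t0_pos := h.t0_pos
  mem _ _ _ _ hc := h.mem _ _ _ _ hc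
  refl y hy := by simpa only [neg_zero] using h.refl y hy
  symm _ _ _ _ hc := h.symm _ _ _ _ hc
  trans _ _ _ _ _ _ _ h1 h2 := by simpa only [neg_add] using h.trans _ _ _ _ _ _ _ h1 h2
  sep _ _ _ _ hc := by simpa only [neg_eq_zero, abs_neg] using h.sep _ _ _ _ hc
  uniq _ _ _ hc := h.uniq _ _ _ (by simpa only [neg_zero] using hc)
  fwd := h.bwd
  bwd := by simpa only [neg_neg] using h.fwd

theorem CrW.exists_ret (h : CrW Y Cr t0 T0) :
    ∃ (R tt : ℝ → ℝ) (s : ℝ → G), Ret Y Cr T0 R tt s := by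
  classical
  have key : ∀ y ∈ Y, ∃ (y' T : ℝ) (γ : G), Cr y T γ y' ∧ 0 < T ∧ T ≤ T0 ∧
      ∀ T' γ' y'', Cr y T' γ' y'' → 0 < T' → T ≤ T' := fun y hy => by
    have hex : ∃ n : ℕ, ∃ T γ y', Cr y T γ y' ∧ 0 < T ∧ T ≤ T0 ∧ T ≤ (n + 1) * t0 := by
      obtain ⟨T, γ, y', a, b, c⟩ := h.fwd y hy
      obtain ⟨n, hn⟩ := exists_nat_ge (T / t0)
      rw [div_le_iff₀ h.t0_pos] at hn
      exact ⟨n, T, γ, y', a, b, c, by linarith only [hn, h, h.t0_pos]⟩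
    obtain ⟨T, γ, y', a, b, c, d⟩ := Nat.find_spec hex
    refine ⟨y', T, γ, a, b, c, fun T' γ' y'' a' b' => not_lt.1 fun hlt => ?_⟩
    have e : t0 < T - T' := not_le.1 fun hle =>
      hlt.ne' (TW_two h a' a (by rwa [abs_of_pos (sub_pos.2 hlt)])).1
    rcases hn : Nat.find hex with _ | n
    · rw [hn] at d
      push_cast at d
      linarith only [b', e, d]
    · rw [hn] at d
      push_cast at d
      exact Nat.find_min hex (m := n) (by omega) ⟨T', γ', y'', a', b', by linarith only [c, hlt], by linarith only [e, d]⟩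
  choose! R tt s a b c d using key
  exact ⟨R, tt, s, a, b, c, fun y T γ y' hc => d y (h.mem _ _ _ _ hc).1 T γ y' hc⟩

theorem Ret.witer_mem (h : CrW Y Cr t0 T0) (hR : Ret Y Cr T0 R tt s) (n : ℕ) {y : ℝ}
    (hy : y ∈ Y) : R^[n] y ∈ Y :=
  MapsTo.iterate (fun y hy => (h.mem _ _ _ _ (hR.cr y hy)).2) n hy

theorem TW_gt (h : CrW Y Cr t0 T0) (hR : Ret Y Cr T0 R tt s) {y : ℝ} (hy : y ∈ Y) :
    t0 < tt y := by
  have := (h.sep _ _ _ _ (hR.cr y hy)).resolve_left (hR.pos y hy).ne'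
  rwa [abs_of_pos (hR.pos y hy)] at this

theorem Ret.witer (h : CrW Y Cr t0 T0) (hR : Ret Y Cr T0 R tt s) (n : ℕ) {y : ℝ} (hy : y ∈ Y) :
    (∃ γ, Cr y (Tn R tt n y) γ (R^[n] y)) ∧ n * t0 ≤ Tn R tt n y ∧ Tn R tt n y ≤ n * T0 := by
  induction n with
  | zero => exact ⟨⟨1, h.refl y hy⟩, by simp [NCr_zero], by simp [NCr_zero]⟩
  | succ n ih =>
    obtain ⟨⟨γ, a⟩, b, c⟩ := ih
    have hm := hR.witer_mem h n hy
    rw [NCr_succ, Function.iterate_succ_apply']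
    push_cast
    exact ⟨⟨_, h.trans _ _ _ _ _ _ _ a (hR.cr _ hm)⟩, by linarith only [b, h, hR, hm, TW_gt h hR hm],
      by linarith only [c, hR, hm, hR.le _ hm]⟩

theorem TW_iter (h : CrW Y Cr t0 T0) (hR : Ret Y Cr T0 R tt s) {y T y' : ℝ} {γ : G}
    (hc : Cr y T γ y') (hT : 0 ≤ T) : ∃ n : ℕ, T = Tn R tt n y ∧ y' = R^[n] y := by
  classical
  have hy := (h.mem _ _ _ _ hc).1
  have hex : ∃ n : ℕ, T < Tn R tt (n + 1) y := by
    obtain ⟨n, hn⟩ := exists_nat_ge (T / t0)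
    rw [div_le_iff₀ h.t0_pos] at hn
    have := (hR.witer h (n + 1) hy).2.1
    push_cast at this
    exact ⟨n, by linarith only [hn, this, h, h.t0_pos]⟩
  obtain ⟨n, h1, h2⟩ : ∃ n : ℕ, Tn R tt n y ≤ T ∧ T < Tn R tt (n + 1) y := by
    refine ⟨Nat.find hex, ?_, Nat.find_spec hex⟩
    rcases hn : Nat.find hex with _ | n
    · exact hT
    · exact not_lt.1 (Nat.find_min hex (m := n) (by omega))
  obtain ⟨γ', a⟩ := (hR.witer h n hy).1
  have h3 := h.trans _ _ _ _ _ _ _ (h.symm _ _ _ _ a) hc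
  rw [NCr_succ] at h2
  have h4 : T = Tn R tt n y := (h1.eq_or_lt.resolve_right fun hlt => by
    linarith only [h2, hR, h3, hlt, hR.first _ _ _ _ h3 (by linarith)]).symm
  exact ⟨n, h4, (TW_two h a hc (by rw [h4, sub_self, abs_zero]; exact h.t0_pos.le)).2.2⟩

theorem TW_inv (h : CrW Y Cr t0 T0) (hR : Ret Y Cr T0 R tt s)
    (hRi : Ret Y (fun y T γ y' => Cr y (-T) γ y') T0 Ri ti si) {y : ℝ} (hy : y ∈ Y) :
    Ri (R y) = y := by
  have a := hR.cr y hy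
  have hm := (h.mem _ _ _ _ a).2
  have b := hRi.first _ _ _ _ (h.symm _ _ _ _ a) (hR.pos y hy)
  have c := h.trans _ _ _ _ _ _ _ a (hRi.cr _ hm)
  have d : tt y + -ti (R y) = 0 := le_antisymm (not_lt.1 fun hlt => by
    linarith only [hR, c, hlt, hRi, hm, hR.first _ _ _ _ c hlt, hRi.pos _ hm]) (by linarith)
  rw [d] at c
  exact (h.uniq _ _ _ c).2

end Pool.Agent.Work.MP_1ce82a_an
end

-- merged part: Pool.Agent.Work.MP_1ce82a_an.T.Freq
section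
/-! An invariant frequency on the section which does not decrease under bounded crossings. -/

open Set Filter Topology

namespace Pool.Agent.Work.MP_1ce82a_an

theorem IsMean.sum_le {X : Type} {f : Equiv.Perm X} {Fr : Set X → ℝ} (h : IsMean f Fr) {ι : Type}
    (s : Finset ι) (A : ι → Set X) (hd : ∀ i ∈ s, ∀ j ∈ s, i ≠ j → Disjoint (A i) (A j)) :
    ∑ i ∈ s, Fr (A i) = Fr (⋃ i ∈ s, A i) := by
  classical
  induction s using Finset.induction_on with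
  | empty => simp [h.empty]
  | insert a s ha ih =>
    rw [Finset.sum_insert ha, Finset.set_biUnion_insert, h.add,
      ih fun i hi j hj => hd i (Finset.mem_insert_of_mem hi) j (Finset.mem_insert_of_mem hj)]
    rw [Set.disjoint_iUnion₂_right]
    intro j hj
    exact hd a (Finset.mem_insert_self _ _) j (Finset.mem_insert_of_mem hj)
      fun e => ha (e ▸ hj)

theorem IsMean.piece {X : Type} {f : Equiv.Perm X} {Fr : Set X → ℝ} (h : IsMean f Fr)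
    {A B : Set X} (S : Finset ℤ) (n : X → ℤ) (hn : ∀ x ∈ A, n x ∈ S)
    (hB : ∀ x ∈ A, (f ^ n x) x ∈ B)
    (hi : ∀ x ∈ A, ∀ y ∈ A, (f ^ n x) x = (f ^ n y) y → x = y) : Fr A ≤ Fr B := by
  have h1 : A ⊆ ⋃ k ∈ S, {x | x ∈ A ∧ n x = k} := fun x hx =>
    Set.mem_iUnion₂.2 ⟨n x, hn x hx, hx, rfl⟩
  have e : ∀ (k : ℤ) (u : X), (f ^ k) ((f ^ (-k)) u) = u := fun k u => by
    rw [zp_add, add_neg_cancel, zpow_zero]
    rfl
  have h2 := h.sum_le S (fun k => ⇑(f ^ (-k)) ⁻¹' {x | x ∈ A ∧ n x = k}) (by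
    intro i _ j _ hij
    rw [Set.disjoint_left]
    rintro u ⟨a1, a2⟩ ⟨b1, b2⟩
    have := hi _ a1 _ b1 (by rw [a2, b2, e, e])
    rw [this] at a2
    exact hij (a2.symm.trans b2))
  have h3 : (⋃ k ∈ S, ⇑(f ^ (-k)) ⁻¹' {x | x ∈ A ∧ n x = k}) ⊆ B := by
    intro u hu
    obtain ⟨k, -, a1, a2⟩ := Set.mem_iUnion₂.1 hu
    have := hB _ a1
    rwa [a2, e] at this
  simp only [h.zpow] at h2
  exact ((h.mono h1).trans (h.biUnion_le _ _)).trans (h2.le.trans (h.mono h3))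

variable {G : Type} [Group G] {Y : Set ℝ} {Cr : ℝ → ℝ → G → ℝ → Prop} {t0 T0 : ℝ}

/-- A frequency adapted to the crossings. -/
structure FrOK (Y : Set ℝ) (Cr : ℝ → ℝ → G → ℝ → Prop) (t0 T0 : ℝ) (f : Equiv.Perm Y)
    (Fr : Set Y → ℝ) : Prop where
  mean : IsMean f Fr
  cr : ∀ (n : ℕ) (y : Y), ∃ T γ, Cr y T γ ((f ^ n) y : Y) ∧ n * t0 ≤ T ∧ T ≤ n * T0
  iter : ∀ (y u : Y) (T : ℝ) (γ : G), Cr y T γ u → 0 ≤ T → ∃ n : ℕ, u = (f ^ n) y ∧ n * t0 ≤ T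

theorem CrW.exists_fr (h : CrW Y Cr t0 T0) (hne : Y.Nonempty) :
    ∃ (f : Equiv.Perm Y) (Fr : Set Y → ℝ), FrOK Y Cr t0 T0 f Fr := by
  obtain ⟨R, tt, s, hR⟩ := h.exists_ret
  obtain ⟨Ri, ti, si, hRi⟩ := h.rev.exists_ret
  let f : Equiv.Perm Y :=
    ⟨fun y => ⟨R y, (h.mem _ _ _ _ (hR.cr y y.2)).2⟩,
      fun y => ⟨Ri y, (h.mem _ _ _ _ (hRi.cr y y.2)).2⟩,
      fun y => Subtype.ext (TW_inv h hR hRi y.2),
      fun y => Subtype.ext (TW_inv h.rev hRi (by simpa only [neg_neg] using hR) y.2)⟩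
  have hf : ∀ (n : ℕ) (y : Y), (((f ^ n) y : Y) : ℝ) = R^[n] y := by
    intro n y
    induction n with
    | zero => rfl
    | succ n ih =>
      rw [pow_succ', Equiv.Perm.mul_apply, Function.iterate_succ_apply', ← ih]
      rfl
  obtain ⟨y0, hy0⟩ := hne
  obtain ⟨Fr, hm⟩ := exists_mean f ⟨y0, hy0⟩
  refine ⟨f, Fr, hm, fun n y => ?_, fun y u T γ hc hT => ?_⟩
  · obtain ⟨⟨γ, a⟩, b, c⟩ := hR.witer h n y.2
    exact ⟨_, γ, by rwa [hf], b, c⟩
  · obtain ⟨n, a, b⟩ := TW_iter h hR hc hT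
    exact ⟨n, Subtype.ext (by rw [hf, b]), by rw [a]; exact (hR.witer h n y.2).2.1⟩

theorem FrOK.le_of_cr {f : Equiv.Perm Y} {Fr : Set Y → ℝ} (h : CrW Y Cr t0 T0)
    (hf : FrOK Y Cr t0 T0 f Fr) {A B : Set Y} {P : ℝ → ℝ → Prop} (Tm : ℝ)
    (h1 : ∀ y ∈ A, ∃ u ∈ B, P y u)
    (h2 : ∀ y u, P y u → ∃ T γ, Cr y T γ u ∧ |T| ≤ Tm)
    (h3 : ∀ y y' u, P y u → P y' u → y = y') : Fr A ≤ Fr B := by
  have key : ∀ y : Y, ∃ n : ℤ, y ∈ A → n ∈ Finset.Icc (-(⌊Tm / t0⌋₊ : ℤ)) ⌊Tm / t0⌋₊ ∧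
      (f ^ n) y ∈ B ∧ P y ((f ^ n) y : Y) := by
    intro y
    by_cases hy : y ∈ A
    · obtain ⟨u, hu, hP⟩ := h1 y hy
      obtain ⟨T, γ, hc, hT⟩ := h2 _ _ hP
      rcases le_total 0 T with a | a
      · obtain ⟨n, e, hn⟩ := hf.iter y u T γ hc a
        have : n ≤ ⌊Tm / t0⌋₊ :=
          Nat.le_floor ((le_div_iff₀ h.t0_pos).2 (hn.trans (le_of_abs_le hT)))
        refine ⟨n, fun _ => ⟨Finset.mem_Icc.2 ⟨by omega, by omega⟩, ?_⟩⟩
        rw [zpow_natCast, ← e]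
        exact ⟨hu, hP⟩
      · obtain ⟨n, e, hn⟩ := hf.iter u y (-T) γ⁻¹ (h.symm _ _ _ _ hc) (by linarith)
        have : n ≤ ⌊Tm / t0⌋₊ :=
          Nat.le_floor ((le_div_iff₀ h.t0_pos).2 (hn.trans (by linarith only [hT, neg_le_of_abs_le hT])))
        have e' : (f ^ (-(n : ℤ))) y = u := by
          rw [e, ← zpow_natCast, zp_add, neg_add_cancel, zpow_zero]
          rfl
        refine ⟨-n, fun _ => ⟨Finset.mem_Icc.2 ⟨by omega, by omega⟩, ?_⟩⟩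
        rw [e']
        exact ⟨hu, hP⟩
    · exact ⟨0, fun a => absurd a hy⟩
  choose n hn using key
  refine hf.mean.piece _ n (fun x hx => (hn x hx).1) (fun x hx => (hn x hx).2.1)
    fun x hx y hy e => Subtype.ext (h3 _ _ _ (hn x hx).2.2 ?_)
  rw [e]
  exact (hn y hy).2.2

theorem FrOK.strict {f : Equiv.Perm Y} {Fr : Set Y → ℝ} (h : CrW Y Cr t0 T0) {χ : G → ℝ}
    (hm : CrMoreS χ Y Cr)
    (hf : FrOK Y Cr t0 T0 f Fr) {a b : ℝ} (hab : a < b) (hc : (a + b) / 2 ∈ Y) :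
    dist1 Fr a < dist1 Fr b := by
  obtain ⟨Tm, hT⟩ := hm.synd _ hc ((b - a) / 2) (by linarith only [hab])
  have h1 : (Set.univ : Set Y) ⊆ ⋃ n ∈ Finset.range (⌊Tm / t0⌋₊ + 1),
      ⇑(f ^ n) ⁻¹' {x : Y | a < (x : ℝ) ∧ (x : ℝ) ≤ b} := by
    intro z _
    obtain ⟨T, γ, u, c1, c2, c3, c4⟩ := hT z z.2
    obtain ⟨n, e, hn⟩ := hf.iter z ⟨u, (h.mem _ _ _ _ c1).2⟩ T γ c1 c2
    have : n ≤ ⌊Tm / t0⌋₊ := Nat.le_floor ((le_div_iff₀ h.t0_pos).2 (hn.trans c3))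
    refine Set.mem_iUnion₂.2 ⟨n, Finset.mem_range.2 (by omega), ?_⟩
    rw [Set.mem_preimage, ← e]
    rw [abs_lt] at c4
    exact ⟨show a < u by linarith only [c4, c4.1], show u ≤ b by linarith only [c4, c4.2]⟩
  have h2 := (hf.mean.mono h1).trans (hf.mean.biUnion_le _ _)
  simp only [hf.mean.pow, hf.mean.univ, Finset.sum_const, Finset.card_range, nsmul_eq_mul] at h2
  have h3 := dist1_sub hf.mean hab.le
  by_contra hn
  push Not at hn
  have h4 : Fr {x : Y | a < (x : ℝ) ∧ (x : ℝ) ≤ b} ≤ 0 := by linarith only [h3, hn]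
  have h5 := mul_nonpos_of_nonneg_of_nonpos (Nat.cast_nonneg (α := ℝ) (⌊Tm / t0⌋₊ + 1)) h4
  linarith only [h2, h5]

theorem FrOK.small {bl bu : ℝ} {f : Equiv.Perm (Icc bl bu)} {Fr : Set (Icc bl bu) → ℝ}
    (h : CrW (Icc bl bu) Cr t0 T0) (hx : CrossI bl bu Cr) {χ : G → ℝ}
    (hm : CrMoreS χ (Icc bl bu) Cr)
    (hf : FrOK (Icc bl bu) Cr t0 T0 f Fr) {y : ℝ} (hy : y ∈ Ioo bl bu) {η : ℝ} (hη : 0 < η) :
    ∃ ρ : ℝ, 0 < ρ ∧ Fr {x | |(x : ℝ) - y| < ρ} ≤ η := by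
  obtain ⟨N, hN⟩ := exists_nat_gt (1 / η)
  have ht := h.t0_pos
  have hyY : y ∈ Icc bl bu := Ioo_subset_Icc_self hy
  set m : ℝ := min (y - bl) (bu - y) / 2 with hm0
  have m0 : 0 < m := half_pos (lt_min (by linarith only [hy, hy.1]) (by linarith only [hy, hy.2]))
  have m1 : 2 * m ≤ y - bl := by linarith only [hm0, min_le_left (y - bl) (bu - y)]
  have m2 : 2 * m ≤ bu - y := by linarith only [hm0, min_le_right (y - bl) (bu - y)]
  obtain ⟨C, ρ1, hC, hρ1, H⟩ := hx (N * |T0|) m m0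
  have ev : ∀ n ∈ Finset.Icc 1 ⌊(N * |T0| + t0) / t0⌋₊, ∀ᶠ ρ in 𝓝[>] (0 : ℝ),
      (C + 1) * ρ < |(((f ^ n) ⟨y, hyY⟩ : Icc bl bu) : ℝ) - y| := by
    intro n hn
    have hne : (((f ^ n) ⟨y, hyY⟩ : Icc bl bu) : ℝ) - y ≠ 0 := by
      intro e
      obtain ⟨T, γ, c1, c2, -⟩ := hf.cr n ⟨y, hyY⟩
      rw [sub_eq_zero.1 e] at c1
      have : (1 : ℝ) ≤ n := by exact_mod_cast (Finset.mem_Icc.1 hn).1
      exact hm.aper _ _ _ c1 (by linarith only [ht, c2, this, mul_nonneg_of_nonpos_of_nonpos (le_of_lt (Mathlib.Tactic.Linarith.sub_neg_of_lt ht)) (Mathlib.Tactic.Linarith.sub_nonpos_of_le this)])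
    have : Tendsto (fun ρ : ℝ => (C + 1) * ρ) (𝓝[>] 0) (𝓝 0) := by
      have := ((continuous_const (y := C + 1)).mul continuous_id).tendsto' (0 : ℝ) 0 (by simp)
      exact this.mono_left nhdsWithin_le_nhds
    exact this.eventually (gt_mem_nhds (abs_pos.2 hne))
  have ev2 : ∀ᶠ ρ in 𝓝[>] (0 : ℝ), ρ ∈ Ioc 0 (min (min ρ1 m) (t0 / (2 * (C + 1)))) :=
    Ioc_mem_nhdsGT (lt_min (lt_min hρ1 m0) (by positivity))
  obtain ⟨ρ, hρ, hρ0, hρ2⟩ := (((Finset.eventually_all _).2 ev).and ev2).exists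
  have r1 : ρ ≤ ρ1 := hρ2.trans ((min_le_left _ _).trans (min_le_left _ _))
  have r2 : ρ ≤ m := hρ2.trans ((min_le_left _ _).trans (min_le_right _ _))
  have r3 : ρ ≤ t0 / (2 * (C + 1)) := hρ2.trans (min_le_right _ _)
  rw [le_div_iff₀ (by positivity)] at r3
  refine ⟨ρ, hρ0, ?_⟩
  have h3 := hf.mean.pigeon (B := {x | |(x : ℝ) - y| < ρ}) (N := N) fun n hn1 hn w hw hw' => by
    obtain ⟨T, γ, c1, c2, c3⟩ := hf.cr n w
    have n1 : (1 : ℝ) ≤ n := by exact_mod_cast hn1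
    have n2 : (n : ℝ) ≤ N := by exact_mod_cast hn.le
    have T1 : t0 ≤ T := by linarith only [c2, ht, n1, mul_nonneg_of_nonpos_of_nonpos (le_of_lt (Mathlib.Tactic.Linarith.sub_neg_of_lt ht)) (Mathlib.Tactic.Linarith.sub_nonpos_of_le n1)]
    have T2 : T ≤ N * |T0| := c3.trans ((mul_le_mul_of_nonneg_left (le_abs_self T0)
      (by positivity)).trans (mul_le_mul_of_nonneg_right n2 (abs_nonneg _)))
    have w1 : |(w : ℝ) - y| < ρ := hw
    have w2 : |(((f ^ n) w : Icc bl bu) : ℝ) - y| < ρ := hw'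
    have w3 := abs_lt.1 w2
    obtain ⟨T', u, d1, d2, d3⟩ := H _ T γ _ y hyY c1 (by rw [abs_of_pos (by linarith only [ht, T1])]; exact T2)
      ⟨by linarith only [m1, r2, w3, w3.1], by linarith only [m2, r2, w3, w3.2]⟩ (by rw [abs_sub_comm]; linarith only [r1, w1])
    rw [abs_sub_comm y] at d2 d3
    have d4 : C * |(w : ℝ) - y| ≤ C * ρ := mul_le_mul_of_nonneg_left w1.le hC
    have d5 := abs_le.1 (d2.trans d4)
    have p : C * ρ ≤ t0 / 2 := by linarith only [hρ0, r3]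
    obtain ⟨k, e, hk⟩ := hf.iter ⟨y, hyY⟩ ⟨u, (h.mem _ _ _ _ d1).2⟩ T' γ d1 (by linarith only [hρ0, r3, T1, d5, d5.1])
    have k1 : 1 ≤ k := by
      by_contra hk0
      have k0 : k = 0 := by omega
      rw [k0, pow_zero] at e
      have e' : u = y := congrArg Subtype.val e
      rw [e'] at d1
      exact hm.aper _ _ _ d1 (by linarith only [hρ0, r3, T1, d5, d5.1])
    have k2 : k ≤ ⌊(N * |T0| + t0) / t0⌋₊ :=
      Nat.le_floor ((le_div_iff₀ ht).2 (by linarith only [hρ0, r3, T2, d5, hk, d5.2]))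
    have q := hρ k (Finset.mem_Icc.2 ⟨k1, k2⟩)
    rw [← e] at q
    have q2 := abs_sub_le u (((f ^ n) w : Icc bl bu) : ℝ) y
    have q3 : (C + 1) * ρ < |u - y| := q
    linarith only [h, d1, w2, d3, d4, q, q2]
  have hN0 : (0 : ℝ) < N := lt_trans (by positivity) hN
  rw [div_lt_iff₀ hη] at hN
  (refine le_of_not_gt fun h_nl => ?_; linarith only [h_nl, hN, h3, mul_nonneg_of_nonpos_of_nonpos (Mathlib.Tactic.Linarith.sub_nonpos_of_le (Mathlib.Tactic.Linarith.natCast_nonneg ℝ N)) (le_of_lt (Mathlib.Tactic.Linarith.sub_neg_of_lt h_nl))])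

theorem dist1_contAt {f : Equiv.Perm Y} {Fr : Set Y → ℝ} (hm : IsMean f Fr) {b : ℝ}
    (hs : ∀ η : ℝ, 0 < η → ∃ ρ : ℝ, 0 < ρ ∧ Fr {x | |(x : ℝ) - b| < ρ} ≤ η) :
    ContinuousAt (dist1 Fr) b := by
  rw [Metric.continuousAt_iff]
  intro ε hε
  obtain ⟨ρ, hρ, hρ'⟩ := hs _ (half_pos hε)
  refine ⟨ρ, hρ, fun a ha => ?_⟩
  rw [Real.dist_eq] at ha ⊢
  have ha' := abs_lt.1 ha
  rcases le_total a b with hab | hab
  · have h1 := dist1_sub hm hab
    have h2 := dist1_mono hm hab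
    have h3 : Fr {x | a < (x : ℝ) ∧ (x : ℝ) ≤ b} ≤ Fr {x | |(x : ℝ) - b| < ρ} :=
      hm.mono fun x hx => show |(x : ℝ) - b| < ρ from
        abs_lt.2 ⟨by linarith only [ha', hx, hx.1, ha'.1], by linarith only [hρ, hx, hx.2]⟩
    rw [abs_of_nonpos (by linarith only [h2])]
    linarith only [hε, hρ', h1, h3]
  · have h1 := dist1_sub hm hab
    have h2 := dist1_mono hm hab
    have h3 : Fr {x | b < (x : ℝ) ∧ (x : ℝ) ≤ a} ≤ Fr {x | |(x : ℝ) - b| < ρ} :=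
      hm.mono fun x hx => show |(x : ℝ) - b| < ρ from
        abs_lt.2 ⟨by linarith only [hρ, hx, hx.1], by linarith only [ha', hx, hx.2, ha'.2]⟩
    rw [abs_of_nonneg (by linarith only [h2])]
    linarith only [hε, hρ', h1, h3]

end Pool.Agent.Work.MP_1ce82a_an
end

-- merged part: Pool.Agent.Work.MP_1ce82a_an.T.Hol
section
/-! The distribution function of the frequency is invariant under holonomy. -/

open Set Filter Topology

namespace Pool.Agent.Work.MP_1ce82a_an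

variable {G : Type} [Group G] {Cr : ℝ → ℝ → G → ℝ → Prop} {t0 T0 bl bu : ℝ}

/-- Holonomy preserves differences of `θ`. -/
def HolInv (bl bu : ℝ) (Cr : ℝ → ℝ → G → ℝ → Prop) (t0 : ℝ) (θ : ℝ → ℝ) : Prop :=
  ∀ Tm η : ℝ, 0 < η → ∃ ρ : ℝ, 0 < ρ ∧ ∀ y1 T1 γ y1' y2 T2 y2', Cr y1 T1 γ y1' →
    Cr y2 T2 γ y2' → 0 ≤ T1 → T1 ≤ Tm → y1 ∈ Icc (bl + η) (bu - η) →
    y1' ∈ Icc (bl + η) (bu - η) → |y2 - y1| ≤ ρ → |T2 - T1| ≤ t0 / 2 →
      θ y2' - θ y1' = θ y2 - θ y1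

theorem FrOK.hol {f : Equiv.Perm (Icc bl bu)} {Fr : Set (Icc bl bu) → ℝ}
    (h : CrW (Icc bl bu) Cr t0 T0) (hx : CrossI bl bu Cr) (hm : CrMore (Icc bl bu) Cr)
    (hf : FrOK (Icc bl bu) Cr t0 T0 f Fr) : HolInv bl bu Cr t0 (dist1 Fr) := by
  intro Tm η hη
  have ht := h.t0_pos
  obtain ⟨C, ρ1, hC, hρ1, H⟩ := hx (Tm + t0) (η / 2) (half_pos hη)
  obtain ⟨ρ3, hρ3, O⟩ := hm.ord (Tm + t0) C
  obtain ⟨r0, r0p, a1, a2, a3, a4⟩ : ∃ r0 : ℝ, 0 < r0 ∧ 2 * r0 ≤ ρ1 ∧ 2 * r0 ≤ ρ3 ∧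
      C * r0 ≤ t0 / 4 ∧ C * r0 ≤ η / 2 := by
    refine ⟨min (min (ρ1 / 2) (ρ3 / 2)) (min (t0 / 4) (η / 2) / (C + 1)),
      lt_min (lt_min (by positivity) (by positivity)) (by positivity), ?_, ?_, ?_, ?_⟩
    · linarith only [(min_le_left _ (min (t0 / 4) (η / 2) / (C + 1))).trans
        (min_le_left (ρ1 / 2) (ρ3 / 2))]
    · linarith only [(min_le_left _ (min (t0 / 4) (η / 2) / (C + 1))).trans
        (min_le_right (ρ1 / 2) (ρ3 / 2))]
    all_goals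
      have b1 := min_le_right (min (ρ1 / 2) (ρ3 / 2)) (min (t0 / 4) (η / 2) / (C + 1))
      have b2 : 0 < min (min (ρ1 / 2) (ρ3 / 2)) (min (t0 / 4) (η / 2) / (C + 1)) :=
        lt_min (lt_min (by positivity) (by positivity)) (by positivity)
      rw [le_div_iff₀ (by positivity)] at b1
      linarith only [b1, b2, min_le_left (t0 / 4) (η / 2), min_le_right (t0 / 4) (η / 2)]
  refine ⟨r0 / (C + 1) ^ 2, by positivity,
    fun y1 T1 γ y1' y2 T2 y2' c1 c2 p1 p2 i1 i1' hd hT => ?_⟩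
  set ρ : ℝ := r0 / (C + 1) ^ 2 with hρ
  have ρp : 0 < ρ := by positivity
  have e0 : ρ * (C + 1) ^ 2 = r0 := by rw [hρ]; field_simp
  have q1 : ρ ≤ r0 := by linarith only [e0, ρp, hC, mul_nonneg hC hC, mul_nonneg ρp.le hC, mul_nonneg_of_nonpos_of_nonpos (Mathlib.Tactic.Linarith.sub_nonpos_of_le (mul_self_nonneg C)) (le_of_lt (Mathlib.Tactic.Linarith.sub_neg_of_lt ρp))]
  have q2 : C * ρ ≤ r0 := by linarith only [r0p, ρp, e0, mul_nonneg hC hC, mul_nonneg ρp.le hC, mul_nonneg_of_nonpos_of_nonpos (Mathlib.Tactic.Linarith.sub_nonpos_of_le (mul_self_nonneg C)) (le_of_lt (Mathlib.Tactic.Linarith.sub_neg_of_lt ρp))]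
  have q3 : C * (C * ρ) ≤ r0 := by linarith only [ρp, e0, hC, mul_nonneg hC hC, mul_nonneg ρp.le hC]
  have aT1 : |T1| ≤ Tm + t0 := by rw [abs_of_nonneg p1]; linarith only [ht, p2]
  -- partners
  let P : ℝ → ℝ → Prop := fun y u => ∃ T, Cr y T γ u ∧ |T - T1| ≤ t0 / 4
  have Ex : ∀ y ∈ Icc bl bu, |y - y1| ≤ r0 → ∃ u, P y u ∧ |u - y1'| ≤ C * |y - y1| := by
    intro y hy hr
    obtain ⟨T, u, d1, d2, d3⟩ := H y1 T1 γ y1' y hy c1 aT1
      ⟨by linarith only [hη, i1', i1'.1], by linarith only [hη, i1', i1'.2]⟩ (by linarith only [r0p, a1, hr])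
    exact ⟨u, ⟨T, d1, d2.trans ((mul_le_mul_of_nonneg_left hr hC).trans a3)⟩, d3⟩
  have Un : ∀ y u u', P y u → P y u' → u' = u := by
    rintro y u u' ⟨T, d1, d2⟩ ⟨T', d3, d4⟩
    rw [abs_le] at d2 d4
    exact (TW_two h d1 d3 (abs_le.2 ⟨by linarith only [ht, d2, d4], by linarith only [ht, d2, d4]⟩)).2.2
  have Inj : ∀ y y' u, P y u → P y' u → y = y' := by
    rintro y y' u ⟨T, d1, d2⟩ ⟨T', d3, d4⟩
    rw [abs_le] at d2 d4
    exact (TW_two h (h.symm _ _ _ _ d3) (h.symm _ _ _ _ d1)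
      (abs_le.2 ⟨by linarith only [ht, d2, d4], by linarith only [ht, d2, d4]⟩)).2.2
  have Mo : ∀ y y' u u', |y - y1| ≤ r0 → |y' - y1| ≤ r0 → P y u → P y' u' → y < y' → u < u' := by
    intro y y' u u' b1 b2 hP hP' hlt
    obtain ⟨u0, hu0, b3⟩ := Ex y (h.mem _ _ _ _ hP.choose_spec.1).1 b1
    rw [Un _ _ _ hP hu0] at b3
    obtain ⟨T, d1, d2⟩ := hP
    obtain ⟨T', d3, d4⟩ := hP'
    have b4 := abs_le.1 (b3.trans ((mul_le_mul_of_nonneg_left b1 hC).trans a4))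
    rw [abs_le] at b1 b2 d2 d4
    have b5 : |y' - y| ≤ 2 * r0 := abs_le.2 ⟨by linarith only [r0p, hlt], by linarith only [b1, b2]⟩
    have T0' : 0 ≤ T := by
      rcases h.sep _ _ _ _ d1 with e | e
      · exact e.ge
      · by_contra hn
        push Not at hn
        rw [abs_of_neg hn] at e
        linarith only [ht, p1, d2, e]
    obtain ⟨T3, u3, d5, d6, -⟩ := H y T γ u y' (h.mem _ _ _ _ d3).1 d1
      (by rw [abs_of_nonneg T0']; linarith only [ht, p2, d2]) ⟨by linarith only [b4, i1', i1'.1], by linarith only [b4, i1', i1'.2]⟩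
      (b5.trans a1)
    have b6 : C * |y' - y| ≤ C * (2 * r0) := mul_le_mul_of_nonneg_left b5 hC
    have b7 := abs_le.1 (d6.trans b6)
    have e := (TW_two h d3 d5 (abs_le.2 ⟨by linarith only [a3, d2, d4, b7], by linarith only [a3, d2, d4, b7]⟩)).1
    rw [e] at d6
    exact O y T γ u y' T' u' d1 d3 T0' (by linarith only [ht, p2, d2]) d6 hlt (by linarith only [a2, b1, b2, le_of_abs_le b5])
  have Bk : ∀ u ∈ Icc bl bu, |u - y1'| ≤ C * ρ → ∃ v, |v - y1| ≤ r0 ∧ P v u := by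
    intro u hu hr
    obtain ⟨S, v, d1, d2, d3⟩ := H y1' (-T1) γ⁻¹ y1 u hu (h.symm _ _ _ _ c1) (by rwa [abs_neg])
      ⟨by linarith only [hη, i1, i1.1], by linarith only [hη, i1, i1.2]⟩ (by linarith only [r0p, a1, q2, hr])
    have b1 : C * |u - y1'| ≤ C * (C * ρ) := mul_le_mul_of_nonneg_left hr hC
    have b2 : C * |u - y1'| ≤ C * r0 := mul_le_mul_of_nonneg_left (hr.trans q2) hC
    have d4 := h.symm _ _ _ _ d1
    rw [inv_inv] at d4
    refine ⟨v, by linarith only [q3, d3, b1], -S, d4, ?_⟩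
    rw [← abs_neg, neg_sub', neg_neg]
    linarith only [a3, d2, b2]
  have key : ∀ a b a' b', |a - y1| ≤ ρ → |b - y1| ≤ ρ → P a a' → P b b' → a < b →
      dist1 Fr b' - dist1 Fr a' = dist1 Fr b - dist1 Fr a := by
    intro a b a' b' ha hb Pa Pb hab
    have hab' := Mo a b a' b' (ha.trans q1) (hb.trans q1) Pa Pb hab
    have na : |a' - y1'| ≤ C * ρ := by
      obtain ⟨u0, hu0, b3⟩ := Ex a (h.mem _ _ _ _ Pa.choose_spec.1).1 (ha.trans q1)
      rw [Un _ _ _ Pa hu0] at b3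
      exact b3.trans (mul_le_mul_of_nonneg_left ha hC)
    have nb : |b' - y1'| ≤ C * ρ := by
      obtain ⟨u0, hu0, b3⟩ := Ex b (h.mem _ _ _ _ Pb.choose_spec.1).1 (hb.trans q1)
      rw [Un _ _ _ Pb hu0] at b3
      exact b3.trans (mul_le_mul_of_nonneg_left hb hC)
    have bd : ∀ y u, P y u → ∃ T γ, Cr y T γ u ∧ |T| ≤ Tm + t0 := by
      rintro y u ⟨T, d1, d2⟩
      rw [abs_le] at d2
      exact ⟨T, γ, d1, abs_le.2 ⟨by linarith only [ht, p1, p2, d2], by linarith only [ht, p2, d2]⟩⟩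
    rw [dist1_sub hf.mean hab.le, dist1_sub hf.mean hab'.le]
    rw [abs_le] at ha hb na nb
    refine le_antisymm ?_ ?_
    · refine hf.le_of_cr h (P := fun u v => P v u) (Tm + t0) ?_ ?_ fun u u' v d1 d2 =>
        (Un _ _ _ d1 d2).symm
      · rintro u ⟨u1, u2⟩
        obtain ⟨v, v1, v2⟩ := Bk u u.2 (abs_le.2 ⟨by linarith only [na, u1], by linarith only [nb, u2]⟩)
        refine ⟨⟨v, (h.mem _ _ _ _ v2.choose_spec.1).1⟩, ⟨?_, ?_⟩, v2⟩
        · by_contra hn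
          push Not at hn
          rcases hn.eq_or_lt with e | e
          · have e' : v = a := e
            rw [e'] at v2
            exact u1.ne (Un _ _ _ v2 Pa)
          · exact u1.not_gt (Mo v a u a' v1 (abs_le.2 ⟨by linarith only [q1, ha], by linarith only [q1, ha]⟩) v2 Pa e)
        · by_contra hn
          push Not at hn
          exact u2.not_gt (Mo b v b' u (abs_le.2 ⟨by linarith only [q1, ha, hab], by linarith only [q1, hb]⟩) v1 Pb v2 hn)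
      · intro u v d
        obtain ⟨T, g, d1, d2⟩ := bd _ _ d
        exact ⟨-T, g⁻¹, h.symm _ _ _ _ d1, by rwa [abs_neg]⟩
    · refine hf.le_of_cr h (P := P) (Tm + t0) ?_ bd Inj
      rintro y ⟨u1, u2⟩
      have v1 : |(y : ℝ) - y1| ≤ r0 := abs_le.2 ⟨by linarith only [q1, ha, u1], by linarith only [q1, hb, u2]⟩
      obtain ⟨u, Pu, -⟩ := Ex y y.2 v1
      refine ⟨⟨u, (h.mem _ _ _ _ Pu.choose_spec.1).2⟩,
        ⟨Mo a y a' u (abs_le.2 ⟨by linarith only [q1, ha], by linarith only [q1, ha]⟩) v1 Pa Pu u1, ?_⟩, Pu⟩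
      rcases u2.eq_or_lt with e | e
      · rw [e] at Pu
        exact (Un _ _ _ Pb Pu).le
      · exact (Mo y b u b' v1 (abs_le.2 ⟨by linarith only [q1, ha, u1, e], by linarith only [q1, hb]⟩) Pu Pb e).le
  have P1 : P y1 y1' := ⟨T1, c1, by rw [sub_self, abs_zero]; linarith only [ht]⟩
  have P2 : P y2 y2' := by
    obtain ⟨u, ⟨T, d1, d2⟩, -⟩ := Ex y2 (h.mem _ _ _ _ c2).1 (hd.trans q1)
    have d3 := abs_le.1 d2
    rw [abs_le] at hT
    have e := TW_two h c2 d1 (abs_le.2 ⟨by linarith only [ht, hT, d3], by linarith only [ht, hT, d3]⟩)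
    rw [← e.2.2]
    exact ⟨T, d1, d2⟩
  have z1 : |y1 - y1| ≤ ρ := by rw [sub_self, abs_zero]; exact ρp.le
  rcases lt_trichotomy y1 y2 with a | a | a
  · exact key y1 y2 y1' y2' z1 hd P1 P2 a
  · subst a
    rw [Un _ _ _ P1 P2, sub_self, sub_self]
  · have := key y2 y1 y2' y1' hd z1 P2 P1 a
    linarith only [this]

theorem exists_theta (h : CrW (Icc bl bu) Cr t0 T0) (hx : CrossI bl bu Cr)
    (hm : CrMore (Icc bl bu) Cr) (hlu : bl ≤ bu) :
    ∃ θ : ℝ → ℝ, ContinuousOn θ (Ioo bl bu) ∧ StrictMonoOn θ (Icc bl bu) ∧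
      HolInv bl bu Cr t0 θ := by
  obtain ⟨f, Fr, hf⟩ := h.exists_fr (Set.nonempty_Icc.2 hlu)
  refine ⟨dist1 Fr, fun y hy => (dist1_contAt hf.mean fun η hη =>
    hf.small h hx hm.toS hy hη).continuousWithinAt, fun a ha b hb hab => hf.strict h hm.toS hab ?_,
    hf.hol h hx hm⟩
  exact ⟨by linarith only [hab, ha, ha.1], by linarith only [hab, hb, hb.2]⟩

end Pool.Agent.Work.MP_1ce82a_an
end

-- merged part: Pool.Agent.Work.MP_1ce82a_an.T.Up
section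
/-! Translations of the section which are compatible with all crossings, and an abstract
commutativity criterion. -/

open Set Filter Topology

namespace Pool.Agent.Work.MP_1ce82a_an

variable {G : Type} [Group G] {Cr : ℝ → ℝ → G → ℝ → Prop} {t0 T0 bl bu : ℝ}

/-- Small translations of the section. -/
structure UpOK {G : Type} (bl bu η ε : ℝ) (Cr : ℝ → ℝ → G → ℝ → Prop) (up : ℝ → ℝ → ℝ) :
    Prop where
  u1 : ∀ y ∈ Icc (bl + 2 * η) (bu - 2 * η), ∀ δ, |δ| ≤ ε → up y δ ∈ Icc (bl + η) (bu - η)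
  u2 : ∀ y T γ y' δ, Cr y T γ y' → y ∈ Icc (bl + η) (bu - η) → y' ∈ Icc (bl + η) (bu - η) →
    |δ| ≤ ε → ∃ T', Cr (up y δ) T' γ (up y' δ)
  u3 : ∀ y ∈ Icc (bl + 2 * η) (bu - 2 * η), ∀ δ δ', |δ| ≤ ε → |δ'| ≤ ε →
    up (up y δ) δ' = up (up y δ') δ
  u4 : ∀ y ∈ Icc (bl + 2 * η) (bu - 2 * η), ∀ᶠ y' in 𝓝 y, y' ∈ Icc (bl + η) (bu - η) ∧
    ∃ δ, |δ| ≤ ε ∧ up y δ = y' ∧ up y' (-δ) = y

theorem exists_up (h : CrW (Icc bl bu) Cr t0 T0) (hx : CrossI bl bu Cr)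
    (hm : CrMore (Icc bl bu) Cr) {η : ℝ} (hη : 0 < η) (hlu : bl + 2 * η ≤ bu - 2 * η) :
    ∃ (ε : ℝ) (up : ℝ → ℝ → ℝ), UpOK bl bu η ε Cr up := by
  have ht := h.t0_pos
  obtain ⟨θ, θc, θm, θh⟩ := exists_theta h hx hm (by linarith only [hη, hlu])
  obtain ⟨Tm, hTm⟩ := hm.synd ((bl + bu) / 2) ⟨by linarith only [hη, hlu], by linarith only [hη, hlu]⟩ η hη
  have ret : ∀ z ∈ Icc bl bu, ∃ S g u, Cr z S g u ∧ t0 < S ∧ S ≤ T0 + Tm ∧
      u ∈ Icc (bl + η) (bu - η) := by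
    intro z hz
    obtain ⟨T, γ, y', c1, c2, c3⟩ := h.fwd z hz
    obtain ⟨T', γ', u, d1, d2, d3, d4⟩ := hTm y' (h.mem _ _ _ _ c1).2
    have c4 := (h.sep _ _ _ _ c1).resolve_left c2.ne'
    rw [abs_of_pos c2] at c4
    rw [abs_lt] at d4
    exact ⟨_, _, u, h.trans _ _ _ _ _ _ _ c1 d1, by linarith only [d2, c4], by linarith only [c3, d3],
      by linarith only [hlu, d4, d4.1], by linarith only [hlu, d4, d4.2]⟩
  obtain ⟨ρh, ρhp, Hh⟩ := θh (T0 + Tm) η hη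
  obtain ⟨C, ρc, hC, ρcp, Hc⟩ := hx (T0 + Tm) η hη
  obtain ⟨ρ, ρp, r1, r2, r3, r4⟩ : ∃ ρ : ℝ, 0 < ρ ∧ ρ ≤ η / 2 ∧ ρ ≤ ρh ∧ ρ ≤ ρc ∧
      C * ρ ≤ t0 / 2 := by
    refine ⟨min (min (η / 2) ρh) (min ρc (t0 / 2 / (C + 1))),
      lt_min (lt_min (by positivity) ρhp) (lt_min ρcp (by positivity)),
      (min_le_left _ _).trans (min_le_left _ _), (min_le_left _ _).trans (min_le_right _ _),
      (min_le_right _ _).trans (min_le_left _ _), ?_⟩
    have b1 : min (min (η / 2) ρh) (min ρc (t0 / 2 / (C + 1))) ≤ t0 / 2 / (C + 1) :=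
      (min_le_right _ _).trans (min_le_right _ _)
    have b2 : 0 < min (min (η / 2) ρh) (min ρc (t0 / 2 / (C + 1))) :=
      lt_min (lt_min (by positivity) ρhp) (lt_min ρcp (by positivity))
    rw [le_div_iff₀ (by positivity)] at b1
    linarith only [b1, b2]
  have cs : ∀ c : ℝ, |c| ≤ ρ → ContinuousOn (fun y => θ (y + c)) (Icc (bl + η) (bu - η)) := by
    intro c hc
    rw [abs_le] at hc
    exact θc.comp (continuous_id.add continuous_const).continuousOn fun y hy =>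
      ⟨by linarith only [ρp, r1, hc, hy, hy.1, hc.1], by linarith only [ρp, r1, hc, hy, hy.2, hc.2]⟩
  have c0 : ContinuousOn θ (Icc (bl + η) (bu - η)) :=
    θc.mono fun y hy => ⟨by linarith only [ρp, r1, hy, hy.1], by linarith only [ρp, r1, hy, hy.2]⟩
  obtain ⟨ε, εp, hε⟩ := (isCompact_Icc (a := bl + η) (b := bu - η)).exists_forall_le'
    (f := fun y => min (θ (y + ρ) - θ y) (θ y - θ (y + -ρ))) (a := 0)
    (((cs ρ (abs_of_pos ρp).le).sub c0).inf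
      (c0.sub (cs (-ρ) (by rw [abs_neg, abs_of_pos ρp]))))
    fun y hy => lt_min
      (sub_pos.2 (θm ⟨by linarith only [ρp, r1, hy, hy.1], by linarith only [ρp, r1, hy, hy.2]⟩
        ⟨by linarith only [ρp, r1, hy, hy.1], by linarith only [ρp, r1, hy, hy.2]⟩ (by linarith only [ρp])))
      (sub_pos.2 (θm ⟨by linarith only [ρp, r1, hy, hy.1], by linarith only [ρp, r1, hy, hy.2]⟩
        ⟨by linarith only [ρp, r1, hy, hy.1], by linarith only [ρp, r1, hy, hy.2]⟩ (by linarith only [ρp])))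
  have ex : ∀ y δ : ℝ, ∃ u : ℝ, y ∈ Icc (bl + η) (bu - η) → |δ| ≤ ε →
      |u - y| ≤ ρ ∧ θ u = θ y + δ := by
    intro y δ
    by_cases hc : y ∈ Icc (bl + η) (bu - η) ∧ |δ| ≤ ε
    · obtain ⟨hy, hδ⟩ := hc
      have b1 := le_min_iff.1 (hε y hy)
      rw [abs_le] at hδ
      obtain ⟨u, u1, u2⟩ := intermediate_value_Icc (show y + -ρ ≤ y + ρ by linarith only [ρp])
        (θc.mono fun v hv => ⟨by linarith only [ρp, r1, hy, hv, hy.1, hv.1], by linarith only [ρp, r1, hy, hv, hy.2, hv.2]⟩)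
        (show θ y + δ ∈ Icc (θ (y + -ρ)) (θ (y + ρ)) from
          ⟨by linarith only [hδ, b1, b1.2, hδ.1], by linarith only [hδ, b1, b1.1, hδ.2]⟩)
      exact ⟨u, fun _ _ => ⟨abs_le.2 ⟨by linarith only [u1, u1.1], by linarith only [u1, u1.2]⟩, u2⟩⟩
    · exact ⟨0, fun a b => absurd ⟨a, b⟩ hc⟩
  choose up hup using ex
  have mem : ∀ y ∈ Icc (bl + η) (bu - η), ∀ δ, |δ| ≤ ε → up y δ ∈ Icc bl bu := by
    intro y hy δ hδ
    have := abs_le.1 (hup y δ hy hδ).1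
    exact ⟨by linarith only [ρp, r1, this, hy, hy.1, this.1], by linarith only [ρp, r1, this, hy, hy.2, this.2]⟩
  have un : ∀ y ∈ Icc (bl + η) (bu - η), ∀ δ, |δ| ≤ ε → ∀ u ∈ Icc bl bu, θ u = θ y + δ →
      up y δ = u := fun y hy δ hδ u hu e =>
    θm.injOn (mem y hy δ hδ) hu (by rw [(hup y δ hy hδ).2, e])
  have u1 : ∀ y ∈ Icc (bl + 2 * η) (bu - 2 * η), ∀ δ, |δ| ≤ ε →
      up y δ ∈ Icc (bl + η) (bu - η) := by
    intro y hy δ hδ
    have := abs_le.1 (hup y δ ⟨by linarith only [ρp, r1, hy, hy.1], by linarith only [ρp, r1, hy, hy.2]⟩ hδ).1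
    exact ⟨by linarith only [ρp, r1, this, hy, hy.1, this.1], by linarith only [ρp, r1, this, hy, hy.2, this.2]⟩
  have dir : ∀ y T γ y' δ, Cr y T γ y' → 0 ≤ T → T ≤ T0 + Tm → y ∈ Icc (bl + η) (bu - η) →
      y' ∈ Icc (bl + η) (bu - η) → |δ| ≤ ε → ∃ T', Cr (up y δ) T' γ (up y' δ) := by
    intro y T γ y' δ c p1 p2 hy hy' hδ
    obtain ⟨b1, b2⟩ := hup y δ hy hδ
    obtain ⟨T2, u, d1, d2, -⟩ := Hc y T γ y' _ (mem y hy δ hδ) c (by rwa [abs_of_nonneg p1]) hy'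
      (b1.trans r3)
    have e := Hh y T γ y' _ T2 u c d1 p1 p2 hy hy' (b1.trans r2)
      (d2.trans ((mul_le_mul_of_nonneg_left b1 hC).trans r4))
    rw [un y' hy' δ hδ u (h.mem _ _ _ _ d1).2 (by linarith only [b2, e])]
    exact ⟨T2, d1⟩
  have pos : ∀ (N : ℕ) y T γ y' δ, Cr y T γ y' → 0 ≤ T → T ≤ N * t0 →
      y ∈ Icc (bl + η) (bu - η) → y' ∈ Icc (bl + η) (bu - η) → |δ| ≤ ε →
      ∃ T', Cr (up y δ) T' γ (up y' δ) := by
    intro N
    induction N with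
    | zero =>
      intro y T γ y' δ c p1 p2 hy hy' hδ
      obtain ⟨S, -, -, -, s1, s2, -⟩ := ret y (h.mem _ _ _ _ c).1
      exact dir y T γ y' δ c p1 (by simp at p2; linarith only [ht, s1, s2, p2]) hy hy' hδ
    | succ N ih =>
      intro y T γ y' δ c p1 p2 hy hy' hδ
      by_cases hT : T ≤ T0 + Tm
      · exact dir y T γ y' δ c p1 hT hy hy' hδ
      · push Not at hT
        obtain ⟨S, g, u, s0, s1, s2, s3⟩ := ret y (h.mem _ _ _ _ c).1
        obtain ⟨T1, d1⟩ := dir y S g u δ s0 (by linarith only [ht, s1]) s2 hy s3 hδ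
        push_cast at p2
        obtain ⟨T2, d2⟩ := ih u _ _ y' δ (h.trans _ _ _ _ _ _ _ (h.symm _ _ _ _ s0) c)
          (by linarith only [hT, s2]) (by linarith only [s1, p2]) s3 hy' hδ
        have := h.trans _ _ _ _ _ _ _ d1 d2
        rw [mul_inv_cancel_left] at this
        exact ⟨_, this⟩
  have pos' : ∀ y T γ y' δ, Cr y T γ y' → 0 ≤ T → y ∈ Icc (bl + η) (bu - η) →
      y' ∈ Icc (bl + η) (bu - η) → |δ| ≤ ε → ∃ T', Cr (up y δ) T' γ (up y' δ) := by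
    intro y T γ y' δ c p1
    obtain ⟨N, hN⟩ := exists_nat_ge (T / t0)
    rw [div_le_iff₀ ht] at hN
    exact pos N y T γ y' δ c p1 hN
  refine ⟨ε, up, u1, fun y T γ y' δ c hy hy' hδ => ?_, fun y hy δ δ' hδ hδ' => ?_,
    fun y hy => ?_⟩
  · rcases le_total 0 T with a | a
    · exact pos' y T γ y' δ c a hy hy' hδ
    · obtain ⟨T', d⟩ := pos' y' (-T) γ⁻¹ y δ (h.symm _ _ _ _ c) (by linarith only [a]) hy' hy hδ
      have := h.symm _ _ _ _ d
      rw [inv_inv] at this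
      exact ⟨_, this⟩
  · have hy1 : y ∈ Icc (bl + η) (bu - η) := ⟨by linarith only [ρp, r1, hy, hy.1], by linarith only [ρp, r1, hy, hy.2]⟩
    refine un _ (u1 y hy δ hδ) δ' hδ' _ (mem _ (u1 y hy δ' hδ') δ hδ) ?_
    rw [(hup _ δ (u1 y hy δ' hδ') hδ).2, (hup y δ hy1 hδ).2, (hup y δ' hy1 hδ').2]
    ring
  · have hy1 : y ∈ Icc (bl + η) (bu - η) := ⟨by linarith only [ρp, r1, hy, hy.1], by linarith only [ρp, r1, hy, hy.2]⟩
    have ca : ContinuousAt θ y :=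
      θc.continuousAt (Ioo_mem_nhds (by linarith only [ρp, r1, hy, hy.1]) (by linarith only [ρp, r1, hy, hy.2]))
    filter_upwards [Icc_mem_nhds (show bl + η < y by linarith only [ρp, r1, hy, hy.1])
      (show y < bu - η by linarith only [ρp, r1, hy, hy.2]), ca.eventually (Metric.closedBall_mem_nhds (θ y) εp)]
      with y' a b
    have b' : |θ y' - θ y| ≤ ε := b
    refine ⟨a, θ y' - θ y, b', un y hy1 _ b' y' ⟨by linarith only [ρp, r1, a, a.1], by linarith only [ρp, r1, a, a.2]⟩ (by ring),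
      un y' a _ (by rwa [abs_neg]) y ⟨by linarith only [ρp, r1, hy, hy.1], by linarith only [ρp, r1, hy, hy.2]⟩ (by ring)⟩

theorem comm_of_transl {X : Type} [TopologicalSpace X] [PreconnectedSpace X] [MulAction G X]
    (x0 : X) {r : X → X → Prop} (hr : Equivalence r)
    (rs : ∀ (γ : G) x y, r x y → r (γ • x) (γ • y)) (free : ∀ (γ : G) x, r (γ • x) x → γ = 1)
    {ι : Type} {k : ι → X → X} (h1 : ∀ i x y, r x y → r (k i x) (k i y))
    (h2 : ∀ i (γ : G) x, r (k i (γ • x)) (γ • k i x))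
    (h3 : ∀ i j x, r (k i (k j x)) (k j (k i x)))
    (loc : ∀ x, ∀ᶠ x' in 𝓝 x, (∃ i, r x' (k i x)) ∧ ∃ i, r x (k i x')) (a b : G) :
    a * b = b * a := by
  let F : List ι → X → X := fun l x => l.foldr (fun i y => k i y) x
  have F1 : ∀ l x y, r x y → r (F l x) (F l y) := fun l x y hxy => by
    induction l with
    | nil => exact hxy
    | cons i l ih => exact h1 i _ _ ih
  have F2 : ∀ l (γ : G) x, r (F l (γ • x)) (γ • F l x) := fun l γ x => by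
    induction l with
    | nil => exact hr.refl _
    | cons i l ih => exact hr.trans (h1 i _ _ ih) (h2 i γ _)
  have F3 : ∀ l i x, r (F l (k i x)) (k i (F l x)) := fun l i x => by
    induction l with
    | nil => exact hr.refl _
    | cons j l ih => exact hr.trans (h1 j _ _ ih) (h3 j i _)
  have F4 : ∀ l l' x, r (F l (F l' x)) (F l' (F l x)) := fun l l' x => by
    induction l' with
    | nil => exact hr.refl _
    | cons j l' ih => exact hr.trans (F3 l j _) (h1 j _ _ ih)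
  have hO : IsClopen {x | ∃ l, r x (F l x0)} := by
    constructor
    · rw [← isOpen_compl_iff, isOpen_iff_mem_nhds]
      intro x hx
      filter_upwards [loc x] with x' hx' hc
      obtain ⟨l, hl⟩ := hc
      obtain ⟨i, hi⟩ := hx'.2
      exact hx ⟨i :: l, hr.trans hi (h1 i _ _ hl)⟩
    · rw [isOpen_iff_mem_nhds]
      rintro x ⟨l, hl⟩
      filter_upwards [loc x] with x' hx'
      obtain ⟨i, hi⟩ := hx'.1
      exact ⟨i :: l, hr.trans hi (h1 i _ _ hl)⟩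
  have all : ∀ x, ∃ l, r x (F l x0) := fun x =>
    (hO.eq_univ ⟨x0, [], hr.refl _⟩).ge (Set.mem_univ x)
  obtain ⟨la, ha⟩ := all (a • x0)
  obtain ⟨lb, hb⟩ := all (b • x0)
  have e1 : r ((a * b) • x0) (F lb (F la x0)) := by
    rw [mul_smul]
    exact hr.trans (rs a _ _ hb) (hr.trans (hr.symm (F2 lb a x0)) (F1 lb _ _ ha))
  have e2 : r ((b * a) • x0) (F la (F lb x0)) := by
    rw [mul_smul]
    exact hr.trans (rs b _ _ ha) (hr.trans (hr.symm (F2 la b x0)) (F1 la _ _ hb))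
  have e3 := rs (b * a)⁻¹ _ _ (hr.trans e1 (hr.trans (F4 lb la x0) (hr.symm e2)))
  rw [inv_smul_smul, ← mul_smul] at e3
  exact (inv_mul_eq_one.1 (free _ _ e3)).symm

end Pool.Agent.Work.MP_1ce82a_an
end

-- merged part: Pool.Agent.Work.MP_1ce82a_an.L.NHgt
section
/-! Crossing time and height for an extension of the flow.
PLAN. exists_hgt: W from ext with R = norm x0 + r, W' p = mk d (max (X1 (W p)) v0) (X2 (W p)) is Lipschitz and agrees with V on L near x0; X1 (phi t p) increases with speed at least v0, cross_time gives tau p, unique by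
incr_of_deriv; |tau p - tau p'| <= |X1 (phi (tau p) p') - X1 (phi (tau p) p)| / v0 gives continuity; H p = X2 (phi (tau p) p).
onL: the curve psi p stays in the ball of radius r for |t| <= t1 (stay), where it solves the equation of the extended field, so it equals phi . p (IsFlow.unique_Icc), and |tau p| <= t1.
offL: q = phi (tau p) p is in L and in the ball of radius r/2, so p = phi (-tau p) q = psi q (-tau p) is in L. -/

open Set Filter Topology MeasureTheory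
open scoped ContDiff

namespace Pool.Agent.Work.MP_1ce82a_an

variable {Γ : Grp}

variable {L : Set E} {V : E → E} {ψ : E → ℝ → E}

theorem exists_hgt (h : Lam Γ L V ψ) {d : Fin 4} {x0 : E} {r v0 v1 K t1 : ℝ}
    (hb : PreBox Γ L V ψ d x0 r v0 v1 K t1) : ∃ τ H : E → ℝ, Hgt L ψ d x0 r v0 t1 τ H := by
  obtain ⟨W, k, hW, hV⟩ := h.ext (‖x0‖ + r)
  have v0p := hb.v0_pos
  have hU : LipschitzWith k fun p => mk d (max (X1 d (W p)) v0) (X2 d (W p)) :=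
    LipschitzWith.of_dist_le_mul fun p q => by
      refine le_trans ?_ (hW.dist_le_mul p q)
      rw [dist_eq_norm, dist_eq_norm, mk_sub, norm_mk, ← map_sub]
      refine max_le ((abs_max_sub_max_le_abs _ _ _).trans ?_) (abs_X2_le d _)
      rw [← map_sub]
      exact abs_X1_le d _
  obtain ⟨φ, hφ⟩ := MP_05654f_an.exists_flow hU
  have hd : ∀ p t, HasDerivAt (fun s => X1 d (φ s p)) (max (X1 d (W (φ t p))) v0) t ∧
      v0 ≤ max (X1 d (W (φ t p))) v0 := fun p t =>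
    ⟨((X1 d).hasFDerivAt.comp_hasDerivAt t (hφ.deriv p t)).congr_deriv (X1_mk d _ _),
      le_max_right _ _⟩
  have hl : ∀ p s t, v0 * |s - t| ≤ |X1 d (φ s p) - X1 d (φ t p)| := fun p s t => by
    wlog c : t ≤ s generalizing s t
    · rw [abs_sub_comm, abs_sub_comm (X1 d _)]
      exact this t s (not_le.1 c).le
    rw [abs_of_nonneg (sub_nonneg.2 c)]
    exact (incr_of_deriv (fun t _ => hd p t) t ⟨le_rfl, c⟩ s ⟨c, le_rfl⟩ c).trans (le_abs_self _)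
  have hex : ∀ p, ∃ t : ℝ, |t| ≤ |X1 d p - X1 d x0| / v0 ∧ X1 d (φ t p) = X1 d x0 := fun p => by
    have k := cross_time (t0 := 0) (r := |X1 d p - X1 d x0| / v0) (y := X1 d x0) v0p
      (fun t _ => hd p t) (by rw [hφ.zero, mul_div_cancel₀ _ v0p.ne'])
    simpa only [hφ.zero, sub_zero] using k
  choose τ h1 h2 using hex
  have hc := hφ.continuous hU
  have cτ : Continuous τ := continuous_iff_continuousAt.2 fun p => by
    have c : Continuous fun q => |X1 d x0 - X1 d (φ (τ p) q)| / v0 :=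
      (continuous_const.sub ((X1 d).continuous.comp
        (hc.comp (continuous_const.prodMk continuous_id)))).abs.div_const _
    refine tendsto_iff_norm_sub_tendsto_zero.2 (squeeze_zero (fun _ => norm_nonneg _)
      (fun q => ?_) (c.tendsto' p 0 (by simp only [h2, sub_self, abs_zero, zero_div])))
    rw [le_div_iff₀' v0p, ← h2 q]
    exact hl q _ _
  have he : ∀ p, φ (τ p) p = mk d (X1 d x0) (X2 d (φ (τ p) p)) := fun p => by
    rw [← h2 p, mk_X]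
  have ht : ∀ p, |X1 d p - X1 d x0| ≤ v0 * t1 → |τ p| ≤ t1 := fun p hp =>
    (h1 p).trans ((div_le_iff₀' v0p).2 hp)
  have hψ : ∀ p ∈ L, ‖p - x0‖ ≤ r / 2 → ∀ t, |t| ≤ t1 → ψ p t = φ t p := fun p hp hr t a => by
    have k := hφ.unique_Icc hU (x := ψ p) (a := -t1) (b := t1) (fun s hs => by
      have m := h.mem p hp s
      have n := (hb.stay p hp hr s (abs_le.2 hs)).1
      rw [hV _ m ((norm_le_norm_add_norm_sub' _ x0).trans (add_le_add le_rfl n)),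
        max_eq_left (hb.dir _ m n).1, mk_X]
      exact h.der p hp s) (t₀ := 0) (t := t) ⟨neg_nonpos.2 hb.t1_pos.le, hb.t1_pos.le⟩ (abs_le.1 a)
    rwa [sub_zero, h.zero p hp] at k
  refine ⟨τ, fun p => X2 d (φ (τ p) p), cτ, (X2 d).continuous.comp
    (hc.comp (cτ.prodMk continuous_id)), h1, fun p hp hr a => (hψ p hp hr _ (ht p a)).trans (he p),
    fun p a hr hq => ?_, fun y => ?_⟩
  · have k := h.mem _ hq (-τ p)
    rwa [hψ _ hq hr _ ((abs_neg _).trans_le (ht p a)), ← he, ← hφ.add hU, neg_add_cancel,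
      hφ.zero] at k
  · have k := h1 (mk d (X1 d x0) y)
    rw [X1_mk, sub_self, abs_zero, zero_div, abs_nonpos_iff] at k
    simp only [k, hφ.zero, X2_mk]

end Pool.Agent.Work.MP_1ce82a_an
end

-- merged part: Pool.Agent.Work.MP_1ce82a_an.L.NBox
section
/-! Existence of a flow box and the properties of its crossings. -/

open Set Filter Topology MeasureTheory
open scoped ContDiff

namespace Pool.Agent.Work.MP_1ce82a_an

variable {Γ : Grp}

variable {L : Set E} {V : E → E} {ψ : E → ℝ → E} {b : BoxD}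

theorem exists_preBox_at (hS : Surf Γ) (h : Lam Γ L V ψ) {x0 : E} (hx0 : x0 ∈ L) {r0 : ℝ}
    (hr0' : 0 < r0) :
    ∃ (d : Fin 4) (r v0 v1 K t1 : ℝ), PreBox Γ L V ψ d x0 r v0 v1 K t1 ∧ r ≤ r0 := by
  have hV := norm_pos_iff.2 (h.V_ne hx0)
  obtain ⟨d, hd⟩ := exists_dir (V x0)
  obtain ⟨R', hR'⟩ := h.stay (‖x0‖ + 1) 1
  obtain ⟨K, hK, hl⟩ := h.lip (max R' (‖x0‖ + 1))
  obtain ⟨re, hre, hre0, hemb⟩ : ∃ re : ℝ, 0 < re ∧ re ≤ r0 ∧ ∀ (γ : Γ) (y : E),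
      ‖y - x0‖ ≤ re → ‖γ • y - x0‖ ≤ re → γ = 1 := by
    obtain ⟨re, hre, hemb⟩ := hS.embedded x0
    exact ⟨min re r0, lt_min hre hr0', min_le_right _ _, fun γ y a b =>
      hemb γ y (a.trans (min_le_left _ _)) (b.trans (min_le_left _ _))⟩
  set r : ℝ := min re (min 1 (‖V x0‖ / 2 / (K + 1))) with hr
  have hr0 : 0 < r := lt_min hre (lt_min one_pos (by positivity))
  have hr1 : r ≤ re := min_le_left _ _
  have hr2 : r ≤ 1 := (min_le_right _ _).trans (min_le_left _ _)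
  have hr3 : r ≤ ‖V x0‖ / 2 / (K + 1) := (min_le_right _ _).trans (min_le_right _ _)
  rw [le_div_iff₀ (by positivity)] at hr3
  have hball : ∀ p : E, ‖p - x0‖ ≤ r → ‖p‖ ≤ ‖x0‖ + 1 := fun p hp => by
    have := norm_le_insert' p x0
    linarith only [hr2, hp, this]
  have hx0' : ‖x0‖ ≤ max R' (‖x0‖ + 1) := le_trans (by linarith only []) (le_max_right _ _)
  refine ⟨d, r, ‖V x0‖ / 2, K + 1, K, min 1 (r / (2 * (K + 1))), ⟨hx0, hr0, by positivity,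
    by positivity, hK, lt_min one_pos (by positivity),
    fun γ y h1 h2 => hemb γ y (h1.trans hr1) (h2.trans hr1), fun p hp hpr => ?_,
    fun p hp q hq h1 h2 => (hl p hp q hq ((hball p h1).trans (le_max_right _ _))
      ((hball q h2).trans (le_max_right _ _))).2, fun p hp hpr t ht => ?_⟩, hr1.trans hre0⟩
  · obtain ⟨a1, a2⟩ := hl p hp x0 hx0 ((hball p hpr).trans (le_max_right _ _)) hx0'
    have a3 := abs_le.1 ((abs_X1_le d (V p - V x0)).trans a2)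
    rw [map_sub, hd] at a3
    have a4 : K * ‖p - x0‖ ≤ K * r := mul_le_mul_of_nonneg_left hpr hK
    exact ⟨by linarith only [hr0, hr3, a3, a4, a3.1], by linarith only [a1]⟩
  · have ht1 : |t| ≤ 1 := ht.trans (min_le_left _ _)
    have ht2 : |t| ≤ r / (2 * (K + 1)) := ht.trans (min_le_right _ _)
    rw [le_div_iff₀ (by positivity)] at ht2
    have hp1 : ‖p‖ ≤ ‖x0‖ + 1 := hball p (by linarith only [hr0, hpr])
    have key : ‖ψ p t - ψ p 0‖ ≤ (K + 1) * ‖t - 0‖ :=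
      (convex_Icc (-1 : ℝ) 1).norm_image_sub_le_of_norm_hasDerivWithin_le
        (fun s _ => (h.der p hp s).hasDerivWithinAt)
        (fun s hs => by
          have := (hl _ (h.mem p hp s) x0 hx0
            ((hR' p hp hp1 s (abs_le.2 hs)).trans (le_max_left _ _)) hx0').1
          linarith only [this]) ⟨by norm_num, by norm_num⟩ (abs_le.1 ht1)
    rw [h.zero p hp, sub_zero, Real.norm_eq_abs] at key
    refine ⟨?_, key⟩
    have := norm_sub_le_norm_sub_add_norm_sub (ψ p t) p x0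
    linarith only [hpr, ht2, key, this]

theorem exists_preBox (hS : Surf Γ) (h : Lam Γ L V ψ) :
    ∃ (d : Fin 4) (x0 : E) (r v0 v1 K t1 : ℝ), PreBox Γ L V ψ d x0 r v0 v1 K t1 := by
  obtain ⟨x0, hx0⟩ := h.ne
  obtain ⟨d, r, v0, v1, K, t1, hp, -⟩ := exists_preBox_at hS h hx0 one_pos
  exact ⟨d, x0, r, v0, v1, K, t1, hp⟩

theorem NBox_norm (d : Fin 4) (p q : E) :
    ‖p - q‖ = max |X1 d p - X1 d q| |X2 d p - X2 d q| := by
  rw [norm_eq_X d, map_sub, map_sub]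

theorem exists_box_at (hS : Surf Γ) (hN : ∃ x, x ∉ L) (h : Lam Γ L V ψ) {x0 : E} (hx0 : x0 ∈ L)
    {r0 : ℝ} (hr0' : 0 < r0) : ∃ b : BoxD, IsBox Γ L V ψ b ∧ b.x0 = x0 ∧ b.r ≤ r0 ∧
      ∀ c c' : ℝ, c < c' → b.bl ≤ c → c' ≤ b.bu → ∃ y, c < y ∧ y < c' ∧ b.pt y ∉ L := by
  obtain ⟨d, r, v0, v1, K, t1, hp, hrr⟩ := exists_preBox_at hS h hx0 hr0'
  obtain ⟨τ, H, hh⟩ := exists_hgt h hp
  have hr := hp.r_pos
  have hv0 := hp.v0_pos
  have hv1 := hp.v1_pos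
  have hK := hp.K_nonneg
  have ht1 := hp.t1_pos
  have noseg : ∀ c c' : ℝ, c < c' → X2 d x0 - r / 2 ≤ c → c' ≤ X2 d x0 + r / 2 →
      ∃ y, c < y ∧ y < c' ∧ mk d (X1 d x0) y ∉ L := by
    intro c c' hcc h1 h2
    by_contra hc
    push Not at hc
    refine h.thin hS hN (mk d (X1 d x0) ((c + c') / 2)) ?_
    have ho : IsOpen {p : E | |X1 d p - X1 d x0| < v0 * t1 ∧ c < H p ∧ H p < c'} :=
      (isOpen_lt ((X1 d).continuous.sub continuous_const).abs continuous_const).inter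
        ((isOpen_lt continuous_const hh.cH).inter (isOpen_lt hh.cH continuous_const))
    refine mem_of_superset (ho.mem_nhds ?_) fun p hp' => ?_
    · refine ⟨?_, ?_, ?_⟩
      · rw [X1_mk, sub_self, abs_zero]
        positivity
      · rw [hh.sec]
        linarith only [hcc]
      · rw [hh.sec]
        linarith only [hcc]
    · obtain ⟨a1, a2, a3⟩ := hp'
      refine hh.offL p a1.le ?_ (hc _ a2 a3)
      rw [NBox_norm, X1_mk, X2_mk, sub_self, abs_zero]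
      exact max_le (by linarith only [h1, h2, a2, a3]) (abs_le.2 ⟨by linarith only [h1, a2], by linarith only [h2, a3]⟩)
  set ρ : ℝ := min (r / 4) (v0 ^ 2 / (8 * (K * v1) + 1)) with hρ
  have hρ0 : 0 < ρ := lt_min (by positivity) (by positivity)
  have hρ1 : ρ ≤ r / 4 := min_le_left _ _
  have hρ2 : ρ ≤ v0 ^ 2 / (8 * (K * v1) + 1) := min_le_right _ _
  rw [le_div_iff₀ (by positivity)] at hρ2
  obtain ⟨bl, l1, l2, l3⟩ := noseg (X2 d x0 - ρ) (X2 d x0) (by linarith only [hρ0]) (by linarith only [hρ0, hρ1]) (by linarith only [hρ0, hρ1])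
  obtain ⟨bu, u1, u2, u3⟩ := noseg (X2 d x0) (X2 d x0 + ρ) (by linarith only [l1, l2]) (by linarith only [hρ1, l1, l2]) (by linarith only [hρ1, l1, l2])
  obtain ⟨n1, n1p, hn1⟩ := Metric.mem_nhds_iff.1 (h.closed.isOpen_compl.mem_nhds l3)
  obtain ⟨n2, n2p, hn2⟩ := Metric.mem_nhds_iff.1 (h.closed.isOpen_compl.mem_nhds u3)
  set ν : ℝ := min ρ (min (n1 / 2) (n2 / 2)) with hν
  have hν0 : 0 < ν := lt_min hρ0 (lt_min (by positivity) (by positivity))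
  have hν1 : ν ≤ ρ := min_le_left _ _
  have hν2 : ν ≤ n1 / 2 := (min_le_right _ _).trans (min_le_left _ _)
  have hν3 : ν ≤ n2 / 2 := (min_le_right _ _).trans (min_le_right _ _)
  set w : ℝ := min ν (min (v0 * t1) (ν * v0 / v1)) with hw
  have hw0 : 0 < w := lt_min hν0 (lt_min (by positivity) (by positivity))
  have hw1 : w ≤ ν := min_le_left _ _
  have hw2 : w ≤ v0 * t1 := (min_le_right _ _).trans (min_le_left _ _)
  have hw3 : w ≤ ν * v0 / v1 := (min_le_right _ _).trans (min_le_right _ _)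
  rw [le_div_iff₀ hv1] at hw3
  refine ⟨⟨d, x0, r, v0, v1, K, t1, bl, bu, ν, w, τ, H⟩, ⟨hp, hh, hν0, hw0, ⟨l2.le, u1.le⟩,
    fun p hQ => ?_, fun p hpL hQ => ?_, hw2, by simpa [mul_comm] using hw3, ?_⟩, rfl, hrr,
    fun c c' a1 (a2 : bl ≤ c) (a3 : c' ≤ bu) => noseg c c' a1 (by linarith only [hρ1, l1, l2, a2]) (by linarith only [hρ1, l1, l2, u2, a3])⟩
  · obtain ⟨a1, a2, a3⟩ := hQ
    simp only [BoxD.a] at a1 a2 a3 ⊢
    rw [NBox_norm d]
    exact max_le (by linarith only [hρ1, l1, l2, hν1, hw1, a1]) (abs_le.2 ⟨by linarith only [hρ1, l1, hν1, a2], by linarith only [hρ1, u2, hν1, a3]⟩)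
  · obtain ⟨a1, a2, a3⟩ := hQ
    simp only [BoxD.a] at a1 a2 a3 ⊢
    constructor
    · by_contra hc
      push Not at hc
      refine hn1 (a := p) ?_ hpL
      rw [mem_ball_iff_norm, NBox_norm d, X1_mk, X2_mk]
      exact max_lt (by linarith only [hν0, hν2, hw1, a1]) (abs_lt.2 ⟨by linarith only [hν0, hν2, a2], by linarith only [hν0, hν2, hc]⟩)
    · by_contra hc
      push Not at hc
      refine hn2 (a := p) ?_ hpL
      rw [mem_ball_iff_norm, NBox_norm d, X1_mk, X2_mk]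
      exact max_lt (by linarith only [hν0, hν3, hw1, a1]) (abs_lt.2 ⟨by linarith only [hν0, hν3, hc], by linarith only [hν0, hν3, a3]⟩)
  · show 2 * (bu - bl + 2 * ν) * K * v1 ≤ v0 ^ 2
    have a1 : bu - bl + 2 * ν ≤ 4 * ρ := by linarith only [l1, u2, hν1]
    have a2 : 0 ≤ K * v1 := by positivity
    (refine le_of_not_gt fun h_nl => ?_; linarith only [h_nl, l1, u2, hν1, hρ0, l2, u1, hν0, hρ2, mul_nonneg_of_nonpos_of_nonpos (Mathlib.Tactic.Linarith.sub_nonpos_of_le (sq_nonneg v0)) (le_of_lt (Mathlib.Tactic.Linarith.sub_neg_of_lt l1)), mul_nonneg_of_nonpos_of_nonpos (Mathlib.Tactic.Linarith.sub_nonpos_of_le (sq_nonneg v0)) (le_of_lt (Mathlib.Tactic.Linarith.sub_neg_of_lt u2)), mul_nonneg_of_nonpos_of_nonpos (Mathlib.Tactic.Linarith.sub_nonpos_of_le (sq_nonneg v0)) (Mathlib.Tactic.Linarith.sub_nonpos_of_le hν1), mul_pos_of_neg_of_neg (Mathlib.Tactic.Linarith.sub_neg_of_lt hρ0) (Mathlib.Tactic.Linarith.sub_neg_of_lt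 l2), mul_pos_of_neg_of_neg (Mathlib.Tactic.Linarith.sub_neg_of_lt hρ0) (Mathlib.Tactic.Linarith.sub_neg_of_lt u1), mul_pos_of_neg_of_neg (Mathlib.Tactic.Linarith.sub_neg_of_lt hρ0) (Mathlib.Tactic.Linarith.sub_neg_of_lt hν0), mul_pos_of_neg_of_neg (Mathlib.Tactic.Linarith.sub_neg_of_lt hρ0) (Mathlib.Tactic.Linarith.sub_neg_of_lt h_nl), mul_nonneg_of_nonpos_of_nonpos (Mathlib.Tactic.Linarith.sub_nonpos_of_le hρ2) (le_of_lt (Mathlib.Tactic.Linarith.sub_neg_of_lt l2)), mul_nonneg_of_nonpos_of_nonpos (Mathlib.Tactic.Linarith.sub_nonpos_of_le hρ2) (le_of_lt (Mathlib.Tactic.Linarith.sub_neg_of_lt u1)), mul_nonneg_of_nonpos_of_nonpos (Mathlib.Tactic.Linarith.sub_nonpos_of_le hρ2) (le_of_lt (Mathlib.Tactic.Linarith.sub_neg_of_lt hν0))])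

theorem exists_box (hS : Surf Γ) (hN : ∃ x, x ∉ L) (h : Lam Γ L V ψ) :
    ∃ b : BoxD, IsBox Γ L V ψ b := by
  obtain ⟨x0, hx0⟩ := h.ne
  exact (exists_box_at hS hN h hx0 one_pos).imp fun b hb => hb.1

theorem BoxD.X1_pt (b : BoxD) (y : ℝ) : X1 b.d (b.pt y) = b.a := X1_mk _ _ _

theorem BoxD.X2_pt (b : BoxD) (y : ℝ) : X2 b.d (b.pt y) = y := X2_mk _ _ _

theorem BoxD.norm_pt_sub (b : BoxD) (y y' : ℝ) : ‖b.pt y - b.pt y'‖ = |y - y'| :=
  norm_mk_sub _ _ _ _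

theorem BoxD.cont_pt (b : BoxD) : Continuous b.pt :=
  (continuous_mk b.d).comp (continuous_const.prodMk continuous_id)

theorem BoxD.pt_x0 (b : BoxD) : b.pt (X2 b.d b.x0) = b.x0 := mk_X _ _

theorem IsBox.isOpen_Q (b : BoxD) : IsOpen b.Q :=   (isOpen_lt ((X1 b.d).continuous.sub continuous_const).abs continuous_const).inter
    ((isOpen_lt continuous_const (X2 b.d).continuous).inter
      (isOpen_lt (X2 b.d).continuous continuous_const))

theorem IsBox.pt_mem (hb : IsBox Γ L V ψ b) {y : ℝ} (hy : y ∈ b.Y L) : b.pt y ∈ b.Q := by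
  refine ⟨?_, ?_, ?_⟩
  · rw [b.X1_pt, sub_self, abs_zero]
    exact hb.w_pos
  · rw [b.X2_pt]
    linarith only [hy, hb, hy.1, hb.ν_pos]
  · rw [b.X2_pt]
    linarith [hy.2.1, hb.ν_pos]

theorem IsBox.cpt (h : Lam Γ L V ψ) (b : BoxD) : IsCompact (b.Y L) := by
  have : b.Y L = Icc b.bl b.bu ∩ b.pt ⁻¹' L := by
    ext y
    exact ⟨fun ⟨a, c, e⟩ => ⟨⟨a, c⟩, e⟩, fun ⟨⟨a, c⟩, e⟩ => ⟨a, c, e⟩⟩
  rw [this]
  exact isCompact_Icc.inter_right (h.closed.preimage b.cont_pt)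

theorem IsBox.ne (hb : IsBox Γ L V ψ b) : (b.Y L).Nonempty :=   ⟨X2 b.d b.x0, hb.mid.1, hb.mid.2, by rw [b.pt_x0]; exact hb.pre.mem⟩

theorem IsBox.hit0 (hb : IsBox Γ L V ψ b) {p : E} (hp : p ∈ L) (hQ : p ∈ b.Q) :
    ψ p (b.τ p) = b.pt (b.H p) ∧ |b.τ p| ≤ b.t1 ∧ |b.H p - X2 b.d p| ≤ b.v1 * |b.τ p| := by
  have a1 : ψ p (b.τ p) = b.pt (b.H p) :=
    hb.hgt.onL p hp (hb.sub p hQ) (hQ.1.le.trans hb.w1)
  have a2 : |b.τ p| ≤ b.t1 := by
    refine (hb.hgt.bd p).trans ?_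
    rw [div_le_iff₀ hb.pre.v0_pos, mul_comm]
    exact hQ.1.le.trans hb.w1
  refine ⟨a1, a2, ?_⟩
  have a3 := (abs_X2_le b.d _).trans (hb.pre.stay p hp (hb.sub p hQ) _ a2).2
  rwa [map_sub, a1, b.X2_pt] at a3

/-- A point of the lamination in the box crosses the section nearby. -/
theorem IsBox.hit (h : Lam Γ L V ψ) (hb : IsBox Γ L V ψ b) {p : E} (hp : p ∈ L) (hQ : p ∈ b.Q) :
    b.H p ∈ b.Y L ∧ ψ p (b.τ p) = b.pt (b.H p) ∧ |b.τ p| ≤ b.t1 := by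
  obtain ⟨a1, a2, a3⟩ := hb.hit0 hp hQ
  have a4 := hb.gap p hp hQ
  have a5 : b.v1 * |b.τ p| ≤ b.ν := by
    have c1 : |b.τ p| ≤ b.w / b.v0 :=
      (hb.hgt.bd p).trans (div_le_div_of_nonneg_right hQ.1.le hb.pre.v0_pos.le)
    rw [le_div_iff₀ hb.pre.v0_pos] at c1
    have c2 := hb.w2
    have c3 := hb.pre.v0_pos
    have c4 := hb.pre.v1_pos
    by_contra hc
    push Not at hc
    linarith only [c2, c1, c4, c3, hc, mul_nonneg_of_nonpos_of_nonpos (Mathlib.Tactic.Linarith.sub_nonpos_of_le c1) (le_of_lt (Mathlib.Tactic.Linarith.sub_neg_of_lt c4)), mul_pos_of_neg_of_neg (Mathlib.Tactic.Linarith.sub_neg_of_lt c3) (Mathlib.Tactic.Linarith.sub_neg_of_lt hc)]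
  have a6 := abs_le.1 (a3.trans a5)
  refine ⟨⟨by linarith only [a4, a6, a6.1, a4.1], by linarith only [a4, a6, a6.2, a4.2], ?_⟩, a1, a2⟩
  rw [← a1]
  exact h.mem p hp _

theorem IsBox.off (hb : IsBox Γ L V ψ b) {p : E} (hQ : p ∈ b.Q) (hY : b.H p ∈ b.Y L) : p ∈ L :=   hb.hgt.offL p (hQ.1.le.trans hb.w1) (hb.sub _ (hb.pt_mem hY)) hY.2.2

theorem IsBox.norm_pt (hb : IsBox Γ L V ψ b) {y : ℝ} (hy : y ∈ b.Y L) :
    ‖b.pt y‖ ≤ ‖b.x0‖ + b.r := by
  have a := hb.sub _ (hb.pt_mem hy)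
  have c := norm_le_insert' (b.pt y) b.x0
  linarith only [a, c, hb, hb.pre.r_pos]

theorem IsBox.cr_of (h : Lam Γ L V ψ) (hb : IsBox Γ L V ψ b) {q : E} (hq : q ∈ L) {T : ℝ} {γ : Γ}
    (hQ : γ⁻¹ • ψ q T ∈ b.Q) : b.H (γ⁻¹ • ψ q T) ∈ b.Y L ∧
      ψ q (b.τ (γ⁻¹ • ψ q T) + T) = γ • b.pt (b.H (γ⁻¹ • ψ q T)) ∧
      |b.τ (γ⁻¹ • ψ q T)| ≤ b.t1 := by
  obtain ⟨a1, a2, a3⟩ := hb.hit h (h.smul _ _ (h.mem q hq T)) hQ
  refine ⟨a1, ?_, a3⟩
  rw [← a2, h.eqv _ _ (h.mem q hq T), smul_inv_smul, h.add q hq]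

theorem IsBox.near (hb : IsBox Γ L V ψ b) {p : E} (hp : p ∈ L) {y : ℝ} (hy : y ∈ b.Y L)
    (hn : ‖p - b.pt y‖ < min b.w b.ν) : p ∈ b.Q ∧ |b.τ p| ≤ 1 / b.v0 * ‖p - b.pt y‖ ∧
      |b.H p - y| ≤ (b.v1 / b.v0 + 1) * ‖p - b.pt y‖ := by
  have a1 := abs_X1_le b.d (p - b.pt y)
  have a2 := abs_X2_le b.d (p - b.pt y)
  rw [map_sub, b.X1_pt] at a1
  rw [map_sub, b.X2_pt] at a2
  have a3 := abs_le.1 a2
  have n1 := hn.trans_le (min_le_left _ _)
  have n2 := hn.trans_le (min_le_right _ _)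
  have hQ : p ∈ b.Q := ⟨a1.trans_lt n1, by linarith only [a3, n2, hy, a3.1, hy.1], by linarith only [a3, n2, hy, a3.2, hy.2.1]⟩
  have a4 : |b.τ p| ≤ 1 / b.v0 * ‖p - b.pt y‖ := by
    rw [one_div_mul_eq_div]
    exact (hb.hgt.bd p).trans (div_le_div_of_nonneg_right a1 hb.pre.v0_pos.le)
  refine ⟨hQ, a4, ?_⟩
  have a5 := (hb.hit0 hp hQ).2.2
  have a6 := mul_le_mul_of_nonneg_left a4 hb.pre.v1_pos.le
  have a7 := abs_sub_le (b.H p) (X2 b.d p) y
  have a8 : b.v1 * (1 / b.v0 * ‖p - b.pt y‖) = b.v1 / b.v0 * ‖p - b.pt y‖ := by ring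
  linarith only [a2, a5, a6, a7, a8]

/-- The first coordinate increases along short pieces starting in the box. -/
theorem IsBox.incr (h : Lam Γ L V ψ) (hb : IsBox Γ L V ψ b) {p : E} (hp : p ∈ L) (hQ : p ∈ b.Q) :
    ∀ s ∈ Icc (-b.t1) b.t1, ∀ t ∈ Icc (-b.t1) b.t1, s ≤ t →
      b.v0 * (t - s) ≤ X1 b.d (ψ p t) - X1 b.d (ψ p s) :=
  incr_of_deriv (f := fun t => X1 b.d (ψ p t)) (f' := fun t => X1 b.d (V (ψ p t))) fun t ht =>
    ⟨(X1 b.d).hasFDerivAt.comp_hasDerivAt t (h.der p hp t),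
      (hb.pre.dir _ (h.mem p hp t) (hb.pre.stay p hp (hb.sub p hQ) t (abs_le.2 ht)).1).1⟩

theorem IsBox.sep (h : Lam Γ L V ψ) (hb : IsBox Γ L V ψ b) {y T y' : ℝ} {γ : Γ}
    (hc : b.Cr Γ L ψ y T γ y') : T = 0 ∨ b.t1 < |T| := by
  by_contra hn
  push Not at hn
  obtain ⟨h0, hT⟩ := hn
  have hQ := hb.pt_mem hc.1
  have a1 := (hb.pre.stay _ hc.1.2.2 (hb.sub _ hQ) T hT).1
  have r2 : b.r / 2 ≤ b.r := by linarith only [hb, hb.pre.r_pos]
  have e := hc.2.2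
  have g1 : γ = 1 := hb.pre.emb γ _ ((hb.sub _ (hb.pt_mem hc.2.1)).trans r2) (by rw [← e]; exact a1)
  rw [g1, one_smul] at e
  have z0 : (0 : ℝ) ∈ Icc (-b.t1) b.t1 := ⟨by linarith only [hb, hb.pre.t1_pos], hb.pre.t1_pos.le⟩
  have hv := hb.pre.v0_pos
  rcases lt_or_gt_of_ne h0 with a | a
  · have := hb.incr h hc.1.2.2 hQ T (abs_le.1 hT) 0 z0 a.le
    rw [e, h.zero _ hc.1.2.2, b.X1_pt, b.X1_pt] at this
    linarith only [this, hv, a, mul_pos_of_neg_of_neg (Mathlib.Tactic.Linarith.sub_neg_of_lt hv) (Mathlib.Tactic.Linarith.sub_neg_of_lt a)]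
  · have := hb.incr h hc.1.2.2 hQ 0 z0 T (abs_le.1 hT) a.le
    rw [e, h.zero _ hc.1.2.2, b.X1_pt, b.X1_pt] at this
    linarith only [this, hv, a, mul_pos_of_neg_of_neg (Mathlib.Tactic.Linarith.sub_neg_of_lt hv) (Mathlib.Tactic.Linarith.sub_neg_of_lt a)]

theorem IsBox.crBase (hS : Surf Γ) (h : Lam Γ L V ψ) (hb : IsBox Γ L V ψ b) :
    ∃ T0 : ℝ, CrBase (b.Y L) (b.Cr Γ L ψ) b.t1 T0 := by
  obtain ⟨ε, hε, hball⟩ := Metric.isOpen_iff.1 (IsBox.isOpen_Q b) b.x0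
    (by rw [← b.pt_x0]; exact hb.pt_mem ⟨hb.mid.1, hb.mid.2, by rw [b.pt_x0]; exact hb.pre.mem⟩)
  obtain ⟨T0, hT0⟩ := h.synd b.x0 hb.pre.mem ε hε
  have ht1 := hb.pre.t1_pos
  have vis : ∀ y ∈ b.Y L, ∀ c : ℝ, ∃ T γ y', b.Cr Γ L ψ y T γ y' ∧ c - b.t1 ≤ T ∧
      T ≤ c + T0 + b.t1 := by
    intro y hy c
    obtain ⟨s, hs, γ, hγ⟩ := hT0 _ (h.mem _ hy.2.2 c)
    rw [h.add _ hy.2.2] at hγ
    have hQ : γ⁻¹⁻¹ • ψ (b.pt y) (s + c) ∈ b.Q := by
      rw [inv_inv]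
      exact hball (mem_ball_iff_norm.2 hγ)
    obtain ⟨a1, a2, a3⟩ := hb.cr_of h hy.2.2 hQ
    have a4 := abs_le.1 a3
    exact ⟨_, γ⁻¹, _, ⟨hy, a1, a2⟩, by linarith only [a4, hs, hs.1, a4.1], by linarith only [a4, hs, hs.2, a4.2]⟩
  refine ⟨T0 + 3 * b.t1, ht1, fun y T γ y' hc => ⟨hc.1, hc.2.1⟩, fun y hy => ⟨hy, hy, ?_⟩,
    fun y T γ y' hc => ⟨hc.2.1, hc.1, ?_⟩, fun y T γ y' T' γ' y'' hc hc' => ⟨hc.1, hc'.2.1, ?_⟩,
    fun y T γ y' hc => hb.sep h hc, fun y γ y' hc => ?_, fun y hy => ?_, fun y hy => ?_,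
    fun Tm => ?_⟩
  · rw [h.zero _ hy.2.2, one_smul]
  · have e := h.add _ hc.1.2.2 T (-T)
    rw [hc.2.2, neg_add_cancel, h.zero _ hc.1.2.2, h.eqv _ _ hc.2.1.2.2] at e
    rw [← e, inv_smul_smul]
  · rw [add_comm, ← h.add _ hc.1.2.2, hc.2.2, h.eqv _ _ hc.2.1.2.2, hc'.2.2, mul_smul]
  · have e := hc.2.2
    rw [h.zero _ hc.1.2.2] at e
    have r2 : b.r / 2 ≤ b.r := by linarith only [hb, hb.pre.r_pos]
    have g1 : γ = 1 := hb.pre.emb γ _ ((hb.sub _ (hb.pt_mem hc.2.1)).trans r2)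
      (by rw [← e]; exact (hb.sub _ (hb.pt_mem hc.1)).trans r2)
    refine ⟨g1, ?_⟩
    rw [g1, one_smul] at e
    rw [← b.X2_pt y, e, b.X2_pt]
  · obtain ⟨T, γ, y', hc, a1, a2⟩ := vis y hy (2 * b.t1)
    exact ⟨T, γ, y', hc, by linarith only [ht1, a1], by linarith only [a2]⟩
  · obtain ⟨T, γ, y', hc, a1, a2⟩ := vis y hy (-T0 - 2 * b.t1)
    exact ⟨-T, γ, y', by rwa [neg_neg], by linarith only [ht1, a2], by linarith only [a1]⟩
  · obtain ⟨C1, hC1, hg⟩ := h.gron (‖b.x0‖ + b.r) Tm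
    obtain ⟨R', hR'⟩ := h.stay (‖b.x0‖ + b.r) Tm
    obtain ⟨C2, hC2, hl⟩ := hS.lip_unif R' (‖b.x0‖ + b.r)
    have hv0 := hb.pre.v0_pos
    have hv1 := hb.pre.v1_pos
    have hm : 0 < min b.w b.ν := lt_min hb.w_pos hb.ν_pos
    refine ⟨(1 / b.v0 + b.v1 / b.v0 + 1) * (C2 * C1), min b.w b.ν / (C2 * C1 + 1), by positivity,
      by positivity, fun y1 T1 γ y1' y2 hy2 hc hT hρ => ?_⟩
    have n1 := hR' _ hc.1.2.2 (hb.norm_pt hc.1) T1 hT
    have n2 := hR' _ hy2.2.2 (hb.norm_pt hy2) T1 hT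
    have e1 : γ⁻¹ • ψ (b.pt y1) T1 = b.pt y1' := by rw [hc.2.2, inv_smul_smul]
    have d1 := hg _ hy2.2.2 _ hc.1.2.2 (hb.norm_pt hy2) (hb.norm_pt hc.1) T1 hT
    have d2 := (hl γ⁻¹ _ n1 (by rw [e1]; exact hb.norm_pt hc.2.1) _ _ n2 n1).2.1
    rw [b.norm_pt_sub] at d1
    rw [e1] at d2
    have d3 : ‖γ⁻¹ • ψ (b.pt y2) T1 - b.pt y1'‖ ≤ C2 * C1 * |y2 - y1| := by
      rw [mul_assoc]
      exact d2.trans (mul_le_mul_of_nonneg_left d1 hC2)
    have d4 : ‖γ⁻¹ • ψ (b.pt y2) T1 - b.pt y1'‖ < min b.w b.ν := by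
      rw [le_div_iff₀ (by positivity)] at hρ
      rcases (abs_nonneg (y2 - y1)).eq_or_lt with a | a
      · rw [← a, mul_zero] at d3
        linarith only [hm, d3]
      · linarith only [hρ, d3, a]
    have hpL : γ⁻¹ • ψ (b.pt y2) T1 ∈ L := h.smul _ _ (h.mem _ hy2.2.2 _)
    obtain ⟨hQ, q1, q2⟩ := hb.near hpL hc.2.1 d4
    obtain ⟨a1, a2, -⟩ := hb.cr_of h hy2.2.2 hQ
    have p0 : 0 ≤ C2 * C1 * |y2 - y1| := by positivity
    have p1 : 0 ≤ 1 / b.v0 := by positivity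
    have p2 : 0 ≤ b.v1 / b.v0 := by positivity
    refine ⟨_, _, ⟨hy2, a1, a2⟩, ?_, ?_⟩
    · rw [add_sub_cancel_right]
      have := mul_le_mul_of_nonneg_left d3 p1
      linarith only [q1, p0, this, p2, mul_nonneg_of_nonpos_of_nonpos (Mathlib.Tactic.Linarith.sub_nonpos_of_le p0) (Mathlib.Tactic.Linarith.sub_nonpos_of_le p2)]
    · have := mul_le_mul_of_nonneg_left d3 (add_nonneg p2 zero_le_one)
      linarith only [q2, this, p0, p1, mul_nonneg_of_nonpos_of_nonpos (Mathlib.Tactic.Linarith.sub_nonpos_of_le p0) (Mathlib.Tactic.Linarith.sub_nonpos_of_le p1)]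

theorem IsBox.crMoreS (hS : Surf Γ) (h : Lam Γ L V ψ) (hb : IsBox Γ L V ψ b) :
    CrMoreS chi (b.Y L) (b.Cr Γ L ψ) := by
  refine ⟨fun Tm C => ?_, fun y T γ hc hT => h.aper _ hc.1.2.2 T γ hT hc.2.2, fun y hy ε hε => ?_⟩
  · obtain ⟨R', hR'⟩ := h.stay (‖b.x0‖ + b.r) (|Tm| + 1)
    obtain ⟨K1, hK1, hl⟩ := h.lip R'
    obtain ⟨vl, hvl, hlo⟩ := h.speed_lo R'
    have hK : 0 ≤ max K1 C := hK1.trans (le_max_left _ _)
    have hv : 0 < min vl b.v0 := lt_min hvl hb.pre.v0_pos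
    choose h0 h0p hord using fun γ : Γ =>
      ord_sec hS γ b.d (T := Tm) (R := R') hK hv
    have hev : ∀ᶠ ρ in 𝓝[>] (0 : ℝ), ∀ γ ∈ {γ : Γ | ∃ x : E, ‖x‖ ≤ ‖b.x0‖ + b.r ∧ ‖γ • x‖ ≤ R'},
        ρ ∈ Ioc 0 (h0 γ) :=
      (eventually_all_finite (hS.finite_ball _ _)).2 fun γ _ => Ioc_mem_nhdsGT (h0p γ)
    obtain ⟨ρ, hρ, hρ0⟩ := (hev.and self_mem_nhdsWithin).exists
    refine ⟨ρ, hρ0, fun y1 T1 γ y1' y2 T2 y2' c1 c2 t0 t1 tC hlt hle => ?_⟩
    have L1 := c1.1.2.2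
    have L2 := c2.1.2.2
    have hTm : Tm ≤ |Tm| := le_abs_self _
    have hTm0 : 0 ≤ |Tm| := abs_nonneg _
    have hin : ∀ t ∈ Icc (-(1 / 2) : ℝ) (Tm + 1 / 2), |t| ≤ |Tm| + 1 := fun t ht =>
      abs_le.2 ⟨by linarith only [t0, t1, hTm, ht, ht.1], by linarith only [hTm, ht, ht.2]⟩
    have n1 : ∀ t ∈ Icc (-(1 / 2) : ℝ) (Tm + 1 / 2), ‖ψ (b.pt y1) t‖ ≤ R' := fun t ht =>
      hR' _ L1 (hb.norm_pt c1.1) t (hin t ht)
    have n2 : ∀ t ∈ Icc (-(1 / 2) : ℝ) (Tm + 1 / 2), ‖ψ (b.pt y2) t‖ ≤ R' := fun t ht =>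
      hR' _ L2 (hb.norm_pt c2.1) t (hin t ht)
    have hKK : K1 ≤ max K1 C := le_max_left _ _
    have hγ := hρ γ ⟨b.pt y1', hb.norm_pt c1.2.1, by
      rw [← c1.2.2]; exact n1 T1 ⟨by linarith only [t0], by linarith only [t1]⟩⟩
    have G : Graph2 (ψ (b.pt y1)) (ψ (b.pt y2)) (-(1 / 2)) (Tm + 1 / 2) (max K1 C)
        (min vl b.v0) := by
      refine ⟨fun t ht => ?_, fun t ht => ?_, fun s hs t ht => ?_, fun s hs t ht => ?_⟩
      · rw [h.deriv_eq L1]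
        exact ⟨h.der _ L1 t, (min_le_left _ _).trans (hlo _ (h.mem _ L1 t) (n1 t ht)),
          (hl _ (h.mem _ L1 t) _ (h.mem _ L1 t) (n1 t ht) (n1 t ht)).1.trans hKK⟩
      · rw [h.deriv_eq L2]
        exact ⟨h.der _ L2 t,
          (hl _ (h.mem _ L2 t) _ (h.mem _ L2 t) (n2 t ht) (n2 t ht)).1.trans hKK⟩
      · rw [h.deriv_eq L1, h.deriv_eq L1]
        exact (hl _ (h.mem _ L1 s) _ (h.mem _ L1 t) (n1 s hs) (n1 t ht)).2.trans
          (mul_le_mul_of_nonneg_right hKK (norm_nonneg _))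
      · rw [h.deriv_eq L1, h.deriv_eq L2]
        exact (hl _ (h.mem _ L1 s) _ (h.mem _ L2 t) (n1 s hs) (n2 t ht)).2.trans
          (mul_le_mul_of_nonneg_right hKK (norm_nonneg _))
    have e1 : γ⁻¹ • ψ (b.pt y1) T1 = b.pt y1' := by rw [c1.2.2, inv_smul_smul]
    have e2 : γ⁻¹ • ψ (b.pt y2) T2 = b.pt y2' := by rw [c2.2.2, inv_smul_smul]
    have r2 : b.r / 2 ≤ b.r := by linarith only [hb, hb.pre.r_pos]
    have en : ‖ψ (b.pt y2) 0 - ψ (b.pt y1) 0‖ = |y2 - y1| := by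
      rw [h.zero _ L1, h.zero _ L2, b.norm_pt_sub]
    have := (hord γ _ _ T1 T2 G (fun t ht => ⟨n1 t ht, n2 t ht⟩) ⟨t0, t1⟩
      (by rw [en, abs_of_pos (by linarith only [hlt])]; linarith only [hle, hγ, hγ.2])
      (by
        rw [en]
        exact tC.trans (mul_le_mul_of_nonneg_right (le_max_right _ _) (abs_nonneg _)))
      (by
        rw [h.deriv_eq L1, h.zero _ L1]
        exact (min_le_right _ _).trans
          (hb.pre.dir _ L1 ((hb.sub _ (hb.pt_mem c1.1)).trans r2)).1)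
      (by
        rw [h.deriv_eq L1, ← h.V_eqv hS _ (h.mem _ L1 T1), e1]
        exact (min_le_right _ _).trans
          (hb.pre.dir _ c1.2.1.2.2 ((hb.sub _ (hb.pt_mem c1.2.1)).trans r2)).1)
      (by rw [h.zero _ L1, h.zero _ L2, b.X1_pt, b.X1_pt])
      (by rw [e1, e2, b.X1_pt, b.X1_pt])) 1 (Or.inl rfl)
      (by rw [h.zero _ L1, h.zero _ L2, b.X2_pt, b.X2_pt]; linarith only [hlt])
    rwa [e1, e2, b.X2_pt, b.X2_pt, mul_one] at this
  · have hv0 := hb.pre.v0_pos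
    have hv1 := hb.pre.v1_pos
    have hc : 0 < b.v1 / b.v0 + 1 := by positivity
    obtain ⟨Tm, hTm⟩ := h.synd _ hy.2.2 (min (min b.w b.ν) (ε / (b.v1 / b.v0 + 1)))
      (lt_min (lt_min hb.w_pos hb.ν_pos) (by positivity))
    refine ⟨Tm + b.t1, fun z hz => ?_⟩
    obtain ⟨s, hs, γ, hγ⟩ := hTm _ hz.2.2
    rw [← inv_inv γ] at hγ
    obtain ⟨hQ, -, q2⟩ := hb.near (h.smul _ _ (h.mem _ hz.2.2 s)) hy (hγ.trans_le (min_le_left _ _))
    obtain ⟨a1, a2, a3⟩ := hb.cr_of h hz.2.2 hQ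
    have a4 := abs_le.1 a3
    have hcr : b.Cr Γ L ψ z _ γ⁻¹ _ := ⟨hz, a1, a2⟩
    refine ⟨_, γ⁻¹, _, hcr, ?_, by linarith only [a4, hs, hs.2, a4.2], ?_⟩
    · rcases hb.sep h hcr with e | e
      · exact e.ge
      · by_contra hn
        push Not at hn
        rw [abs_of_neg hn] at e
        linarith only [a4, e, hs, hs.1, a4.1]
    · have a5 := hγ.trans_le (min_le_right _ _)
      rw [lt_div_iff₀ hc] at a5
      linarith only [q2, a5]

end Pool.Agent.Work.MP_1ce82a_an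
end

-- merged part: Pool.Agent.Work.MP_1ce82a_an.T.Box
section
/-! Flow boxes for a minimal flow on the whole surface. -/

open Set Filter Topology MeasureTheory
open scoped ContDiff

namespace Pool.Agent.Work.MP_1ce82a_an

variable {Γ : Grp} {V : E → E} {ψ : E → ℝ → E} {b : BoxD}

/-- A flow box for a flow on the whole plane. -/
structure TBox (Γ : Grp) (V : E → E) (ψ : E → ℝ → E) (b : BoxD) : Prop where
  pre : PreBox Γ univ V ψ b.d b.x0 b.r b.v0 b.v1 b.K b.t1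
  hgt : Hgt univ ψ b.d b.x0 b.r b.v0 b.t1 b.τ b.H
  ν_pos : 0 < b.ν
  w_pos : 0 < b.w
  mid : b.bl + 3 * b.ν ≤ X2 b.d b.x0 ∧ X2 b.d b.x0 ≤ b.bu - 3 * b.ν
  sub : ∀ p ∈ b.Q, ‖p - b.x0‖ ≤ b.r / 2
  w1 : b.w ≤ b.v0 * b.t1

/-- Crossings of the translates of the closed section. -/
def CrI (b : BoxD) (Γ : Grp) (ψ : E → ℝ → E) (y T : ℝ) (γ : Γ) (y' : ℝ) : Prop :=
  y ∈ Icc b.bl b.bu ∧ y' ∈ Icc b.bl b.bu ∧ ψ (b.pt y) T = γ • b.pt y'

theorem exists_tbox (hS : Surf Γ) (h : Lam Γ univ V ψ) : ∃ b : BoxD, TBox Γ V ψ b := by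
  obtain ⟨d, x0, r, v0, v1, K, t1, hp⟩ := exists_preBox hS h
  obtain ⟨τ, H, hh⟩ := exists_hgt h hp
  have hr := hp.r_pos
  have hv0 := hp.v0_pos
  have ht1 := hp.t1_pos
  refine ⟨⟨d, x0, r, v0, v1, K, t1, X2 d x0 - 3 * (r / 8), X2 d x0 + 3 * (r / 8), r / 8,
    min (r / 2) (v0 * t1), τ, H⟩, hp, hh, show 0 < r / 8 by positivity,
    lt_min (by positivity) (by positivity), ⟨by simp, by simp⟩, fun p hQ => ?_, min_le_right _ _⟩
  obtain ⟨a1, a2, a3⟩ := hQ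
  simp only [BoxD.a] at a1 a2 a3 ⊢
  rw [NBox_norm d]
  exact max_le (a1.le.trans (min_le_left _ _)) (abs_le.2 ⟨by linarith only [a2], by linarith only [a3]⟩)

theorem TBox.pt_mem (hb : TBox Γ V ψ b) {y : ℝ} (hy : y ∈ Icc b.bl b.bu) : b.pt y ∈ b.Q := by
  refine ⟨?_, ?_, ?_⟩
  · rw [b.X1_pt, sub_self, abs_zero]
    exact hb.w_pos
  · rw [b.X2_pt]
    linarith only [hy, hb, hy.1, hb.ν_pos]
  · rw [b.X2_pt]
    linarith [hy.2, hb.ν_pos]

theorem TBox.hit0 (hb : TBox Γ V ψ b) {p : E} (hQ : p ∈ b.Q) :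
    ψ p (b.τ p) = b.pt (b.H p) ∧ |b.τ p| ≤ b.t1 ∧ |b.H p - X2 b.d p| ≤ b.v1 * |b.τ p| := by
  have a1 : ψ p (b.τ p) = b.pt (b.H p) :=
    hb.hgt.onL p trivial (hb.sub p hQ) (hQ.1.le.trans hb.w1)
  have a2 : |b.τ p| ≤ b.t1 := by
    refine (hb.hgt.bd p).trans ?_
    rw [div_le_iff₀ hb.pre.v0_pos, mul_comm]
    exact hQ.1.le.trans hb.w1
  refine ⟨a1, a2, ?_⟩
  have a3 := (abs_X2_le b.d _).trans (hb.pre.stay p trivial (hb.sub p hQ) _ a2).2
  rwa [map_sub, a1, b.X2_pt] at a3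

theorem TBox.norm_pt (hb : TBox Γ V ψ b) {y : ℝ} (hy : y ∈ Icc b.bl b.bu) :
    ‖b.pt y‖ ≤ ‖b.x0‖ + b.r := by
  have a := hb.sub _ (hb.pt_mem hy)
  have c := norm_le_insert' (b.pt y) b.x0
  linarith only [a, c, hb, hb.pre.r_pos]

theorem TBox.cr_of (h : Lam Γ univ V ψ) (hb : TBox Γ V ψ b) {q : E} {T : ℝ} {γ : Γ}
    (hQ : γ⁻¹ • ψ q T ∈ b.Q) :
    ψ q (b.τ (γ⁻¹ • ψ q T) + T) = γ • b.pt (b.H (γ⁻¹ • ψ q T)) ∧
      |b.τ (γ⁻¹ • ψ q T)| ≤ b.t1 := by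
  obtain ⟨a2, a3, -⟩ := hb.hit0 hQ
  refine ⟨?_, a3⟩
  rw [← a2, h.eqv _ _ trivial, smul_inv_smul, h.add q trivial]

theorem TBox.near (hb : TBox Γ V ψ b) {p : E} {y : ℝ} (hy : y ∈ Icc b.bl b.bu)
    (hn : ‖p - b.pt y‖ < min b.w b.ν) : p ∈ b.Q ∧ |b.τ p| ≤ 1 / b.v0 * ‖p - b.pt y‖ ∧
      |b.H p - y| ≤ (b.v1 / b.v0 + 1) * ‖p - b.pt y‖ := by
  have a1 := abs_X1_le b.d (p - b.pt y)
  have a2 := abs_X2_le b.d (p - b.pt y)
  rw [map_sub, b.X1_pt] at a1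
  rw [map_sub, b.X2_pt] at a2
  have a3 := abs_le.1 a2
  have n1 := hn.trans_le (min_le_left _ _)
  have n2 := hn.trans_le (min_le_right _ _)
  have hQ : p ∈ b.Q := ⟨a1.trans_lt n1, by linarith only [a3, n2, hy, a3.1, hy.1], by linarith only [a3, n2, hy, a3.2, hy.2]⟩
  have a4 : |b.τ p| ≤ 1 / b.v0 * ‖p - b.pt y‖ := by
    rw [one_div_mul_eq_div]
    exact (hb.hgt.bd p).trans (div_le_div_of_nonneg_right a1 hb.pre.v0_pos.le)
  refine ⟨hQ, a4, ?_⟩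
  have a5 := (hb.hit0 hQ).2.2
  have a6 := mul_le_mul_of_nonneg_left a4 hb.pre.v1_pos.le
  have a7 := abs_sub_le (b.H p) (X2 b.d p) y
  have a8 : b.v1 * (1 / b.v0 * ‖p - b.pt y‖) = b.v1 / b.v0 * ‖p - b.pt y‖ := by ring
  linarith only [a2, a5, a6, a7, a8]

theorem TBox.incr (h : Lam Γ univ V ψ) (hb : TBox Γ V ψ b) {p : E} (hQ : p ∈ b.Q) :
    ∀ s ∈ Icc (-b.t1) b.t1, ∀ t ∈ Icc (-b.t1) b.t1, s ≤ t →
      b.v0 * (t - s) ≤ X1 b.d (ψ p t) - X1 b.d (ψ p s) :=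
  incr_of_deriv (f := fun t => X1 b.d (ψ p t)) (f' := fun t => X1 b.d (V (ψ p t))) fun t ht =>
    ⟨(X1 b.d).hasFDerivAt.comp_hasDerivAt t (h.der p trivial t),
      (hb.pre.dir _ (h.mem p trivial t) (hb.pre.stay p trivial (hb.sub p hQ) t (abs_le.2 ht)).1).1⟩

theorem TBox.sep (h : Lam Γ univ V ψ) (hb : TBox Γ V ψ b) {y T y' : ℝ} {γ : Γ}
    (hc : CrI b Γ ψ y T γ y') : T = 0 ∨ b.t1 < |T| := by
  by_contra hn
  push Not at hn
  obtain ⟨h0, hT⟩ := hn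
  have hQ := hb.pt_mem hc.1
  have a1 := (hb.pre.stay _ trivial (hb.sub _ hQ) T hT).1
  have r2 : b.r / 2 ≤ b.r := by linarith only [hb, hb.pre.r_pos]
  have e := hc.2.2
  have g1 : γ = 1 := hb.pre.emb γ _ ((hb.sub _ (hb.pt_mem hc.2.1)).trans r2) (by rw [← e]; exact a1)
  rw [g1, one_smul] at e
  have z0 : (0 : ℝ) ∈ Icc (-b.t1) b.t1 := ⟨by linarith only [hb, hb.pre.t1_pos], hb.pre.t1_pos.le⟩
  have hv := hb.pre.v0_pos
  rcases lt_or_gt_of_ne h0 with a | a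
  · have := hb.incr h hQ T (abs_le.1 hT) 0 z0 a.le
    rw [e, h.zero _ trivial, b.X1_pt, b.X1_pt] at this
    linarith only [this, hv, a, mul_pos_of_neg_of_neg (Mathlib.Tactic.Linarith.sub_neg_of_lt hv) (Mathlib.Tactic.Linarith.sub_neg_of_lt a)]
  · have := hb.incr h hQ 0 z0 T (abs_le.1 hT) a.le
    rw [e, h.zero _ trivial, b.X1_pt, b.X1_pt] at this
    linarith only [this, hv, a, mul_pos_of_neg_of_neg (Mathlib.Tactic.Linarith.sub_neg_of_lt hv) (Mathlib.Tactic.Linarith.sub_neg_of_lt a)]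

theorem TBox.vis (h : Lam Γ univ V ψ) (hb : TBox Γ V ψ b) {y : ℝ} (hy : y ∈ Icc b.bl b.bu)
    {ε : ℝ} (hε : 0 < ε) : ∃ Tm : ℝ, ∀ (q : E) (c : ℝ), ∃ (T : ℝ) (γ : Γ) (u : ℝ),
      ψ q T = γ • b.pt u ∧ |u - y| < ε ∧ c - b.t1 ≤ T ∧ T ≤ c + Tm + b.t1 := by
  have hv0 := hb.pre.v0_pos
  have hv1 := hb.pre.v1_pos
  have hc : 0 < b.v1 / b.v0 + 1 := by positivity
  obtain ⟨Tm, hTm⟩ := h.synd (b.pt y) trivial (min (min b.w b.ν) (ε / (b.v1 / b.v0 + 1)))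
    (lt_min (lt_min hb.w_pos hb.ν_pos) (by positivity))
  refine ⟨Tm, fun q c => ?_⟩
  obtain ⟨s, hs, γ, hγ⟩ := hTm (ψ q c) trivial
  rw [← inv_inv γ, h.add q trivial] at hγ
  obtain ⟨hQ, -, q2⟩ := hb.near hy (hγ.trans_le (min_le_left _ _))
  obtain ⟨a2, a3⟩ := hb.cr_of h hQ
  have a4 := abs_le.1 a3
  have a5 := hγ.trans_le (min_le_right _ _)
  rw [lt_div_iff₀ hc] at a5
  exact ⟨_, γ⁻¹, _, a2, by linarith only [q2, a5], by linarith only [a4, hs, hs.1, a4.1], by linarith only [a4, hs, hs.2, a4.2]⟩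

theorem TBox.crW (h : Lam Γ univ V ψ) (hb : TBox Γ V ψ b) :
    ∃ T0 : ℝ, CrW (Icc b.bl b.bu) (CrI b Γ ψ) b.t1 T0 := by
  have hν := hb.ν_pos
  obtain ⟨T0, hT0⟩ := hb.vis h (y := X2 b.d b.x0)
    ⟨by linarith only [hν, hb, hb.mid.1], by linarith [hb.mid.2]⟩ hν
  have ht1 := hb.pre.t1_pos
  have vis : ∀ y ∈ Icc b.bl b.bu, ∀ c : ℝ, ∃ T γ y', CrI b Γ ψ y T γ y' ∧ c - b.t1 ≤ T ∧
      T ≤ c + T0 + b.t1 := by
    intro y hy c
    obtain ⟨T, γ, u, a1, a2, a3, a4⟩ := hT0 (b.pt y) c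
    rw [abs_lt] at a2
    exact ⟨T, γ, u, ⟨hy, ⟨by linarith only [hν, a2, hb, hb.mid.1, a2.1], by linarith only [hν, a2, hb, hb.mid.2, a2.2]⟩, a1⟩, a3, a4⟩
  refine ⟨T0 + 3 * b.t1, ht1, fun y T γ y' hc => ⟨hc.1, hc.2.1⟩, fun y hy => ⟨hy, hy, ?_⟩,
    fun y T γ y' hc => ⟨hc.2.1, hc.1, ?_⟩, fun y T γ y' T' γ' y'' hc hc' => ⟨hc.1, hc'.2.1, ?_⟩,
    fun y T γ y' hc => hb.sep h hc, fun y γ y' hc => ?_, fun y hy => ?_, fun y hy => ?_⟩
  · rw [h.zero _ trivial, one_smul]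
  · have e := h.add (b.pt y) trivial T (-T)
    rw [hc.2.2, neg_add_cancel, h.zero _ trivial, h.eqv _ _ trivial] at e
    rw [← e, inv_smul_smul]
  · rw [add_comm, ← h.add _ trivial, hc.2.2, h.eqv _ _ trivial, hc'.2.2, mul_smul]
  · have e := hc.2.2
    rw [h.zero _ trivial] at e
    have r2 : b.r / 2 ≤ b.r := by linarith only [hb, hb.pre.r_pos]
    have g1 : γ = 1 := hb.pre.emb γ _ ((hb.sub _ (hb.pt_mem hc.2.1)).trans r2)
      (by rw [← e]; exact (hb.sub _ (hb.pt_mem hc.1)).trans r2)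
    refine ⟨g1, ?_⟩
    rw [g1, one_smul] at e
    rw [← b.X2_pt y, e, b.X2_pt]
  · obtain ⟨T, γ, y', hc, a1, a2⟩ := vis y hy (2 * b.t1)
    exact ⟨T, γ, y', hc, by linarith, by linarith⟩
  · obtain ⟨T, γ, y', hc, a1, a2⟩ := vis y hy (-T0 - 2 * b.t1)
    exact ⟨-T, γ, y', by rwa [neg_neg], by linarith only [ht1, a2], by linarith⟩

theorem TBox.crossI (hS : Surf Γ) (h : Lam Γ univ V ψ) (hb : TBox Γ V ψ b) :
    CrossI b.bl b.bu (CrI b Γ ψ) := by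
  intro Tm η hη
  obtain ⟨C1, hC1, hg⟩ := h.gron (‖b.x0‖ + b.r) Tm
  obtain ⟨R', hR'⟩ := h.stay (‖b.x0‖ + b.r) Tm
  obtain ⟨C2, hC2, hl⟩ := hS.lip_unif R' (‖b.x0‖ + b.r)
  have hv0 := hb.pre.v0_pos
  have hv1 := hb.pre.v1_pos
  have hm : 0 < min b.w b.ν := lt_min hb.w_pos hb.ν_pos
  refine ⟨(1 / b.v0 + b.v1 / b.v0 + 1) * (C2 * C1), min (min b.w b.ν / (C2 * C1 + 1))
    (η / ((1 / b.v0 + b.v1 / b.v0 + 1) * (C2 * C1) + 1)), by positivity,
    lt_min (by positivity) (by positivity), fun y1 T1 γ y1' y2 hy2 hc hT hI hρ0 => ?_⟩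
  have hρ := hρ0.trans (min_le_left _ _)
  have hρ' := hρ0.trans (min_le_right _ _)
  rw [le_div_iff₀ (by positivity)] at hρ'
  have n1 := hR' _ trivial (hb.norm_pt hc.1) T1 hT
  have n2 := hR' _ trivial (hb.norm_pt hy2) T1 hT
  have e1 : γ⁻¹ • ψ (b.pt y1) T1 = b.pt y1' := by rw [hc.2.2, inv_smul_smul]
  have d1 := hg _ trivial _ trivial (hb.norm_pt hy2) (hb.norm_pt hc.1) T1 hT
  have d2 := (hl γ⁻¹ _ n1 (by rw [e1]; exact hb.norm_pt hc.2.1) _ _ n2 n1).2.1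
  rw [b.norm_pt_sub] at d1
  rw [e1] at d2
  have d3 : ‖γ⁻¹ • ψ (b.pt y2) T1 - b.pt y1'‖ ≤ C2 * C1 * |y2 - y1| := by
    rw [mul_assoc]
    exact d2.trans (mul_le_mul_of_nonneg_left d1 hC2)
  have d4 : ‖γ⁻¹ • ψ (b.pt y2) T1 - b.pt y1'‖ < min b.w b.ν := by
    rw [le_div_iff₀ (by positivity)] at hρ
    rcases (abs_nonneg (y2 - y1)).eq_or_lt with a | a
    · rw [← a, mul_zero] at d3
      linarith only [hm, d3]
    · linarith only [hρ, d3, a]
  obtain ⟨hQ, q1, q2⟩ := hb.near hc.2.1 d4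
  obtain ⟨a2, -⟩ := hb.cr_of h hQ
  have p0 : 0 ≤ C2 * C1 * |y2 - y1| := by positivity
  have p1 : 0 ≤ 1 / b.v0 := by positivity
  have p2 : 0 ≤ b.v1 / b.v0 := by positivity
  have k2 : |b.H (γ⁻¹ • ψ (b.pt y2) T1) - y1'| ≤
      (1 / b.v0 + b.v1 / b.v0 + 1) * (C2 * C1) * |y2 - y1| := by
    have := mul_le_mul_of_nonneg_left d3 (add_nonneg p2 zero_le_one)
    linarith only [q2, this, p0, p1, mul_nonneg_of_nonpos_of_nonpos (Mathlib.Tactic.Linarith.sub_nonpos_of_le p0) (Mathlib.Tactic.Linarith.sub_nonpos_of_le p1)]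
  have k3 := abs_le.1 (k2.trans (show _ ≤ η by linarith only [hρ', abs_nonneg (y2 - y1)]))
  refine ⟨_, _, ⟨hy2, ⟨by linarith only [k3, hI, k3.1, hI.1], by linarith only [k3, hI, k3.2, hI.2]⟩, a2⟩, ?_, k2⟩
  rw [add_sub_cancel_right]
  have := mul_le_mul_of_nonneg_left d3 p1
  linarith only [q1, p0, this, p2, mul_nonneg_of_nonpos_of_nonpos (Mathlib.Tactic.Linarith.sub_nonpos_of_le p0) (Mathlib.Tactic.Linarith.sub_nonpos_of_le p2)]

theorem TBox.crMoreS (hS : Surf Γ) (h : Lam Γ univ V ψ) (hb : TBox Γ V ψ b) :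
    CrMoreS chi (Icc b.bl b.bu) (CrI b Γ ψ) := by
  refine ⟨fun Tm C => ?_, fun y T γ hc hT => h.aper _ trivial T γ hT hc.2.2, fun y hy ε hε => ?_⟩
  · obtain ⟨R', hR'⟩ := h.stay (‖b.x0‖ + b.r) (|Tm| + 1)
    obtain ⟨K1, hK1, hl⟩ := h.lip R'
    obtain ⟨vl, hvl, hlo⟩ := h.speed_lo R'
    have hK : 0 ≤ max K1 C := hK1.trans (le_max_left _ _)
    have hv : 0 < min vl b.v0 := lt_min hvl hb.pre.v0_pos
    choose h0 h0p hord using fun γ : Γ =>
      ord_sec hS γ b.d (T := Tm) (R := R') hK hv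
    have hev : ∀ᶠ ρ in 𝓝[>] (0 : ℝ), ∀ γ ∈ {γ : Γ | ∃ x : E, ‖x‖ ≤ ‖b.x0‖ + b.r ∧ ‖γ • x‖ ≤ R'},
        ρ ∈ Ioc 0 (h0 γ) :=
      (eventually_all_finite (hS.finite_ball _ _)).2 fun γ _ => Ioc_mem_nhdsGT (h0p γ)
    obtain ⟨ρ, hρ, hρ0⟩ := (hev.and self_mem_nhdsWithin).exists
    refine ⟨ρ, hρ0, fun y1 T1 γ y1' y2 T2 y2' c1 c2 t0 t1 tC hlt hle => ?_⟩
    have L1 : b.pt y1 ∈ (univ : Set E) := trivial
    have L2 : b.pt y2 ∈ (univ : Set E) := trivial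
    have hTm : Tm ≤ |Tm| := le_abs_self _
    have hTm0 : 0 ≤ |Tm| := abs_nonneg _
    have hin : ∀ t ∈ Icc (-(1 / 2) : ℝ) (Tm + 1 / 2), |t| ≤ |Tm| + 1 := fun t ht =>
      abs_le.2 ⟨by linarith only [t0, t1, hTm, ht, ht.1], by linarith only [hTm, ht, ht.2]⟩
    have n1 : ∀ t ∈ Icc (-(1 / 2) : ℝ) (Tm + 1 / 2), ‖ψ (b.pt y1) t‖ ≤ R' := fun t ht =>
      hR' _ L1 (hb.norm_pt c1.1) t (hin t ht)
    have n2 : ∀ t ∈ Icc (-(1 / 2) : ℝ) (Tm + 1 / 2), ‖ψ (b.pt y2) t‖ ≤ R' := fun t ht =>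
      hR' _ L2 (hb.norm_pt c2.1) t (hin t ht)
    have hKK : K1 ≤ max K1 C := le_max_left _ _
    have hγ := hρ γ ⟨b.pt y1', hb.norm_pt c1.2.1, by
      rw [← c1.2.2]; exact n1 T1 ⟨by linarith only [t0], by linarith only [t1]⟩⟩
    have G : Graph2 (ψ (b.pt y1)) (ψ (b.pt y2)) (-(1 / 2)) (Tm + 1 / 2) (max K1 C)
        (min vl b.v0) := by
      refine ⟨fun t ht => ?_, fun t ht => ?_, fun s hs t ht => ?_, fun s hs t ht => ?_⟩
      · rw [h.deriv_eq L1]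
        exact ⟨h.der _ L1 t, (min_le_left _ _).trans (hlo _ (h.mem _ L1 t) (n1 t ht)),
          (hl _ (h.mem _ L1 t) _ (h.mem _ L1 t) (n1 t ht) (n1 t ht)).1.trans hKK⟩
      · rw [h.deriv_eq L2]
        exact ⟨h.der _ L2 t,
          (hl _ (h.mem _ L2 t) _ (h.mem _ L2 t) (n2 t ht) (n2 t ht)).1.trans hKK⟩
      · rw [h.deriv_eq L1, h.deriv_eq L1]
        exact (hl _ (h.mem _ L1 s) _ (h.mem _ L1 t) (n1 s hs) (n1 t ht)).2.trans
          (mul_le_mul_of_nonneg_right hKK (norm_nonneg _))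
      · rw [h.deriv_eq L1, h.deriv_eq L2]
        exact (hl _ (h.mem _ L1 s) _ (h.mem _ L2 t) (n1 s hs) (n2 t ht)).2.trans
          (mul_le_mul_of_nonneg_right hKK (norm_nonneg _))
    have e1 : γ⁻¹ • ψ (b.pt y1) T1 = b.pt y1' := by rw [c1.2.2, inv_smul_smul]
    have e2 : γ⁻¹ • ψ (b.pt y2) T2 = b.pt y2' := by rw [c2.2.2, inv_smul_smul]
    have r2 : b.r / 2 ≤ b.r := by linarith only [hb, hb.pre.r_pos]
    have en : ‖ψ (b.pt y2) 0 - ψ (b.pt y1) 0‖ = |y2 - y1| := by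
      rw [h.zero _ L1, h.zero _ L2, b.norm_pt_sub]
    have := (hord γ _ _ T1 T2 G (fun t ht => ⟨n1 t ht, n2 t ht⟩) ⟨t0, t1⟩
      (by rw [en, abs_of_pos (by linarith only [hlt])]; linarith only [hle, hγ, hγ.2])
      (by
        rw [en]
        exact tC.trans (mul_le_mul_of_nonneg_right (le_max_right _ _) (abs_nonneg _)))
      (by
        rw [h.deriv_eq L1, h.zero _ L1]
        exact (min_le_right _ _).trans
          (hb.pre.dir _ L1 ((hb.sub _ (hb.pt_mem c1.1)).trans r2)).1)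
      (by
        rw [h.deriv_eq L1, ← h.V_eqv hS _ (h.mem _ L1 T1), e1]
        exact (min_le_right _ _).trans
          (hb.pre.dir _ trivial ((hb.sub _ (hb.pt_mem c1.2.1)).trans r2)).1)
      (by rw [h.zero _ L1, h.zero _ L2, b.X1_pt, b.X1_pt])
      (by rw [e1, e2, b.X1_pt, b.X1_pt])) 1 (Or.inl rfl)
      (by rw [h.zero _ L1, h.zero _ L2, b.X2_pt, b.X2_pt]; linarith only [hlt])
    rwa [e1, e2, b.X2_pt, b.X2_pt, mul_one] at this
  · have hν := hb.ν_pos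
    have m0 : 0 < min (ε / 2) b.ν := lt_min (by positivity) hν
    have m1 := min_le_left (ε / 2) b.ν
    have m2 := min_le_right (ε / 2) b.ν
    obtain ⟨y0, k1, k2, k3⟩ : ∃ y0 : ℝ, b.bl + min (ε / 2) b.ν ≤ y0 ∧
        y0 ≤ b.bu - min (ε / 2) b.ν ∧ |y0 - y| ≤ ε / 2 := by
      rcases le_total y (X2 b.d b.x0) with a | a
      · exact ⟨y + min (ε / 2) b.ν, by linarith only [hy, hy.1], by linarith only [hν, m2, a, hb, hb.mid.2],
          abs_le.2 ⟨by linarith only [m0, m1], by linarith only [m1]⟩⟩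
      · exact ⟨y - min (ε / 2) b.ν, by linarith only [hν, m2, a, hb, hb.mid.1], by linarith only [hy, hy.2],
          abs_le.2 ⟨by linarith only [m1], by linarith only [m0, m1]⟩⟩
    obtain ⟨Tm, hTm⟩ := hb.vis h (y := y0) ⟨by linarith only [m0, k1], by linarith only [m0, k2]⟩ m0
    refine ⟨b.t1 + Tm + b.t1, fun z hz => ?_⟩
    obtain ⟨T, γ, u, a1, a2, a3, a4⟩ := hTm (b.pt z) b.t1
    rw [abs_lt] at a2
    rw [abs_le] at k3
    exact ⟨T, γ, u, ⟨hz, ⟨by linarith only [k1, a2, a2.1], by linarith only [k2, a2, a2.2]⟩, a1⟩, by linarith only [a3], a4,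
      abs_lt.2 ⟨by linarith only [m1, k3, a2, a2.1, k3.1], by linarith only [m1, k3, a2, a2.2, k3.2]⟩⟩

end Pool.Agent.Work.MP_1ce82a_an
end

-- merged part: Pool.Agent.Work.MP_1ce82a_an.L.NWin
section
/-! Contraction of windows from quadratic growth in the box directions.
PLAN. Put P y = pot g (psi (pt y)) 0 (tt y). By induction on n, pot g (psi (pt y)) 0 (Tn R tt n y) is the sum over j < n of P (R^[j] y): Ret.iter gives psi (pt y) (Tn n y) = gamma . pt (R^[n] y), then Lam.add, Lam.eqv, hi,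
intervalIntegral.integral_add_adjacent_intervals and integral_comp_add_right. Take C, s0 from hq with t0 = t1 and r = norm x0 + r (IsBox.pt_mem, sub). Let l j = R^[j] y' - R^[j] y >= 0 and ell = l 0 + l m <= 2 (bu - bl).
Second arc: psi (pt (R^[m] w)) during Tn (n-m), ending at a2 . pt (R^[n] w). First arc: psi (pt y') during Tn m y' with +s, and psi (pt y) during Tn m y with -s. The jumps are at most l m and l 0 (norm_mk_sub), the
total time is at most n T0. Adding: s kappa (sum of l j) <= 2 C (ell^2 + s ell + s^2 n T0). If ell = 0 then y = y' and the sum vanishes; otherwise s = s1 ell / sqrt n with s1 = s0 / (2 (bu - bl) + 1). -/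

open Set Filter Topology MeasureTheory
open scoped ContDiff

namespace Pool.Agent.Work.MP_1ce82a_an

variable {Γ : Grp}

variable {L : Set E} {V : E → E} {ψ : E → ℝ → E} {b : BoxD} {T0 : ℝ} {R tt : ℝ → ℝ} {s : ℝ → Γ}

theorem NWin_pot (h : Lam Γ L V ψ) (hc : CrBase (b.Y L) (b.Cr Γ L ψ) b.t1 T0)
    (hR : Ret (b.Y L) (b.Cr Γ L ψ) T0 R tt s) {g : E → ℝ} (hg : Continuous g) (hi : Inv Γ g)
    {y : ℝ} (hy : y ∈ b.Y L) (n : ℕ) : pot g (ψ (b.pt y)) 0 (Tn R tt n y) =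
      ∑ j ∈ Finset.range n, pot g (ψ (b.pt (R^[j] y))) 0 (tt (R^[j] y)) := by
  induction n with
  | zero => simp [Tn, pot]
  | succ n ih =>
    obtain ⟨⟨γ, -, k1, k2⟩, -⟩ := hR.iter hc n hy
    have ii : ∀ u v, IntervalIntegrable (fun t => g (ψ (b.pt y) t)) volume u v := fun u v =>
      (hg.comp (h.cont hy.2.2)).intervalIntegrable u v
    have e : Tn R tt (n + 1) y = tt (R^[n] y) + Tn R tt n y := by
      rw [Tn, Finset.sum_range_succ, add_comm]; rfl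
    rw [Finset.sum_range_succ, ← ih, e, pot, pot, pot,
      ← intervalIntegral.integral_add_adjacent_intervals (ii 0 (Tn R tt n y)) (ii _ _)]
    refine congrArg _ ?_
    have e2 := intervalIntegral.integral_comp_add_right (fun t => g (ψ (b.pt y) t))
      (a := 0) (b := tt (R^[n] y)) (Tn R tt n y)
    rw [zero_add] at e2
    rw [← e2]
    refine intervalIntegral.integral_congr fun t _ => ?_
    show g (ψ (b.pt y) (t + Tn R tt n y)) = g (ψ (b.pt (R^[n] y)) t)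
    rw [← h.add _ hy.2.2, k2, h.eqv γ _ k1.2.2, hi]

theorem NWin_chain (h : Lam Γ L V ψ) (hb : IsBox Γ L V ψ b)
    (hc : CrBase (b.Y L) (b.Cr Γ L ψ) b.t1 T0) (hR : Ret (b.Y L) (b.Cr Γ L ψ) T0 R tt s)
    {g : E → ℝ} (hq : ChQG (ψ '' L) (0 : H1 Γ) g 0) : ∃ C s0 : ℝ, 0 ≤ C ∧ 0 < s0 ∧
      ∀ y ∈ b.Y L, ∀ v ∈ b.Y L, ∀ (m k : ℕ) (A B σ : ℝ), 1 ≤ m → 1 ≤ k → |σ| ≤ s0 →
        |R^[m] y - v| ≤ A → |R^[k] v - y| ≤ B →
        σ * (pot g (ψ (b.pt y)) 0 (Tn R tt m y) + pot g (ψ (b.pt v)) 0 (Tn R tt k v)) ≤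
          C * (A ^ 2 + B ^ 2 + |σ| * (A + B) + σ ^ 2 * ((m + k) * T0)) := by
  obtain ⟨C, s0, hC, hs0, hq⟩ := hq (‖b.x0‖ + b.r) b.t1 hc.t0_pos
  have nb : ∀ y ∈ b.Y L, ‖b.pt y‖ ≤ ‖b.x0‖ + b.r := fun y hy => by
    have h1 := hb.sub _ (hb.pt_mem hy)
    have h2 := norm_sub_norm_le (b.pt y) b.x0
    linarith only [h1, h2, hb, hb.pre.r_pos]
  have lo : ∀ n : ℕ, 1 ≤ n → b.t1 ≤ n * b.t1 := fun n hn =>
    le_mul_of_one_le_left hc.t0_pos.le (by exact_mod_cast hn)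
  refine ⟨C, s0, hC, hs0, fun y hy v hv m k A B σ hm hk hσ hA hB => ?_⟩
  obtain ⟨⟨a1, -, k1, k2⟩, k3, k4⟩ := hR.iter hc m hy
  obtain ⟨⟨a2, -, l1, l2⟩, l3, l4⟩ := hR.iter hc k hv
  have key := hq _ ⟨_, hy.2.2, rfl⟩ _ ⟨_, hv.2.2, rfl⟩ _ _ a1 a2 ((lo m hm).trans k3)
    ((lo k hk).trans l3) (by rw [h.zero _ hy.2.2]; exact nb y hy)
    (by rw [h.zero _ hv.2.2]; exact nb v hv) (by rw [k2, inv_smul_smul]; exact nb _ k1)
    (by rw [l2, inv_smul_smul]; exact nb _ l1) σ hσ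
  rw [k2, l2, inv_smul_smul, inv_smul_smul, h.zero _ hy.2.2, h.zero _ hv.2.2, BoxD.pt, BoxD.pt,
    BoxD.pt, BoxD.pt, norm_mk_sub, norm_mk_sub] at key
  simp only [ZeroMemClass.coe_zero, Pi.zero_apply, zero_add, zero_mul, sub_zero] at key
  refine key.trans (mul_le_mul_of_nonneg_left ?_ hC)
  have j1 := pow_le_pow_left₀ (abs_nonneg _) hA 2
  have j2 := pow_le_pow_left₀ (abs_nonneg _) hB 2
  have j3 := mul_le_mul_of_nonneg_left (add_le_add hA hB) (abs_nonneg σ)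
  have j4 := mul_le_mul_of_nonneg_left (add_le_add k4 l4) (sq_nonneg σ)
  rw [← add_mul] at j4
  linarith only [j1, j2, j3, j4]

theorem NWin_real {C κ s1 T e q S : ℝ} (hC : 0 ≤ C) (hκ : 0 < κ) (hs : 0 < s1) (he : 0 < e)
    (hq : 1 ≤ q) (h : s1 * e / q * (κ * S) ≤
      2 * C * (e ^ 2 + s1 * e / q * e + (s1 * e / q) ^ 2 * (q ^ 2 * T))) :
    S ≤ 2 * C / κ * (1 / s1 + 1 + s1 * T) * q * e := by
  have hq0 : 0 < q := by linarith only [hq]
  have e1 : 2 * C * (e ^ 2 + s1 * e / q * e + (s1 * e / q) ^ 2 * (q ^ 2 * T)) =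
      s1 * e / q * (2 * C * (e * q / s1 + e + s1 * e * q * T)) := by
    field_simp
  rw [e1] at h
  have h1 := le_of_mul_le_mul_left h (by positivity)
  have h2 : 2 * C * e ≤ 2 * C * (q * e) :=
    mul_le_mul_of_nonneg_left (le_mul_of_one_le_left he.le hq) (by positivity)
  refine le_of_mul_le_mul_left ?_ hκ
  have e2 : κ * (2 * C / κ * (1 / s1 + 1 + s1 * T) * q * e) =
      2 * C * (e * q / s1 + q * e + s1 * e * q * T) := by
    field_simp
  rw [e2]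
  linarith only [h1, h2]

theorem win_of_mono (h : Lam Γ L V ψ) (hb : IsBox Γ L V ψ b)
    (hc : CrBase (b.Y L) (b.Cr Γ L ψ) b.t1 T0) (hR : Ret (b.Y L) (b.Cr Γ L ψ) T0 R tt s)
    {g : E → ℝ} {κ : ℝ} (hg : Continuous g) (hi : Inv Γ g) (hκ : 0 < κ)
    (hq : ChQG (ψ '' L) (0 : H1 Γ) g 0)
    (hm : ∀ y ∈ b.Y L, ∀ y' ∈ b.Y L, y ≤ y' →
      κ * (y' - y) ≤ pot g (ψ (b.pt y')) 0 (tt y') - pot g (ψ (b.pt y)) 0 (tt y)) :
    ∃ A : ℝ, WinR (b.Y L) R A := by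
  obtain ⟨C, s0, hC, hs0, hk⟩ := NWin_chain h hb hc hR hq
  have hd : 0 ≤ b.bu - b.bl := by linarith only [hb, hb.mid.1, hb.mid.2]
  obtain ⟨s1, hs1, e1⟩ : ∃ s1 : ℝ, 0 < s1 ∧ s1 * (2 * (b.bu - b.bl) + 1) = s0 :=
    ⟨s0 / (2 * (b.bu - b.bl) + 1), by positivity, by field_simp⟩
  refine ⟨2 * C / κ * (1 / s1 + 1 + s1 * T0), fun y hy y' hy' w hw m n h1 h2 h3 h4 h5 => ?_⟩
  have a0 : y ≤ y' := h4.trans h5
  have am := h3 m le_rfl
  have my := hR.iter_mem hc m hy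
  have my' := hR.iter_mem hc m hy'
  rcases a0.eq_or_lt with rfl | a1
  · simp
  obtain ⟨e, he⟩ : ∃ e, e = y' - y + (R^[m] y' - R^[m] y) := ⟨_, rfl⟩
  have e0 : 0 < e := by linarith only [am, a1, he, am.1, am.2]
  have e2 : e ≤ 2 * (b.bu - b.bl) + 1 := by linarith only [he, hy, hy', my, my', hy.1, hy'.2.1, my.1, my'.2.1]
  have n1 : (1 : ℝ) ≤ n := by exact_mod_cast h1.trans h2.le
  have q1 : 1 ≤ Real.sqrt n := Real.one_le_sqrt.2 n1
  have σ0 : 0 < s1 * e / Real.sqrt n := by positivity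
  have σ1 : s1 * e / Real.sqrt n ≤ s0 :=
    (div_le_self (by positivity) q1).trans (e1 ▸ mul_le_mul_of_nonneg_left e2 hs1.le)
  rw [← he]
  refine NWin_real hC hκ hs1 e0 q1 ?_
  rw [Real.sq_sqrt (by linarith only [n1])]
  generalize s1 * e / Real.sqrt n = σ at σ0 σ1
  have it : R^[n - m] (R^[m] w) = R^[n] w := by
    rw [← Function.iterate_add_apply, Nat.sub_add_cancel h2.le]
  have mn : (m : ℝ) + (n - m : ℕ) = n := by
    rw [Nat.cast_sub h2.le]; ring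
  have k1 := hk y' hy' _ (hR.iter_mem hc m hw) m (n - m) (R^[m] y' - R^[m] y) (y' - y) σ h1
    (by omega) (by rwa [abs_of_pos σ0]) (abs_le.2 ⟨by linarith only [am, am.1, am.2], by linarith only [am, am.1]⟩)
    (by rw [it]; exact abs_le.2 ⟨by linarith only [h4], by linarith only [h5, a1]⟩)
  have k2 := hk y hy _ (hR.iter_mem hc m hw) m (n - m) (R^[m] y' - R^[m] y) (y' - y) (-σ) h1
    (by omega) (by rwa [abs_neg, abs_of_pos σ0])
    (abs_le.2 ⟨by linarith only [am, am.2], by linarith only [am, am.1, am.2]⟩)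
    (by rw [it]; exact abs_le.2 ⟨by linarith only [h4, a1], by linarith only [h5]⟩)
  rw [abs_neg, neg_sq] at k2
  rw [abs_of_pos σ0, mn] at k1 k2
  have k3 : κ * ∑ j ∈ Finset.range m, (R^[j] y' - R^[j] y) ≤
      pot g (ψ (b.pt y')) 0 (Tn R tt m y') - pot g (ψ (b.pt y)) 0 (Tn R tt m y) := by
    rw [NWin_pot h hc hR hg hi hy, NWin_pot h hc hR hg hi hy', ← Finset.sum_sub_distrib,
      Finset.mul_sum]
    refine Finset.sum_le_sum fun j hj => hm _ (hR.iter_mem hc j hy) _ (hR.iter_mem hc j hy') ?_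
    have := h3 j (Finset.mem_range.1 hj).le
    exact this.1.trans this.2
  have k4 := mul_le_mul_of_nonneg_left k3 σ0.le
  have k5 : (R^[m] y' - R^[m] y) ^ 2 + (y' - y) ^ 2 ≤ e ^ 2 := by
    have := mul_nonneg (sub_nonneg.2 a0) (sub_nonneg.2 (am.1.trans am.2))
    rw [he]; linarith only [this]
  have k6 := mul_le_mul_of_nonneg_left k5 hC
  rw [show R^[m] y' - R^[m] y + (y' - y) = e by rw [he]; ring] at k1 k2
  linarith only [k1, k2, k4, k6]

end Pool.Agent.Work.MP_1ce82a_an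
end

-- merged part: Pool.Agent.Work.MP_1ce82a_an.L.NMono
section
/-! A potential with increasing passage integral. -/

open Set Filter Topology MeasureTheory
open scoped ContDiff

namespace Pool.Agent.Work.MP_1ce82a_an

variable {Γ : Grp}

variable {L : Set E} {V : E → E} {ψ : E → ℝ → E} {b : BoxD} {T0 : ℝ} {R tt : ℝ → ℝ} {s : ℝ → Γ}

/-- The rational box is adapted to the flow box. -/
def Fits (b : BoxD) (B : Bx) : Prop :=
  B.d = b.d ∧ b.a < B.a0 ∧ (B.a3 : ℝ) < b.a + b.w / 2 ∧ b.bl - b.ν < B.b0 ∧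
    (B.b1 : ℝ) < b.bl + b.ν ∧ b.bu - b.ν < B.b2 ∧ (B.b3 : ℝ) < b.bu + b.ν

theorem Fits.supp {B : Bx} (hB : Fits b B) {p : E} (hp : B.f0 p ≠ 0) :
    p ∈ b.Q ∧ b.a < X1 b.d p ∧ X1 b.d p < b.a + b.w / 2 := by
  obtain ⟨⟨a1, a2⟩, a3, a4⟩ := (B.f0_ne_zero_iff p).1 hp
  obtain ⟨e, c1, c2, c3, -, -, c4⟩ := hB
  rw [e] at a1 a2 a3 a4
  exact ⟨⟨abs_lt.2 ⟨by linarith only [a1, a2, c1, c2], by linarith only [a1, a2, c1, c2]⟩, by linarith only [a3, c3], by linarith only [a4, c4]⟩, by linarith only [a1, c1], by linarith only [a2, c2]⟩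

theorem Fits.val (hb : IsBox Γ L V ψ b) {B : Bx} (hB : Fits b B) (β : ℝ) {p : E} (hp : p ∈ L)
    (hQ : p ∈ b.Q) :
    per Γ B.f1 p - β * per Γ B.f0 p = B.fa (X1 b.d p) * (X2 b.d p - β) := by
  have r2 : b.r / 2 ≤ b.r := by linarith only [hb, hb.pre.r_pos]
  have z0 : ∀ γ : Γ, γ ≠ 1 → B.f0 (γ • p) = 0 := fun γ hγ => by
    by_contra hc
    exact hγ (hb.pre.emb γ p ((hb.sub _ hQ).trans r2)
      ((hb.sub _ (hB.supp hc).1).trans r2))
  rw [per_eq_of_unique z0, per_eq_of_unique fun γ hγ => by rw [Bx.f1, z0 γ hγ, mul_zero]]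
  have g := hb.gap p hp hQ
  obtain ⟨e, -, -, -, c1, c2, -⟩ := hB
  rw [Bx.f1, Bx.f0, e, B.fb_eq_one (by linarith only [g, c1, g.1]) (by linarith only [g, c2, g.2])]
  ring

theorem passage (hS : Surf Γ) (h : Lam Γ L V ψ) (hb : IsBox Γ L V ψ b)
    (hc : CrBase (b.Y L) (b.Cr Γ L ψ) b.t1 T0) (hR : Ret (b.Y L) (b.Cr Γ L ψ) T0 R tt s)
    {B : Bx} (hB : Fits b B) (β : ℝ) {y : ℝ} (hy : y ∈ b.Y L) :
    ∃ t : ℝ, 0 ≤ t ∧ X1 b.d (ψ (b.pt y) t) = b.a + b.w / 2 ∧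
      (∀ u ∈ Icc 0 t, ψ (b.pt y) u ∈ b.Q) ∧
      pot (fun x => per Γ B.f1 x - β * per Γ B.f0 x) (ψ (b.pt y)) 0 (tt y) =
        ∫ u in (0 : ℝ)..t, B.fa (X1 b.d (ψ (b.pt y) u)) * (X2 b.d (ψ (b.pt y) u) - β) := by
  have hL := hy.2.2
  have hQ := hb.pt_mem hy
  have hv0 := hb.pre.v0_pos
  have hv1 := hb.pre.v1_pos
  have hw := hb.w_pos
  have ht1 := hb.pre.t1_pos
  have inc := hb.incr h hL hQ
  have e0 : X1 b.d (ψ (b.pt y) 0) = b.a := by rw [h.zero _ hL, b.X1_pt]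
  have z0 : (0 : ℝ) ∈ Icc (-b.t1) b.t1 := ⟨by linarith only [ht1], ht1.le⟩
  have ew : |X1 b.d (ψ (b.pt y) 0) - (b.a + b.w / 2)| = b.w / 2 := by
    rw [e0, abs_of_neg (by linarith only [hw])]
    ring
  obtain ⟨t, tb, te⟩ := cross_time (f := fun t => X1 b.d (ψ (b.pt y) t))
    (f' := fun t => X1 b.d (V (ψ (b.pt y) t))) (t0 := 0) (r := b.t1) (y := b.a + b.w / 2) hv0
    (fun t ht => ⟨(X1 b.d).hasFDerivAt.comp_hasDerivAt t (h.der _ hL t),
      (hb.pre.dir _ (h.mem _ hL t) (hb.pre.stay _ hL (hb.sub _ hQ) t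
        (abs_le.2 ⟨by linarith only [ht, ht.1], by linarith only [ht, ht.2]⟩)).1).1⟩)
    (by rw [ew]; linarith only [hw, hb, hb.w1])
  rw [sub_zero, ew, le_div_iff₀ hv0] at tb
  have tt1 : |t| ≤ b.t1 := by
    by_contra hn
    push Not at hn
    linarith only [hw, tb, hb, hv0, hn, hb.w1, mul_pos_of_neg_of_neg (Mathlib.Tactic.Linarith.sub_neg_of_lt hv0) (Mathlib.Tactic.Linarith.sub_neg_of_lt hn)]
  have tI : t ∈ Icc (-b.t1) b.t1 := abs_le.1 tt1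
  have t0 : 0 ≤ t := by
    by_contra hn
    push Not at hn
    have := inc t tI 0 z0 hn.le
    rw [e0, te] at this
    linarith only [hw, this, hv0, hn, mul_pos_of_neg_of_neg (Mathlib.Tactic.Linarith.sub_neg_of_lt hv0) (Mathlib.Tactic.Linarith.sub_neg_of_lt hn)]
  rw [abs_of_nonneg t0] at tb
  have inQ : ∀ u ∈ Icc 0 t, ψ (b.pt y) u ∈ b.Q := by
    intro u hu
    have uI : u ∈ Icc (-b.t1) b.t1 := ⟨by linarith only [ht1, hu, hu.1], hu.2.trans tI.2⟩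
    have c1 := inc 0 z0 u uI hu.1
    have c2 := inc u uI t tI hu.2
    rw [e0] at c1
    rw [te] at c2
    have c3 := (abs_X2_le b.d _).trans (hb.pre.stay _ hL (hb.sub _ hQ) u (abs_le.2 uI)).2
    rw [map_sub, b.X2_pt, abs_of_nonneg hu.1, abs_le] at c3
    have c4 : b.v1 * u < b.ν := by
      by_contra hn
      push Not at hn
      have c5 : b.v1 * u * b.v0 ≤ b.v1 * (b.w / 2) := by
        rw [mul_assoc]
        exact mul_le_mul_of_nonneg_left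
          ((mul_le_mul_of_nonneg_right hu.2 hv0.le).trans tb) hv1.le
      have c6 := mul_le_mul_of_nonneg_right hn hv0.le
      have c7 := hb.w2
      have c8 : 0 < b.v1 * b.w := by positivity
      linarith only [c5, c6, c7, c8]
    have c9 : 0 ≤ b.v0 * (u - 0) := mul_nonneg hv0.le (by linarith only [hu, hu.1])
    have c10 : 0 ≤ b.v0 * (t - u) := mul_nonneg hv0.le (by linarith only [hu, hu.2])
    exact ⟨abs_lt.2 ⟨by linarith only [hw, c1, c9], by linarith only [hw, c2, c10]⟩, by linarith only [c3, c4, hy, c3.1, hy.1],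
      by linarith only [c3, c4, hy, c3.2, hy.2.1]⟩
  have htt : t ≤ tt y := by
    have p := hR.pos y hy
    rcases hc.sep _ _ _ _ (hR.cr y hy) with e | e
    · linarith only [p, e]
    · rw [abs_of_pos p] at e
      linarith only [e, tI, tI.2]
  have van : ∀ u ∈ Icc t (tt y), ∀ γ : Γ, B.f0 (γ • ψ (b.pt y) u) = 0 := by
    intro u hu γ
    by_contra hn
    obtain ⟨pQ, p1, p2⟩ := hB.supp hn
    have pL : γ • ψ (b.pt y) u ∈ L := h.smul _ _ (h.mem _ hL u)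
    obtain ⟨a1, a2, a3⟩ := hb.hit h pL pQ
    have tneg : b.τ (γ • ψ (b.pt y) u) < 0 := by
      by_contra hk
      push Not at hk
      have := hb.incr h pL pQ 0 z0 _ (abs_le.1 a3) hk
      rw [a2, b.X1_pt, h.zero _ pL] at this
      linarith only [p1, this, hv0, hk, mul_nonneg_of_nonpos_of_nonpos (le_of_lt (Mathlib.Tactic.Linarith.sub_neg_of_lt hv0)) (Mathlib.Tactic.Linarith.sub_nonpos_of_le hk)]
    have hcr : b.Cr Γ L ψ y (b.τ (γ • ψ (b.pt y) u) + u) γ⁻¹ (b.H (γ • ψ (b.pt y) u)) := by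
      refine ⟨hy, a1, ?_⟩
      rw [← a2, h.eqv _ _ (h.mem _ hL u), inv_smul_smul, h.add _ hL]
    have a4 := abs_le.1 a3
    have a5 : b.τ (γ • ψ (b.pt y) u) + u ≤ 0 := by
      by_contra hk
      push Not at hk
      have := hR.first _ _ _ _ hcr hk
      linarith only [tneg, this, hu, hu.2]
    have a6 : b.τ (γ • ψ (b.pt y) u) + u = 0 := by
      rcases hc.sep _ _ _ _ hcr with e | e
      · exact e
      · rw [abs_of_nonpos a5] at e
        linarith only [t0, a4, e, hu, ht1, hu.1, a4.1]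
    rw [a6] at hcr
    have g1 : γ = 1 := inv_eq_one.1 (hc.uniq _ _ _ hcr).1
    have uI : u ∈ Icc (-b.t1) b.t1 := ⟨by linarith only [ht1, tneg, a6, hu.1], by linarith only [a4, a5, a4.1]⟩
    have c1 := inc t tI u uI hu.1
    rw [te] at c1
    rw [g1, one_smul] at p2
    have c2 : 0 ≤ b.v0 * (u - t) := mul_nonneg hv0.le (by linarith only [hu, hu.1])
    linarith only [p2, c1, c2]
  refine ⟨t, t0, te, inQ, ?_⟩
  have c0 : Continuous (per Γ B.f0) := (per_contDiff hS B.f0_contDiff B.f0_cpt).continuous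
  have c1 : Continuous (per Γ B.f1) := (per_contDiff hS B.f1_contDiff B.f1_cpt).continuous
  have cg : Continuous fun u => per Γ B.f1 (ψ (b.pt y) u) - β * per Γ B.f0 (ψ (b.pt y) u) :=
    (c1.comp (h.cont hL)).sub (continuous_const.mul (c0.comp (h.cont hL)))
  rw [pot, ← intervalIntegral.integral_add_adjacent_intervals (cg.intervalIntegrable 0 t)
    (cg.intervalIntegrable t (tt y))]
  have i2 : ∫ u in t..(tt y), (per Γ B.f1 (ψ (b.pt y) u) - β * per Γ B.f0 (ψ (b.pt y) u)) =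
      ∫ _u in t..(tt y), (0 : ℝ) := by
    refine intervalIntegral.integral_congr fun u hu => ?_
    rw [uIcc_of_le htt] at hu
    have k0 : per Γ B.f0 (ψ (b.pt y) u) = 0 := by
      by_contra hn
      obtain ⟨γ, hγ⟩ := exists_of_per_ne_zero hn
      exact hγ (van u hu γ)
    have k1 : per Γ B.f1 (ψ (b.pt y) u) = 0 := by
      by_contra hn
      obtain ⟨γ, hγ⟩ := exists_of_per_ne_zero hn
      exact hγ (by rw [Bx.f1, van u hu γ, mul_zero])
    simp only [k0, k1, mul_zero, sub_zero]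
  rw [i2, intervalIntegral.integral_zero, add_zero]
  refine intervalIntegral.integral_congr fun u hu => ?_
  rw [uIcc_of_le t0] at hu
  exact hB.val hb β (h.mem _ hL u) (inQ u hu)

/-- An invariant potential of slope zero whose passage integral is increasing in the height. -/
theorem exists_mono (hS : Surf Γ) (h : Lam Γ L V ψ) (hb : IsBox Γ L V ψ b)
    (hc : CrBase (b.Y L) (b.Cr Γ L ψ) b.t1 T0) (hR : Ret (b.Y L) (b.Cr Γ L ψ) T0 R tt s)
    (h2 : ∀ B : Bx, (∃ m, ChQG (ψ '' L) (0 : H1 Γ) (per Γ B.f0) m) ∧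
      ∃ m, ChQG (ψ '' L) (0 : H1 Γ) (per Γ B.f1) m) :
    ∃ (g : E → ℝ) (κ : ℝ), Continuous g ∧ Inv Γ g ∧ 0 < κ ∧ ChQG (ψ '' L) (0 : H1 Γ) g 0 ∧
      ∀ y ∈ b.Y L, ∀ y' ∈ b.Y L, y ≤ y' →
        κ * (y' - y) ≤ pot g (ψ (b.pt y')) 0 (tt y') - pot g (ψ (b.pt y)) 0 (tt y) := by
  have hx0 : b.x0 ∈ b.Q := by
    rw [← b.pt_x0]
    exact hb.pt_mem ⟨hb.mid.1, hb.mid.2, by rw [b.pt_x0]; exact hb.pre.mem⟩
  have hg0 := hb.gap _ hb.pre.mem hx0
  obtain ⟨B, hB⟩ : ∃ B : Bx, Fits b B :=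
    exists_bx_levels b.d (show b.a < b.a + b.w / 2 by linarith only [hb, hb.w_pos]) hb.ν_pos
      (by linarith only [hg0, hg0.1, hg0.2])
  obtain ⟨⟨m0, q0⟩, m1, q1⟩ := h2 B
  have hne : (ψ '' L).Nonempty := h.ne.image _
  have hsm : ∀ z ∈ ψ '' L, ∀ γ : Γ, (fun t => γ • z t) ∈ ψ '' L := by
    rintro _ ⟨x, hx, rfl⟩ γ
    exact ⟨γ • x, h.smul γ x hx, funext fun t => h.eqv γ x hx t⟩
  have hct : ∀ z ∈ ψ '' L, Continuous z := by
    rintro _ ⟨x, hx, rfl⟩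
    exact h.cont hx
  have c0 : Continuous (per Γ B.f0) := (per_contDiff hS B.f0_contDiff B.f0_cpt).continuous
  have c1 : Continuous (per Γ B.f1) := (per_contDiff hS B.f1_contDiff B.f1_cpt).continuous
  have s1 := slope_le hS hne hsm hct q0 q1 c0 c1
    (per_le_per hS B.f0_cpt B.f1_cpt fun x => (B.f1_bounds x).1)
  have s2 := slope_le hS hne hsm hct q1 q0 c1 c0
    (per_le_per hS B.f1_cpt B.f0_cpt fun x => (B.f1_bounds x).2)
  have hb03 : (B.b0 : ℝ) < B.b3 := by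
    exact_mod_cast (B.hb01.trans_le B.hb12).trans B.hb23
  obtain ⟨β, β1, β2, β3⟩ : ∃ β : ℝ, (B.b0 : ℝ) ≤ β ∧ β ≤ B.b3 ∧ m1 = β * m0 := by
    rcases lt_trichotomy m0 0 with a | a | a
    · nlinarith
    · subst a
      exact ⟨B.b0, le_rfl, hb03.le, by linarith only [s1, s2]⟩
    · refine ⟨m1 / m0, ?_, ?_, by field_simp⟩
      · rw [le_div_iff₀ a]
        linarith only [s1]
      · rw [div_le_iff₀ a]
        linarith only [s2]
  rw [β3] at q1
  have hv1 := hb.pre.v1_pos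
  have hI : 0 < ∫ y in b.a..(b.a + b.w / 2), B.fa y := B.fa_int_pos hB.2.1.le hB.2.2.1.le
  refine ⟨fun x => per Γ B.f1 x - β * per Γ B.f0 x,
    Real.exp (-(2 * b.K * b.v1 * (b.a + b.w / 2 - b.a) / b.v0 ^ 2)) / (2 * b.v1) *
      ∫ y in b.a..(b.a + b.w / 2), B.fa y, c1.sub (continuous_const.mul c0),
    fun γ x => by simp only [per_inv B.f0 γ x, per_inv B.f1 γ x], by positivity,
    chqg_comb hct q1 q0 c1 c0, fun y hy y' hy' hle => ?_⟩
  obtain ⟨t1, a1, a2, a3, a4⟩ := passage hS h hb hc hR hB β hy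
  obtain ⟨t2, b1, b2, b3, b4⟩ := passage hS h hb hc hR hB β hy'
  have r2 : b.r / 2 ≤ b.r := by linarith only [hb, hb.pre.r_pos]
  have key : ∀ {u t : ℝ}, u ∈ b.Y L → (∀ s ∈ Icc 0 t, ψ (b.pt u) s ∈ b.Q) →
      (∀ s ∈ Icc 0 t, HasDerivAt (ψ (b.pt u)) (deriv (ψ (b.pt u)) s) s ∧
        b.v0 ≤ X1 b.d (deriv (ψ (b.pt u)) s) ∧ ‖deriv (ψ (b.pt u)) s‖ ≤ b.v1 ∧
        |X2 b.d (ψ (b.pt u) s) - β| ≤ b.bu - b.bl + 2 * b.ν) ∧
      ContinuousOn (deriv (ψ (b.pt u))) (Icc 0 t) := by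
    intro u t hu hQ
    refine ⟨fun s hs => ?_, ?_⟩
    · rw [h.deriv_eq hu.2.2]
      have d1 := hb.pre.dir _ (h.mem _ hu.2.2 s) ((hb.sub _ (hQ s hs)).trans r2)
      have d2 := hQ s hs
      exact ⟨h.der _ hu.2.2 s, d1.1, d1.2, abs_le.2
        ⟨by linarith only [β2, d2, hB, d2.2.1, hB.2.2.2.2.2.2], by linarith only [β1, d2, hB, d2.2.2, hB.2.2.2.1]⟩⟩
    · have : deriv (ψ (b.pt u)) = fun s => V (ψ (b.pt u) s) := funext fun s => h.deriv_eq hu.2.2 s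
      rw [this]
      exact h.contV.comp (h.cont hu.2.2).continuousOn fun s _ => h.mem _ hu.2.2 s
  have := mono_pass b.d (z1 := ψ (b.pt y)) (z2 := ψ (b.pt y')) (a := b.a) (a' := b.a + b.w / 2)
    (β := β) B.fa_cont B.fa_nonneg a1 b1 hb.pre.v0_pos hb.pre.K_nonneg hb.sm (key hy a3).1
    (key hy' b3).1 (key hy a3).2 (key hy' b3).2
    (fun s hs t ht => by
      rw [h.deriv_eq hy.2.2, h.deriv_eq hy'.2.2]
      exact hb.pre.lip _ (h.mem _ hy.2.2 s) _ (h.mem _ hy'.2.2 t) ((hb.sub _ (a3 s hs)).trans r2)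
        ((hb.sub _ (b3 t ht)).trans r2))
    (by rw [h.zero _ hy.2.2, b.X1_pt]) (by rw [h.zero _ hy'.2.2, b.X1_pt]) a2 b2
    (by rw [h.zero _ hy.2.2, h.zero _ hy'.2.2, b.X2_pt, b.X2_pt]; exact hle)
  rw [h.zero _ hy.2.2, h.zero _ hy'.2.2, b.X2_pt, b.X2_pt] at this
  rw [a4, b4]
  exact this

end Pool.Agent.Work.MP_1ce82a_an
end

-- merged part: Pool.Agent.Work.MP_1ce82a_an.L.NEnd
section
/-! Quadratic growth in the direction of the flux class contradicts the combinatorial core.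
PLAN. Use r = norm x0 + r as radius (IsBox.pt_mem, sub). m = 0: chqg_slope along psi (pt y) at the times Tn n y >= n t1 (Ret.iter), where eta is bounded by 1 (pot of the zero function vanishes).
Then hq with t0 = t1 and the arc psi (pt z) during Tn T z taken twice: the jump has norm d = |R^[T] z - z| (norm_mk_sub), eta a = -t with t = theta (R^[T] z) - theta z, time at most T T0, so
|s| |t| <= C (d^2 + |s| d + s^2 T T0) for the right sign of s and |s| <= s0. Enlarge C to be positive. With M >= 4 C^2 one gets C d <= |t|/2; take |s| = min s0 (|t| / (4 C T T0)), then |s| |t| / 4 <= C d^2,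
which contradicts the first bound if M >= 16 C^2 T0 and the second one if M >= 4 C / s0. -/

open Set Filter Topology MeasureTheory
open scoped ContDiff

namespace Pool.Agent.Work.MP_1ce82a_an

variable {Γ : Grp}

variable {L : Set E} {V : E → E} {ψ : E → ℝ → E} {b : BoxD} {T0 : ℝ} {R tt : ℝ → ℝ} {s : ℝ → Γ}

theorem NEnd_real {D s0 T0 N d u : ℝ} (hD : 0 < D) (hs0 : 0 < s0) (hT0 : 0 < T0) (hN : 1 ≤ N)
    (hd : 0 ≤ d) (hu : 0 ≤ u)
    (h1 : (4 * D ^ 2 + 16 * D ^ 2 * T0 + 4 * D / s0) * N * d ^ 2 < u ^ 2)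
    (h2 : (4 * D ^ 2 + 16 * D ^ 2 * T0 + 4 * D / s0) * d ^ 2 < u)
    (h : ∀ σ : ℝ, 0 ≤ σ → σ ≤ s0 → σ * u ≤ D * (d ^ 2 + σ * d + σ ^ 2 * (N * T0))) : False := by
  have p1 : 0 ≤ 4 * D ^ 2 * d ^ 2 := by positivity
  have p2 : 0 ≤ 16 * D ^ 2 * T0 * d ^ 2 := by positivity
  have p3 : 0 ≤ 4 * D / s0 * d ^ 2 := by positivity
  have hN0 : 0 < N := by linarith only [hN]
  have a1 : (2 * D * d) ^ 2 < u ^ 2 := by
    linarith only [h1, hN, p1, p2, hN0, p3, mul_le_mul_of_nonneg_left hN p1, mul_nonneg p2 hN0.le, mul_nonneg p3 hN0.le]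
  have a2 : 2 * D * d < u := lt_of_pow_lt_pow_left₀ 2 hu a1
  have hu0 : 0 < u := lt_of_le_of_lt (by positivity) a2
  have a3 : 16 * D ^ 2 * (N * T0) * d ^ 2 < u ^ 2 := by
    linarith only [h1, p1, hN0, p3, mul_nonneg p1 hN0.le, mul_nonneg p3 hN0.le]
  have a4 : 4 * D * d ^ 2 < u * s0 := by
    have e : 4 * D / s0 * d ^ 2 < u := by linarith only [h2, p2, sq_nonneg ((2 : ℝ) * D * d)]
    rwa [div_mul_eq_mul_div, div_lt_iff₀ hs0] at e
  have hB : 0 < 4 * D * (N * T0) := by positivity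
  have key : ∀ σ : ℝ, 0 ≤ σ → σ ≤ s0 → σ * (4 * D * (N * T0)) ≤ u → σ * u ≤ 4 * D * d ^ 2 := by
    intro σ k1 k2 k3
    have k4 := h σ k1 k2
    linarith only [k4, k3, k1, a2, mul_le_mul_of_nonneg_left k3 k1, mul_le_mul_of_nonneg_left a2.le k1]
  rcases le_total s0 (u / (4 * D * (N * T0))) with k | k
  · have := key s0 hs0.le le_rfl ((le_div_iff₀ hB).1 k)
    linarith only [a4, this]
  · have k5 := key _ (div_nonneg hu hB.le) k (div_mul_cancel₀ u hB.ne').le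
    rw [div_mul_eq_mul_div, div_le_iff₀ hB] at k5
    linarith only [a3, k5]

theorem NEnd_norm (hb : IsBox Γ L V ψ b) {y : ℝ} (hy : y ∈ b.Y L) : ‖b.pt y‖ ≤ ‖b.x0‖ + b.r := by
  have h1 := hb.sub _ (hb.pt_mem hy)
  have h2 := norm_le_norm_add_norm_sub' (b.pt y) b.x0
  have h3 := hb.pre.r_pos
  linarith only [h1, h2, h3]

theorem NEnd_arc (h : Lam Γ L V ψ) (hc : CrBase (b.Y L) (b.Cr Γ L ψ) b.t1 T0)
    (hR : Ret (b.Y L) (b.Cr Γ L ψ) T0 R tt s) {θ : ℝ → ℝ} {η : H1 Γ}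
    (hη : ∀ y T γ y', b.Cr Γ L ψ y T γ y' → η.1 γ = θ y - θ y') {y : ℝ} (hy : y ∈ b.Y L) (n : ℕ) :
    ∃ (z : ℝ → E) (T : ℝ) (γ : Γ), z ∈ ψ '' L ∧ z 0 = b.pt y ∧ γ⁻¹ • z T = b.pt (R^[n] y) ∧
      η.1 γ = θ y - θ (R^[n] y) ∧ n * b.t1 ≤ T ∧ T ≤ n * T0 := by
  obtain ⟨⟨γ, hγ⟩, k1, k2⟩ := Ret.iter hc hR n hy
  exact ⟨ψ (b.pt y), _, γ, ⟨_, hy.2.2, rfl⟩, h.zero _ hy.2.2, by rw [hγ.2.2, inv_smul_smul],
    hη _ _ _ _ hγ, k1, k2⟩

theorem flux_contra (h : Lam Γ L V ψ) (hb : IsBox Γ L V ψ b)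
    (hc : CrBase (b.Y L) (b.Cr Γ L ψ) b.t1 T0) (hR : Ret (b.Y L) (b.Cr Γ L ψ) T0 R tt s)
    {θ : ℝ → ℝ} (h1 : ∀ y, 0 ≤ θ y ∧ θ y ≤ 1) {η : H1 Γ}
    (hη : ∀ y T γ y', b.Cr Γ L ψ y T γ y' → η.1 γ = θ y - θ y') {m : ℝ}
    (hq : ChQG (ψ '' L) η (fun _ => 0) m)
    (hM : ∀ M : ℝ, ∃ z ∈ b.Y L, ∃ T : ℕ, 1 ≤ T ∧
      M * T * (R^[T] z - z) ^ 2 < (θ (R^[T] z) - θ z) ^ 2 ∧
      M * (R^[T] z - z) ^ 2 < |θ (R^[T] z) - θ z|) : False := by
  have ht1 := hc.t0_pos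
  have hm : m = 0 := by
    obtain ⟨y, hy⟩ := hb.ne
    refine abs_nonpos_iff.1 (le_of_forall_pos_le_add fun ε hε => ?_)
    have hε2 : 0 < ε / 2 := half_pos hε
    obtain ⟨T1, hT1, hs⟩ := chqg_slope hq (‖b.x0‖ + b.r) _ hε2
    obtain ⟨n, hn⟩ := exists_nat_ge ((T1 + 2 / ε) / b.t1)
    rw [div_le_iff₀ ht1] at hn
    obtain ⟨z, T, γ, z1, z2, z3, z4, z5, -⟩ := NEnd_arc h hc hR hη hy n
    have p1 : 0 < 2 / ε := by positivity
    have k := hs z z1 T γ (by linarith only [hn, z5, p1]) (z2 ▸ NEnd_norm hb hy)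
      (z3 ▸ NEnd_norm hb (Ret.iter_mem hc hR n hy))
    rw [pot_const, zero_mul, add_zero, z4] at k
    have hT : 0 < T := by linarith only [hT1, hn, z5, p1]
    have k2 : 2 ≤ T * ε := (div_le_iff₀ hε).1 (by linarith only [hT1, hn, z5])
    have k3 : |m| * T ≤ ε * T := by
      have a1 := h1 y
      have a2 := h1 (R^[n] y)
      have a3 := abs_le.1 k
      rw [← abs_of_pos hT, ← abs_mul, abs_of_pos hT, abs_le]
      constructor <;> linarith only [k2, a1, a2, a3]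
    rw [zero_add]
    exact le_of_mul_le_mul_right k3 hT
  obtain ⟨C, s0, hC, hs0, hq⟩ := hq (‖b.x0‖ + b.r) b.t1 ht1
  obtain ⟨y, hy, n, hn, k1, k2⟩ := hM (4 * (C + 1) ^ 2 + 16 * (C + 1) ^ 2 * T0 + 4 * (C + 1) / s0)
  obtain ⟨z, T, γ, z1, z2, z3, z4, z5, z6⟩ := NEnd_arc h hc hR hη hy n
  have hn' : (1 : ℝ) ≤ n := by exact_mod_cast hn
  have hT : b.t1 ≤ T := by linarith only [z5, ht1, hn', mul_nonneg_of_nonpos_of_nonpos (le_of_lt (Mathlib.Tactic.Linarith.sub_neg_of_lt ht1)) (Mathlib.Tactic.Linarith.sub_nonpos_of_le hn')]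
  have hT0 : 0 < T0 := by (refine lt_of_not_ge fun h_nl => ?_; linarith only [h_nl, ht1, z6, hT, mul_nonneg_of_nonpos_of_nonpos (Mathlib.Tactic.Linarith.sub_nonpos_of_le (Mathlib.Tactic.Linarith.natCast_nonneg ℝ n)) (Mathlib.Tactic.Linarith.sub_nonpos_of_le h_nl)])
  have n1 : ‖z 0‖ ≤ ‖b.x0‖ + b.r := z2 ▸ NEnd_norm hb hy
  have n2 : ‖γ⁻¹ • z T‖ ≤ ‖b.x0‖ + b.r := z3 ▸ NEnd_norm hb (Ret.iter_mem hc hR n hy)
  have hq2 := hq z z1 z z1 T T γ γ hT hT n1 n1 n2 n2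
  have e : ‖γ⁻¹ • z T - z 0‖ = |R^[n] y - y| := by
    rw [z2, z3]
    exact norm_mk_sub _ _ _ _
  simp only [e, pot_const, z4, hm, zero_mul, add_zero, sub_zero] at hq2
  refine NEnd_real (D := C + 1) (N := n) (d := |R^[n] y - y|) (u := |θ (R^[n] y) - θ y|)
    (by linarith only [hC]) hs0 hT0 hn' (abs_nonneg _) (abs_nonneg _) (by rwa [sq_abs, sq_abs])
    (by rwa [sq_abs]) fun σ q1 q2 => ?_
  have hd := abs_nonneg (R^[n] y - y)
  generalize |R^[n] y - y| = d at hq2 hd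
  have fin : C * (d ^ 2 + d ^ 2 + σ * (d + d) + σ ^ 2 * (T + T)) ≤
      2 * ((C + 1) * (d ^ 2 + σ * d + σ ^ 2 * (n * T0))) := by
    have b1 : σ ^ 2 * T ≤ σ ^ 2 * (n * T0) := mul_le_mul_of_nonneg_left z6 (sq_nonneg σ)
    have b2 : 0 ≤ d ^ 2 + σ * d + σ ^ 2 * (n * T0) := by positivity
    linarith only [b2, b1, hC, mul_le_mul_of_nonneg_left b1 hC]
  rcases abs_choice (θ (R^[n] y) - θ y) with a | a <;> rw [a]
  · have := hq2 (-σ) (by rwa [abs_neg, abs_of_nonneg q1])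
    rw [abs_neg, abs_of_nonneg q1, neg_sq] at this
    linarith only [fin, this]
  · have := hq2 σ (by rwa [abs_of_nonneg q1])
    rw [abs_of_nonneg q1] at this
    linarith only [fin, this]

end Pool.Agent.Work.MP_1ce82a_an
end

-- merged part: Pool.Agent.Work.MP_1ce82a_an.U.Rets
section
/-! Close returns.

PLAN. `TBox.vis` at the height `y0 = X2 b.d b.x0` with `ε = b.ν` gives `Tm` (replace it by
`max Tm 0`); for `j = 0, ..., N` take `c = j * (Tm + 3 * t1)` and a fixed `q`: times `T j`, decks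
`γ j`, heights `u j` with `|u j - y0| < ν`. Two of the `N + 1` heights are `2 ν / N` close
(pigeonhole on `⌊(u j - (y0 - ν)) * N / (2 ν)⌋`, `Finset.exists_ne_map_eq_of_card_lt_of_maps_to`),
say `i < j`. `x = b.pt (u i)`, `T = T j - T i ∈ [t1, N * (2 * Tm + 5 * t1)]`, `a = (γ i)⁻¹ * γ j`,
`a⁻¹ • ψ x T = b.pt (u j)`. If `η a = 0` then `Θ (b.pt (u i)) = Θ (b.pt (u j))`, so the heights agree,
against `Lam.aper`. `BoxD.norm_pt_sub`, `TBox.norm_pt`. About 130 lines. -/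

set_option linter.unusedVariables false

open Set Filter Topology MeasureTheory
open scoped ContDiff

namespace Pool.Agent.Work.MP_1ce82a_an.U

variable {Γ : Grp}

theorem Rets_pigeon {N : ℕ} (hN : 1 ≤ N) {y ν : ℝ} (hν : 0 < ν) (u : ℕ → ℝ)
    (hu : ∀ j, |u j - y| < ν) : ∃ i j, i < j ∧ j ≤ N ∧ |u j - u i| ≤ 2 * ν / N := by
  have hN' : (0 : ℝ) < N := by exact_mod_cast hN
  have hd : 0 < 2 * ν / N := by positivity
  have key : ∀ i j, ⌊(u i - (y - ν)) / (2 * ν / N)⌋₊ = ⌊(u j - (y - ν)) / (2 * ν / N)⌋₊ →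
      u j - u i ≤ 2 * ν / N := by
    intro i j hij
    have a1 : 0 ≤ (u i - (y - ν)) / (2 * ν / N) :=
      div_nonneg (by linarith only [hu, (abs_lt.1 (hu i)).1]) hd.le
    have a2 := Nat.floor_le a1
    have a3 := Nat.lt_floor_add_one ((u j - (y - ν)) / (2 * ν / N))
    rw [← hij, div_lt_iff₀ hd] at a3
    rw [le_div_iff₀ hd] at a2
    linarith only [a2, a3]
  obtain ⟨i, hi, j, hj, hij, e⟩ := Finset.exists_ne_map_eq_of_card_lt_of_maps_to
    (s := Finset.range (N + 1)) (t := Finset.range N) (by simp)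
    (f := fun j => ⌊(u j - (y - ν)) / (2 * ν / N)⌋₊) (fun j _ => by
      have a1 : 0 ≤ (u j - (y - ν)) / (2 * ν / N) :=
        div_nonneg (by linarith only [hu, (abs_lt.1 (hu j)).1]) hd.le
      simp only [Finset.coe_range, mem_Iio]
      rw [Nat.floor_lt a1, div_lt_iff₀ hd, mul_div_cancel₀ _ hN'.ne']
      linarith only [hu, (abs_lt.1 (hu j)).2])
  have k1 := key i j e
  have k2 := key j i e.symm
  rw [Finset.mem_range] at hi hj
  rcases lt_or_gt_of_ne hij with a | a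
  · exact ⟨i, j, a, by omega, abs_le.2 ⟨by linarith only [k2], k1⟩⟩
  · exact ⟨j, i, a, by omega, abs_le.2 ⟨by linarith only [k1], k2⟩⟩

theorem rets {V : E → E} {ψ : E → ℝ → E} (h : Lam Γ univ V ψ) {b : BoxD} (hb : TBox Γ V ψ b)
    {η : H1 Γ} {Θ : E → ℝ} (hI : Integ ψ η Θ)
    (hi : InjOn (fun y => Θ (b.pt y)) (Ioo (b.bl + b.ν) (b.bu - b.ν))) : Rets ψ η := by
  have hν := hb.ν_pos
  have ht1 := hb.pre.t1_pos
  obtain ⟨Tm, hTm⟩ := hb.vis h (y := X2 b.d b.x0)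
    ⟨by linarith only [hν, hb, hb.mid.1], by linarith [hb.mid.2]⟩ hν
  have hM : 0 ≤ max Tm 0 := le_max_right _ _
  have hM' : Tm ≤ max Tm 0 := le_max_left _ _
  set M := max Tm 0
  choose T γ u h1 h2 h3 h4 using fun j : ℕ => hTm b.x0 (j * (M + 3 * b.t1))
  have hu : ∀ j, u j ∈ Ioo (b.bl + b.ν) (b.bu - b.ν) := fun j =>
    ⟨by linarith only [hν, hb, h2, hb.mid.1, (abs_lt.1 (h2 j)).1], by linarith only [hν, hb, h2, hb.mid.2, (abs_lt.1 (h2 j)).2]⟩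
  have hu' : ∀ j, u j ∈ Icc b.bl b.bu := fun j => ⟨by linarith only [hν, hu, (hu j).1], by linarith only [hν, hu, (hu j).2]⟩
  refine ⟨‖b.x0‖ + b.r, b.t1, 2 * M + 5 * b.t1, 2 * b.ν, ht1, by linarith only [ht1, hM], by linarith,
    fun N hN => ?_⟩
  obtain ⟨i, j, hij, hj, hd⟩ := Rets_pigeon hN hν u h2
  have e : ψ (b.pt (u i)) (T j - T i) = ((γ i)⁻¹ * γ j) • b.pt (u j) := by
    rw [mul_smul, ← h1 j, eq_inv_smul_iff, ← h.eqv _ _ trivial, ← h1 i, h.add _ trivial,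
      sub_add_cancel]
  have c1 : (i : ℝ) + 1 ≤ j := by exact_mod_cast hij
  have c2 : (j : ℝ) ≤ N := by exact_mod_cast hj
  have c3 : (1 : ℝ) ≤ N := by exact_mod_cast hN
  have c4 : (0 : ℝ) ≤ i := i.cast_nonneg
  have hc : 0 ≤ M + 3 * b.t1 := by linarith only [ht1, hM]
  have l1 : b.t1 ≤ T j - T i := by
    have := mul_le_mul_of_nonneg_right c1 hc
    linarith only [hM', this, h3, h4, h3 j, h4 i]
  refine ⟨b.pt (u i), T j - T i, (γ i)⁻¹ * γ j, hb.norm_pt (hu' i), ?_, l1, ?_, ?_, fun h0 => ?_⟩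
  · rw [e, inv_smul_smul]
    exact hb.norm_pt (hu' j)
  · have a1 := mul_le_mul_of_nonneg_right c2 hc
    have a2 := mul_nonneg c4 hc
    have a3 := mul_le_mul_of_nonneg_right c3 (by linarith only [ht1, hM] : 0 ≤ M + 2 * b.t1)
    linarith only [hM', a1, a2, a3, h3, h4, h3 i, h4 j]
  · rw [e, inv_smul_smul, b.norm_pt_sub]
    exact hd
  · have a1 := hI.flow (b.pt (u i)) (T j - T i)
    rw [e, hI.eqv, h0, add_zero] at a1
    have a2 : u j = u i := hi (hu j) (hu i) a1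
    rw [a2] at e
    exact h.aper _ trivial _ _ (ht1.trans_le l1) e

end Pool.Agent.Work.MP_1ce82a_an.U
end
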