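import Pool.Agent.Work.MP_1ce82a_an.J.Rec
import Pool.Agent.Work.MP_1ce82a_an.D.Defs
import Pool.Agent.Work.MP_1ce82a_an.P.HX
import Pool.Agent.Work.MP_1ce82a_an.U.Rets
import Pool.Agent.Work.MP_1ce82a_an.D.Rand
import Pool.Agent.Work.MP_1ce82a_an.Defs
import Pool.Agent.Work.MP_1ce82a_an.F.Cacc
import Pool.Agent.Work.MP_1ce82a_an.S.Defs

-- merged part: Pool.Agent.Work.MP_1ce82a_an.U.Moll
section
/-! Mollification.

PLAN. `ρ : ContDiffBump (0 : E)` with small outer radius `κ ≤ 1`,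
`g' = ρ.normed volume ⋆[ContinuousLinearMap.lsmul ℝ ℝ, volume] g`
(`HasCompactSupport.contDiff_convolution_left`, `ContDiffBump.dist_normed_convolution_le`),
that is `g' x = ∫ y, ρ.normed volume y * g (x - y)`. Let `K` be the constant of `g` on the ball of
radius `R + 3`, `M` a bound of `Y` there; by uniform continuity choose `κ` such that
`K * ‖Y p - Y x‖ ≤ 1 / 2` for `‖x‖ ≤ R`, `‖p - x‖ ≤ 2 κ`, and `K κ ≤ ε`. For `‖z - x‖ ≤ κ`
and small `s > 0` (uniformly in `z`: the curve `φ z` stays `κ` close to `z` for short times, by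
`Fl.cont` and compactness) the mean value inequality gives `K * ‖φ z s - z - s • Y x‖ ≤ s / 2`, so
`g (z + s • Y x) - g z ≥ s / 2`. Integrate: `g' (x + s • Y x) - g' x ≥ s / 2` for small `s > 0`,
and let `s` tend to zero (`HasDerivAt.tendsto_slope_zero_right`, `ge_of_tendsto`).
About 220 lines. -/

set_option linter.unusedVariables false

open Set Filter Topology MeasureTheory
open scoped ContDiff

namespace Pool.Agent.Work.MP_1ce82a_an.U

variable {Γ : Grp}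

theorem Moll_cont {g : E → ℝ} (hg : LL g) : Continuous g := by
  refine continuous_iff_continuousAt.2 fun x => ?_
  obtain ⟨K, -, hK⟩ := hg (‖x‖ + 1)
  refine tendsto_iff_norm_sub_tendsto_zero.2
    (squeeze_zero' (g := fun y => K * ‖y - x‖) (Eventually.of_forall fun _ => norm_nonneg _)
      ?_ ?_)
  · filter_upwards [Metric.closedBall_mem_nhds x one_pos] with y hy
    refine hK y x ?_ (by linarith)
    linarith [norm_le_norm_add_norm_sub' y x, mem_closedBall_iff_norm.1 hy]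
  · have h2 : Continuous fun y : E => K * ‖y - x‖ := by fun_prop
    simpa using h2.tendsto x

theorem Moll_step {Y : E → E} {φ : E → ℝ → E} (h : Fl Γ Y φ) {g : E → ℝ}
    (hm : ∀ x s, 0 ≤ s → g x + s ≤ g (φ x s)) {R K κ : ℝ} (hK0 : 0 ≤ K)
    (hK : ∀ x y : E, ‖x‖ ≤ R → ‖y‖ ≤ R → |g x - g y| ≤ K * ‖x - y‖) (x : E)
    (h1 : ∀ z ∈ Metric.closedBall x κ, ‖z‖ < R ∧ ‖Y z - Y x‖ < 1 / (2 * (K + 1))) :
    ∀ᶠ s in 𝓝[>] (0 : ℝ), ∀ z ∈ Metric.closedBall x κ, g z + s / 2 ≤ g (z + s • Y x) := by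
  have cφ : Continuous fun p : ℝ × E => φ p.2 p.1 := h.cont.comp continuous_swap
  have h2 : ∀ᶠ s in 𝓝 (0 : ℝ), ∀ z ∈ Metric.closedBall x κ,
      ‖φ z s‖ < R ∧ ‖z + s • Y x‖ < R ∧ ‖Y (φ z s) - Y x‖ < 1 / (2 * (K + 1)) := by
    refine (isCompact_closedBall x κ).eventually_forall_of_forall_eventually fun z hz => ?_
    have c2 : Continuous fun p : ℝ × E => ‖p.2 + p.1 • Y x‖ := by fun_prop
    have c3 : Continuous fun p : ℝ × E => ‖Y (φ p.2 p.1) - Y x‖ :=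
      ((h.cY.comp cφ).sub continuous_const).norm
    refine (cφ.norm.continuousAt.eventually_lt_const ?_).and
      ((c2.continuousAt.eventually_lt_const ?_).and (c3.continuousAt.eventually_lt_const ?_))
    · simpa only [h.zero] using (h1 z hz).1
    · simpa only [zero_smul, add_zero] using (h1 z hz).1
    · simpa only [h.zero] using (h1 z hz).2
  obtain ⟨s0, hs0, h3⟩ := Metric.eventually_nhds_iff.1 h2
  have h4 : ∀ s ∈ Ico (0 : ℝ) s0, dist s 0 < s0 := fun s hs => by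
    rw [Real.dist_eq, sub_zero, abs_of_nonneg hs.1]
    exact hs.2
  filter_upwards [Ioo_mem_nhdsGT hs0] with s hs z hz
  have h5 := norm_image_sub_le_of_norm_deriv_le_segment' (a := 0) (b := s)
    (f := fun t => φ z t - t • Y x) (f' := fun t => Y (φ z t) - Y x) (C := 1 / (2 * (K + 1)))
    (fun t _ => by
      have h6 := (h.der z t).sub ((hasDerivAt_id t).smul_const (Y x))
      rw [one_smul] at h6
      exact h6.hasDerivWithinAt)
    (fun t ht => (h3 (h4 t ⟨ht.1, ht.2.trans hs.2⟩) z hz).2.2.le) s ⟨hs.1.le, le_rfl⟩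
  obtain ⟨a1, a2, -⟩ := h3 (h4 s ⟨hs.1.le, hs.2⟩) z hz
  have h6 := hK _ _ a1.le a2.le
  have e : φ z s - s • Y x - (φ z 0 - (0 : ℝ) • Y x) = φ z s - (z + s • Y x) := by
    rw [h.zero, zero_smul, sub_zero]
    abel
  rw [e, sub_zero] at h5
  have h7 : K * (1 / (2 * (K + 1)) * s) ≤ s / 2 := by
    have e2 : K * (1 / (2 * (K + 1)) * s) = K / (K + 1) * (s / 2) := by
      field_simp
    rw [e2]
    exact mul_le_of_le_one_left (by linarith only [hs, hs.1]) ((div_le_one (by linarith only [hK0])).2 (by linarith only []))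
  linarith only [h7, h6, hm, hs, h5, hK0, (abs_le.1 h6).2, hm z s hs.1.le, mul_le_mul_of_nonneg_left h5 hK0]

theorem moll {Y : E → E} {φ : E → ℝ → E} (h : Fl Γ Y φ) {g : E → ℝ} (hg : LL g)
    (hm : ∀ x s, 0 ≤ s → g x + s ≤ g (φ x s)) : Apx Y g := by
  intro R ε hε
  have cg := Moll_cont hg
  obtain ⟨K, hK0, hK⟩ := hg (R + 2)
  obtain ⟨δ, hδ, hY⟩ := Metric.uniformContinuousOn_iff.1
    ((isCompact_closedBall (0 : E) (R + 1)).uniformContinuousOn_of_continuous h.cY.continuousOn)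
    (1 / (2 * (K + 1))) (by positivity)
  obtain ⟨κ, k0, k1, k2, k3⟩ : ∃ κ : ℝ, 0 < κ ∧ κ ≤ 1 ∧ κ < δ ∧ K * κ ≤ ε := by
    refine ⟨min 1 (min (δ / 2) (ε / (K + 1))), by positivity, min_le_left _ _, ?_, ?_⟩
    · linarith only [hδ, min_le_right 1 (min (δ / 2) (ε / (K + 1))), min_le_left (δ / 2) (ε / (K + 1))]
    · refine (mul_le_mul_of_nonneg_left ((min_le_right _ _).trans (min_le_right _ _)) hK0).trans ?_
      rw [← mul_div_assoc, div_le_iff₀ (by linarith)]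
      nlinarith
  let ρ : ContDiffBump (0 : E) := ⟨κ / 2, κ, by linarith, by linarith⟩
  have hs : ContDiff ℝ ∞ (convolution (ρ.normed volume) g (ContinuousLinearMap.lsmul ℝ ℝ) volume) :=
    ρ.hasCompactSupport_normed.contDiff_convolution_left _ ρ.contDiff_normed
      cg.locallyIntegrable
  refine ⟨_, hs, fun x hx => ?_⟩
  have hz : ∀ z ∈ Metric.closedBall x κ, ‖z‖ ≤ R + 1 := fun z hz => by
    linarith [norm_le_norm_add_norm_sub' z x, mem_closedBall_iff_norm.1 hz]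
  constructor
  · refine ρ.dist_normed_convolution_le cg.aestronglyMeasurable fun z h1 => ?_
    have h2 : z ∈ Metric.closedBall x κ := Metric.ball_subset_closedBall h1
    refine (hK z x (by linarith [hz z h2]) (by linarith)).trans (le_trans ?_ k3)
    exact mul_le_mul_of_nonneg_left (mem_closedBall_iff_norm.1 h2) hK0
  · have h1 := Moll_step h hm hK0 hK x (κ := κ) fun z h2 => ⟨by linarith [hz z h2], by
      rw [← dist_eq_norm]
      exact hY z (mem_closedBall_zero_iff.2 (hz z h2)) x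
        (mem_closedBall_zero_iff.2 (by linarith)) (lt_of_le_of_lt h2 k2)⟩
    have h2 : HasDerivAt (fun s : ℝ => x + s • Y x) (Y x) 0 := by
      have h3 := ((hasDerivAt_id (0 : ℝ)).smul_const (Y x)).const_add x
      rwa [one_smul] at h3
    have h3 := ((hs.differentiable (by simp) x).hasFDerivAt.comp_hasDerivAt_of_eq 0 h2
      (by simp)).tendsto_slope_zero_right
    have hi : ∀ y : E, Integrable fun t => ρ.normed volume t • g (y - t) := fun y =>
      (ρ.continuous_normed.smul (cg.comp (continuous_const.sub continuous_id))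
        ).integrable_of_hasCompactSupport ρ.hasCompactSupport_normed.smul_right
    refine ge_of_tendsto h3 ?_
    filter_upwards [h1, self_mem_nhdsWithin] with s h4 (h5 : 0 < s)
    have h6 : ∫ t, ρ.normed volume t * (s / 2) ≤ ∫ t, (ρ.normed volume t • g (x + s • Y x - t) -
        ρ.normed volume t • g (x - t)) := by
      refine integral_mono (ρ.integrable_normed.mul_const _) ((hi _).sub (hi _)) fun t => ?_
      show ρ.normed volume t * (s / 2) ≤
        ρ.normed volume t * g (x + s • Y x - t) - ρ.normed volume t * g (x - t)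
      by_cases ht : ρ.normed volume t = 0
      · rw [ht, zero_mul, zero_mul, zero_mul, sub_zero]
      · have h7 : t ∈ Metric.ball (0 : E) κ := ρ.support_normed_eq (μ := volume) ▸ ht
        have h8 := h4 (x - t) (by
          rw [mem_closedBall_iff_norm, sub_sub_cancel_left, norm_neg]
          exact (mem_ball_zero_iff.1 h7).le)
        rw [← mul_sub, add_sub_right_comm]
        exact mul_le_mul_of_nonneg_left (by linarith only [h8]) (ρ.nonneg_normed t)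
    rw [integral_mul_const, ρ.integral_normed, integral_sub (hi _) (hi _), one_mul] at h6
    simp only [Function.comp_apply, zero_add, zero_smul, add_zero, convolution_lsmul]
    rw [smul_eq_mul, ← div_eq_inv_mul, le_div_iff₀ h5]
    linarith only [h6]

end Pool.Agent.Work.MP_1ce82a_an.U
end

-- merged part: Pool.Agent.Work.MP_1ce82a_an.U.Main
section
/-! A surface with a minimal aperiodic flow with quadratic growth is a torus. -/

open Set Filter Topology MeasureTheory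
open scoped ContDiff

namespace Pool.Agent.Work.MP_1ce82a_an.U

variable {Γ : Grp}

theorem smooth_of_drift (hS : Surf Γ) {Y : E → E} {φ : E → ℝ → E} (h : Fl Γ Y φ) (hd : Drift Γ φ) :
    ∃ (c : H1 Γ) (u : E → ℝ), ContDiff ℝ ∞ u ∧ Eqv c u ∧ ∀ x, 0 < fderiv ℝ u x (Y x) := by
  obtain ⟨c, g, h1, h2, h3⟩ := avg hS h hd
  exact ⟨c, glue_eqv hS h.cY (h.Y_eqv hS) h1 (moll h h2 h3)⟩

theorem torus_of_minimal (hS : Surf Γ) (hO : Ori Γ) {V : E → E} {ψ : E → ℝ → E}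
    (h : Lam Γ univ V ψ) (h1 : ∀ c : H1 Γ, ∃ m, ChQG (ψ '' univ) c (fun _ => 0) m) :
    S.IsTorus Γ := by
  obtain ⟨b, hb⟩ := exists_tbox hS h
  obtain ⟨η, Θ, hI, hi⟩ := exists_integ hS hO h hb
  have hF := of_lam h
  obtain ⟨c, m, hm, hq⟩ := slope_ne hS hF.zero (rets h hb hI hi) h1
  obtain ⟨c2, u, u1, u2, u3⟩ := smooth_of_drift hS hF (drift_of_slope hS hF hm hq)
  have ru := rate hS hF (u1.of_le (by exact_mod_cast le_top)) u2 u3
  obtain ⟨X, x1, x2, x3, x4⟩ := field hS hO u1 u2 fun x e => by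
    have := u3 x
    rw [e] at this
    exact lt_irrefl _ this
  obtain ⟨φ, hφ⟩ := exists_fl hS (x1.of_le (by exact_mod_cast le_top)) x2
  obtain ⟨c1, v, v1, v2, v3⟩ := smooth_of_drift hS hφ
    (drift_of_integ hS hφ hF x3 hI ru (hφ.const (u1.differentiable (by simp)) x4))
  have rv := rate hS hφ (v1.of_le (by exact_mod_cast le_top)) v2 v3
  obtain ⟨Φ, p1, p2⟩ := diffeo hφ hF u1 v1 ru rv u3 v3 x4
  have p3 : ContDiff ℝ ∞ Φ := by
    rw [show (Φ : E → E) = fun x => (v x, u x) from funext p1]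
    exact v1.prodMk u1
  have p4 : ∀ (γ : Γ) (x : E), Φ (γ • x) = Φ x + (c1.1 γ, c2.1 γ) := fun γ x => by
    rw [p1, p1, v2, u2, Prod.mk_add_mk]
  obtain ⟨A, τ, a1, a2⟩ := lattice hS p3.continuous p2.continuous p4
  refine ⟨Φ.trans A.toEquiv, τ, A.contDiff.comp p3, p2.comp A.symm.contDiff, a1, fun γ x => ?_⟩
  show A (Φ (γ • x)) = A (Φ x) + _
  rw [p4, map_add, a2]

theorem lam_torus (hS : Surf Γ) (hO : Ori Γ) {Cv : Set (ℝ → E)} (hC : CurveSys Γ Cv)
    (h1 : ∀ c1 : H1 Γ, ∃ m, ChQG Cv c1 (fun _ => 0) m)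
    (h2 : ∀ B : Bx, (∃ m, ChQG Cv (0 : H1 Γ) (per Γ B.f0) m) ∧
      ∃ m, ChQG Cv (0 : H1 Γ) (per Γ B.f1) m) : S.IsTorus Γ := by
  obtain ⟨L, V, ψ, h, hψ⟩ := exists_lam hS hC (synd_ne hS hC fun B => (h2 B).1)
  have hsub : ψ '' L ⊆ Cv := by
    rintro _ ⟨x, hx, rfl⟩
    exact hψ x hx
  by_cases hN : ∃ x, x ∉ L
  · exfalso
    obtain ⟨b, hb⟩ := exists_box hS hN h
    exact box_false hS h hb ((hb.crMoreS hS h).toMore fun _ _ γ _ _ => (hO γ).chi)
      (fun c1 => (h1 c1).imp fun m hm => hm.mono hsub) fun B =>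
        ⟨(h2 B).1.imp fun m hm => hm.mono hsub, (h2 B).2.imp fun m hm => hm.mono hsub⟩
  · have e : L = univ := Set.eq_univ_of_forall fun x => not_not.1 fun hx => hN ⟨x, hx⟩
    subst e
    exact torus_of_minimal hS hO h fun c1 => (h1 c1).imp fun m hm => hm.mono hsub

end Pool.Agent.Work.MP_1ce82a_an.U
end

-- merged part: Pool.Agent.Work.MP_1ce82a_an.N.Mqg
section
/-! Quadratic growth for chains with many arcs and for pseudo orbits of the return map.
PLAN. mqg_of_qg: arc_close with w = z (i+1) 0 for each arc (for i = n - 1 use z n 0 = z 0 0 for the norm bound). By induction on k <= n, k >= 1, there is a path Y on [0, S] from z 0 0 to (a 0 * ... * a (k-1)) applied to z k 0, with S = the sum of the new times, dfc Y = the sum of the defects and pot g Y = the sum of the potentials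
(exists_join; dfc is act minus the increment of u, and u is equivariant). Then qg_one, as in chqg_of_qg. po_of_mqg: z i = psi (pt (w i)), T i = tt (w i), a i = s (w i); Ret.cr, NCr_gt, IsBox.norm_pt, BoxD.norm_pt_sub, Lam.zero. -/

open Set Filter Topology MeasureTheory
open scoped ContDiff

namespace Pool.Agent.Work.MP_1ce82a_an

variable {Γ : Grp}

theorem mqg_of_qg (hS : Surf Γ) {F : E × E → ℝ} (hF : Tonelli Γ F) {c : H1 Γ} {u : E → ℝ}
    (hu : InS F c u) {g : E → ℝ} (hg : ContDiff ℝ 1 g) (hi : Inv Γ g) {m : ℝ}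
    (h : QG F c 0 g m) : MQG Γ {z | CalR F u z} g m := by
  intro r t0 ht0
  obtain ⟨A, hA, hcl⟩ := arc_close hS hF hu hg hi r t0 ht0
  obtain ⟨C, s0, hC, hs0, hq⟩ := qg_one h
  have hm := abs_nonneg m
  refine ⟨A + C * A + |m| * A, s0, by positivity, hs0, fun n z T a hn hz he s hs => ?_⟩
  have key : ∀ k ≤ n, ∃ (Y : ℝ → E) (S : ℝ) (ρ : Γ), IsPath Y 0 S ∧ Y 0 = z 0 0 ∧
      Y S = ρ • z k 0 ∧ ∑ i ∈ Finset.range k, T i ≤ S ∧
      S - ∑ i ∈ Finset.range k, T i ≤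
        A * ∑ i ∈ Finset.range k, ‖(a i)⁻¹ • z i (T i) - z (i + 1) 0‖ ∧
      S ≤ A * ∑ i ∈ Finset.range k, T i ∧
      dfc F u Y 0 S ≤ A * ∑ i ∈ Finset.range k, ‖(a i)⁻¹ • z i (T i) - z (i + 1) 0‖ ^ 2 ∧
      |pot g Y 0 S - ∑ i ∈ Finset.range k, pot g (z i) 0 (T i)| ≤
        A * ∑ i ∈ Finset.range k, ‖(a i)⁻¹ • z i (T i) - z (i + 1) 0‖ := by
    intro k
    induction k with
    | zero =>
      intro _
      have c0 : Cal F u (z 0) 0 0 := (hz 0 hn).1 0 0 le_rfl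
      exact ⟨z 0, 0, 1, c0.1, rfl, (one_smul _ _).symm, by simp, by simp, by simp,
        by simp [c0.2], by simp [pot]⟩
    | succ k ih =>
      intro hk
      obtain ⟨Y, S, ρ, y1, y2, y3, y4, y5, y6, y7, y8⟩ := ih (by omega)
      obtain ⟨z1, z2, -, z4⟩ := hz k hk
      have z5 : ‖z (k + 1) 0‖ ≤ r := by
        rcases hk.eq_or_lt with e | e
        · rw [e, he]
          exact (hz 0 hn).2.2.1
        · exact (hz _ e).2.2.1
      obtain ⟨y, S', p1, p2, p3, p4, p5, p6, p7, p8⟩ := hcl _ z1 _ _ _ z2 z4 z5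
      obtain ⟨w, w1, w2, w3, w4, w5⟩ := exists_join hS y1 p1 ρ (by rw [y3, p2])
      rw [sub_zero, sub_zero] at w1 w3 w4 w5
      have w6 : dfc F u w 0 (S + S') = dfc F u Y 0 S + dfc F u y 0 S' := by
        simp only [dfc]
        rw [w4 F hF.cont hF.invL, w3, w2, y3, ← p2, hu.1 ρ, hu.1 ρ]
        ring
      refine ⟨w, S + S', ρ * a k, w1, w2.trans y2, by rw [w3, p3, mul_smul], ?_⟩
      simp only [Finset.sum_range_succ, mul_add]
      rw [w6, w5 g hg.continuous hi]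
      rw [abs_le] at y8 p8 ⊢
      refine ⟨by linarith only [y4, p4], by linarith only [y5, p5], by linarith only [y6, p6], by linarith only [y7, p7], ?_, ?_⟩
      · linarith only [y8, p8, y8.1, p8.1]
      · linarith only [y8, p8, y8.2, p8.2]
  obtain ⟨Y, S, ρ, y1, y2, y3, y4, y5, y6, y7, y8⟩ := key n le_rfl
  have hT : 0 < ∑ i ∈ Finset.range n, T i :=
    Finset.sum_pos (fun i hi => ht0.trans_le (hz i (Finset.mem_range.1 hi)).2.1)
      ⟨0, Finset.mem_range.2 hn⟩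
  have k := hq u hu.1 Y 0 S ρ (hT.trans_le y4) y1 (by rw [y3, he, y2]) s hs
  have e0 : (0 : H1 Γ).1 ρ = 0 := rfl
  rw [sub_zero, e0, zero_add] at k
  rw [Finset.sum_sub_distrib, ← Finset.mul_sum]
  have h1 : 0 ≤ ∑ i ∈ Finset.range n, ‖(a i)⁻¹ • z i (T i) - z (i + 1) 0‖ := by positivity
  have h2 : 0 ≤ ∑ i ∈ Finset.range n, ‖(a i)⁻¹ • z i (T i) - z (i + 1) 0‖ ^ 2 := by positivity
  generalize ∑ i ∈ Finset.range n, ‖(a i)⁻¹ • z i (T i) - z (i + 1) 0‖ = d1 at *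
  generalize ∑ i ∈ Finset.range n, ‖(a i)⁻¹ • z i (T i) - z (i + 1) 0‖ ^ 2 = d2 at *
  generalize ∑ i ∈ Finset.range n, T i = U at *
  generalize ∑ i ∈ Finset.range n, pot g (z i) 0 (T i) = P at *
  have hsa := abs_nonneg s
  have e1 : ∀ x b : ℝ, |x| ≤ b → s * x ≤ |s| * b := fun x b hx =>
    (le_abs_self _).trans (by rw [abs_mul]; exact mul_le_mul_of_nonneg_left hx hsa)
  have k1 := e1 _ _ ((abs_sub_comm _ _).trans_le y8)
  have k3 := e1 (m * (S - U)) (|m| * (A * d1)) (by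
    rw [abs_mul, abs_of_nonneg (sub_nonneg.2 y4)]
    exact mul_le_mul_of_nonneg_left y5 hm)
  have k5 : C * s ^ 2 * S ≤ C * s ^ 2 * (A * U) := mul_le_mul_of_nonneg_left y6 (by positivity)
  have n1 : 0 ≤ (C * A + |m| * A) * d2 := by positivity
  have n2 : 0 ≤ C * |s| * (A * d1) := by positivity
  have n3 : 0 ≤ (A + |m| * A) * (s ^ 2 * U) := by positivity
  linarith only [k, y7, k1, k3, k5, n1, n2, n3]

theorem po_of_mqg {L : Set E} {V : E → E} {ψ : E → ℝ → E} {b : BoxD} {T0 : ℝ} {R tt : ℝ → ℝ}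
    {s : ℝ → Γ} (h : Lam Γ L V ψ) (hb : IsBox Γ L V ψ b)
    (hc : CrBase (b.Y L) (b.Cr Γ L ψ) b.t1 T0) (hR : Ret (b.Y L) (b.Cr Γ L ψ) T0 R tt s)
    {g : E → ℝ} {m : ℝ} (hq : MQG Γ (ψ '' L) g m) :
    PO (b.Y L) R (fun y => pot g (ψ (b.pt y)) 0 (tt y) - m * tt y) := by
  obtain ⟨C, s0, hC, hs0, hq⟩ := hq (‖b.x0‖ + b.r) b.t1 hc.t0_pos
  refine ⟨C * (1 + |T0|), s0, by positivity, hs0, ?_⟩
  rintro a k c2 c1 S hk ⟨w, w1, w2, w3, w4, w5, w6⟩ σ hσ
  have e0 : ∀ i ≤ k, ψ (b.pt (w i)) 0 = b.pt (w i) := fun i hi => h.zero _ (w1 i hi).2.2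
  have e1 : ∀ i ≤ k, (s (w i))⁻¹ • ψ (b.pt (w i)) (tt (w i)) = b.pt (R (w i)) := fun i hi => by
    rw [(hR.cr _ (w1 i hi)).2.2, inv_smul_smul]
  have e2 : ∀ i ∈ Finset.range k, ‖(s (w i))⁻¹ • ψ (b.pt (w i)) (tt (w i)) -
      ψ (b.pt (w (i + 1))) 0‖ = |R (w i) - w (i + 1)| := fun i hi => by
    have := Finset.mem_range.1 hi
    rw [e1 i this.le, e0 (i + 1) this, b.norm_pt_sub]
  have k1 := hq k (fun i => ψ (b.pt (w i))) (fun i => tt (w i)) (fun i => s (w i)) hk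
    (fun i hi => ⟨⟨_, (w1 i hi.le).2.2, rfl⟩, (NCr_gt hc hR (w1 i hi.le)).le, by
      rw [e0 i hi.le]
      exact hb.norm_pt (w1 i hi.le), by
      rw [e1 i hi.le]
      exact hb.norm_pt (hR.cr _ (w1 i hi.le)).2.1⟩) (by rw [w2, w3]) σ hσ
  rw [w6, Finset.sum_congr rfl e2, Finset.sum_congr rfl fun i hi => by rw [e2 i hi, sq_abs]] at k1
  have k2 : ∑ i ∈ Finset.range k, tt (w i) ≤ |T0| * k := by
    refine (Finset.sum_le_card_nsmul _ _ |T0| fun i hi =>
      (hR.le _ (w1 i (Finset.mem_range.1 hi).le)).trans (le_abs_self _)).trans_eq ?_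
    rw [Finset.card_range, nsmul_eq_mul, mul_comm]
  have h1 : 0 ≤ c1 := le_trans (by positivity) w5
  have h2 : 0 ≤ c2 := le_trans (by positivity) w4
  have k3 := mul_le_mul_of_nonneg_left w5 (abs_nonneg σ)
  have k4 := mul_le_mul_of_nonneg_left k2 (sq_nonneg σ)
  have n1 : 0 ≤ |T0| * (c2 + |σ| * c1) + σ ^ 2 * k := by positivity
  rw [mul_assoc]
  exact k1.trans (mul_le_mul_of_nonneg_left (by linarith only [w4, k3, k4, n1]) hC)

end Pool.Agent.Work.MP_1ce82a_an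
end

-- merged part: Pool.Agent.Work.MP_1ce82a_an.N.Pass
section
/-! Passage integrals of thin boxes.
PLAN. pass_upper: Mono_sub. pass_lip: same set up as mono_pass in L/Mono (Mono_inv, Mono_der): D t = X2 (z2 (sigma (X1 (z1 t)))) - X2 (z1 t) satisfies |D'| <= 2 K v1/v0^2 V1 |D|, hence |D t| <= |D 0| exp(2 K v1 (a' - a)/v0^2); the integral along z2 equals the integral of psi (X1 (z1 t)) V1/V2 over [0, t1], and |V1/V2 - 1| <= K |D|/v0.
passage0: copy the proof of passage in L/NMono with w' in place of w/2. exists_plat: nu' = min nu b.nu, w' = min (w/2) (nu' v0/(8 v1)), B from exists_bx_levels with bl = p - nu'/2, bu = q + nu'/2, nu = nu'/4; during the passage the height moves by at most nu'/8 (PreBox.stay), so fb = 1 for y in Icc p q and fb = 0 otherwise;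
G0 = (integral of fa)/v1 (pass_lower, fa_int_pos), Lam = v1/v0 + v1 K exp(2 K v1 w/v0^2)/v0^2. See exists_mono for the verification of the hypotheses. -/

open Set Filter Topology MeasureTheory
open scoped ContDiff

namespace Pool.Agent.Work.MP_1ce82a_an

variable {Γ : Grp}

theorem pass_upper (d : Fin 4) {z : ℝ → E} {t1 a a' v0 : ℝ} {ψ : ℝ → ℝ}
    (hψ : Continuous ψ) (hψ0 : ∀ y, 0 ≤ ψ y) (ht1 : 0 ≤ t1) (hv0 : 0 < v0)
    (h1 : ∀ t ∈ Icc 0 t1, HasDerivAt z (deriv z t) t ∧ v0 ≤ X1 d (deriv z t))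
    (hc : ContinuousOn (deriv z) (Icc 0 t1)) (ha : X1 d (z 0) = a) (hb : X1 d (z t1) = a') :
    ∫ t in (0 : ℝ)..t1, ψ (X1 d (z t)) ≤ (∫ y in a..a', ψ y) / v0 := by
  have c1 : ContinuousOn z (Icc 0 t1) := fun t ht => (h1 t ht).1.continuousAt.continuousWithinAt
  have cψ : ContinuousOn (fun t => ψ (X1 d (z t))) (Icc 0 t1) :=
    hψ.comp_continuousOn ((X1 d).continuous.comp_continuousOn c1)
  rw [← ha, ← hb, Mono_sub d hψ ht1 (fun t ht => (h1 t ht).1) hc, le_div_iff₀ hv0,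
    ← intervalIntegral.integral_mul_const]
  exact intervalIntegral.integral_mono_on ht1
    ((cψ.intervalIntegrable_of_Icc ht1).mul_const _)
    ((cψ.mul ((X1 d).continuous.comp_continuousOn hc)).intervalIntegrable_of_Icc ht1)
    fun s hs => mul_le_mul_of_nonneg_left (h1 s hs).2 (hψ0 _)

theorem Pass_gron {D D' p p' : ℝ → ℝ} {T : ℝ} (hD : ContinuousOn D (Icc 0 T))
    (hp : ContinuousOn p (Icc 0 T))
    (h : ∀ s ∈ Ioo 0 T, HasDerivAt D (D' s) s ∧ HasDerivAt p (p' s) s ∧ |D' s| ≤ p' s * |D s|) :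
    ∀ s ∈ Icc 0 T, |D s| ≤ |D 0| * Real.exp (p s - p 0) := by
  have hA : AntitoneOn (fun s => D s ^ 2 * Real.exp (-2 * p s)) (Icc 0 T) := by
    refine antitoneOn_of_hasDerivWithinAt_nonpos (convex_Icc 0 T)
      (f' := fun s => 2 * D s * D' s * Real.exp (-2 * p s) +
        D s ^ 2 * (Real.exp (-2 * p s) * (-2 * p' s))) (by fun_prop) (fun s hs => ?_) fun s hs => ?_
    · rw [interior_Icc] at hs
      have k := ((h s hs).1.fun_pow 2).fun_mul ((h s hs).2.1.const_mul (-2)).exp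
      simpa using k.hasDerivWithinAt
    · rw [interior_Icc] at hs
      have k1 : D s * D' s ≤ p' s * D s ^ 2 := by
        have k := mul_le_mul_of_nonneg_left (h s hs).2.2 (abs_nonneg (D s))
        rw [← abs_mul, mul_left_comm, abs_mul_abs_self, ← sq] at k
        exact (le_abs_self _).trans k
      have k2 := Real.exp_pos (-2 * p s)
      linarith only [k1, k2, mul_nonneg_of_nonpos_of_nonpos (Mathlib.Tactic.Linarith.sub_nonpos_of_le k1) (le_of_lt (Mathlib.Tactic.Linarith.sub_neg_of_lt k2))]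
  intro s hs
  have k := hA ⟨le_rfl, hs.1.trans hs.2⟩ hs hs.1
  simp only at k
  have e1 : Real.exp (p s - p 0) ^ 2 * Real.exp (-2 * p s) = Real.exp (-2 * p 0) := by
    rw [sq, ← Real.exp_add, ← Real.exp_add]
    exact congrArg Real.exp (by ring)
  have k2 : D s ^ 2 ≤ (|D 0| * Real.exp (p s - p 0)) ^ 2 := by
    refine le_of_mul_le_mul_right ?_ (Real.exp_pos (-2 * p s))
    rw [mul_pow, sq_abs, mul_assoc, e1]
    exact k
  exact abs_le_of_sq_le_sq' k2 (by positivity) |> abs_le.2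

theorem Pass_pt {v0 V1 V2 c : ℝ} (hv0 : 0 < v0) (h2 : v0 ≤ V2) (hV : |V1 - V2| ≤ c) :
    |V2⁻¹ * V1 - 1| ≤ c / v0 := by
  have p2 : 0 < V2 := hv0.trans_le h2
  have e : V2⁻¹ * V1 - 1 = (V1 - V2) / V2 := by field_simp
  rw [e, abs_div, abs_of_pos p2]
  exact div_le_div₀ ((abs_nonneg _).trans hV) hV hv0 h2

theorem pass_lip (d : Fin 4) {z1 z2 : ℝ → E} {t1 t2 a a' v0 v1 K : ℝ} {ψ : ℝ → ℝ}
    (hψ : Continuous ψ) (hψ0 : ∀ y, 0 ≤ ψ y) (ht1 : 0 ≤ t1) (ht2 : 0 ≤ t2) (hv0 : 0 < v0)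
    (hK : 0 ≤ K)
    (h1 : ∀ t ∈ Icc 0 t1, HasDerivAt z1 (deriv z1 t) t ∧ v0 ≤ X1 d (deriv z1 t) ∧
      ‖deriv z1 t‖ ≤ v1)
    (h2 : ∀ t ∈ Icc 0 t2, HasDerivAt z2 (deriv z2 t) t ∧ v0 ≤ X1 d (deriv z2 t) ∧
      ‖deriv z2 t‖ ≤ v1)
    (hc1 : ContinuousOn (deriv z1) (Icc 0 t1)) (hc2 : ContinuousOn (deriv z2) (Icc 0 t2))
    (hl : ∀ s ∈ Icc 0 t1, ∀ t ∈ Icc 0 t2, ‖deriv z1 s - deriv z2 t‖ ≤ K * ‖z1 s - z2 t‖)
    (ha1 : X1 d (z1 0) = a) (ha2 : X1 d (z2 0) = a) (hb1 : X1 d (z1 t1) = a')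
    (hb2 : X1 d (z2 t2) = a') :
    |(∫ t in (0 : ℝ)..t2, ψ (X1 d (z2 t))) - ∫ t in (0 : ℝ)..t1, ψ (X1 d (z1 t))| ≤
      K * Real.exp (2 * K * v1 * (a' - a) / v0 ^ 2) / v0 ^ 2 * (∫ y in a..a', ψ y) *
        |X2 d (z2 0) - X2 d (z1 0)| := by
  have d1 : ∀ t ∈ Icc 0 t1, HasDerivAt (fun t => X1 d (z1 t)) (X1 d (deriv z1 t)) t ∧
      v0 ≤ X1 d (deriv z1 t) := fun t ht =>
    ⟨(X1 d).hasFDerivAt.comp_hasDerivAt t (h1 t ht).1, (h1 t ht).2.1⟩
  have d2 : ∀ t ∈ Icc 0 t2, HasDerivAt (fun t => X1 d (z2 t)) (X1 d (deriv z2 t)) t ∧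
      v0 ≤ X1 d (deriv z2 t) := fun t ht =>
    ⟨(X1 d).hasFDerivAt.comp_hasDerivAt t (h2 t ht).1, (h2 t ht).2.1⟩
  obtain ⟨σ, s1, s2, s3, s4, s5⟩ := Mono_inv ht2 hv0 d2
  simp only [ha2, hb2] at s1 s2 s3 s4 s5
  have i1 := Mono_incr d1
  have m1 : ∀ s ∈ Icc 0 t1, X1 d (z1 s) ∈ Icc a a' := fun s hs => by
    have k1 := i1 0 ⟨le_rfl, ht1⟩ s hs hs.1
    have k2 := i1 s hs t1 ⟨ht1, le_rfl⟩ hs.2
    have k3 := mul_nonneg hv0.le (sub_nonneg.2 hs.1)
    have k4 := mul_nonneg hv0.le (sub_nonneg.2 hs.2)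
    exact ⟨by linarith only [ha1, k1, k3], by linarith⟩
  have m2 : ∀ s ∈ Ioo 0 t1, X1 d (z1 s) ∈ Ioo a a' := fun s hs => by
    have k1 := i1 0 ⟨le_rfl, ht1⟩ s (Ioo_subset_Icc_self hs) hs.1.le
    have k2 := i1 s (Ioo_subset_Icc_self hs) t1 ⟨ht1, le_rfl⟩ hs.2.le
    have k3 := mul_pos hv0 (sub_pos.2 hs.1)
    have k4 := mul_pos hv0 (sub_pos.2 hs.2)
    exact ⟨by linarith, by linarith⟩
  have c1 : ContinuousOn z1 (Icc 0 t1) := fun t ht => (h1 t ht).1.continuousAt.continuousWithinAt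
  have c2 : ContinuousOn z2 (Icc 0 t2) := fun t ht => (h2 t ht).1.continuousAt.continuousWithinAt
  obtain ⟨τ, hτ⟩ : ∃ τ : ℝ → ℝ, τ = fun s => σ (X1 d (z1 s)) := ⟨_, rfl⟩
  have τm : MapsTo τ (Icc 0 t1) (Icc 0 t2) := fun s hs => hτ ▸ (s1 _ (m1 s hs)).1
  have τe : ∀ s ∈ Icc 0 t1, X1 d (z2 (τ s)) = X1 d (z1 s) := fun s hs => hτ ▸ (s1 _ (m1 s hs)).2
  have τc : ContinuousOn τ (Icc 0 t1) :=
    hτ ▸ s2.comp ((X1 d).continuous.comp_continuousOn c1) m1
  have τd : ∀ s ∈ Ioo 0 t1,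
      HasDerivAt τ ((X1 d (deriv z2 (τ s)))⁻¹ * X1 d (deriv z1 s)) s := fun s hs =>
    hτ ▸ (s3 _ (m2 s hs)).comp s (d1 s (Ioo_subset_Icc_self hs)).1
  have τ0 : τ 0 = 0 := by rw [hτ]; simp only [ha1, s4]
  have τ1 : τ t1 = t2 := by rw [hτ]; simp only [hb1, s5]
  have c3 : ContinuousOn (fun s => z2 (τ s)) (Icc 0 t1) := c2.comp τc τm
  have c4 : ContinuousOn (fun s => deriv z2 (τ s)) (Icc 0 t1) := hc2.comp τc τm
  have c5 : ContinuousOn (fun s => (X1 d (deriv z2 (τ s)))⁻¹ * X1 d (deriv z1 s)) (Icc 0 t1) :=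
    (((X1 d).continuous.comp_continuousOn c4).inv₀ fun s hs =>
      (hv0.trans_le (h2 _ (τm hs)).2.1).ne').mul ((X1 d).continuous.comp_continuousOn hc1)
  have hn : ∀ s ∈ Icc 0 t1, ‖deriv z1 s - deriv z2 (τ s)‖ ≤
      K * |X2 d (z2 (τ s)) - X2 d (z1 s)| := fun s hs => by
    have k := hl s hs _ (τm hs)
    rwa [norm_eq_X d (z1 s - _), map_sub, map_sub, τe s hs, sub_self, abs_zero,
      max_eq_right (abs_nonneg _), abs_sub_comm] at k
  have hV : ∀ s ∈ Icc 0 t1, |X1 d (deriv z1 s) - X1 d (deriv z2 (τ s))| ≤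
      K * |X2 d (z2 (τ s)) - X2 d (z1 s)| := fun s hs => by
    rw [← map_sub]
    exact (abs_X1_le d _).trans (hn s hs)
  have hW : ∀ s ∈ Icc 0 t1, |X2 d (deriv z1 s) - X2 d (deriv z2 (τ s))| ≤
      K * |X2 d (z2 (τ s)) - X2 d (z1 s)| := fun s hs => by
    rw [← map_sub]
    exact (abs_X2_le d _).trans (hn s hs)
  have hv1 : 0 < v1 := hv0.trans_le ((h1 0 ⟨le_rfl, ht1⟩).2.1.trans
    ((le_abs_self _).trans ((abs_X1_le d _).trans (h1 0 ⟨le_rfl, ht1⟩).2.2)))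
  have hg := Pass_gron (T := t1) (D := fun s => X2 d (z2 (τ s)) - X2 d (z1 s))
    (D' := fun s => X2 d (deriv z2 (τ s)) * ((X1 d (deriv z2 (τ s)))⁻¹ * X1 d (deriv z1 s)) -
      X2 d (deriv z1 s)) (p := fun s => 2 * K * v1 / v0 ^ 2 * X1 d (z1 s))
    (p' := fun s => 2 * K * v1 / v0 ^ 2 * X1 d (deriv z1 s))
    (((X2 d).continuous.comp_continuousOn c3).sub ((X2 d).continuous.comp_continuousOn c1))
    (continuousOn_const.mul ((X1 d).continuous.comp_continuousOn c1))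
    (fun s hs => by
      have hs' := Ioo_subset_Icc_self hs
      have k1 : HasDerivAt (fun t => X2 d (z2 t)) (X2 d (deriv z2 (τ s))) (τ s) :=
        (X2 d).hasFDerivAt.comp_hasDerivAt _ (h2 _ (τm hs')).1
      have k2 : HasDerivAt (fun t => X2 d (z1 t)) (X2 d (deriv z1 s)) s :=
        (X2 d).hasFDerivAt.comp_hasDerivAt _ (h1 _ hs').1
      exact ⟨(k1.comp s (τd s hs)).fun_sub k2, (d1 s hs').1.const_mul _,
        Mono_der hv0 (h1 s hs').2.1 (h2 _ (τm hs')).2.1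
          ((le_abs_self _).trans ((abs_X1_le d _).trans (h1 s hs').2.2))
          ((abs_X2_le d _).trans (h1 s hs').2.2) (hV s hs') (hW s hs')⟩)
  simp only [τ0, ha1] at hg
  have cg : ContinuousOn (fun t => ψ (X1 d (z2 t))) (Icc 0 t2) :=
    hψ.comp_continuousOn ((X1 d).continuous.comp_continuousOn c2)
  have e2 := intervalIntegral.integral_comp_mul_deriv'' (a := 0) (b := t1) (f := τ)
    (f' := fun s => (X1 d (deriv z2 (τ s)))⁻¹ * X1 d (deriv z1 s))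
    (g := fun t => ψ (X1 d (z2 t))) (by rwa [uIcc_of_le ht1])
    (fun s hs => by
      rw [min_eq_left ht1, max_eq_right ht1] at hs
      exact (τd s hs).hasDerivWithinAt) (by rwa [uIcc_of_le ht1])
    (by rw [uIcc_of_le ht1]; exact cg.mono τm.image_subset)
  have cψ : ContinuousOn (fun t => ψ (X1 d (z1 t))) (Icc 0 t1) :=
    hψ.comp_continuousOn ((X1 d).continuous.comp_continuousOn c1)
  have I1 : IntervalIntegrable (fun x => ((fun t => ψ (X1 d (z2 t))) ∘ τ) x *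
      ((X1 d (deriv z2 (τ x)))⁻¹ * X1 d (deriv z1 x))) volume 0 t1 :=
    ((cg.comp τc τm).mul c5).intervalIntegrable_of_Icc (μ := volume) ht1
  have I2 := cψ.intervalIntegrable_of_Icc (μ := volume) ht1
  have up := pass_upper d hψ hψ0 ht1 hv0 (fun t ht => ⟨(h1 t ht).1, (h1 t ht).2.1⟩) hc1 ha1 hb1
  rw [τ0, τ1] at e2
  obtain ⟨c, hcd⟩ : ∃ c : ℝ, c = K * (|X2 d (z2 0) - X2 d (z1 0)| *
      Real.exp (2 * K * v1 * (a' - a) / v0 ^ 2)) / v0 := ⟨_, rfl⟩
  have c0 : 0 ≤ c := by rw [hcd]; positivity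
  have key : ∀ s ∈ Icc 0 t1, |(X1 d (deriv z2 (τ s)))⁻¹ * X1 d (deriv z1 s) - 1| ≤ c := by
    intro s hs
    rw [hcd]
    refine Pass_pt hv0 (h2 _ (τm hs)).2.1 ((hV s hs).trans (mul_le_mul_of_nonneg_left
      ((hg s hs).trans (mul_le_mul_of_nonneg_left (Real.exp_le_exp.2 ?_) (abs_nonneg _))) hK))
    have k := mul_le_mul_of_nonneg_left (m1 s hs).2
      (show 0 ≤ 2 * K * v1 / v0 ^ 2 by positivity)
    have e : 2 * K * v1 * (a' - a) / v0 ^ 2 =
      2 * K * v1 / v0 ^ 2 * a' - 2 * K * v1 / v0 ^ 2 * a := by ring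
    linarith only [k, e]
  have fin : c * ∫ t in (0 : ℝ)..t1, ψ (X1 d (z1 t)) ≤
      K * Real.exp (2 * K * v1 * (a' - a) / v0 ^ 2) / v0 ^ 2 * (∫ y in a..a', ψ y) *
        |X2 d (z2 0) - X2 d (z1 0)| := by
    refine (mul_le_mul_of_nonneg_left up c0).trans_eq ?_
    rw [hcd]
    field_simp
  refine le_trans ?_ fin
  rw [← e2, ← intervalIntegral.integral_sub I1 I2, ← intervalIntegral.integral_const_mul]
  refine (intervalIntegral.abs_integral_le_integral_abs ht1).trans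
    (intervalIntegral.integral_mono_on ht1 (I1.sub I2).abs (I2.const_mul c) fun s hs => ?_)
  simp only [Function.comp_apply, τe s hs]
  rw [← mul_sub_one, abs_mul, abs_of_nonneg (hψ0 _), mul_comm]
  exact mul_le_mul_of_nonneg_right (key s hs) (hψ0 _)

variable {L : Set E} {V : E → E} {ψ : E → ℝ → E} {b : BoxD} {T0 : ℝ} {R tt : ℝ → ℝ} {s : ℝ → Γ}

theorem passage0 (hS : Surf Γ) (h : Lam Γ L V ψ) (hb : IsBox Γ L V ψ b)
    (hc : CrBase (b.Y L) (b.Cr Γ L ψ) b.t1 T0) (hR : Ret (b.Y L) (b.Cr Γ L ψ) T0 R tt s)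
    {B : Bx} {w' : ℝ} (hw0 : 0 < w') (hw : w' ≤ b.w / 2)
    (hB : ∀ p, B.f0 p ≠ 0 → p ∈ b.Q ∧ b.a < X1 b.d p ∧ X1 b.d p < b.a + w') {y : ℝ}
    (hy : y ∈ b.Y L) :
    ∃ t : ℝ, 0 ≤ t ∧ t * b.v0 ≤ w' ∧ X1 b.d (ψ (b.pt y) t) = b.a + w' ∧
      (∀ u ∈ Icc 0 t, ψ (b.pt y) u ∈ b.Q) ∧
      pot (per Γ B.f0) (ψ (b.pt y)) 0 (tt y) = ∫ u in (0 : ℝ)..t, B.f0 (ψ (b.pt y) u) := by
  have hL := hy.2.2
  have hQ := hb.pt_mem hy
  have hv0 := hb.pre.v0_pos
  have hv1 := hb.pre.v1_pos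
  have hwp := hb.w_pos
  have ht1 := hb.pre.t1_pos
  have inc := hb.incr h hL hQ
  have e0 : X1 b.d (ψ (b.pt y) 0) = b.a := by rw [h.zero _ hL, b.X1_pt]
  have z0 : (0 : ℝ) ∈ Icc (-b.t1) b.t1 := ⟨by linarith only [ht1], ht1.le⟩
  have ew : |X1 b.d (ψ (b.pt y) 0) - (b.a + w')| = w' := by
    rw [e0, abs_of_neg (by linarith)]
    ring
  obtain ⟨t, tb, te⟩ := cross_time (f := fun t => X1 b.d (ψ (b.pt y) t))
    (f' := fun t => X1 b.d (V (ψ (b.pt y) t))) (t0 := 0) (r := b.t1) (y := b.a + w') hv0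
    (fun t ht => ⟨(X1 b.d).hasFDerivAt.comp_hasDerivAt t (h.der _ hL t),
      (hb.pre.dir _ (h.mem _ hL t) (hb.pre.stay _ hL (hb.sub _ hQ) t
        (abs_le.2 ⟨by linarith [ht.1], by linarith [ht.2]⟩)).1).1⟩)
    (by rw [ew]; linarith [hb.w1])
  rw [sub_zero, ew, le_div_iff₀ hv0] at tb
  have tt1 : |t| ≤ b.t1 := by
    by_contra hn
    push Not at hn
    linarith only [hw0, hw, tb, hb, hv0, hn, hb.w1, mul_pos_of_neg_of_neg (Mathlib.Tactic.Linarith.sub_neg_of_lt hv0) (Mathlib.Tactic.Linarith.sub_neg_of_lt hn)]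
  have tI : t ∈ Icc (-b.t1) b.t1 := abs_le.1 tt1
  have t0 : 0 ≤ t := by
    by_contra hn
    push Not at hn
    have := inc t tI 0 z0 hn.le
    rw [e0, te] at this
    linarith only [hw0, this, hv0, hn, mul_pos_of_neg_of_neg (Mathlib.Tactic.Linarith.sub_neg_of_lt hv0) (Mathlib.Tactic.Linarith.sub_neg_of_lt hn)]
  rw [abs_of_nonneg t0] at tb
  have inQ : ∀ u ∈ Icc 0 t, ψ (b.pt y) u ∈ b.Q := by
    intro u hu
    have uI : u ∈ Icc (-b.t1) b.t1 := ⟨by linarith [hu.1], hu.2.trans tI.2⟩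
    have c1 := inc 0 z0 u uI hu.1
    have c2 := inc u uI t tI hu.2
    rw [e0] at c1
    rw [te] at c2
    have c3 := (abs_X2_le b.d _).trans (hb.pre.stay _ hL (hb.sub _ hQ) u (abs_le.2 uI)).2
    rw [map_sub, b.X2_pt, abs_of_nonneg hu.1, abs_le] at c3
    have c4 : b.v1 * u < b.ν := by
      by_contra hn
      push Not at hn
      have c5 : b.v1 * u * b.v0 ≤ b.v1 * (b.w / 2) := by
        rw [mul_assoc]
        exact mul_le_mul_of_nonneg_left
          ((mul_le_mul_of_nonneg_right hu.2 hv0.le).trans (tb.trans hw)) hv1.le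
      have c6 := mul_le_mul_of_nonneg_right hn hv0.le
      have c7 := hb.w2
      have c8 : 0 < b.v1 * b.w := by positivity
      linarith only [c5, c6, c7, c8]
    have c9 : 0 ≤ b.v0 * (u - 0) := mul_nonneg hv0.le (by linarith only [hu, hu.1])
    have c10 : 0 ≤ b.v0 * (t - u) := mul_nonneg hv0.le (by linarith only [hu, hu.2])
    exact ⟨abs_lt.2 ⟨by linarith only [hw0, hw, c1, c9], by linarith only [hw0, hw, c2, c10]⟩, by linarith only [c3, c4, hy, c3.1, hy.1],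
      by linarith only [c3, c4, hy, c3.2, hy.2.1]⟩
  have htt : t ≤ tt y := by
    have p := hR.pos y hy
    rcases hc.sep _ _ _ _ (hR.cr y hy) with e | e
    · linarith
    · rw [abs_of_pos p] at e
      linarith [tI.2]
  have van : ∀ u ∈ Icc t (tt y), ∀ γ : Γ, B.f0 (γ • ψ (b.pt y) u) = 0 := by
    intro u hu γ
    by_contra hn
    obtain ⟨pQ, p1, p2⟩ := hB _ hn
    have pL : γ • ψ (b.pt y) u ∈ L := h.smul _ _ (h.mem _ hL u)
    obtain ⟨a1, a2, a3⟩ := hb.hit h pL pQ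
    have tneg : b.τ (γ • ψ (b.pt y) u) < 0 := by
      by_contra hk
      push Not at hk
      have := hb.incr h pL pQ 0 z0 _ (abs_le.1 a3) hk
      rw [a2, b.X1_pt, h.zero _ pL] at this
      linarith only [p1, this, hv0, hk, mul_nonneg_of_nonpos_of_nonpos (le_of_lt (Mathlib.Tactic.Linarith.sub_neg_of_lt hv0)) (Mathlib.Tactic.Linarith.sub_nonpos_of_le hk)]
    have hcr : b.Cr Γ L ψ y (b.τ (γ • ψ (b.pt y) u) + u) γ⁻¹ (b.H (γ • ψ (b.pt y) u)) := by
      refine ⟨hy, a1, ?_⟩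
      rw [← a2, h.eqv _ _ (h.mem _ hL u), inv_smul_smul, h.add _ hL]
    have a4 := abs_le.1 a3
    have a5 : b.τ (γ • ψ (b.pt y) u) + u ≤ 0 := by
      by_contra hk
      push Not at hk
      have := hR.first _ _ _ _ hcr hk
      linarith only [tneg, this, hu, hu.2]
    have a6 : b.τ (γ • ψ (b.pt y) u) + u = 0 := by
      rcases hc.sep _ _ _ _ hcr with e | e
      · exact e
      · rw [abs_of_nonpos a5] at e
        linarith only [t0, a4, e, hu, ht1, hu.1, a4.1]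
    rw [a6] at hcr
    have g1 : γ = 1 := inv_eq_one.1 (hc.uniq _ _ _ hcr).1
    have uI : u ∈ Icc (-b.t1) b.t1 := ⟨by linarith only [ht1, tneg, a6, hu.1], by linarith only [a4, a5, a4.1]⟩
    have c1 := inc t tI u uI hu.1
    rw [te] at c1
    rw [g1, one_smul] at p2
    have c2 : 0 ≤ b.v0 * (u - t) := mul_nonneg hv0.le (by linarith only [hu, hu.1])
    linarith only [p2, c1, c2]
  refine ⟨t, t0, tb, te, inQ, ?_⟩
  have c0 : Continuous (per Γ B.f0) := (per_contDiff hS B.f0_contDiff B.f0_cpt).continuous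
  have cg : Continuous fun u => per Γ B.f0 (ψ (b.pt y) u) := c0.comp (h.cont hL)
  rw [pot, ← intervalIntegral.integral_add_adjacent_intervals (cg.intervalIntegrable 0 t)
    (cg.intervalIntegrable t (tt y))]
  have i2 : ∫ u in t..(tt y), per Γ B.f0 (ψ (b.pt y) u) = ∫ _u in t..(tt y), (0 : ℝ) := by
    refine intervalIntegral.integral_congr fun u hu => ?_
    rw [uIcc_of_le htt] at hu
    by_contra hn
    obtain ⟨γ, hγ⟩ := exists_of_per_ne_zero hn
    exact hγ (van u hu γ)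
  rw [i2, intervalIntegral.integral_zero, add_zero]
  refine intervalIntegral.integral_congr fun u hu => ?_
  rw [uIcc_of_le t0] at hu
  have r2 : b.r / 2 ≤ b.r := by linarith only [hb, hb.pre.r_pos]
  refine per_eq_of_unique fun γ hγ => ?_
  by_contra hn
  exact hγ (hb.pre.emb γ _ ((hb.sub _ (inQ u hu)).trans r2) ((hb.sub _ (hB _ hn).1).trans r2))

theorem exists_plat (hS : Surf Γ) (h : Lam Γ L V ψ) (hb : IsBox Γ L V ψ b)
    (hc : CrBase (b.Y L) (b.Cr Γ L ψ) b.t1 T0) (hR : Ret (b.Y L) (b.Cr Γ L ψ) T0 R tt s) :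
    ∃ Λ : ℝ, 0 ≤ Λ ∧ ∀ p q ν : ℝ, p ∈ b.Y L → q ∈ b.Y L → p < q → 0 < ν →
      (∀ y ∈ b.Y L, y ∉ Ioo (p - ν) p ∧ y ∉ Ioo q (q + ν)) → ∃ (B : Bx) (G0 : ℝ),
        Plat (b.Y L) p q Λ G0 (fun y => pot (per Γ B.f0) (ψ (b.pt y)) 0 (tt y)) := by
  have hv0 := hb.pre.v0_pos
  have hv1 := hb.pre.v1_pos
  have hK := hb.pre.K_nonneg
  have hwp := hb.w_pos
  have hνp := hb.ν_pos
  have r2 : b.r / 2 ≤ b.r := by linarith only [hb, hb.pre.r_pos]
  refine ⟨b.v1 / b.v0 + b.v1 * (b.K * Real.exp (2 * b.K * b.v1 * b.w / b.v0 ^ 2) / b.v0 ^ 2),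
    by positivity, fun p q ν hp hq hpq hν hgap => ?_⟩
  obtain ⟨n, n0, n1, n2⟩ : ∃ n : ℝ, 0 < n ∧ n ≤ ν ∧ n ≤ b.ν :=
    ⟨min ν b.ν, lt_min hν hνp, min_le_left _ _, min_le_right _ _⟩
  obtain ⟨w', w0, w1, w2⟩ : ∃ w' : ℝ, 0 < w' ∧ w' ≤ b.w / 2 ∧ w' ≤ n * b.v0 / (8 * b.v1) :=
    ⟨min (b.w / 2) (n * b.v0 / (8 * b.v1)), lt_min (by positivity) (by positivity),
      min_le_left _ _, min_le_right _ _⟩
  obtain ⟨B, Bd, B1, B2, B3, B4, B5, B6⟩ := exists_bx_levels b.d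
    (show b.a < b.a + w' by linarith only [w0]) (bl := p - n / 2) (bu := q + n / 2)
    (show 0 < n / 4 by positivity) (by linarith only [hpq, n0])
  have hB : ∀ x, B.f0 x ≠ 0 → x ∈ b.Q ∧ b.a < X1 b.d x ∧ X1 b.d x < b.a + w' := by
    intro x hx
    obtain ⟨⟨a1, a2⟩, a3, a4⟩ := (B.f0_ne_zero_iff x).1 hx
    rw [Bd] at a1 a2 a3 a4
    exact ⟨⟨abs_lt.2 ⟨by linarith only [w1, B1, B2, a1, a2], by linarith only [w1, B1, B2, a1, a2]⟩, by linarith only [hνp, n2, B3, a3, hp, hp.1], by linarith only [hνp, n2, B6, a4, hq, hq.2.1]⟩,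
      by linarith only [B1, a1], by linarith only [B2, a2]⟩
  have hI : 0 < ∫ y in b.a..(b.a + w'), B.fa y := B.fa_int_pos B1.le B2.le
  have main : ∀ y ∈ b.Y L, ∃ t : ℝ, 0 ≤ t ∧ X1 b.d (ψ (b.pt y) t) = b.a + w' ∧
      (∀ u ∈ Icc 0 t, ψ (b.pt y) u ∈ b.Q) ∧
      (y ∈ Icc p q → pot (per Γ B.f0) (ψ (b.pt y)) 0 (tt y) =
        ∫ u in (0 : ℝ)..t, B.fa (X1 b.d (ψ (b.pt y) u))) ∧
      (y ∉ Icc p q → pot (per Γ B.f0) (ψ (b.pt y)) 0 (tt y) = 0) := by
    intro y hy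
    obtain ⟨t, t0, tb, te, inQ, e⟩ := passage0 hS h hb hc hR w0 w1 hB hy
    have mv : ∀ u ∈ Icc 0 t, |X2 b.d (ψ (b.pt y) u) - y| ≤ n / 8 := by
      intro u hu
      have ub : u * b.v0 ≤ w' := (mul_le_mul_of_nonneg_right hu.2 hv0.le).trans tb
      have u1 : |u| ≤ b.t1 := by
        rw [abs_of_nonneg hu.1]
        by_contra hn
        push Not at hn
        linarith only [w0, w1, ub, hb, hv0, hn, hb.w1, mul_pos_of_neg_of_neg (Mathlib.Tactic.Linarith.sub_neg_of_lt hv0) (Mathlib.Tactic.Linarith.sub_neg_of_lt hn)]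
      have c3 := (abs_X2_le b.d _).trans
        (hb.pre.stay _ hy.2.2 (hb.sub _ (hb.pt_mem hy)) u u1).2
      rw [map_sub, b.X2_pt, abs_of_nonneg hu.1] at c3
      refine c3.trans ?_
      have k := ub.trans w2
      rw [le_div_iff₀ (by positivity)] at k
      by_contra hn
      push Not at hn
      linarith only [k, hv0, hn, mul_pos_of_neg_of_neg (Mathlib.Tactic.Linarith.sub_neg_of_lt hv0) (Mathlib.Tactic.Linarith.sub_neg_of_lt hn)]
    refine ⟨t, t0, te, inQ, fun hpq' => ?_, fun hn => ?_⟩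
    · rw [e]
      refine intervalIntegral.integral_congr fun u hu => ?_
      rw [uIcc_of_le t0] at hu
      have k := abs_le.1 (mv u hu)
      simp only [Bx.f0, Bd]
      rw [B.fb_eq_one (by linarith only [n0, B4, k, hpq', k.1, hpq'.1]) (by linarith only [n0, B5, k, hpq', k.2, hpq'.2]), mul_one]
    · rw [e]
      refine Eq.trans (intervalIntegral.integral_congr (g := fun _ => (0 : ℝ)) fun u hu => ?_)
        intervalIntegral.integral_zero
      rw [uIcc_of_le t0] at hu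
      have k := abs_le.1 (mv u hu)
      by_contra hne
      obtain ⟨-, a3, a4⟩ := (B.f0_ne_zero_iff _).1 hne
      rw [Bd] at a3 a4
      obtain ⟨g1, g2⟩ := hgap y hy
      refine hn ⟨?_, ?_⟩
      · by_contra hk
        push Not at hk
        exact g1 ⟨by linarith only [n1, B3, k, a3, hk, k.2], hk⟩
      · by_contra hk
        push Not at hk
        exact g2 ⟨hk, by linarith only [n1, B6, k, a4, hk, k.1]⟩
  have key : ∀ {u t : ℝ}, u ∈ b.Y L → (∀ s ∈ Icc 0 t, ψ (b.pt u) s ∈ b.Q) →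
      (∀ s ∈ Icc 0 t, HasDerivAt (ψ (b.pt u)) (deriv (ψ (b.pt u)) s) s ∧
        b.v0 ≤ X1 b.d (deriv (ψ (b.pt u)) s) ∧ ‖deriv (ψ (b.pt u)) s‖ ≤ b.v1) ∧
      ContinuousOn (deriv (ψ (b.pt u))) (Icc 0 t) := by
    intro u t hu hQ
    refine ⟨fun s hs => ?_, ?_⟩
    · rw [h.deriv_eq hu.2.2]
      have d1 := hb.pre.dir _ (h.mem _ hu.2.2 s) ((hb.sub _ (hQ s hs)).trans r2)
      exact ⟨h.der _ hu.2.2 s, d1.1, d1.2⟩
    · have : deriv (ψ (b.pt u)) = fun s => V (ψ (b.pt u) s) := funext fun s => h.deriv_eq hu.2.2 s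
      rw [this]
      exact h.contV.comp (h.cont hu.2.2).continuousOn fun s _ => h.mem _ hu.2.2 s
  obtain ⟨I, hId⟩ : ∃ I : ℝ, I = ∫ y in b.a..(b.a + w'), B.fa y := ⟨_, rfl⟩
  obtain ⟨M, hM⟩ : ∃ M : ℝ, M = b.K * Real.exp (2 * b.K * b.v1 * b.w / b.v0 ^ 2) / b.v0 ^ 2 :=
    ⟨_, rfl⟩
  have M0 : 0 ≤ M := by rw [hM]; positivity
  rw [← hM]
  have I0 : 0 < I := hId ▸ hI
  have eL : (b.v1 / b.v0 + b.v1 * M) * (I / b.v1) = I / b.v0 + M * I := by field_simp
  refine ⟨B, I / b.v1, by positivity, fun y hy hn => ?_, fun y hy hpq' => ?_,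
    fun y hy y' hy' h1 h2 => ?_⟩
  · obtain ⟨t, -, -, -, -, e⟩ := main y hy
    exact e hn
  · obtain ⟨t, t0, te, inQ, e, -⟩ := main y hy
    have e0 : X1 b.d (ψ (b.pt y) 0) = b.a := by rw [h.zero _ hy.2.2, b.X1_pt]
    simp only [e hpq']
    refine ⟨hId ▸ pass_lower b.d B.fa_cont B.fa_nonneg t0 hv0 (key hy inQ).1 (key hy inQ).2 e0 te,
      ?_⟩
    have up := pass_upper b.d B.fa_cont B.fa_nonneg t0 hv0
      (fun s hs => ⟨((key hy inQ).1 s hs).1, ((key hy inQ).1 s hs).2.1⟩) (key hy inQ).2 e0 te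
    rw [← hId] at up
    rw [eL]
    linarith only [up, M0, I0, mul_nonneg M0 I0.le]
  · obtain ⟨t1, a1, a2, a3, a4, -⟩ := main y hy
    obtain ⟨t2, b1, b2, b3, b4, -⟩ := main y' hy'
    have := pass_lip b.d (z1 := ψ (b.pt y)) (z2 := ψ (b.pt y')) (a := b.a) (a' := b.a + w')
      B.fa_cont B.fa_nonneg a1 b1 hv0 hK (key hy a3).1 (key hy' b3).1 (key hy a3).2
      (key hy' b3).2
      (fun s hs t ht => by
        rw [h.deriv_eq hy.2.2, h.deriv_eq hy'.2.2]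
        exact hb.pre.lip _ (h.mem _ hy.2.2 s) _ (h.mem _ hy'.2.2 t)
          ((hb.sub _ (a3 s hs)).trans r2) ((hb.sub _ (b3 t ht)).trans r2))
      (by rw [h.zero _ hy.2.2, b.X1_pt]) (by rw [h.zero _ hy'.2.2, b.X1_pt]) a2 b2
    rw [h.zero _ hy.2.2, h.zero _ hy'.2.2, b.X2_pt, b.X2_pt, ← hId] at this
    simp only [a4 h1, b4 h2]
    refine this.trans (mul_le_mul_of_nonneg_right ?_ (abs_nonneg _))
    have k : b.K * Real.exp (2 * b.K * b.v1 * (b.a + w' - b.a) / b.v0 ^ 2) / b.v0 ^ 2 ≤ M := by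
      rw [hM]
      refine div_le_div_of_nonneg_right (mul_le_mul_of_nonneg_left (Real.exp_le_exp.2
        (div_le_div_of_nonneg_right (mul_le_mul_of_nonneg_left (by linarith only [w0, w1]) (by positivity))
          (by positivity))) hK) (by positivity)
    rw [eL]
    have k2 := mul_le_mul_of_nonneg_right k I0.le
    have k3 : 0 ≤ I / b.v0 := by positivity
    linarith only [k2, k3]

end Pool.Agent.Work.MP_1ce82a_an
end

-- merged part: Pool.Agent.Work.MP_1ce82a_an.N.Flip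
section
/-! The return map of a flow box as a locally monotone system with flips.
PLAN. ms_of: follow retSys_of in L/NCr. NCr_loc for R and for Ri (CrBase.rev); on a ball of radius r with 2 r below the radii of NCr_loc and of ord all points have the same deck s, so R is increasing or decreasing there according to chi (s y); Ri maps the ball of radius r/C' about y into a ball where R is monotone, so Ri is monotone (NCr_inv); aper and Dns from Ret.iter, NCr_iter.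
flip_of: by symm assume 0 <= T; y2 = R^[n] y1 and T = Tn R tt n y1 (NCr_iter). For y near y1, cross gives a crossing with the same deck and time near T, Tn R tt n y is near T (continuity, NCr_loc, NCr_cont), so NCr_two with Ret.iter identifies its end point with R^[n] y. For two such points apply cross from the first to the second, NCr_two again, then ord.
box_flip: negate CoOr at pt y with a small radius; IsBox.near and IsBox.hit move p and q to the section; Lam.add, Lam.eqv; Surf.pos_or_neg. -/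

open Set Filter Topology MeasureTheory
open scoped ContDiff

namespace Pool.Agent.Work.MP_1ce82a_an

variable {Γ : Grp}

theorem ms_of {G : Type} [Group G] {χ : G → ℝ} {Y : Set ℝ} {Cr : ℝ → ℝ → G → ℝ → Prop}
    {t0 T0 : ℝ} {R tt Ri ti : ℝ → ℝ} {s si : ℝ → G} (h : CrBase Y Cr t0 T0) (hm : CrMoreS χ Y Cr)
    (hχ : ∀ γ, χ γ = 1 ∨ χ γ = -1) (hR : Ret Y Cr T0 R tt s)
    (hRi : Ret Y (fun y T γ y' => Cr y (-T) γ y') T0 Ri ti si) (hY : IsCompact Y) :
    ∃ r C Ct : ℝ, MS Y R Ri r C ∧ 0 ≤ Ct ∧ Tim Y r Ct t0 T0 tt ∧ Dns Y R := by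
  obtain ⟨C1, ρ1, hC1, hρ1, H1⟩ := NCr_loc h hR
  obtain ⟨C2, ρ2, hC2, hρ2, H2⟩ := NCr_loc h.rev hRi
  obtain ⟨ρ3, hρ3, H3⟩ := hm.ord T0 C1
  have mi : ∀ y ∈ Y, Ri y ∈ Y := fun y hy => (h.mem _ _ _ _ (hRi.cr y hy)).2
  have i2 : ∀ y ∈ Y, R (Ri y) = y := fun y hy =>
    NCr_inv h.rev hRi (by simpa only [neg_neg] using hR) hy
  obtain ⟨q, q0, q1, q3⟩ : ∃ q : ℝ, 0 < q ∧ 2 * q ≤ ρ1 ∧ 2 * q ≤ ρ3 :=
    ⟨min ρ1 ρ3 / 2, by positivity, by linarith only [min_le_left ρ1 ρ3], by linarith [min_le_right ρ1 ρ3]⟩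
  have mon : ∀ y ∈ Y, StrictMonoOn R (Y ∩ Icc (y - q) (y + q)) ∨
      StrictAntiOn R (Y ∩ Icc (y - q) (y + q)) := fun y hy => by
    have key : ∀ a ∈ Y ∩ Icc (y - q) (y + q), ∀ b ∈ Y ∩ Icc (y - q) (y + q), a < b →
        0 < χ (s y) * (R b - R a) := fun a ha b hb hab => by
      obtain ⟨e, f, -⟩ := H1 a ha.1 b hb.1 (abs_le.2 ⟨by linarith, by linarith [ha.2.1, hb.2.2]⟩)
      rw [← (H1 y hy a ha.1 (abs_le.2 ⟨by linarith [ha.2.1], by linarith [ha.2.2]⟩)).1]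
      exact H3 _ _ _ _ _ _ _ (hR.cr a ha.1) (e ▸ hR.cr b hb.1) (hR.pos a ha.1).le (hR.le a ha.1) f
        hab (by linarith [ha.2.1, hb.2.2])
    rcases hχ (s y) with e | e <;> rw [e] at key
    · exact Or.inl fun a ha b hb hab => by linarith [key a ha b hb hab]
    · exact Or.inr fun a ha b hb hab => by linarith [key a ha b hb hab]
  obtain ⟨r, r0, r1, r2, r3⟩ : ∃ r : ℝ, 0 < r ∧ r ≤ q ∧ r ≤ ρ2 ∧ C2 * r ≤ q := by
    refine ⟨min q (min ρ2 (q / (C2 + 1))), by positivity, min_le_left _ _,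
      (min_le_right _ _).trans (min_le_left _ _), ?_⟩
    have h1 : min q (min ρ2 (q / (C2 + 1))) ≤ q / (C2 + 1) :=
      (min_le_right _ _).trans (min_le_right _ _)
    have h2 : 0 < min q (min ρ2 (q / (C2 + 1))) := by positivity
    rw [le_div_iff₀ (by positivity)] at h1
    linarith only [h1, h2]
  refine ⟨r, C1 + C2 + 1, C1, ⟨hY, fun y hy => hR.iter_mem h 1 hy, mi,
    fun y hy => NCr_inv h hR hRi hy, i2, r0, by linarith, fun y hy y' hy' hd => ?_,
    fun y hy y' hy' hd => ?_, fun y hy => ?_, fun y hy => ?_, fun y hy n e => ?_⟩, hC1,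
    ⟨fun y hy => ⟨(NCr_gt h hR hy).le, hR.le y hy⟩,
      fun y hy y' hy' hd => (H1 y hy y' hy' (by linarith)).2.1⟩, fun y hy ε hε z hz => ?_⟩
  · exact (H1 y hy y' hy' (by linarith)).2.2.trans
      (mul_le_mul_of_nonneg_right (by linarith) (abs_nonneg _))
  · exact (H2 y hy y' hy' (by linarith)).2.2.trans
      (mul_le_mul_of_nonneg_right (by linarith) (abs_nonneg _))
  · have hs : Y ∩ Icc (y - r) (y + r) ⊆ Y ∩ Icc (y - q) (y + q) :=
      inter_subset_inter_right _ (Icc_subset_Icc (by linarith) (by linarith))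
    exact (mon y hy).imp (fun k => k.mono hs) fun k => k.mono hs
  · have hs : ∀ a ∈ Y ∩ Icc (y - r) (y + r), Ri a ∈ Y ∩ Icc (Ri y - q) (Ri y + q) := fun a ha => by
      have h1 : |a - y| ≤ r := abs_le.2 ⟨by linarith [ha.2.1], by linarith [ha.2.2]⟩
      have h2 := abs_le.1 (((H2 y hy a ha.1 (h1.trans r2)).2.2.trans
        (mul_le_mul_of_nonneg_left h1 hC2)).trans r3)
      exact ⟨mi a ha.1, by linarith [h2.1], by linarith [h2.2]⟩
    refine (mon _ (mi y hy)).imp (fun k a ha b hb hab => ?_) fun k a ha b hb hab => ?_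
    · refine (k.lt_iff_lt (hs a ha) (hs b hb)).1 ?_
      rwa [i2 a ha.1, i2 b hb.1]
    · refine (k.lt_iff_gt (hs a ha) (hs b hb)).1 ?_
      rwa [i2 a ha.1, i2 b hb.1]
  · obtain ⟨⟨γ, a⟩, b, -⟩ := hR.iter h n hy
    rw [e] at a
    by_contra hn
    exact hm.aper _ _ _ a ((mul_pos (Nat.cast_pos.2 (Nat.pos_of_ne_zero hn)) h.t0_pos).trans_le b)
  · obtain ⟨Tm, H⟩ := hm.synd y hy ε hε
    obtain ⟨T, γ, y', a, b, -, d⟩ := H z hz
    obtain ⟨n, -, rfl⟩ := NCr_iter h hR a b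
    exact ⟨n, d⟩

theorem Flip_anti {G : Type} [Group G] {χ : G → ℝ} {Y : Set ℝ} {Cr : ℝ → ℝ → G → ℝ → Prop}
    {t0 T0 : ℝ} {R tt : ℝ → ℝ} {s : ℝ → G} (h : CrBase Y Cr t0 T0) (hm : CrMoreS χ Y Cr)
    (hR : Ret Y Cr T0 R tt s) {y1 T y2 : ℝ} {γ : G} (hc : Cr y1 T γ y2) (hT : 0 ≤ T)
    (hγ : χ γ = -1) : ∃ (n : ℕ) (ρ : ℝ), 0 < ρ ∧ R^[n] y1 = y2 ∧
      StrictAntiOn (R^[n]) (Y ∩ Ioo (y1 - ρ) (y1 + ρ)) := by
  obtain ⟨C0, ρ0, -, hρ0, H0⟩ := NCr_loc h hR
  have cR : ContinuousOn R Y := NCr_cont hρ0 fun y1 h1 y2 h2 hd => (H0 y1 h1 y2 h2 hd).2.2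
  have ct : ContinuousOn tt Y := NCr_cont hρ0 fun y1 h1 y2 h2 hd => (H0 y1 h1 y2 h2 hd).2.1
  have mp : ∀ n : ℕ, MapsTo R^[n] Y Y := fun n y hy => hR.iter_mem h n hy
  have h1 := (h.mem _ _ _ _ hc).1
  have ht := h.t0_pos
  obtain ⟨n, e1, e2⟩ := NCr_iter h hR hc hT
  have cT : ContinuousOn (Tn R tt n) Y :=
    continuousOn_finsetSum _ fun j _ => ct.comp (cR.iterate (mp 1) j) (mp j)
  obtain ⟨ε, hε, Hε⟩ := Metric.continuousWithinAt_iff.1 (cT y1 h1) (t0 / 3) (by positivity)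
  obtain ⟨C, ρ1, hC, hρ1, H1⟩ := h.cross (T + t0)
  obtain ⟨ρ2, hρ2, H2⟩ := hm.ord (T + t0) C
  obtain ⟨q, q0, q1, q2, q3, q4⟩ :
      ∃ q : ℝ, 0 < q ∧ q ≤ ε ∧ q ≤ ρ1 ∧ q ≤ ρ2 ∧ C * q ≤ t0 / 3 := by
    refine ⟨min (min ε ρ1) (min ρ2 (t0 / 3 / (C + 1))), by positivity,
      (min_le_left _ _).trans (min_le_left _ _), (min_le_left _ _).trans (min_le_right _ _),
      (min_le_right _ _).trans (min_le_left _ _), ?_⟩
    have k1 : min (min ε ρ1) (min ρ2 (t0 / 3 / (C + 1))) ≤ t0 / 3 / (C + 1) :=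
      (min_le_right _ _).trans (min_le_right _ _)
    have k2 : 0 < min (min ε ρ1) (min ρ2 (t0 / 3 / (C + 1))) := by positivity
    rw [le_div_iff₀ (by positivity)] at k1
    linarith only [k1, k2]
  have k0 : ∀ a ∈ Y ∩ Ioo (y1 - q / 2) (y1 + q / 2), |Tn R tt n a - T| < t0 / 3 := fun a ha => by
    rw [e1]
    exact Hε ha.1 (abs_lt.2 ⟨by linarith only [hε, q1, ha, ha.2.1], by linarith only [hε, q1, ha, ha.2.2]⟩)
  have k1 : ∀ {a Ta a' : ℝ}, Cr a Ta γ a' → 0 ≤ Ta → |Ta - T| ≤ t0 / 3 →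
      ∀ b ∈ Y ∩ Ioo (y1 - q / 2) (y1 + q / 2), |b - a| ≤ q →
        Cr b (Tn R tt n b) γ (R^[n] b) ∧ |Tn R tt n b - Ta| ≤ C * |b - a| := by
    intro a Ta a' ca p0 p1 b hb hd
    have p2 := abs_le.1 p1
    obtain ⟨T2, b', c1, c2, -⟩ := H1 a Ta γ a' b hb.1 ca
      (by rw [abs_of_nonneg p0]; linarith only [ht, p2, p2.2]) (hd.trans q2)
    obtain ⟨γ', c3⟩ := (hR.iter h n hb.1).1
    have p3 := abs_le.1 ((c2.trans (mul_le_mul_of_nonneg_left hd hC)).trans q4)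
    have p4 := abs_lt.1 (k0 b hb)
    obtain ⟨f1, f2, -⟩ := NCr_two h c3 c1
      (abs_le.2 ⟨by linarith only [p2, p3, p4, p2.1, p3.1, p4.2], by linarith only [p2, p3, p4, p2.2, p3.2, p4.1]⟩)
    exact ⟨f2 ▸ c3, f1 ▸ c2⟩
  refine ⟨n, q / 2, half_pos q0, e2.symm, fun a ha b hb hab => ?_⟩
  have ca := (k1 hc hT (by rw [sub_self, abs_zero]; positivity) a ha
    (abs_le.2 ⟨by linarith only [q0, ha, ha.2.1], by linarith only [q0, ha, ha.2.2]⟩)).1
  have p0 : 0 ≤ Tn R tt n a := le_trans (by positivity) (hR.iter h n ha.1).2.1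
  obtain ⟨cb, cd⟩ := k1 ca p0 (k0 a ha).le b hb
    (abs_le.2 ⟨by linarith only [q0, hab], by linarith only [ha, hb, ha.2.1, hb.2.2]⟩)
  have k2 := H2 _ _ _ _ _ _ _ ca cb p0 (by linarith only [ht, k0, ha, (abs_lt.1 (k0 a ha)).2]) cd hab
    (by linarith only [q3, ha, hb, ha.2.1, hb.2.2])
  rw [hγ] at k2
  linarith only [k2]

theorem flip_of {G : Type} [Group G] {χ : G → ℝ} {Y : Set ℝ} {Cr : ℝ → ℝ → G → ℝ → Prop}
    {t0 T0 : ℝ} {R tt : ℝ → ℝ} {s : ℝ → G} (h : CrBase Y Cr t0 T0) (hm : CrMoreS χ Y Cr)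
    (hi : ∀ γ, χ γ⁻¹ = χ γ) (hR : Ret Y Cr T0 R tt s) (hf : FlipCr χ Y Cr) : Flip Y R := by
  intro y hy δ hδ
  obtain ⟨y1, T, γ, y2, hc, hγ, d1, d2⟩ := hf y hy δ hδ
  rcases le_total 0 T with hT | hT
  · obtain ⟨n, ρ, h0, e, k⟩ := Flip_anti h hm hR hc hT hγ
    exact ⟨y1, (h.mem _ _ _ _ hc).1, n, ρ, h0, d1, e ▸ d2, k⟩
  · obtain ⟨n, ρ, h0, e, k⟩ :=
      Flip_anti h hm hR (h.symm _ _ _ _ hc) (neg_nonneg.2 hT) ((hi γ).trans hγ)
    exact ⟨y2, (h.mem _ _ _ _ hc).2, n, ρ, h0, d2, e ▸ d1, k⟩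

theorem box_flip (hS : Surf Γ) {L : Set E} {V : E → E} {ψ : E → ℝ → E} {b : BoxD}
    (h : Lam Γ L V ψ) (hb : IsBox Γ L V ψ b) (hn : ¬ CoOr Γ L ψ) :
    FlipCr chi (b.Y L) (b.Cr Γ L ψ) := by
  intro y hy δ hδ
  have hv : 0 < b.v1 / b.v0 + 1 := by
    have := hb.pre.v0_pos
    have := hb.pre.v1_pos
    positivity
  have hw := lt_min hb.w_pos hb.ν_pos
  by_contra hc
  refine hn ⟨b.pt y, hy.2.2, min (min b.w b.ν) (δ / (b.v1 / b.v0 + 1)) / 2, by positivity,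
    fun p hp q hq dp dq T γ e => by_contra fun hγ => hc ?_⟩
  have key : ∀ p ∈ L, ‖p - b.pt y‖ ≤ min (min b.w b.ν) (δ / (b.v1 / b.v0 + 1)) / 2 →
      b.H p ∈ b.Y L ∧ ψ p (b.τ p) = b.pt (b.H p) ∧ |b.H p - y| < δ := fun p hp dp => by
    have h1 := dp.trans_lt (half_lt_self (by positivity))
    obtain ⟨a1, -, a3⟩ := hb.near hp hy (h1.trans_le (min_le_left _ _))
    obtain ⟨a4, a5, -⟩ := hb.hit h hp a1
    exact ⟨a4, a5, a3.trans_lt ((lt_div_iff₀' hv).1 (h1.trans_le (min_le_right _ _)))⟩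
  obtain ⟨p1, p2, p3⟩ := key p hp dp
  obtain ⟨q1, q2, q3⟩ := key q hq dq
  refine ⟨b.H p, b.τ q + T - b.τ p, γ, b.H q, ⟨p1, q1, ?_⟩, if_neg hγ, p3, q3⟩
  rw [← p2, h.add p hp, sub_add_cancel, ← h.add p hp, e, h.eqv γ q hq, q2]

theorem box_thin {L : Set E} {b : BoxD}
    (h : ∀ c c' : ℝ, c < c' → b.bl ≤ c → c' ≤ b.bu → ∃ y, c < y ∧ y < c' ∧ b.pt y ∉ L) :
    Thin (b.Y L) := by
  intro a c hac
  by_cases h1 : b.bl ≤ a
  swap
  · have h2 := lt_min hac (not_le.1 h1)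
    obtain ⟨x, x1, x2⟩ := exists_between h2
    exact ⟨x, ⟨x1, x2.trans_le (min_le_left _ _)⟩,
      fun k => (x2.trans_le (min_le_right _ _)).not_ge k.1⟩
  by_cases h2 : c ≤ b.bu
  swap
  · have h3 := max_lt hac (not_le.1 h2)
    obtain ⟨x, x1, x2⟩ := exists_between h3
    exact ⟨x, ⟨(le_max_left _ _).trans_lt x1, x2⟩,
      fun k => ((le_max_right _ _).trans_lt x1).not_ge k.2.1⟩
  obtain ⟨y, y1, y2, y3⟩ := h a c hac h1 h2
  exact ⟨y, ⟨y1, y2⟩, fun k => y3 k.2.2⟩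

end Pool.Agent.Work.MP_1ce82a_an
end

-- merged part: Pool.Agent.Work.MP_1ce82a_an.N.Lam
section
/-! Exclusion of aperiodic laminations which are not the whole surface. -/

open Set Filter Topology MeasureTheory
open scoped ContDiff

namespace Pool.Agent.Work.MP_1ce82a_an

variable {Γ : Grp}

theorem lam_false (hS : Surf Γ) {L : Set E} {V : E → E} {ψ : E → ℝ → E} (h : Lam Γ L V ψ)
    (hN : ∃ x, x ∉ L) (h1 : ∀ c1 : H1 Γ, ∃ m, ChQG (ψ '' L) c1 (fun _ => 0) m)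
    (h2 : ∀ B : Bx, (∃ m, ChQG (ψ '' L) (0 : H1 Γ) (per Γ B.f0) m) ∧
      ∃ m, ChQG (ψ '' L) (0 : H1 Γ) (per Γ B.f1) m)
    (h3 : ∀ B : Bx, ∃ m, MQG Γ (ψ '' L) (per Γ B.f0) m) : False := by
  by_cases hc : CoOr Γ L ψ
  · obtain ⟨x0, hx0, r, hr, hp⟩ := hc
    obtain ⟨b, hb, e, hbr, -⟩ := exists_box_at hS hN h hx0 hr
    refine box_false hS h hb ((hb.crMoreS hS h).toMore fun y T γ y' c => Pos.chi ?_) h1 h2
    have k : ∀ {y : ℝ}, y ∈ b.Y L → ‖b.pt y - x0‖ ≤ r := fun hy => by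
      have := hb.sub _ (hb.pt_mem hy)
      rw [e] at this
      linarith only [hr, hbr, this, hb.pre.r_pos]
    exact hp _ c.1.2.2 _ c.2.1.2.2 (k c.1) (k c.2.1) T γ c.2.2
  · obtain ⟨x0, hx0⟩ := h.ne
    obtain ⟨b, hb, -, -, ht⟩ := exists_box_at hS hN h hx0 one_pos
    obtain ⟨T0, hcb⟩ := hb.crBase hS h
    obtain ⟨R, tt, s, hR⟩ := hcb.exists_ret
    obtain ⟨Ri, ti, si, hRi⟩ := hcb.rev.exists_ret
    have hm := hb.crMoreS hS h
    obtain ⟨r, C, Ct, hM, hCt, hT, hD⟩ := ms_of hcb hm chi_cases hR hRi (IsBox.cpt h b)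
    obtain ⟨Λ, hΛ, hP⟩ := exists_plat hS h hb hcb hR
    obtain ⟨p, q, ν, hp, hq, hpq, hν, hiso, hno⟩ := crown_thm hM hb.ne (box_thin ht) hD
      (flip_of hcb hm hS.chi_inv hR (box_flip hS h hb hc)) (T0 := T0) hΛ hCt hb.pre.t1_pos
    obtain ⟨B, G0, hG⟩ := hP p q ν hp hq hpq hν hiso
    obtain ⟨m, hm⟩ := h3 B
    exact hno _ tt G0 m hG hT (po_of_mqg h hb hcb hR hm)

end Pool.Agent.Work.MP_1ce82a_an
end

-- merged part: Pool.Agent.Work.MP_1ce82a_an.N.Univ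
section
/-! A minimal aperiodic flow on the whole surface forces orientability.
PLAN. no_flip: copy exists_up of T/Up with the sign: a crossing y to y' with deck gamma gives a crossing up y d to up y' (chi gamma * d) with the same deck (hmul in the induction; chi of the inverse equals chi). If chi gamma = -1 and theta y1, theta y2 are within eps of theta y, put d = (theta y2 - theta y1)/2: up y1 d = up y2 (-d), so this point has a crossing to itself with deck gamma, not 1;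
its time is not 0 (uniq), and aper (with symm if the time is negative) gives a contradiction. ori_of_univ: exists_tbox, y0 = X2 d x0, rho from no_flip with eta = nu. By TBox.vis every x has T, gamma, u with psi x T = gamma (pt u), |u - y0| < rho; o x = chi gamma does not depend on the choice (two choices give a crossing with deck gamma^-1 gamma'),
is locally constant (end of comm_of_minimal: TBox.cr_of, Lam.contWithin, continuity of H), hence constant (lc_const), and o (g x) = chi g * o x. -/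

open Set Filter Topology MeasureTheory
open scoped ContDiff

namespace Pool.Agent.Work.MP_1ce82a_an

variable {Γ : Grp}

theorem no_flip {G : Type} [Group G] {Cr : ℝ → ℝ → G → ℝ → Prop} {t0 T0 bl bu : ℝ} {χ : G → ℝ}
    (h : CrW (Icc bl bu) Cr t0 T0) (hx : CrossI bl bu Cr) (hm : CrMoreS χ (Icc bl bu) Cr)
    (hχ : ∀ γ, χ γ = 1 ∨ χ γ = -1) (hmul : ∀ a b, χ (a * b) = χ a * χ b) {η : ℝ} (hη : 0 < η)
    {y : ℝ} (hy : y ∈ Icc (bl + 2 * η) (bu - 2 * η)) :
    ∃ ρ : ℝ, 0 < ρ ∧ ρ ≤ η ∧ ∀ y1 T γ y2, Cr y1 T γ y2 → |y1 - y| ≤ ρ → |y2 - y| ≤ ρ →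
      χ γ = 1 := by
  have ht := h.t0_pos
  have hlu : bl + 2 * η ≤ bu - 2 * η := hy.1.trans hy.2
  have h1 : χ 1 = 1 := by
    have := hmul 1 1
    rw [mul_one] at this
    rcases hχ 1 with e | e
    · exact e
    · rw [e] at this
      linarith only [this]
  obtain ⟨θ, θc, θm, θh⟩ := exists_thetaS h hx hm hχ (by linarith)
  obtain ⟨Tm, hTm⟩ := hm.synd ((bl + bu) / 2) ⟨by linarith, by linarith⟩ η hη
  have ret : ∀ z ∈ Icc bl bu, ∃ S g u, Cr z S g u ∧ t0 < S ∧ S ≤ T0 + Tm ∧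
      u ∈ Icc (bl + η) (bu - η) := by
    intro z hz
    obtain ⟨T, γ, y', c1, c2, c3⟩ := h.fwd z hz
    obtain ⟨T', γ', u, d1, d2, d3, d4⟩ := hTm y' (h.mem _ _ _ _ c1).2
    have c4 := (h.sep _ _ _ _ c1).resolve_left c2.ne'
    rw [abs_of_pos c2] at c4
    rw [abs_lt] at d4
    exact ⟨_, _, u, h.trans _ _ _ _ _ _ _ c1 d1, by linarith only [d2, c4], by linarith,
      by linarith only [hlu, d4, d4.1], by linarith only [hlu, d4, d4.2]⟩
  obtain ⟨ρh, ρhp, Hh⟩ := θh (T0 + Tm) η hη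
  obtain ⟨C, ρc, hC, ρcp, Hc⟩ := hx (T0 + Tm) η hη
  obtain ⟨ρ, ρp, r1, r2, r3, r4⟩ : ∃ ρ : ℝ, 0 < ρ ∧ ρ ≤ η / 2 ∧ ρ ≤ ρh ∧ ρ ≤ ρc ∧
      C * ρ ≤ t0 / 2 := by
    refine ⟨min (min (η / 2) ρh) (min ρc (t0 / 2 / (C + 1))),
      lt_min (lt_min (by positivity) ρhp) (lt_min ρcp (by positivity)),
      (min_le_left _ _).trans (min_le_left _ _), (min_le_left _ _).trans (min_le_right _ _),
      (min_le_right _ _).trans (min_le_left _ _), ?_⟩
    have b1 : min (min (η / 2) ρh) (min ρc (t0 / 2 / (C + 1))) ≤ t0 / 2 / (C + 1) :=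
      (min_le_right _ _).trans (min_le_right _ _)
    have b2 : 0 < min (min (η / 2) ρh) (min ρc (t0 / 2 / (C + 1))) :=
      lt_min (lt_min (by positivity) ρhp) (lt_min ρcp (by positivity))
    rw [le_div_iff₀ (by positivity)] at b1
    linarith only [b1, b2]
  have cs : ∀ c : ℝ, |c| ≤ ρ → ContinuousOn (fun y => θ (y + c)) (Icc (bl + η) (bu - η)) := by
    intro c hc
    rw [abs_le] at hc
    exact θc.comp (continuous_id.add continuous_const).continuousOn fun y hy =>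
      ⟨by linarith only [ρp, r1, hc, hy, hy.1, hc.1], by linarith only [ρp, r1, hc, hy, hy.2, hc.2]⟩
  have c0 : ContinuousOn θ (Icc (bl + η) (bu - η)) :=
    θc.mono fun y hy => ⟨by linarith only [ρp, r1, hy, hy.1], by linarith only [ρp, r1, hy, hy.2]⟩
  obtain ⟨ε, εp, hε⟩ := (isCompact_Icc (a := bl + η) (b := bu - η)).exists_forall_le'
    (f := fun y => min (θ (y + ρ) - θ y) (θ y - θ (y + -ρ))) (a := 0)
    (((cs ρ (abs_of_pos ρp).le).sub c0).inf
      (c0.sub (cs (-ρ) (by rw [abs_neg, abs_of_pos ρp]))))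
    fun y hy => lt_min
      (sub_pos.2 (θm ⟨by linarith only [ρp, r1, hy, hy.1], by linarith only [ρp, r1, hy, hy.2]⟩
        ⟨by linarith only [ρp, r1, hy, hy.1], by linarith only [ρp, r1, hy, hy.2]⟩ (by linarith)))
      (sub_pos.2 (θm ⟨by linarith only [ρp, r1, hy, hy.1], by linarith only [ρp, r1, hy, hy.2]⟩
        ⟨by linarith only [ρp, r1, hy, hy.1], by linarith only [ρp, r1, hy, hy.2]⟩ (by linarith only [ρp])))
  have ex : ∀ y ∈ Icc (bl + η) (bu - η), ∀ δ : ℝ, |δ| ≤ ε →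
      ∃ u ∈ Icc bl bu, |u - y| ≤ ρ ∧ θ u = θ y + δ := by
    intro y hy δ hδ
    have b1 := le_min_iff.1 (hε y hy)
    rw [abs_le] at hδ
    obtain ⟨u, u1, u2⟩ := intermediate_value_Icc (show y + -ρ ≤ y + ρ by linarith only [ρp])
      (θc.mono fun v hv => ⟨by linarith only [ρp, r1, hy, hv, hy.1, hv.1], by linarith only [ρp, r1, hy, hv, hy.2, hv.2]⟩)
      (show θ y + δ ∈ Icc (θ (y + -ρ)) (θ (y + ρ)) from
        ⟨by linarith only [hδ, b1, b1.2, hδ.1], by linarith only [hδ, b1, b1.1, hδ.2]⟩)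
    exact ⟨u, ⟨by linarith only [ρp, r1, hy, u1, hy.1, u1.1], by linarith only [ρp, r1, hy, u1, hy.2, u1.2]⟩,
      abs_le.2 ⟨by linarith only [u1, u1.1], by linarith only [u1, u1.2]⟩, u2⟩
  have dir : ∀ y T γ y' δ, Cr y T γ y' → 0 ≤ T → T ≤ T0 + Tm → y ∈ Icc (bl + η) (bu - η) →
      y' ∈ Icc (bl + η) (bu - η) → |δ| ≤ ε → ∀ u ∈ Icc bl bu, ∀ u' ∈ Icc bl bu, θ u = θ y + δ →
      θ u' = θ y' + χ γ * δ → ∃ T', Cr u T' γ u' := by
    intro y T γ y' δ c p1 p2 hy hy' hδ u hu u' hu' e e'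
    obtain ⟨v, hv, b1, b2⟩ := ex y hy δ hδ
    obtain rfl : v = u := θm.injOn hv hu (b2.trans e.symm)
    obtain ⟨T2, w, d1, d2, -⟩ := Hc y T γ y' _ hv c (by rwa [abs_of_nonneg p1]) hy'
      (b1.trans r3)
    have e2 := Hh y T γ y' _ T2 w c d1 p1 p2 hy hy' (b1.trans r2)
      (d2.trans ((mul_le_mul_of_nonneg_left b1 hC).trans r4))
    rw [b2, add_sub_cancel_left] at e2
    obtain rfl : w = u' := θm.injOn (h.mem _ _ _ _ d1).2 hu' (by linarith only [e', e2])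
    exact ⟨T2, d1⟩
  have pos : ∀ (N : ℕ) y T γ y' δ, Cr y T γ y' → 0 ≤ T → T ≤ N * t0 →
      y ∈ Icc (bl + η) (bu - η) → y' ∈ Icc (bl + η) (bu - η) → |δ| ≤ ε →
      ∀ u ∈ Icc bl bu, ∀ u' ∈ Icc bl bu, θ u = θ y + δ → θ u' = θ y' + χ γ * δ →
      ∃ T', Cr u T' γ u' := by
    intro N
    induction N with
    | zero =>
      intro y T γ y' δ c p1 p2
      obtain ⟨S, -, -, -, s1, s2, -⟩ := ret y (h.mem _ _ _ _ c).1
      exact dir y T γ y' δ c p1 (by simp at p2; linarith only [ht, s1, s2, p2])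
    | succ N ih =>
      intro y T γ y' δ c p1 p2 hy hy' hδ u hu u' hu' e e'
      by_cases hT : T ≤ T0 + Tm
      · exact dir y T γ y' δ c p1 hT hy hy' hδ u hu u' hu' e e'
      · push Not at hT
        obtain ⟨S, g, m, s0, s1, s2, s3⟩ := ret y (h.mem _ _ _ _ c).1
        have hδ' : |χ g * δ| ≤ ε := by rcases hχ g with k | k <;> simpa [k] using hδ
        obtain ⟨v, hv, -, b2⟩ := ex m s3 _ hδ'
        obtain ⟨T1, d1⟩ := dir y S g m δ s0 (by linarith only [ht, s1]) s2 hy s3 hδ u hu v hv e b2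
        push_cast at p2
        obtain ⟨T2, d2⟩ := ih m _ _ y' _ (h.trans _ _ _ _ _ _ _ (h.symm _ _ _ _ s0) c)
          (by linarith only [hT, s2]) (by linarith only [s1, p2]) s3 hy' hδ' v hv u' hu' b2 (by
            rw [e', ← mul_assoc, mul_comm _ (χ g), ← hmul, mul_inv_cancel_left])
        have := h.trans _ _ _ _ _ _ _ d1 d2
        rw [mul_inv_cancel_left] at this
        exact ⟨_, this⟩
  obtain ⟨r, rp, hr⟩ := Metric.continuousAt_iff.1 (θc.continuousAt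
    (Ioo_mem_nhds (show bl < y by linarith only [ρp, r1, hy, hy.1]) (show y < bu by linarith only [ρp, r1, hy, hy.2]))) ε εp
  have key : ∀ y1 T γ y2, Cr y1 T γ y2 → 0 ≤ T → |y1 - y| ≤ min η (r / 2) →
      |y2 - y| ≤ min η (r / 2) → χ γ = 1 := by
    intro y1 T γ y2 c p a1 a2
    refine (hχ γ).resolve_right fun e => ?_
    have nr : ∀ z, |z - y| ≤ min η (r / 2) → z ∈ Icc (bl + η) (bu - η) ∧ |θ z - θ y| < ε :=
      fun z a => by
        obtain ⟨a1, a2⟩ := le_min_iff.1 a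
        have := abs_le.1 a1
        exact ⟨⟨by linarith only [this, hy, hy.1, this.1], by linarith only [this, hy, hy.2, this.2]⟩,
          hr (a2.trans_lt (half_lt_self rp))⟩
    have b1 := abs_lt.1 (nr _ a1).2
    have b2 := abs_lt.1 (nr _ a2).2
    have hδ : |(θ y2 - θ y1) / 2| ≤ ε :=
      abs_le.2 ⟨by linarith only [b1, b2, b1.2, b2.1], by linarith only [b1, b2, b1.1, b2.2]⟩
    obtain ⟨u, hu, -, eu⟩ := ex y1 (nr _ a1).1 _ hδ
    obtain ⟨N, hN⟩ := exists_nat_ge (T / t0)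
    rw [div_le_iff₀ ht] at hN
    obtain ⟨T', c'⟩ := pos N y1 T γ y2 _ c p hN (nr _ a1).1 (nr _ a2).1 hδ u hu u hu eu
      (by rw [eu, e]; ring)
    rcases lt_trichotomy T' 0 with t | t | t
    · exact hm.aper _ _ _ (h.symm _ _ _ _ c') (neg_pos.2 t)
    · rw [t] at c'
      rw [(h.uniq _ _ _ c').1, h1] at e
      linarith only [e]
    · exact hm.aper _ _ _ c' t
  refine ⟨min η (r / 2), lt_min hη (half_pos rp), min_le_left _ _, fun y1 T γ y2 c a1 a2 => ?_⟩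
  rcases le_total 0 T with p | p
  · exact key y1 T γ y2 c p a1 a2
  · have := hmul γ γ⁻¹
    rw [mul_inv_cancel, h1, key _ _ _ _ (h.symm _ _ _ _ c) (neg_nonneg.2 p) a2 a1, mul_one] at this
    exact this.symm

theorem ori_of_univ (hS : Surf Γ) {V : E → E} {ψ : E → ℝ → E} (h : Lam Γ univ V ψ) : Ori Γ := by
  obtain ⟨b, hb⟩ := exists_tbox hS h
  obtain ⟨T0, hc⟩ := hb.crW h
  have hν := hb.ν_pos
  obtain ⟨ρ, ρp, ρν, hρ⟩ := no_flip hc (hb.crossI hS h) (hb.crMoreS hS h) chi_cases hS.chi_mul hν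
    (y := X2 b.d b.x0) ⟨by linarith [hb.mid.1], by linarith [hb.mid.2]⟩
  obtain ⟨Tm, hTm⟩ := hb.vis h (y := X2 b.d b.x0)
    ⟨by linarith [hb.mid.1], by linarith [hb.mid.2]⟩ ρp
  choose Tx gx yx hx1 hx2 hx3 using fun x => hTm x 0
  have mem : ∀ {y : ℝ}, |y - X2 b.d b.x0| < ρ → y ∈ Icc b.bl b.bu := fun hy => by
    have := abs_lt.1 hy
    exact ⟨by linarith only [hν, ρν, this, hb, hb.mid.1, this.1], by linarith [hb.mid.2, this.2]⟩
  have K : ∀ (x : E) (T : ℝ) (γ : Γ) (y : ℝ), |y - X2 b.d b.x0| < ρ → ψ x T = γ • b.pt y →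
      chi (gx x) = chi γ := by
    intro x T γ y hy e
    have c1 : CrI b Γ ψ (yx x) (T - Tx x) ((gx x)⁻¹ * γ) y := by
      refine ⟨mem (hx2 x), mem hy, ?_⟩
      have e1 : b.pt (yx x) = (gx x)⁻¹ • ψ x (Tx x) := by rw [hx1, inv_smul_smul]
      rw [e1, h.eqv _ _ trivial, h.add x trivial, sub_add_cancel, e, mul_smul]
    have := hS.chi_mul (gx x) ((gx x)⁻¹ * γ)
    rw [mul_inv_cancel_left, hρ _ _ _ _ c1 (hx2 x).le hy.le, mul_one] at this
    exact this.symm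
  have lc : ∀ x, ∀ᶠ q in 𝓝 x, chi (gx q) = chi (gx x) := by
    intro x
    have e1 : (gx x)⁻¹ • ψ x (Tx x) = b.pt (yx x) := by rw [hx1, inv_smul_smul]
    have t1 : Tendsto (fun q => (gx x)⁻¹ • ψ q (Tx x)) (𝓝 x) (𝓝 (b.pt (yx x))) := by
      have := h.contWithin (x := x) trivial (Tx x)
      rw [continuousWithinAt_univ] at this
      rw [← e1]
      exact ((hS.cont (gx x)⁻¹).tendsto _).comp this
    have t2 : Tendsto (fun q => b.H ((gx x)⁻¹ • ψ q (Tx x))) (𝓝 x) (𝓝 (yx x)) := by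
      have := (hb.hgt.cH.tendsto _).comp t1
      rwa [show b.H (b.pt (yx x)) = yx x from hb.hgt.sec _] at this
    filter_upwards [t1.eventually ((IsBox.isOpen_Q b).mem_nhds (hb.pt_mem (mem (hx2 x)))),
      (t2.sub_const _).abs.eventually (gt_mem_nhds (hx2 x))] with q hQ hq
    exact K q _ _ _ hq (hb.cr_of h hQ).1
  intro g
  have e1 := K (g • (0 : E)) (Tx 0) (g * gx 0) _ (hx2 0)
    (by rw [h.eqv g 0 trivial, hx1, mul_smul])
  rw [((IsLocallyConstant.iff_eventually_eq _).2 lc).apply_eq_of_preconnectedSpace _ 0,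
    hS.chi_mul] at e1
  refine pos_of_chi ?_
  rcases chi_cases (gx 0) with k | k <;> rw [k] at e1 <;> linarith only [e1]

end Pool.Agent.Work.MP_1ce82a_an
end

-- merged part: Pool.Agent.Work.MP_1ce82a_an.Defs2
section
/-! Classes carrying an invariant Lagrangian graph without equilibria. -/

namespace Pool.Agent.Work.MP_1ce82a_an

/-- The classes in which the Hamilton-Jacobi equation has a `C^1` solution `u` at the critical
level whose velocity field `V` is a continuous nowhere vanishing vector field on the surface. -/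
def Tset {Γ : Grp} (L : E × E → ℝ) (f : Cinf Γ) : Set (H1 Γ) :=
  {c | ∃ (u : E → ℝ) (V : E → E), IsSub (addPot L f.1) c (alpha (addPot L f.1) c) u ∧
    Continuous V ∧ (∀ x, V x ≠ 0) ∧ (∀ (γ : Γ) (x : E), V (γ • x) = dk γ x (V x)) ∧
    ∀ x, fderiv ℝ u x (V x) = addPot L f.1 (x, V x) + alpha (addPot L f.1) c}

end Pool.Agent.Work.MP_1ce82a_an
end

-- merged part: Pool.Agent.Work.MP_1ce82a_an.Z.Tor
section
/-! Pairs whose calibrated curves fill the plane. -/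

open Set Filter Topology MeasureTheory
open scoped ContDiff

namespace Pool.Agent.Work.MP_1ce82a_an

variable {Γ : Grp}

/-- The complete calibrated curves of one dominated function fill the plane. -/
def Cov (F : E × E → ℝ) (c : H1 Γ) : Prop :=
  ∃ u, InS F c u ∧ ∀ x : E, ∃ z, CalR F u z ∧ z 0 = x

theorem cov_closed (hS : Surf Γ) {F : E × E → ℝ} (hF : Tonelli Γ F) {c : H1 Γ}
    (h : ∃ᶠ p in nb F c, Cov (addPot F p.1) p.2) : Cov F c := by
  classical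
  have hne : (nb F c ⊓ 𝓟 {p : Par Γ | Cov (addPot F p.1) p.2}).NeBot := by
    rwa [frequently_iff_neBot] at h
  let U : Ultrafilter (Par Γ) := Ultrafilter.of (nb F c ⊓ 𝓟 {p : Par Γ | Cov (addPot F p.1) p.2})
  have hU : (U : Filter (Par Γ)) ≤ nb F c ⊓ 𝓟 {p : Par Γ | Cov (addPot F p.1) p.2} :=
    Ultrafilter.of_le _
  have hp : Tendsto (fun p : Par Γ => p) (U : Filter (Par Γ)) (nb F c) :=
    tendsto_id'.2 (hU.trans inf_le_left)
  have hc : ∀ᶠ p in (U : Filter (Par Γ)), Cov (addPot F p.1) p.2 :=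
    le_principal_iff.1 (hU.trans inf_le_right)
  have hch : ∀ p : Par Γ, ∃ (u : E → ℝ) (z : E → ℝ → E), Cov (addPot F p.1) p.2 →
      InS (addPot F p.1) p.2 u ∧ ∀ x, CalR (addPot F p.1) u (z x) ∧ z x 0 = x := by
    intro p
    by_cases hp : Cov (addPot F p.1) p.2
    · obtain ⟨u, hu, hz⟩ := hp
      choose z hz using hz
      exact ⟨u, z, fun _ => ⟨hu, hz⟩⟩
    · exact ⟨fun _ => 0, fun _ _ => 0, fun h => absurd h hp⟩
  choose u z huz using hch
  have hu : ∀ᶠ p in (U : Filter (Par Γ)), InS (addPot F p.1) p.2 (u p) :=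
    hc.mono fun p hp => (huz p hp).1
  obtain ⟨u0, hu0, hl⟩ := lim_u U hF hp hu
  refine ⟨u0, hu0, fun x => ⟨ulim U (fun p => z p x), fun a b hab => ?_, ?_⟩⟩
  · have key := lim_z U hS hF hp hu hu0 hl (z := fun p => z p x) (a := min a 0) (b := max b 0)
      (t0 := 0) (R := ‖x‖) ⟨min_le_right _ _, le_max_right _ _⟩
      (fun ε hε => hc.mono fun p hp => by
        have := ((huz p hp).2 x).1 (min a 0) (max b 0)
          ((min_le_right _ _).trans (le_max_right _ _))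
        exact ⟨this.1, by rw [this.2]; exact hε.le⟩)
      (hc.mono fun p hp => by rw [((huz p hp).2 x).2])
    exact key.1.mono hF.cont hu0.2 (min_le_left _ _) hab (le_max_left _ _)
  · have h1 : Tendsto (fun p => z p x 0) (U : Filter (Par Γ)) (𝓝 (ulim U (fun p => z p x) 0)) :=
      tendsto_ulim U (R := ‖x‖) (hc.mono fun p hp => by rw [((huz p hp).2 x).2])
    have h2 : Tendsto (fun p => z p x 0) (U : Filter (Par Γ)) (𝓝 x) :=
      tendsto_const_nhds.congr' (hc.mono fun p hp => (((huz p hp).2 x).2).symm)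
    exact tendsto_nhds_unique h1 h2

theorem inv_zero {F : E × E → ℝ} (hF : InvL Γ F) (γ : Γ) (x : E) : F (γ • x, 0) = F (x, 0) := by
  have := hF γ x 0
  rwa [map_zero] at this

theorem pos_open (hS : Surf Γ) {F : E × E → ℝ} (hF : Tonelli Γ F) (c : H1 Γ)
    (h : ∀ x, 0 < F (x, 0)) : ∀ᶠ p in nb F c, ∀ x, 0 < addPot F p.1 (x, 0) := by
  obtain ⟨R0, hR, hR0⟩ := hS.exists_R0
  have hcont : ContinuousOn (fun x : E => F (x, 0)) (Metric.closedBall 0 R0) :=
    (hF.cont.comp (by fun_prop)).continuousOn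
  obtain ⟨x0, -, hx0⟩ := (isCompact_closedBall (0 : E) R0).exists_isMinOn
    ⟨0, Metric.mem_closedBall_self hR.le⟩ hcont
  filter_upwards [nb_adm F c, nb_small F c R0 (half_pos (h x0))] with p hp hs x
  obtain ⟨γ, hγ⟩ := hR0 x
  have h1 : F (x0, 0) ≤ F (γ • x, 0) := hx0 (by simpa using hγ)
  have h2 := (abs_le.1 (hs (γ • x) hγ).1).1
  have h3 := h x0
  rw [inv_zero hF.inv] at h1
  rw [hp.2.1 γ x] at h2
  show 0 < F (x, 0) + p.1 x
  linarith only [h1, h2, h3]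

theorem tset_core (hS : Surf Γ) {F : E × E → ℝ} (hF : Tonelli Γ F) {c : H1 Γ}
    (h0 : ∀ x, 0 < F (x, 0)) (h : Cov F c) : ∃ (u : E → ℝ) (V : E → E), IsSub F c 0 u ∧
      Continuous V ∧ (∀ x, V x ≠ 0) ∧ (∀ (γ : Γ) (x : E), V (γ • x) = dk γ x (V x)) ∧
      ∀ x, fderiv ℝ u x (V x) = F (x, V x) := by
  obtain ⟨u, hu, hz⟩ := h
  choose z hz hz0 using hz
  have hT := hF.ton0
  have hfd : ∀ x, HasFDerivAt u (mo F (z x) 0) x := fun x => by
    have := (hz x).hasFDerivAt hT hu.2 0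
    rwa [hz0] at this
  have hreg : ∀ R : ℝ, ∃ C : ℝ, 0 ≤ C ∧ (∀ x : E, ‖x‖ ≤ R → ∀ y, ‖y - x‖ ≤ 1 →
      |u y - u x - mo F (z x) 0 (y - x)| ≤ C * ‖y - x‖ ^ 2) ∧
      ∀ x y : E, ‖x‖ ≤ R → ‖y‖ ≤ R → ‖deriv (z x) 0 - deriv (z y) 0‖ ≤ C * ‖x - y‖ := by
    intro R
    obtain ⟨m, hm⟩ := hT (R + 2)
    obtain ⟨K, C, -, hC, H⟩ := reg_est m 1 one_pos
    obtain ⟨H1, H2⟩ := H R F u hm hu.2
    refine ⟨C, hC, fun x hx y hy => ?_, fun x y hx hy => ?_⟩
    · have := (H1 (z x) 0 (hz x _ _ (by norm_num)) (by rwa [hz0])).2.2.2 y (by rwa [hz0])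
      rwa [hz0] at this
    · have := H2 (z x) (z y) 0 0 (hz x _ _ (by norm_num)) (hz y _ _ (by norm_num))
        (by rwa [hz0]) (by rwa [hz0])
      rwa [hz0, hz0] at this
  have hc1 : ContDiff ℝ 1 u := by
    rw [contDiff_iff_contDiffAt]
    intro x
    obtain ⟨C, -, H, -⟩ := hreg (‖x‖ + 1)
    have := contDiffOn_of_quad (u := u) (U := Metric.ball 0 (‖x‖ + 1)) Metric.isOpen_ball
      (C := C) one_pos (fun y hy => ⟨_, H y (by simpa using (mem_ball_zero_iff.1 hy).le)⟩)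
    exact this.contDiffAt (Metric.isOpen_ball.mem_nhds (by simp))
  refine ⟨u, fun x => deriv (z x) 0, ⟨hc1, hu.1, fun x v => ?_⟩, ?_, fun x hx => ?_,
    fun γ x => ?_, fun x => ?_⟩
  · rw [add_zero]
    exact hu.2.le_of_hasFDerivAt hF.cont (hc1.differentiable one_ne_zero x).hasFDerivAt v
  · rw [continuous_iff_continuousAt]
    intro x
    obtain ⟨C, hC, -, H⟩ := hreg (‖x‖ + 1)
    have hl : LipschitzOnWith C.toNNReal (fun x => deriv (z x) 0)
        (Metric.closedBall 0 (‖x‖ + 1)) := by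
      refine LipschitzOnWith.of_dist_le_mul fun a ha b hb => ?_
      rw [dist_eq_norm, dist_eq_norm, Real.coe_toNNReal _ hC]
      exact H a b (by simpa using ha) (by simpa using hb)
    exact hl.continuousOn.continuousAt
      (Metric.closedBall_mem_nhds_of_mem (by simp))
  · have := ((hz x).const_of_deriv hT hu.2 hx).1
    rw [hz0] at this
    exact (h0 x).ne' this
  · have h1 : CalR F u (fun t => γ • z x t) := (hz x).smul hS hF.inv hu.1 γ
    have h2 : z (γ • x) = fun t => γ • z x t := by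
      funext t
      have := (hz (γ • x)).uniq hT hu.2 h1 (s1 := 0) (s2 := 0) (by simp [hz0]) t
      simpa using this
    show deriv (z (γ • x)) 0 = dk γ x (deriv (z x) 0)
    rw [h2, hS.deriv_smul, hz0]
  · have he := (hz x).energy hT hu.2 0
    rw [(hfd x).fderiv]
    unfold energy at he
    have hp : ph (z x) 0 = (x, deriv (z x) 0) := by simp [ph, hz0]
    unfold mo
    rw [vpart_apply]
    rw [hp] at he ⊢
    simpa [sub_eq_zero] using he

theorem tset_of_cov (hS : Surf Γ) {L : E × E → ℝ} (hL : Tonelli Γ L) (f : Cinf Γ) (c : H1 Γ)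
    (h0 : ∀ x, 0 < nl L f c (x, 0)) (h : Cov (nl L f c) c) : c ∈ Tset L f := by
  obtain ⟨u, V, hu, h1, h2, h3, h4⟩ := tset_core hS (nl_tonelli hL f c) h0 h
  have ha := alpha_eq hS (hL.addPot f.c2 f.inv) c
  refine ⟨u, V, ⟨hu.1, hu.2.1, fun x v => ?_⟩, h1, h2, h3, fun x => ?_⟩
  · have := hu.2.2 x v
    rw [ha]
    simpa [nl, addPot] using this
  · rw [ha, h4]
    rfl

theorem pmCinf (Γ : Grp) : TopologicalSpace.PseudoMetrizableSpace (Cinf Γ) := by
  have h1 : ∀ k : ℕ, (uniformity C(E, E [×k]→L[ℝ] ℝ)).IsCountablyGenerated :=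
    fun k => inferInstance
  have h2 : (uniformity ((k : ℕ) → C(E, E [×k]→L[ℝ] ℝ))).IsCountablyGenerated := inferInstance
  have : TopologicalSpace.PseudoMetrizableSpace ((k : ℕ) → C(E, E [×k]→L[ℝ] ℝ)) :=
    ⟨⟨inferInstance, rfl, h2⟩⟩
  exact (Topology.IsInducing.mk rfl : Topology.IsInducing (jets (Γ := Γ))).pseudoMetrizableSpace

theorem resid_gdelta {X : Type} [TopologicalSpace X] {b : ℕ} {G : Set ((Fin b → ℝ) × X)}
    (hG : IsGδ G)
    (hd : ∀ (x0 : X) (N : Set X), N ∈ 𝓝 x0 → ∃ x ∈ N, ∀ᵐ t : Fin b → ℝ, (t, x) ∈ G) :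
    ∀ᶠ x in residual X, ∀ᵐ t : Fin b → ℝ, (t, x) ∈ G := by
  obtain ⟨T, hTo, hTc, rfl⟩ := hG
  have h1 : ∀ s ∈ T, ∀ᶠ x in residual X, ∀ᵐ t : Fin b → ℝ, (t, x) ∈ s := fun s hs =>
    resid (hTo s hs) fun x0 N hN => by
      obtain ⟨x, hx, h⟩ := hd x0 N hN
      exact ⟨x, hx, h.mono fun t ht => ht s hs⟩
  filter_upwards [(eventually_countable_ball hTc).2 h1] with x hx
  filter_upwards [(ae_ball_iff hTc).2 hx] with t ht
  exact fun s hs => ht s hs

end Pool.Agent.Work.MP_1ce82a_an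
end

-- merged part: Pool.Agent.Work.MP_1ce82a_an.F.Fix
section
/-! The fixed point case.
PLAN. The constant curve is AllCal (calR_const). track: let r be an embedded radius at x0; for delta <= r/2 the open sets g^-1 (ball x0 delta) are pairwise disjoint, so a continuous curve in their union on an interval stays in one of them (preconnectedness); cc_R with S = T = 0 applied to shifts of rho z gives the velocity.
exp_fix: graph_unif on the ball of radius |x0|+1, cacc, track. expC_fix: nb_self, midpoint, n = floor (l/2), compare with the constant curve. open_fix: all_near with perd_const; a complete calibrated z is, after translation, close to x0 for all times (track on [-n,n] for all n; the element rho is the same since the balls are disjoint);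
exp_fix for z and z(.+s) and all n gives z constant = x1, so F'(x1,0) = 0 (CalR.const_of_deriv); any other curve is compared with the constant x1; coer_open with continuity of D2 F and norm_D2_addPot_sub. -/

open Set Filter Topology MeasureTheory
open scoped ContDiff

namespace Pool.Agent.Work.MP_1ce82a_an

variable {Γ : Grp}

theorem Fix_ton {F : E × E → ℝ} (hF : Tonelli Γ F) (c : H1 Γ) :
    ∀ᶠ p in nb F c, Tonelli Γ (addPot F p.1) :=
  (nb_adm F c).mono fun _ h => hF.addPot h.1 h.2.1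

theorem Fix_stay (hS : Surf Γ) {x0 : E} {r δ a b s : ℝ}
    (hr : ∀ (γ : Γ) (y : E), ‖y - x0‖ ≤ r → ‖γ • y - x0‖ ≤ r → γ = 1) (hδ : δ ≤ r) {w : ℝ → E}
    (hw : Continuous w) (hs : s ∈ Icc a b) (h0 : ‖w s - x0‖ < δ)
    (h : ∀ t ∈ Icc a b, w t ∈ Nb Γ (fun _ => x0) 1 δ) : ∀ t ∈ Icc a b, ‖w t - x0‖ < δ := by
  refine IsPreconnected.subset_left_of_subset_union (u := {t | ‖w t - x0‖ < δ})
    (v := ⋃ γ : Γ, ⋃ _ : γ ≠ 1, {t | ‖γ • w t - x0‖ < δ})
    (isOpen_lt (hw.sub continuous_const).norm continuous_const)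
    (isOpen_iUnion fun γ => isOpen_iUnion fun _ =>
      isOpen_lt (((hS.cont γ).comp hw).sub continuous_const).norm continuous_const)
    (Set.disjoint_left.2 fun t h1 h2 => ?_) (fun t ht => ?_) ⟨s, hs, h0⟩ isPreconnected_Icc
  · obtain ⟨γ, h3, h4⟩ := mem_iUnion₂.1 h2
    exact h3 (hr γ _ ((le_of_lt h1).trans hδ) ((le_of_lt h4).trans hδ))
  · obtain ⟨γ, _, -, h1⟩ := h t ht
    by_cases e : γ = 1
    · rw [e, one_smul] at h1
      exact Or.inl h1
    · exact Or.inr (mem_iUnion₂.2 ⟨γ, e, h1⟩)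

theorem Fix_norm {x0 y : E} {δ : ℝ} (h : ‖y - x0‖ < δ) (hδ : δ ≤ 1) : ‖y‖ ≤ ‖x0‖ + 1 := by
  have := norm_sub_norm_le y x0
  linarith

set_option maxSynthPendingDepth 3 in
theorem Fix_cont {F : E × E → ℝ} (hF : ContDiff ℝ 2 F) (x0 : E) {ε : ℝ} (hε : 0 < ε) :
    ∃ η : ℝ, 0 < η ∧ ∀ y : E, ‖y - x0‖ < η → ‖D2 F (y, 0) - D2 F (x0, 0)‖ < ε := by
  have h : Continuous fun y : E => ‖D2 F (y, 0) - D2 F (x0, 0)‖ :=
    (((continuous_D2 hF).comp (continuous_id.prodMk continuous_const)).sub continuous_const).norm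
  obtain ⟨η, hη, k⟩ := Metric.eventually_nhds_iff.1 (h.continuousAt.eventually
    (gt_mem_nhds (show ‖D2 F (x0, 0) - D2 F (x0, 0)‖ < ε by rwa [sub_self, norm_zero])))
  exact ⟨η, hη, fun y hy => k (by rwa [dist_eq_norm])⟩

theorem track (hS : Surf Γ) {F : E × E → ℝ} (hF : Tonelli Γ F) {c : H1 Γ} {x0 : E}
    (h0 : F (x0, 0) = 0) {δ1 : ℝ} (hδ1 : 0 < δ1) : ∃ δ : ℝ, 0 < δ ∧ δ ≤ δ1 ∧ ∀ᶠ p in nb F c,
      ∀ u, InS (addPot F p.1) p.2 u → ∀ z, CalR (addPot F p.1) u z → ∀ (a b s : ℝ) (ρ : Γ),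
        s ∈ Icc a b → ‖ρ • z s - x0‖ < δ → (∀ t ∈ Icc a b, z t ∈ Nb Γ (fun _ => x0) 1 δ) →
        ∀ t ∈ Icc a b, ‖ρ • z t - x0‖ < δ ∧ ‖ph (fun r => ρ • z r) t - (x0, 0)‖ ≤ δ1 := by
  obtain ⟨r, hr0, hr⟩ := hS.embedded x0
  obtain ⟨δc, hc0, hc⟩ := cc_R hS hF (c := c) (x := fun _ => x0) (fun u _ => calR_const u h0) 0 0 hδ1
  refine ⟨min (min δ1 r) δc, by positivity, (min_le_left _ _).trans (min_le_left _ _), ?_⟩
  filter_upwards [hc, Fix_ton hF c] with p hp hT u hu z hz a b s ρ hs h1 h2 t ht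
  have hw := hz.smul hS hT.invL hu.1 ρ
  have h3 := Fix_stay hS hr ((min_le_left _ _).trans (min_le_right _ _))
    (hw.isOrbit hT.ton0 hu.2).1.continuous hs h1 (fun t ht => (nb_smul ρ).2 (h2 t ht)) t ht
  refine ⟨h3, ?_⟩
  have h4 := hp u hu _ (hw.shift t) 0 (by simp)
    (by rw [zero_add]; exact h3.le.trans (min_le_right _ _)) 0 (by simp)
  rwa [ph_shift (fun r => ρ • z r), ph_const, zero_add] at h4

theorem exp_fix (hS : Surf Γ) {F : E × E → ℝ} (hF : Tonelli Γ F) {c : H1 Γ} {x0 : E}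
    (h0 : F (x0, 0) = 0) (hB : Coer (D2 F (x0, 0))) {δ0 : ℝ} (hδ0 : 0 < δ0) :
    ∃ δ C κ : ℝ, 0 < δ ∧ δ ≤ δ0 ∧ 0 < κ ∧ ∀ᶠ p in nb F c,
      ∀ u, InS (addPot F p.1) p.2 u → ∀ z1 z2, CalR (addPot F p.1) u z1 →
        CalR (addPot F p.1) u z2 → ‖z1 0 - x0‖ < δ → ‖z2 0 - x0‖ < δ → ∀ n : ℕ,
        (∀ t ∈ Icc (-n : ℝ) n, z1 t ∈ Nb Γ (fun _ => x0) 1 δ ∧ z2 t ∈ Nb Γ (fun _ => x0) 1 δ) →
          ‖z2 0 - z1 0‖ ≤ C * Real.exp (-(κ * n)) := by
  obtain ⟨Λ, hΛ, hg⟩ := graph_unif hF c (‖x0‖ + 1)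
  obtain ⟨δa, R, C, κ, ha, hκ, hc⟩ := cacc hF.c2 hB hΛ
  obtain ⟨δ, h1, h2, ht⟩ := track hS hF (c := c) h0 (δ1 := min (min δ0 δa) 1) (by positivity)
  refine ⟨δ, C, κ, h1, h2.trans ((min_le_left _ _).trans (min_le_left _ _)), hκ, ?_⟩
  filter_upwards [hg, ht, nb_small F c R ha, nb_adm F c, Fix_ton hF c] with p pg pt ps pa hT u hu
    z1 z2 c1 c2 d1 d2 n hn
  have n0 : (0 : ℝ) ∈ Icc (-n : ℝ) n := ⟨neg_nonpos.2 n.cast_nonneg, n.cast_nonneg⟩
  refine hc p.1 pa.1 ps z1 z2 n ((c1.isOrbit hT.ton0 hu.2).orbOn _ _)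
    ((c2.isOrbit hT.ton0 hu.2).orbOn _ _) fun t ht => ?_
  have k1 := pt u hu z1 c1 _ _ 0 1 n0 (by rwa [one_smul]) (fun t ht => (hn t ht).1) t ht
  have k2 := pt u hu z2 c2 _ _ 0 1 n0 (by rwa [one_smul]) (fun t ht => (hn t ht).2) t ht
  simp only [one_smul] at k1 k2
  have e := (min_le_left (min δ0 δa) 1).trans (min_le_right _ _)
  have e' := h2.trans (min_le_right _ _)
  exact ⟨k1.2.trans e, k2.2.trans e, (pg u hu.2 z1 z2 t t (c1 _ _ (by linarith only []))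
    (c2 _ _ (by linarith only [])) (Fix_norm k1.1 e') (Fix_norm k2.1 e')).2.2⟩

theorem expC_fix (hS : Surf Γ) {F : E × E → ℝ} (hF : Tonelli Γ F) {c : H1 Γ} (hc : Crit F c)
    {x0 : E} (h0 : F (x0, 0) = 0) (hB : Coer (D2 F (x0, 0))) : ExpC F c (fun _ => x0) 1 := by
  obtain ⟨δ, C, κ, h1, -, hκ, he⟩ := exp_fix hS hF (c := c) h0 hB one_pos
  have h := nb_self hc he
  simp only [addPot_zero] at h
  refine ⟨δ, |C| * Real.exp κ, κ / 2, h1, by positivity, fun u hu z hz a l hl hn => ?_⟩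
  have m : a + l / 2 ∈ Icc a (a + l) := ⟨by linarith only [hl], by linarith⟩
  obtain ⟨ρ, s, hs, h2⟩ := hn _ m
  refine ⟨_, m, ρ, s, hs, ?_⟩
  have f1 := Nat.floor_le (show 0 ≤ l / 2 by linarith)
  have f2 := Nat.lt_floor_add_one (l / 2)
  have h3 := h u hu _ _ (calR_const u h0) ((hz.shift (a + l / 2)).smul hS hF.invL hu.1 ρ)
    (by simpa using h1) (by rwa [zero_add]) ⌊l / 2⌋₊ fun t ht =>
      ⟨⟨1, s, hs, by simpa using h1⟩, (nb_smul ρ).2 (hn _ ⟨by linarith only [f1, ht, ht.1], by linarith only [f1, ht, ht.2]⟩)⟩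
  rw [zero_add] at h3
  refine h3.trans ?_
  rw [mul_assoc, ← Real.exp_add]
  exact mul_le_mul (le_abs_self C) (Real.exp_le_exp.2 (by linarith only [hκ, f2, mul_pos_of_neg_of_neg (Mathlib.Tactic.Linarith.sub_neg_of_lt hκ) (Mathlib.Tactic.Linarith.sub_neg_of_lt f2)])) (Real.exp_pos _).le
    (abs_nonneg C)

theorem open_fix (hS : Surf Γ) {F : E × E → ℝ} (hF : Tonelli Γ F) {c : H1 Γ}
    (h : GoodFix F c) : ∀ᶠ p in nb F c, GoodFix (addPot F p.1) p.2 := by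
  obtain ⟨x0, h0, hA, hB⟩ := h
  obtain ⟨ε, hε, ho⟩ := coer_open hB (hF.conv _)
  obtain ⟨r, hr0, hr⟩ := hS.embedded x0
  obtain ⟨η, hη, hc⟩ := Fix_cont hF.c2 x0 (half_pos hε)
  obtain ⟨δ, C, κ, h1, h2, hκ, he⟩ := exp_fix hS hF (c := c) h0 hB
    (δ0 := min (min η r) 1) (by positivity)
  filter_upwards [he, all_near hS hF (perd_const x0) hA h1, nb_small F c (‖x0‖ + 1) (half_pos hε),
    nb_adm F c, Fix_ton hF c] with p pe pn ps pa hT
  have uniq : ∀ u, InS (addPot F p.1) p.2 u → ∀ z1 z2, CalR (addPot F p.1) u z1 →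
      CalR (addPot F p.1) u z2 → ‖z1 0 - x0‖ < δ → ‖z2 0 - x0‖ < δ → z2 0 = z1 0 := by
    intro u hu z1 z2 c1 c2 d1 d2
    have t : Tendsto (fun n : ℕ => C * Real.exp (-(κ * n))) atTop (𝓝 (C * 0)) :=
      (Real.tendsto_exp_neg_atTop_nhds_zero.comp
        (tendsto_natCast_atTop_atTop.const_mul_atTop hκ)).const_mul C
    rw [mul_zero] at t
    exact sub_eq_zero.1 (norm_le_zero_iff.1 (ge_of_tendsto' t fun n =>
      pe u hu z1 z2 c1 c2 d1 d2 n fun t _ => ⟨pn u hu z1 c1 t, pn u hu z2 c2 t⟩))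
  have near : ∀ u, InS (addPot F p.1) p.2 u → ∀ z, CalR (addPot F p.1) u z →
      ∃ ρ : Γ, ∀ t, ‖ρ • z t - x0‖ < δ := by
    intro u hu z hz
    obtain ⟨ρ, _, -, k⟩ := pn u hu z hz 0
    have hw := hz.smul hS hT.invL hu.1 ρ
    exact ⟨ρ, fun t => Fix_stay hS hr (h2.trans ((min_le_left _ _).trans (min_le_right _ _)))
      (hw.isOrbit hT.ton0 hu.2).1.continuous (a := -|t|) (b := |t|)
      ⟨neg_nonpos.2 (abs_nonneg t), abs_nonneg t⟩ k (fun s _ => pn u hu _ hw s) t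
      ⟨neg_abs_le t, le_abs_self t⟩⟩
  obtain ⟨u, hu⟩ := exists_inS hS hT pa.2.2
  obtain ⟨z, hz⟩ := exists_calR hS hT pa.2.2 hu
  obtain ⟨ρ, hρ⟩ := near u hu z hz
  have hw := hz.smul hS hT.invL hu.1 ρ
  have e : (fun t => ρ • z t) = fun _ => ρ • z 0 := funext fun t => by
    simpa only [zero_add] using uniq u hu _ _ hw (hw.shift t) (hρ 0) (hρ _)
  have f0 : addPot F p.1 (ρ • z 0, 0) = 0 :=
    (hw.const_of_deriv hT.ton0 hu.2 (s := 0) (by rw [e, deriv_const])).1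
  refine ⟨ρ • z 0, f0, fun u' hu' y hy => ?_, ho _ ?_⟩
  · obtain ⟨σ, hσ⟩ := near u' hu' y hy
    refine ⟨σ⁻¹, 0, fun t => eq_inv_smul_iff.2 ?_⟩
    simpa only [zero_add] using uniq u' hu' _ _ (calR_const u' f0)
      ((hy.smul hS hT.invL hu'.1 σ).shift t) (hρ 0) (hσ _)
  · have k1 := (norm_D2_addPot_sub hF.c2 pa.1 (ρ • z 0, 0)).trans
      (ps _ (Fix_norm (hρ 0) (h2.trans (min_le_right _ _)))).2.2
    have k2 := hc _ ((hρ 0).trans_le (h2.trans ((min_le_left _ _).trans (min_le_left _ _))))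
    have k3 := norm_sub_le_norm_sub_add_norm_sub (D2 (addPot F p.1) (ρ • z 0, 0))
      (D2 F (ρ • z 0, 0)) (D2 F (x0, 0))
    linarith only [k1, k2, k3]

end Pool.Agent.Work.MP_1ce82a_an
end

-- merged part: Pool.Agent.Work.MP_1ce82a_an.Z.Main
section
/-! Assembly of the positive theorem. -/

open Set Filter Topology MeasureTheory
open scoped ContDiff

namespace Pool.Agent.Work.MP_1ce82a_an

variable {Γ : Grp}

theorem goodFix_of_qg (hS : Surf Γ) {F : E × E → ℝ} (hF : Tonelli Γ F) {c : H1 Γ} (hc : Crit F c)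
    (hq : QGall F c) {R0 : ℝ} (hR0 : ∀ x : E, ∃ γ : Γ, ‖γ • x‖ ≤ R0) (hO : Ogood R0 F) {x : E}
    (hx : F (x, 0) = 0) : GoodFix F c := by
  obtain ⟨γ, hγ⟩ := hR0 x
  have h0 : F (γ • x, 0) = 0 := by
    have := hF.inv γ x 0
    rw [map_zero] at this
    rw [this, hx]
  have hB : Coer (D2 F (γ • x, 0)) := by
    rcases hO (γ • x) hγ (fun y => by rw [h0]; exact hc.nonneg y) with h | h
    · exact h
    · exact absurd h (not_negL hF.c2 hc h0)
  refine ⟨γ • x, h0, ?_, hB⟩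
  exact hx_allIn hS hF hc (fun B => (hq.2 B).1) (fun u _ => calR_const u h0) (perd_const _)
    (expC_fix hS hF hc h0 hB)

theorem goodPer_of_qg (hS : Surf Γ) (hO : Ori Γ) {F : E × E → ℝ} (hF : Tonelli Γ F) {c : H1 Γ} (hc : Crit F c)
    (hq : QGall F c) {u : E → ℝ} (hu : InS F c u) {x : ℝ → E} (hx : CalR F u x)
    (hv : deriv x 0 ≠ 0) {P : ℝ} {σ : Γ} (hP : Perd x P σ) : GoodPer F c := by
  obtain ⟨P', σ', hP', hm⟩ := min_period hS hF hu hx hv hP
  have hA : AllCal F c x := hx.allCal hS hF hu hP'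
  obtain ⟨τ, hτ⟩ := exists_isTr hF (hx.isOrbit hF.ton0 hu.2) hv P' σ'
  have h2 : 2 < τ := tr_gt_two hS hF hc hq hA (hO σ') hP' hm hv hτ
  exact ⟨x, P', σ', τ, hP', hv, hA,
    hx_allIn hS hF hc (fun B => (hq.2 B).1) hA hP' (expC_per hS hF hc hA hP' hv hτ h2), hτ, h2⟩

theorem good_of_qg (hS : Surf Γ) (hOr : Ori Γ) {F : E × E → ℝ} (hF : Tonelli Γ F) {c : H1 Γ}
    (hc : Crit F c) (hq : QGall F c) {R0 : ℝ} (hR0 : ∀ x : E, ∃ γ : Γ, ‖γ • x‖ ≤ R0)
    (hO : Ogood R0 F) : Good F c ∨ ((∀ x, 0 < F (x, 0)) ∧ Cov F c) := by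
  obtain ⟨u, hu⟩ := exists_inS hS hF hc
  by_cases h : ∃ z, CalR F u z ∧ ∃ (P : ℝ) (σ : Γ), Perd z P σ
  · obtain ⟨z, hz, P, σ, hP⟩ := h
    by_cases hv : deriv z 0 = 0
    · exact Or.inl (Or.inr
        (goodFix_of_qg hS hF hc hq hR0 hO (hz.const_of_deriv hF.ton0 hu.2 hv).1))
    · exact Or.inl (Or.inl (goodPer_of_qg hS hOr hF hc hq hu hz hv hP))
  · refine Or.inr ⟨fun x => ?_, u, hu, ?_⟩
    · refine lt_of_le_of_ne (hc.nonneg x) fun h0 => h ⟨fun _ => x, calR_const u h0.symm, 1, 1, ?_⟩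
      exact perd_const x
    by_contra hN
    refine no_lam hS hOr (curveSys_cal hS hF hc hu (fun z hz P σ hP => h ⟨z, hz, P, σ, hP⟩)) ?_ ?_ ?_
    · push Not at hN
      exact hN
    · intro c1
      obtain ⟨m, hm⟩ := hq.1 c1
      exact ⟨m, chqg_of_qg hS hF hu contDiff_const (fun _ _ => rfl) hm⟩
    · intro B
      obtain ⟨⟨m0, h0⟩, ⟨m1, h1⟩⟩ := hq.2 B
      exact ⟨⟨m0, chqg_of_qg hS hF hu ((per_contDiff hS B.f0_contDiff B.f0_cpt).of_le
          (by exact_mod_cast le_top)) (per_inv _) h0⟩,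
        ⟨m1, chqg_of_qg hS hF hu ((per_contDiff hS B.f1_contDiff B.f1_cpt).of_le
          (by exact_mod_cast le_top)) (per_inv _) h1⟩⟩

theorem good_open (hS : Surf Γ) {L : E × E → ℝ} (hL : Tonelli Γ L) {b : ℕ}
    (e : (Fin b → ℝ) ≃ₗ[ℝ] H1 Γ) :
    IsOpen {q : (Fin b → ℝ) × Cinf Γ | Good (nl L q.2 (e q.1)) (e q.1)} := by
  rw [isOpen_iff_mem_nhds]
  rintro ⟨t0, f0⟩ hq
  have hT := tendsto_par hS hL e t0 f0
  have hF := nl_tonelli hL f0 (e t0)
  have hc := nl_crit hS hL f0 (e t0)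
  rcases hq with h | h
  · filter_upwards [hT.eventually (open_per hS hF hc h)] with q hq
    rw [par_eq] at hq
    exact Or.inl hq
  · filter_upwards [hT.eventually (open_fix hS hF h)] with q hq
    rw [par_eq] at hq
    exact Or.inr hq

theorem pos_isOpen (hS : Surf Γ) {L : E × E → ℝ} (hL : Tonelli Γ L) {b : ℕ}
    (e : (Fin b → ℝ) ≃ₗ[ℝ] H1 Γ) :
    IsOpen {q : (Fin b → ℝ) × Cinf Γ | ∀ x, 0 < nl L q.2 (e q.1) (x, 0)} := by
  rw [isOpen_iff_mem_nhds]
  rintro ⟨t0, f0⟩ hq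
  filter_upwards [(tendsto_par hS hL e t0 f0).eventually
    (pos_open hS (nl_tonelli hL f0 (e t0)) (e t0) hq)] with q hq
  rw [par_eq] at hq
  exact hq

theorem cov_isClosed (hS : Surf Γ) {L : E × E → ℝ} (hL : Tonelli Γ L) {b : ℕ}
    (e : (Fin b → ℝ) ≃ₗ[ℝ] H1 Γ) :
    IsClosed {q : (Fin b → ℝ) × Cinf Γ | Cov (nl L q.2 (e q.1)) (e q.1)} := by
  rw [isClosed_iff_frequently]
  rintro ⟨t0, f0⟩ hq
  refine cov_closed hS (nl_tonelli hL f0 (e t0))
    ((tendsto_par hS hL e t0 f0).frequently (hq.mono fun q hq => ?_))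
  show Cov (addPot (nl L f0 (e t0)) (par L f0 (e t0) q.2 (e q.1)).1) (e q.1)
  rw [par_eq]
  exact hq

theorem dichotomy (hS : Surf Γ) (hOr : Ori Γ) {L : E × E → ℝ} (hL : Tonelli Γ L) :
    ∀ᶠ f in residual (Cinf Γ), Full (Uset L f ∪ Tset L f) := by
  obtain ⟨b, ⟨e⟩⟩ := finDim hS
  obtain ⟨R0, -, hR0⟩ := hS.exists_R0
  have := pmCinf Γ
  have hG := (good_open hS hL e).isGδ.union
    ((pos_isOpen hS hL e).isGδ.inter (cov_isClosed hS hL e).isGδ)
  have h := resid_gdelta hG (fun f0 N hN0 => by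
    obtain ⟨f1, hf1N, hf1⟩ := (ogood_dense hS hL R0).inter_nhds_nonempty (interior_mem_nhds.2 hN0)
    have hN1 : N ∩ {f : Cinf Γ | Ogood R0 (addPot L f.1)} ∈ 𝓝 f1 :=
      inter_mem (mem_interior_iff_mem_nhds.1 hf1) ((ogood_open hL R0).mem_nhds hf1N)
    obtain ⟨f, ⟨hfN, hfO⟩, hq⟩ := rand_qg hS hL e f1 hN1
    refine ⟨f, hfN, ?_⟩
    filter_upwards [hq] with t ht
    exact good_of_qg hS hOr (nl_tonelli hL f (e t)) (nl_crit hS hL f (e t)) ht hR0
      ((ogood_const R0 _ _).2 hfO))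
  filter_upwards [h] with f hf
  refine ⟨b, e, hf.mono fun t ht => ?_⟩
  rcases ht with ht | ht
  · exact Or.inl (uset_of_good hS hL f (e t) ht)
  · exact Or.inr (tset_of_cov hS hL f (e t) ht.1 ht.2)

theorem tset_empty (hN : NoField Γ) (L : E × E → ℝ) (f : Cinf Γ) : Tset L f = ∅ := by
  refine eq_empty_of_forall_notMem ?_
  rintro c ⟨u, V, -, h1, h2, h3, -⟩
  exact hN ⟨V, h1, h2, h3⟩

end Pool.Agent.Work.MP_1ce82a_an
end

-- merged part: Pool.Agent.Work.MP_1ce82a_an.S.Bridge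
section
/-! Transfer of the main theorem to the statement layer. -/

open Set Filter Topology MeasureTheory
open scoped ContDiff

namespace Pool.Agent.Work.MP_1ce82a_an.S

open Pool.Agent.Work.MP_1ce82a_an (E D2 addPot ph IsOrbit IsJacobi energy HypFix Grp H1)

variable {G : Type} [Group G] [MulAction G E]

variable (G) in
/-- The group of deck transformations. -/
def Gam : Grp := (MulAction.toPermHom G E).range

/-- The deck transformation of an element. -/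
def gm (g : G) : Gam G := ⟨MulAction.toPermHom G E g, ⟨g, rfl⟩⟩

theorem gm_smul (g : G) (x : E) : gm g • x = g • x := rfl

theorem gm_mul (a b : G) : gm (a * b) = gm a * gm b :=
  Subtype.ext (map_mul (MulAction.toPermHom G E) a b)

theorem gm_one : gm (1 : G) = 1 := Subtype.ext (map_one (MulAction.toPermHom G E))

theorem gm_surj : Function.Surjective (gm (G := G)) := by
  rintro ⟨_, g, rfl⟩
  exact ⟨g, rfl⟩

theorem gm_dk (g : G) (x : E) : MP_1ce82a_an.dk (gm g) x = dk g x := rfl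

theorem gm_inj (hS : Surf G) : Function.Injective (gm (G := G)) := by
  intro a b h
  have h1 : a • (0 : E) = b • (0 : E) := by rw [← gm_smul, h, gm_smul]
  have h2 : (b⁻¹ * a) • (0 : E) = 0 := by rw [mul_smul, h1, inv_smul_smul]
  have h3 := hS.free _ _ h2
  exact (inv_mul_eq_one.1 h3).symm

theorem Surf.old (hS : Surf G) : MP_1ce82a_an.Surf (Gam G) where
  smooth := gm_surj.forall.2 hS.smooth
  free := gm_surj.forall.2 fun g x h => by rw [hS.free g x h, gm_one]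
  proper := fun K hK => by
    refine ((hS.proper K hK).image gm).subset fun γ hγ => ?_
    obtain ⟨g, rfl⟩ := gm_surj γ
    exact ⟨g, hγ, rfl⟩
  cocompact := by
    obtain ⟨K, hK, h⟩ := hS.cocompact
    exact ⟨K, hK, fun x => (h x).elim fun g hg => ⟨gm g, hg⟩⟩

theorem Orient.old (hO : Orient G) : MP_1ce82a_an.Ori (Gam G) := gm_surj.forall.2 hO

theorem Tonelli.old {L : E × E → ℝ} (hL : Tonelli G L) : MP_1ce82a_an.Tonelli (Gam G) L where
  c2 := hL.c2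
  inv := gm_surj.forall.2 hL.inv
  conv := hL.conv
  super := hL.super

/-- The two spaces of smooth functions agree. -/
def cinfHomeo : Cinf G ≃ₜ MP_1ce82a_an.Cinf (Gam G) where
  toFun f := ⟨f.1, f.2.1, gm_surj.forall.2 f.2.2⟩
  invFun f := ⟨f.1, f.2.1, fun g => f.2.2 (gm g)⟩
  left_inv _ := rfl
  right_inv _ := rfl
  continuous_toFun := continuous_induced_rng.2 continuous_induced_dom
  continuous_invFun := continuous_induced_rng.2 continuous_induced_dom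

/-- The character of `G` defined by a class. -/
def pull (c : H1 (Gam G)) : G → ℝ := fun g => c.1 (gm g)

theorem isSub_pull {F : E × E → ℝ} {c : H1 (Gam G)} {a : ℝ} {u : E → ℝ} :
    IsSub F (pull c) a u ↔ MP_1ce82a_an.IsSub F c a u :=
  ⟨fun h => ⟨h.1, gm_surj.forall.2 h.2.1, h.2.2⟩, fun h => ⟨h.1, fun g => h.2.1 (gm g), h.2.2⟩⟩

theorem alpha_pull (F : E × E → ℝ) (c : H1 (Gam G)) :
    alpha F (pull c) = MP_1ce82a_an.alpha F c := by
  simp only [alpha, MP_1ce82a_an.alpha, isSub_pull]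

theorem aubry_pull (F : E × E → ℝ) (c : H1 (Gam G)) :
    aubry F (pull c) = MP_1ce82a_an.aubry F c := by
  simp only [aubry, MP_1ce82a_an.aubry, isSub_pull, alpha_pull]

theorem orb_eq (x : ℝ → E) : orb G x = MP_1ce82a_an.orb (Gam G) x := by
  ext z
  exact ⟨fun ⟨g, h⟩ => ⟨gm g, h⟩, fun h => gm_surj.exists.1 h⟩

theorem hypPer_new {F : E × E → ℝ} {x : ℝ → E} (h : MP_1ce82a_an.HypPer (Gam G) F x) :
    HypPer G F x := by
  obtain ⟨h1, h2, P, σ, h3⟩ := h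
  obtain ⟨g, rfl⟩ := gm_surj σ
  exact ⟨h1, h2, P, g, h3⟩

theorem uset_new {L : E × E → ℝ} {f : Cinf G} {c : H1 (Gam G)}
    (h : c ∈ MP_1ce82a_an.Uset L (cinfHomeo f)) : pull c ∈ Uset (addPot L f.1) := by
  obtain ⟨x, h1, h2⟩ := h
  refine ⟨x, h1.imp hypPer_new id, ?_⟩
  rw [aubry_pull, orb_eq]
  exact h2

theorem tset_new {L : E × E → ℝ} {f : Cinf G} {c : H1 (Gam G)}
    (h : c ∈ MP_1ce82a_an.Tset L (cinfHomeo f)) : pull c ∈ Tset (addPot L f.1) := by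
  obtain ⟨u, V, h1, h2, h3, h4, h5⟩ := h
  refine ⟨u, V, ?_, ⟨h2, h3, fun g => h4 (gm g)⟩, ?_⟩
  · rw [alpha_pull]
    exact isSub_pull.2 h1
  · rw [alpha_pull]
    exact h5

theorem full_new (hS : Surf G) {U : Set (H1 (Gam G))} {W : Set (G → ℝ)}
    (h : MP_1ce82a_an.Full U) (hW : ∀ c ∈ U, pull c ∈ W) : Full W := by
  classical
  obtain ⟨b, e, he⟩ := h
  have key : ∀ t, comb (fun i => pull (e (Pi.single i 1))) t = pull (e t) := by
    intro t
    funext g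
    have h1 : t = ∑ i, t i • (Pi.single i (1 : ℝ) : Fin b → ℝ) := by
      funext j
      simp [Finset.sum_apply, Pi.single_apply]
    conv_rhs => rw [h1]
    simp only [comb, pull, map_sum, map_smul, Submodule.coe_sum, Finset.sum_apply,
      Submodule.coe_smul, Pi.smul_apply, smul_eq_mul]
  refine ⟨b, fun i => pull (e (Pi.single i 1)), fun i a a' => ?_, fun c hc => ?_, ?_⟩
  · simp only [pull, gm_mul]
    exact (e (Pi.single i 1)).2 _ _
  · let s : Gam G → G := Function.surjInv gm_surj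
    have hs : ∀ γ, gm (s γ) = γ := Function.surjInv_eq gm_surj
    have hs' : ∀ g, s (gm g) = g := fun g => gm_inj hS (hs _)
    let c' : H1 (Gam G) := ⟨fun γ => c (s γ), gm_surj.forall.2 fun a => gm_surj.forall.2 fun a' => by
      simp only [← gm_mul, hs']
      exact hc a a'⟩
    have hc' : pull c' = c := funext fun g => by simp only [pull, c', hs']
    refine ⟨e.symm c', ?_, fun t ht => ?_⟩
    · simp only [key, LinearEquiv.apply_symm_apply, hc']
    · simp only [key] at ht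
      rw [LinearEquiv.eq_symm_apply]
      refine Subtype.ext (funext (gm_surj.forall.2 fun g => ?_))
      exact (congrFun ht g).symm.trans (congrFun hc' g).symm
  · exact he.mono fun t ht => by rw [key]; exact hW _ ht

theorem main (hS : Surf G) (hO : Orient G) {L : E × E → ℝ} (hL : Tonelli G L) :
    ∀ᶠ f in residual (Cinf G),
      Full (Uset (addPot L f.1) ∪ Tset (addPot L f.1) : Set (G → ℝ)) ∧
        ((¬ ∃ V, NZField G V) → Full (Uset (addPot L f.1) : Set (G → ℝ))) := by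
  have h := (tendsto_residual_of_isOpenMap (cinfHomeo (G := G)).continuous
    (cinfHomeo (G := G)).isOpenMap).eventually (dichotomy hS.old hO.old hL.old)
  filter_upwards [h] with f hf
  refine ⟨full_new hS hf fun c hc => hc.imp uset_new tset_new, fun hN => ?_⟩
  refine full_new hS hf fun c hc => hc.elim uset_new fun hT => ?_
  obtain ⟨u, V, -, hV, -⟩ := tset_new hT
  exact absurd ⟨V, hV⟩ hN

end Pool.Agent.Work.MP_1ce82a_an.S
end

-- merged part: Pool.Agent.Work.MP_1ce82a_an.T.Final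
section
/-! When the deck group is not commutative the second alternative never occurs. -/

open Set Filter Topology MeasureTheory
open scoped ContDiff

namespace Pool.Agent.Work.MP_1ce82a_an

variable {Γ : Grp}

theorem good_of_qg2 (hS : Surf Γ) (hOr : Ori Γ) (hn : ∃ a b : Γ, a * b ≠ b * a) {F : E × E → ℝ}
    (hF : Tonelli Γ F) {c : H1 Γ} (hc : Crit F c) (hq : QGall F c) {R0 : ℝ}
    (hR0 : ∀ x : E, ∃ γ : Γ, ‖γ • x‖ ≤ R0) (hO : Ogood R0 F) : Good F c := by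
  obtain ⟨u, hu⟩ := exists_inS hS hF hc
  by_cases h : ∃ z, CalR F u z ∧ ∃ (P : ℝ) (σ : Γ), Perd z P σ
  · obtain ⟨z, hz, P, σ, hP⟩ := h
    by_cases hv : deriv z 0 = 0
    · exact Or.inr (goodFix_of_qg hS hF hc hq hR0 hO (hz.const_of_deriv hF.ton0 hu.2 hv).1)
    · exact Or.inl (goodPer_of_qg hS hOr hF hc hq hu hz hv hP)
  · exfalso
    obtain ⟨a, b, hab⟩ := hn
    refine hab (lam_comm hS hOr
      (curveSys_cal hS hF hc hu (fun z hz P σ hP => h ⟨z, hz, P, σ, hP⟩)) ?_ ?_ a b)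
    · intro c1
      obtain ⟨m, hm⟩ := hq.1 c1
      exact ⟨m, chqg_of_qg hS hF hu contDiff_const (fun _ _ => rfl) hm⟩
    · intro B
      obtain ⟨⟨m0, h0⟩, ⟨m1, h1⟩⟩ := hq.2 B
      exact ⟨⟨m0, chqg_of_qg hS hF hu ((per_contDiff hS B.f0_contDiff B.f0_cpt).of_le
          (by exact_mod_cast le_top)) (per_inv _) h0⟩,
        ⟨m1, chqg_of_qg hS hF hu ((per_contDiff hS B.f1_contDiff B.f1_cpt).of_le
          (by exact_mod_cast le_top)) (per_inv _) h1⟩⟩

theorem full_nc (hS : Surf Γ) (hOr : Ori Γ) (hn : ∃ a b : Γ, a * b ≠ b * a) {L : E × E → ℝ}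
    (hL : Tonelli Γ L) : ∀ᶠ f in residual (Cinf Γ), Full (Uset L f) := by
  obtain ⟨b, ⟨e⟩⟩ := finDim hS
  obtain ⟨R0, -, hR0⟩ := hS.exists_R0
  have := pmCinf Γ
  have h := resid_gdelta (good_open hS hL e).isGδ (fun f0 N hN0 => by
    obtain ⟨f1, hf1N, hf1⟩ := (ogood_dense hS hL R0).inter_nhds_nonempty (interior_mem_nhds.2 hN0)
    have hN1 : N ∩ {f : Cinf Γ | Ogood R0 (addPot L f.1)} ∈ 𝓝 f1 :=
      inter_mem (mem_interior_iff_mem_nhds.1 hf1) ((ogood_open hL R0).mem_nhds hf1N)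
    obtain ⟨f, ⟨hfN, hfO⟩, hq⟩ := rand_qg hS hL e f1 hN1
    refine ⟨f, hfN, ?_⟩
    filter_upwards [hq] with t ht
    exact good_of_qg2 hS hOr hn (nl_tonelli hL f (e t)) (nl_crit hS hL f (e t)) ht hR0
      ((ogood_const R0 _ _).2 hfO))
  filter_upwards [h] with f hf
  exact ⟨b, e, hf.mono fun t ht => uset_of_good hS hL f (e t) ht⟩

namespace S

variable {G : Type} [Group G] [MulAction G E]

theorem main_nc (hS : Surf G) (hO : Orient G) (hn : ∃ a b : G, a * b ≠ b * a) {L : E × E → ℝ}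
    (hL : Tonelli G L) :
    ∀ᶠ f in residual (Cinf G), Full (Uset (addPot L f.1) : Set (G → ℝ)) := by
  have hn' : ∃ a b : Gam G, a * b ≠ b * a := by
    obtain ⟨a, b, hab⟩ := hn
    refine ⟨gm a, gm b, fun e => hab (gm_inj hS ?_)⟩
    rw [gm_mul, gm_mul, e]
  have h := (tendsto_residual_of_isOpenMap (cinfHomeo (G := G)).continuous
    (cinfHomeo (G := G)).isOpenMap).eventually (full_nc hS.old hO.old hn' hL.old)
  filter_upwards [h] with f hf
  exact full_new hS hf fun c hc => uset_new hc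

theorem Full.mono {U W : Set (G → ℝ)} (h : Full U) (hW : U ⊆ W) : Full W := by
  obtain ⟨b, e, h1, h2, h3⟩ := h
  exact ⟨b, e, h1, h2, h3.mono fun t ht => hW ht⟩

theorem main2 (hS : Surf G) (hO : Orient G) {L : E × E → ℝ} (hL : Tonelli G L) :
    ∀ᶠ f in residual (Cinf G),
      Full {c : G → ℝ | c ∈ Uset (addPot L f.1) ∨
        ((∀ a b : G, a * b = b * a) ∧ c ∈ Tset (addPot L f.1))} := by
  by_cases hn : ∀ a b : G, a * b = b * a
  · filter_upwards [main hS hO hL] with f h1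
    exact h1.1.mono fun c hc => hc.imp id fun hT => ⟨hn, hT⟩
  · push Not at hn
    filter_upwards [main_nc hS hO hn hL] with f h1
    exact h1.mono fun c hc => Or.inl hc

end S

end Pool.Agent.Work.MP_1ce82a_an
end

-- merged part: Pool.Agent.Work.MP_1ce82a_an.N.Final
section
/-! Assembly for all closed surfaces covered by the plane. -/

open Set Filter Topology MeasureTheory
open scoped ContDiff

namespace Pool.Agent.Work.MP_1ce82a_an

variable {Γ : Grp}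

theorem goodPer_any (hS : Surf Γ) {F : E × E → ℝ} (hF : Tonelli Γ F) {c : H1 Γ} (hc : Crit F c)
    (hq : QGall F c) (hd : ¬ Deg F c) {u : E → ℝ} (hu : InS F c u) {x : ℝ → E} (hx : CalR F u x)
    (hv : deriv x 0 ≠ 0) {P : ℝ} {σ : Γ} (hP : Perd x P σ) : GoodPer F c := by
  obtain ⟨P', σ', hP', hm⟩ := min_period hS hF hu hx hv hP
  have hA : AllCal F c x := hx.allCal hS hF hu hP'
  have ho := hx.isOrbit hF.ton0 hu.2
  obtain ⟨τ, hτ⟩ := exists_isTr hF ho hv P' σ'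
  have fin : ∀ (Q : ℝ) (ρ : Γ) (t : ℝ), Perd x Q ρ → IsTr F x Q ρ t → 2 < t → GoodPer F c :=
    fun Q ρ t a b h2 => ⟨x, Q, ρ, t, a, hv, hA,
      hx_allIn hS hF hc (fun B => (hq.2 B).1) hA a (expC_per hS hF hc hA a hv b h2), b, h2⟩
  rcases hS.pos_or_neg σ' with h | h
  · exact fin _ _ _ hP' hτ (tr_gt_two hS hF hc hq hA h hP' hm hv hτ)
  · rcases (tr_neg hS hF hc hA h hP' hv hτ).eq_or_lt with e | e
    · exact absurd (deg_of_tr hS hF hc hA hP' hm hv (e ▸ hτ)) hd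
    · exact fin _ _ _ hP'.sq (isTr_sq hS hF ho hP' hv hτ) (by linarith only [e, mul_pos_of_neg_of_neg (Mathlib.Tactic.Linarith.sub_neg_of_lt e) (Mathlib.Tactic.Linarith.sub_neg_of_lt e)])

theorem good_non (hS : Surf Γ) (hn : ¬ Ori Γ) {F : E × E → ℝ} (hF : Tonelli Γ F) {c : H1 Γ}
    (hc : Crit F c) (hq : QGall F c) (hd : ¬ Deg F c) {R0 : ℝ}
    (hR0 : ∀ x : E, ∃ γ : Γ, ‖γ • x‖ ≤ R0) (hO : Ogood R0 F) : Good F c := by
  obtain ⟨u, hu⟩ := exists_inS hS hF hc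
  by_cases h : ∃ z, CalR F u z ∧ ∃ (P : ℝ) (σ : Γ), Perd z P σ
  · obtain ⟨z, hz, P, σ, hP⟩ := h
    by_cases hv : deriv z 0 = 0
    · exact Or.inr (goodFix_of_qg hS hF hc hq hR0 hO (hz.const_of_deriv hF.ton0 hu.2 hv).1)
    · exact Or.inl (goodPer_any hS hF hc hq hd hu hz hv hP)
  · exfalso
    have hC := curveSys_cal hS hF hc hu (fun z hz P σ hP => h ⟨z, hz, P, σ, hP⟩)
    have c0 : ∀ B : Bx, ContDiff ℝ 1 (per Γ B.f0) := fun B =>
      (per_contDiff hS B.f0_contDiff B.f0_cpt).of_le (by exact_mod_cast le_top)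
    have c1 : ∀ B : Bx, ContDiff ℝ 1 (per Γ B.f1) := fun B =>
      (per_contDiff hS B.f1_contDiff B.f1_cpt).of_le (by exact_mod_cast le_top)
    obtain ⟨L, V, ψ, hL, hψ⟩ := exists_lam hS hC (synd_ne hS hC fun B =>
      (hq.2 B).1.imp fun m hm => chqg_of_qg hS hF hu (c0 B) (per_inv _) hm)
    have hsub : ψ '' L ⊆ {z | CalR F u z} := by
      rintro _ ⟨x, hx, rfl⟩
      exact hψ x hx
    by_cases hN : ∃ x, x ∉ L
    · exact lam_false hS hL hN
        (fun c1 => (hq.1 c1).imp fun m hm =>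
          (chqg_of_qg hS hF hu contDiff_const (fun _ _ => rfl) hm).mono hsub)
        (fun B => ⟨(hq.2 B).1.imp fun m hm => (chqg_of_qg hS hF hu (c0 B) (per_inv _) hm).mono hsub,
          (hq.2 B).2.imp fun m hm => (chqg_of_qg hS hF hu (c1 B) (per_inv _) hm).mono hsub⟩)
        fun B => (hq.2 B).1.imp fun m hm => (mqg_of_qg hS hF hu (c0 B) (per_inv _) hm).mono hsub
    · have e : L = univ := Set.eq_univ_of_forall fun x => not_not.1 fun hx => hN ⟨x, hx⟩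
      subst e
      exact hn (ori_of_univ hS hL)

theorem full_non (hS : Surf Γ) (hn : ¬ Ori Γ) {L : E × E → ℝ} (hL : Tonelli Γ L)
    (h3 : ContDiff ℝ 3 L) : ∀ᶠ f in residual (Cinf Γ), Full (Uset L f) := by
  obtain ⟨b, ⟨e⟩⟩ := finDim hS
  obtain ⟨R0, -, hR0⟩ := hS.exists_R0
  have := pmCinf Γ
  have h := resid_gdelta (good_open hS hL e).isGδ (fun f0 N hN0 => by
    obtain ⟨f1, hf1N, hf1⟩ := (ogood_dense hS hL R0).inter_nhds_nonempty (interior_mem_nhds.2 hN0)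
    have hN1 : N ∩ {f : Cinf Γ | Ogood R0 (addPot L f.1)} ∈ 𝓝 f1 :=
      inter_mem (mem_interior_iff_mem_nhds.1 hf1) ((ogood_open hL R0).mem_nhds hf1N)
    obtain ⟨f, ⟨hfN, hfO⟩, hq⟩ := rand_qg2 hS hL h3 e f1 hN1
    refine ⟨f, hfN, ?_⟩
    filter_upwards [hq] with t ht
    exact good_non hS hn (nl_tonelli hL f (e t)) (nl_crit hS hL f (e t)) ht.1 ht.2 hR0
      ((ogood_const R0 _ _).2 hfO))
  filter_upwards [h] with f hf
  exact ⟨b, e, hf.mono fun t ht => uset_of_good hS hL f (e t) ht⟩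

namespace S

variable {G : Type} [Group G] [MulAction G E]

theorem main_non (hS : Surf G) (hn : ¬ Orient G) {L : E × E → ℝ} (hL : Tonelli G L)
    (h3 : ContDiff ℝ 3 L) :
    ∀ᶠ f in residual (Cinf G), Full (Uset (addPot L f.1) : Set (G → ℝ)) := by
  have h := (tendsto_residual_of_isOpenMap (cinfHomeo (G := G)).continuous
    (cinfHomeo (G := G)).isOpenMap).eventually
      (full_non hS.old (fun hO => hn fun g => hO (gm g)) hL.old h3)
  filter_upwards [h] with f hf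
  exact full_new hS hf fun c hc => uset_new hc

theorem main3 (hS : Surf G) {L : E × E → ℝ} (hL : Tonelli G L)
    (h3 : Orient G ∨ ContDiff ℝ 3 L) :
    ∀ᶠ f in residual (Cinf G),
      Full {c : G → ℝ | c ∈ Uset (addPot L f.1) ∨
        ((∀ a b : G, a * b = b * a) ∧ Orient G ∧ c ∈ Tset (addPot L f.1))} := by
  by_cases hO : Orient G
  · filter_upwards [main2 hS hO hL] with f h1
    exact h1.mono fun c hc => hc.imp id fun hT => ⟨hT.1, hO, hT.2⟩
  · filter_upwards [main_non hS hO hL (h3.resolve_left hO)] with f h1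
    exact h1.mono fun c hc => Or.inl hc

end S

end Pool.Agent.Work.MP_1ce82a_an
end

-- merged part: Pool.Agent.Work.MP_1ce82a_an.U.Final
section
/-! The classification. -/

open Set Filter Topology MeasureTheory
open scoped ContDiff

namespace Pool.Agent.Work.MP_1ce82a_an.U

variable {Γ : Grp}

theorem good_nt (hS : Surf Γ) (hOr : Ori Γ) (hn : ¬ S.IsTorus Γ) {F : E × E → ℝ}
    (hF : Tonelli Γ F) {c : H1 Γ} (hc : Crit F c) (hq : QGall F c) {R0 : ℝ}
    (hR0 : ∀ x : E, ∃ γ : Γ, ‖γ • x‖ ≤ R0) (hO : Ogood R0 F) : Good F c := by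
  obtain ⟨u, hu⟩ := exists_inS hS hF hc
  by_cases h : ∃ z, CalR F u z ∧ ∃ (P : ℝ) (σ : Γ), Perd z P σ
  · obtain ⟨z, hz, P, σ, hP⟩ := h
    by_cases hv : deriv z 0 = 0
    · exact Or.inr (goodFix_of_qg hS hF hc hq hR0 hO (hz.const_of_deriv hF.ton0 hu.2 hv).1)
    · exact Or.inl (goodPer_of_qg hS hOr hF hc hq hu hz hv hP)
  · exfalso
    refine hn (lam_torus hS hOr
      (curveSys_cal hS hF hc hu (fun z hz P σ hP => h ⟨z, hz, P, σ, hP⟩)) ?_ ?_)
    · intro c1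
      obtain ⟨m, hm⟩ := hq.1 c1
      exact ⟨m, chqg_of_qg hS hF hu contDiff_const (fun _ _ => rfl) hm⟩
    · intro B
      obtain ⟨⟨m0, h0⟩, ⟨m1, h1⟩⟩ := hq.2 B
      exact ⟨⟨m0, chqg_of_qg hS hF hu ((per_contDiff hS B.f0_contDiff B.f0_cpt).of_le
          (by exact_mod_cast le_top)) (per_inv _) h0⟩,
        ⟨m1, chqg_of_qg hS hF hu ((per_contDiff hS B.f1_contDiff B.f1_cpt).of_le
          (by exact_mod_cast le_top)) (per_inv _) h1⟩⟩

theorem full_nt (hS : Surf Γ) (hOr : Ori Γ) (hn : ¬ S.IsTorus Γ) {L : E × E → ℝ}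
    (hL : Tonelli Γ L) : ∀ᶠ f in residual (Cinf Γ), Full (Uset L f) := by
  obtain ⟨b, ⟨e⟩⟩ := finDim hS
  obtain ⟨R0, -, hR0⟩ := hS.exists_R0
  have := pmCinf Γ
  have h := resid_gdelta (good_open hS hL e).isGδ (fun f0 N hN0 => by
    obtain ⟨f1, hf1N, hf1⟩ := (ogood_dense hS hL R0).inter_nhds_nonempty (interior_mem_nhds.2 hN0)
    have hN1 : N ∩ {f : Cinf Γ | Ogood R0 (addPot L f.1)} ∈ 𝓝 f1 :=
      inter_mem (mem_interior_iff_mem_nhds.1 hf1) ((ogood_open hL R0).mem_nhds hf1N)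
    obtain ⟨f, ⟨hfN, hfO⟩, hq⟩ := rand_qg hS hL e f1 hN1
    refine ⟨f, hfN, ?_⟩
    filter_upwards [hq] with t ht
    exact good_nt hS hOr hn (nl_tonelli hL f (e t)) (nl_crit hS hL f (e t)) ht hR0
      ((ogood_const R0 _ _).2 hfO))
  filter_upwards [h] with f hf
  exact ⟨b, e, hf.mono fun t ht => uset_of_good hS hL f (e t) ht⟩

variable {G : Type} [Group G] [MulAction G E]

theorem main_nt (hS : S.Surf G) (hO : S.Orient G) (hn : ¬ S.IsTorus G) {L : E × E → ℝ}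
    (hL : S.Tonelli G L) :
    ∀ᶠ f in residual (S.Cinf G), S.Full (S.Uset (addPot L f.1) : Set (G → ℝ)) := by
  have hn' : ¬ S.IsTorus (S.Gam G) := by
    rintro ⟨Φ, τ, a1, a2, a3, a4⟩
    exact hn ⟨Φ, fun g => τ (S.gm g), a1, a2, a3.comp ⟨S.gm_inj hS, S.gm_surj⟩,
      fun g x => a4 (S.gm g) x⟩
  have h := (tendsto_residual_of_isOpenMap (S.cinfHomeo (G := G)).continuous
    (S.cinfHomeo (G := G)).isOpenMap).eventually (full_nt hS.old hO.old hn' hL.old)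
  filter_upwards [h] with f hf
  exact S.full_new hS hf fun c hc => S.uset_new hc

theorem classification (hS : S.Surf G) :
    (¬ S.IsTorus G → ∀ L : E × E → ℝ, S.Tonelli G L → S.Orient G ∨ ContDiff ℝ 3 L →
      ∀ᶠ f in residual (S.Cinf G), S.Full {c : G → ℝ | c ∈ S.Uset (addPot L f.1)}) ∧
    (S.IsTorus G → ∃ L : E × E → ℝ, ContDiff ℝ ∞ L ∧ S.Tonelli G L ∧
      ¬ ∀ᶠ f in residual (S.Cinf G), S.Full {c : G → ℝ | c ∈ S.Uset (addPot L f.1)}) := by
  refine ⟨fun hn L hL h3 => ?_, kam_torus⟩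
  by_cases hO : S.Orient G
  · exact main_nt hS hO hn hL
  · exact S.main_non hS hO hL (h3.resolve_left hO)

theorem classif_iff (hS : S.Surf G) :
    (∀ L : E × E → ℝ, S.Tonelli G L → (S.Orient G ∨ ContDiff ℝ 3 L) →
      ∀ᶠ f in residual (S.Cinf G), S.Full {c : G → ℝ | c ∈ S.Uset (addPot L f.1)}) ↔
      ¬ S.IsTorus G := by
  refine ⟨fun h hT => ?_, (classification hS).1⟩
  obtain ⟨L, h1, h2, h3⟩ := kam_torus hT
  exact h3 (h L h2 (Or.inr (contDiff_infty.1 h1 3)))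

end Pool.Agent.Work.MP_1ce82a_an.U
end
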